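import Pool.Agent.P.MP_064970_gt.D.API

/-! D3, algebra. α = a 2, γ = -(b 2), both in [1 - om^2/2, 1] (1 - α = ‖a - e3‖^2/2). X = pr b - pr a. The vector of slp a + slp b is γ⁻¹ pr b - α⁻¹ pr a = X + (γ⁻¹ - 1) X + (γ⁻¹ - α⁻¹) pr a,
|α - γ| (α + γ) = |‖pr b‖^2 - ‖pr a‖^2| ≤ 2 om ‖X‖, ‖pr a‖, ‖pr b‖ ≤ om. -/

open MeasureTheory Set Filter Topology Metric
open scoped RealInnerProductSpace ENNReal NNReal ComplexConjugate Real

noncomputable section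

namespace MW

namespace DALG

theorem one {a : E} {om : ℝ} (ha : ‖a‖ = 1) (h : ‖a - e3‖ ≤ om) :
    0 ≤ om ∧ 1 - om ^ 2 / 2 ≤ a 2 ∧ a 2 ≤ 1 ∧ ‖pr a‖ ≤ om ∧ ‖pr a‖ ^ 2 + a 2 ^ 2 = 1 := by
  have h0 : 0 ≤ om := (norm_nonneg _).trans h
  have h1 := norm_sq_eq a
  have h2 := norm_sq_eq (a - e3)
  rw [pr_sub, pr_e3, sub_zero, PiLp.sub_apply, e3_two] at h2
  rw [ha] at h1
  have h3 : ‖a - e3‖ ^ 2 ≤ om ^ 2 := pow_le_pow_left₀ (norm_nonneg _) h 2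
  refine ⟨h0, by nlinarith, ?_, ?_, by linarith⟩
  · exact (le_abs_self _).trans ((abs_two_le a).trans ha.le)
  · have := norm_pr_le (a - e3)
    rw [pr_sub, pr_e3, sub_zero] at this
    exact this.trans h

theorem vec {p q : ℂ} {α γ om : ℝ} (h0 : 0 ≤ om) (hom : om ≤ 1 / 10) (ha : 1 - om ^ 2 / 2 ≤ α)
    (hg : 1 - om ^ 2 / 2 ≤ γ) (hg1 : γ ≤ 1) (hp : ‖p‖ ≤ om) (hq : ‖q‖ ≤ om)
    (e1 : ‖p‖ ^ 2 + α ^ 2 = 1) (e2 : ‖q‖ ^ 2 + γ ^ 2 = 1) :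
    ‖γ⁻¹ • q - α⁻¹ • p - (q - p)‖ ≤ 3 * om ^ 2 * ‖q - p‖ := by
  have ha' : 0.99 ≤ α := by nlinarith
  have hg' : 0.99 ≤ γ := by nlinarith
  have hα : 0 < α := by linarith
  have hγ : 0 < γ := by linarith
  have hX := norm_nonneg (q - p)
  have e : γ⁻¹ • q - α⁻¹ • p - (q - p) = (γ⁻¹ - 1) • (q - p) + (γ⁻¹ - α⁻¹) • p := by module
  have h1 : |γ⁻¹ - 1| ≤ om ^ 2 := by
    have : γ⁻¹ - 1 = (1 - γ) / γ := by field_simp
    rw [this, abs_of_nonneg (div_nonneg (by linarith) hγ.le), div_le_iff₀ hγ]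
    nlinarith [sq_nonneg om]
  have h2 : |α - γ| ≤ 1.1 * om * ‖q - p‖ := by
    have h3 : |‖q‖ - ‖p‖| ≤ ‖q - p‖ := abs_norm_sub_norm_le q p
    have h4 : (α - γ) * (α + γ) = (‖q‖ - ‖p‖) * (‖q‖ + ‖p‖) := by linarith
    have h5 : |α - γ| * (α + γ) = |‖q‖ - ‖p‖| * (‖q‖ + ‖p‖) := by
      have := congrArg abs h4
      rwa [abs_mul, abs_mul, abs_of_pos (by linarith : 0 < α + γ),
        abs_of_nonneg (by positivity : 0 ≤ ‖q‖ + ‖p‖)] at this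
    have h6 : |‖q‖ - ‖p‖| * (‖q‖ + ‖p‖) ≤ ‖q - p‖ * (2 * om) :=
      mul_le_mul h3 (by linarith) (by positivity) hX
    have h7 : |α - γ| * 1.98 ≤ |α - γ| * (α + γ) :=
      mul_le_mul_of_nonneg_left (by linarith) (abs_nonneg _)
    nlinarith [mul_nonneg h0 hX]
  have h3 : |γ⁻¹ - α⁻¹| ≤ 2 * om * ‖q - p‖ := by
    have : γ⁻¹ - α⁻¹ = (α - γ) / (α * γ) := by field_simp
    rw [this, abs_div, abs_of_pos (mul_pos hα hγ), div_le_iff₀ (mul_pos hα hγ)]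
    have h4 : 0.98 ≤ α * γ := by nlinarith
    nlinarith [mul_nonneg h0 hX]
  rw [e]
  refine (norm_add_le _ _).trans ?_
  rw [norm_smul, norm_smul, Real.norm_eq_abs, Real.norm_eq_abs]
  have h4 := mul_le_mul_of_nonneg_right h1 hX
  have h5 := mul_le_mul h3 hp (norm_nonneg _) (by positivity)
  nlinarith

theorem norm_slp {a : E} {om : ℝ} (h : 1 / 2 ≤ |a 2|) (hp : ‖pr a‖ ≤ om) : ‖slp a‖ ≤ 2 * om := by
  unfold slp
  rw [norm_smul, innerSL_apply_norm, norm_neg, norm_inv, Real.norm_eq_abs]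
  refine mul_le_mul ?_ hp (norm_nonneg _) (by norm_num)
  exact inv_le_of_inv_le₀ (by norm_num) (by rwa [one_div] at h)

end DALG

theorem alg : S_ALG := by
  intro a b om ha hb hom h1 h2
  obtain ⟨h0, a1, -, a3, a4⟩ := DALG.one ha h1
  obtain ⟨-, b1, b2, b3, b4⟩ := DALG.one (a := -b) (om := om) (by rw [norm_neg, hb])
    (by rw [← neg_add', norm_neg]; exact h2)
  rw [pr_neg, norm_neg] at b3 b4
  have hv := DALG.vec h0 hom a1 b1 b2 a3 b3 a4 b4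
  have hb2 : (-b) 2 = -(b 2) := rfl
  have e : slp a + slp b = innerSL ℝ (((-b) 2)⁻¹ • pr b - (a 2)⁻¹ • pr a) := by
    unfold slp
    rw [map_sub, map_smulₛₗ, map_smulₛₗ, hb2, inv_neg]
    simp only [conj_trivial, neg_smul]
    abel
  have hsq : om ^ 2 ≤ 1 / 100 := by nlinarith
  refine ⟨fun w => ?_, ?_, DALG.norm_slp ?_ a3, DALG.norm_slp ?_ b3⟩
  · rw [← _root_.add_apply, e, innerSL_apply_apply, ← inner_sub_left]
    exact (abs_real_inner_le_norm _ _).trans (mul_le_mul_of_nonneg_right hv (norm_nonneg _))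
  · rw [e, innerSL_apply_norm]
    have h3 := norm_add_le (((-b) 2)⁻¹ • pr b - (a 2)⁻¹ • pr a - (pr b - pr a)) (pr b - pr a)
    rw [sub_add_cancel] at h3
    nlinarith [norm_nonneg (pr b - pr a)]
  · exact le_trans (by linarith) (le_abs_self _)
  · rw [hb2] at b1
    exact le_trans (by linarith) (neg_le_abs _)

end MW
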