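import Pool.Agent.P.MP_064970_gt.SD

/-! Case II, toolbox B: frames, the hypothesis `H(k)`, cells, tilted directions. -/

open MeasureTheory Set Filter Topology Metric
open scoped RealInnerProductSpace ENNReal NNReal ComplexConjugate Real

noncomputable section

namespace MW

namespace DAPIb

theorem sq_sqrt (g : ℂ) : √(1 + ‖g‖ ^ 2) ^ 2 = 1 + ‖g‖ ^ 2 := Real.sq_sqrt (by positivity)

theorem one_le (g : ℂ) : 1 ≤ √(1 + ‖g‖ ^ 2) :=
  Real.one_le_sqrt.2 (by nlinarith [sq_nonneg ‖g‖])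

theorem pos (g : ℂ) : 0 < √(1 + ‖g‖ ^ 2) := lt_of_lt_of_le one_pos (one_le g)

theorem abs_inner_le {e : E} (he : ‖e‖ = 1) (v : E) : |⟪v, e⟫| ≤ ‖v‖ := by
  have := abs_real_inner_le_norm v e
  rwa [he, mul_one] at this

theorem norm_pt_le (y : ℂ) (t : ℝ) : ‖pt y t‖ ≤ ‖y‖ + |t| := by
  simpa using norm_le_pr_add (pt y t)

theorem abs_le_norm_pt (y : ℂ) (t : ℝ) : |t| ≤ ‖pt y t‖ := by
  simpa using abs_two_le (pt y t)

end DAPIb

theorem abs_inner_le_add_wedge {e ν : E} (he : ‖e‖ = 1) (hν : ‖ν‖ = 1) (v : E) :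
    |⟪v, e⟫| ≤ |⟪v, ν⟫| + wedge ν e * ‖v‖ := by
  have h1 : ⟪v, e⟫ = ⟪e, ν⟫ * ⟪v, ν⟫ + ⟪v, e - ⟪e, ν⟫ • ν⟫ := by
    rw [inner_sub_right, real_inner_smul_right]
    ring
  have h2 : |⟪v, e - ⟪e, ν⟫ • ν⟫| ≤ wedge ν e * ‖v‖ := by
    rw [wedge_comm hν he, mul_comm]
    exact abs_real_inner_le_norm _ _
  have h3 : |⟪e, ν⟫ * ⟪v, ν⟫| ≤ |⟪v, ν⟫| := by
    rw [abs_mul]
    have h4 := DAPIb.abs_inner_le hν e
    rw [he] at h4
    exact mul_le_of_le_one_left (abs_nonneg _) h4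
  rw [h1]
  exact (abs_add_le _ _).trans (add_le_add h3 h2)
/-- The steepest direction in the plane orthogonal to `ν`. -/
theorem exists_steepest {e ν : E} (he : ‖e‖ = 1) (hν : ‖ν‖ = 1) :
    ∃ v : E, ‖v‖ = 1 ∧ ⟪v, ν⟫ = 0 ∧ ⟪v, e⟫ = wedge ν e := by
  set u : E := e - ⟪e, ν⟫ • ν with hu
  have hw : wedge ν e = ‖u‖ := wedge_comm hν he
  have huν : ⟪u, ν⟫ = 0 := by
    rw [hu, inner_sub_left, real_inner_smul_left, real_inner_self_eq_norm_sq, hν]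
    ring
  have he' : e = u + ⟪e, ν⟫ • ν := by rw [hu]; abel
  by_cases h0 : u = 0
  · obtain ⟨A, hA⟩ := exists_iso_e3 hν
    have h1 : ⟪A ex, ν⟫ = 0 := by
      rw [← hA, A.inner_map_map, inner_e3]
      rfl
    refine ⟨A ex, by rw [A.norm_map, norm_ex], h1, ?_⟩
    rw [hw, h0, norm_zero]
    rw [h0, zero_add] at he'
    rw [he', real_inner_smul_right, h1, mul_zero]
  · have hn : ‖u‖ ≠ 0 := norm_ne_zero_iff.2 h0
    refine ⟨‖u‖⁻¹ • u, ?_, ?_, ?_⟩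
    · rw [norm_smul, norm_inv, norm_norm, inv_mul_cancel₀ hn]
    · rw [real_inner_smul_left, huν, mul_zero]
    · have h2 : ⟪u, e⟫ = ‖u‖ ^ 2 := by
        conv_lhs => rw [he']
        rw [inner_add_right, real_inner_smul_right, huν, real_inner_self_eq_norm_sq]
        ring
      rw [real_inner_smul_left, h2, hw]
      field_simp
theorem norm_sub_inner_e3 (x : E) : ‖x - ⟪x, e3⟫ • e3‖ = ‖pr x‖ := wedge_e3 x
theorem cyl_subset_ball {K : Set ℂ} {ρ T R : ℝ} (hK : ∀ z ∈ K, ‖z‖ ≤ ρ) (hT : 0 ≤ T)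
    (h : ρ ^ 2 + T ^ 2 ≤ R ^ 2) (hR : 0 ≤ R) : cyl K T ⊆ ball 0 R := by
  intro x hx
  rw [mem_ball_zero_iff]
  have h1 := hK _ hx.1
  have h2 : |x 2| < T := hx.2
  have h3 : ‖pr x‖ ^ 2 ≤ ρ ^ 2 := pow_le_pow_left₀ (norm_nonneg _) h1 2
  have h4 : x 2 ^ 2 < T ^ 2 := sq_lt_sq.2 (by rwa [abs_of_nonneg hT])
  have h5 := norm_sq_eq x
  exact lt_of_pow_lt_pow_left₀ 2 hR (by linarith)
theorem ball_subset_cyl {R ρ T : ℝ} (h1 : R ≤ ρ) (h2 : R ≤ T) :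
    ball (0 : E) R ⊆ cyl (ball 0 ρ) T := by
  intro x hx
  rw [mem_ball_zero_iff] at hx
  refine ⟨mem_ball_zero_iff.2 ?_, ?_⟩
  · linarith [norm_pr_le x]
  · linarith [abs_two_le x]

theorem slp_apply (n : E) (w : ℂ) : slp n w = -⟪pr n, w⟫ / n 2 := by
  rw [slp, _root_.smul_apply, innerSL_apply_apply, smul_eq_mul]
  ring

theorem norm_dir (g : ℂ) : ‖dir g‖ = 1 := by
  have h1 : ‖pt (-g) 1‖ = √(1 + ‖g‖ ^ 2) := by
    rw [← Real.sqrt_sq (norm_nonneg (pt (-g) 1)), norm_pt_sq, norm_neg]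
    congr 1
    ring
  rw [dir, norm_smul, h1, norm_inv, Real.norm_of_nonneg (DAPIb.pos g).le,
    inv_mul_cancel₀ (DAPIb.pos g).ne']
theorem dir_two (g : ℂ) : dir g 2 = (√(1 + ‖g‖ ^ 2))⁻¹ := by
  rw [dir, PiLp.smul_apply, pt_two, smul_eq_mul, mul_one]
theorem pr_dir (g : ℂ) : pr (dir g) = -((√(1 + ‖g‖ ^ 2))⁻¹ • g) := by
  rw [dir, pr_smul, pr_pt, smul_neg]
theorem inner_dir (g : ℂ) (x : E) : ⟪x, dir g⟫ = (x 2 - ⟪g, pr x⟫) / √(1 + ‖g‖ ^ 2) := by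
  rw [dir, real_inner_smul_right, inner_pt, inner_neg_right, real_inner_comm]
  ring
theorem norm_dir_sub_e3 (g : ℂ) : ‖dir g - e3‖ ≤ 2 * ‖g‖ := by
  have h1 := Coord_norm_sub_sq (norm_dir g) norm_e3
  rw [inner_e3, dir_two] at h1
  have h2 := DAPIb.sq_sqrt g
  have h3 := DAPIb.one_le g
  set s := √(1 + ‖g‖ ^ 2)
  have h4 : 2 - s ≤ s⁻¹ := by
    rw [← one_div, le_div_iff₀ (by linarith)]
    nlinarith [sq_nonneg (s - 1)]
  refine abs_le_of_sq_le_sq' ?_ (by positivity) |>.2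
  nlinarith [sq_nonneg ‖g‖]
theorem dir_two_bounds {g : ℂ} (hg : ‖g‖ ≤ 1 / 10) : 99 / 100 ≤ dir g 2 ∧ dir g 2 ≤ 1 := by
  rw [dir_two]
  have h2 := DAPIb.sq_sqrt g
  have h3 := DAPIb.one_le g
  have h5 : ‖g‖ ^ 2 ≤ (1 / 10) ^ 2 := pow_le_pow_left₀ (norm_nonneg _) hg 2
  set s := √(1 + ‖g‖ ^ 2)
  refine ⟨?_, inv_le_one_of_one_le₀ h3⟩
  rw [← one_div, le_div_iff₀ (by linarith)]
  nlinarith
theorem inner_dir_pos {g : ℂ} (hg : ‖g‖ ≤ 1 / 10) {n : E} (hn : ‖n - e3‖ ≤ 1 / 10) :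
    0 < ⟪n, dir g⟫ := by
  have h1 : ⟪n, dir g⟫ = ⟪n - e3, dir g⟫ + dir g 2 := by
    rw [inner_sub_left, e3_inner]
    ring
  have h2 := abs_le.1 (DAPIb.abs_inner_le (norm_dir g) (n - e3))
  have h3 := dir_two_bounds hg
  linarith [h2.1, h3.1]
theorem inner_dir_neg {g : ℂ} (hg : ‖g‖ ≤ 1 / 10) {n : E} (hn : ‖n + e3‖ ≤ 1 / 10) :
    ⟪n, dir g⟫ < 0 := by
  have h1 : ⟪n, dir g⟫ = ⟪n + e3, dir g⟫ - dir g 2 := by
    rw [inner_add_left, e3_inner]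
    ring
  have h2 := abs_le.1 (DAPIb.abs_inner_le (norm_dir g) (n + e3))
  have h3 := dir_two_bounds hg
  linarith [h2.2, h3.1]
theorem vp_add (g : ℂ) (x y : E) : vp g (x + y) = vp g x + vp g y := by
  rw [vp, vp, vp, pr_add, PiLp.add_apply, add_smul]
  abel
theorem vp_sub (g : ℂ) (x y : E) : vp g (x - y) = vp g x - vp g y := by
  rw [vp, vp, vp, pr_sub, PiLp.sub_apply, sub_smul]
  abel
theorem vp_smul (g : ℂ) (c : ℝ) (x : E) : vp g (c • x) = c • vp g x := by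
  rw [vp, vp, pr_smul, PiLp.smul_apply, smul_add, smul_smul, smul_eq_mul]
theorem vp_dir (g : ℂ) : vp g (dir g) = 0 := by
  rw [vp, pr_dir, dir_two, neg_add_cancel]
theorem vp_pt_zero (g y : ℂ) : vp g (pt y 0) = y := by
  rw [vp, pr_pt, pt_two, zero_smul, add_zero]
theorem continuous_vp (g : ℂ) : Continuous (vp g) := by
  unfold vp
  fun_prop
theorem norm_vp_sub_pr (g : ℂ) (x : E) : ‖vp g x - pr x‖ = |x 2| * ‖g‖ := by
  rw [vp, add_sub_cancel_left, norm_smul, Real.norm_eq_abs]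
theorem eq_pt_vp (g : ℂ) (x : E) : x = pt (vp g x) 0 + (x 2 * √(1 + ‖g‖ ^ 2)) • dir g := by
  rw [dir, smul_smul, mul_assoc, mul_inv_cancel₀ (DAPIb.pos g).ne', mul_one, ← pt_smul, ← pt_add,
    vp, smul_neg, add_neg_cancel_right, mul_one, zero_add, pt_pr]
theorem measurableSet_ovL (g : ℂ) (θ : ℝ) {V H : Set ℝ} (hV : MeasurableSet V)
    (hH : MeasurableSet H) : MeasurableSet (ovL g θ V H) := by
  have h1 : MeasurableSet (Sq (2 * θ)) :=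
    (measurableSet_le Complex.measurable_re.abs measurable_const).inter
      (measurableSet_le Complex.measurable_im.abs measurable_const)
  have h2 : MeasurableSet (onL θ V H) :=
    h1.inter ((Complex.measurable_re hV).union (Complex.measurable_im hH))
  exact ((continuous_vp g).measurable h2).inter (measurableSet_lay (1 / 2))

namespace Surf

variable {M : Surf}

/-- The midpoint height of a tilted chord in terms of the vertical coordinates of its ends. -/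
theorem alpha_dir (M : Surf) (g : ℂ) (x : E) (c₀ : ℝ) :
    √(1 + ‖g‖ ^ 2) * (M.alpha (dir g) x - c₀ / √(1 + ‖g‖ ^ 2))
      = (x 2 + M.partner (dir g) x 2) / 2 - c₀ - ⟪g, vp g x⟫
        + (x 2 + M.partner (dir g) x 2) / 2 * ‖g‖ ^ 2 := by
  have h2 := DAPIb.sq_sqrt g
  have h3 := DAPIb.pos g
  rw [alpha, partner, inner_dir, PiLp.sub_apply, PiLp.smul_apply, dir_two, vp, inner_add_right,
    real_inner_smul_right, real_inner_self_eq_norm_sq, smul_eq_mul]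
  have h4 : ‖g‖ ^ 2 = √(1 + ‖g‖ ^ 2) ^ 2 - 1 := by linarith
  generalize √(1 + ‖g‖ ^ 2) = s at h3 h4
  rw [h4]
  field_simp
  ring
theorem norm_pr_partner_dir (M : Surf) (g : ℂ) (x : E) :
    ‖pr (M.partner (dir g) x) - pr x‖ = |M.partner (dir g) x 2 - x 2| * ‖g‖ := by
  rw [partner, pr_sub, pr_smul, pr_dir, PiLp.sub_apply, PiLp.smul_apply, dir_two, smul_eq_mul,
    sub_sub_cancel_left, sub_sub_cancel_left, abs_neg, norm_neg, smul_neg, norm_neg, smul_smul,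
    norm_smul, Real.norm_eq_abs]

theorem not_mem_W' {x : E} (hx : x ∈ M.S) : x ∉ M.W' := fun h => disjoint_left.1 M.disjS' h hx
theorem hk_iff {k : ℝ} : M.Hk k ↔ M.HkF e3 1 k := by
  constructor
  · intro h
    refine ⟨by rw [mul_one]; exact h.dens, fun x hx h1 => h.side x (by rwa [mul_one] at hx) ?_⟩
    rwa [mul_one, inner_e3] at h1
  · intro h
    refine ⟨by simpa only [mul_one] using h.dens, fun x hx h1 => h.side x (by rwa [mul_one]) ?_⟩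
    rwa [mul_one, inner_e3]
theorem Hk.abs_le {k : ℝ} (h : M.Hk k) {x : E} (hx : x ∈ M.S) (hn : ‖x‖ < 2 / k) : |x 2| ≤ k :=
  not_lt.1 fun h1 => not_mem_W' hx (h.side x (mem_ball_zero_iff.2 hn) h1)
theorem Hk.abs_le' {k : ℝ} (h : M.Hk k) (hk : 0 < k) (hk' : k ≤ 1 / 20) {x : E} (hx : x ∈ M.S)
    (hn : ‖x‖ ≤ 30) : |x 2| ≤ k := by
  refine h.abs_le hx (hn.trans_lt ?_)
  rw [lt_div_iff₀ hk]
  linarith
theorem Hk.slab {k : ℝ} (h : M.Hk k) (hk : 0 < k) (hk' : k ≤ 1 / 20) {K : Set ℂ}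
    (hK : ∀ z ∈ K, ‖z‖ ≤ 10) {T₀ T : ℝ} (h0 : k < T₀) (hT : T ≤ 1 / k) : M.Slab K T₀ T := by
  intro y hy t h1 h2
  refine h.side _ (mem_ball_zero_iff.2 ?_) (by rw [pt_two]; linarith)
  have h3 := DAPIb.norm_pt_le y t
  have h4 := hK y hy
  have h5 : 20 ≤ 1 / k := by
    rw [le_div_iff₀ hk]
    linarith
  have h6 : 2 / k = 2 * (1 / k) := by ring
  linarith
theorem HkF.abs_le {e : E} {r k : ℝ} (h : M.HkF e r k) {x : E} (hx : x ∈ M.S)
    (hn : ‖x‖ < 2 * r / k) : |⟪x, e⟫| ≤ k * r :=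
  not_lt.1 fun h1 => not_mem_W' hx (h.side x (mem_ball_zero_iff.2 hn) h1)
/-- A frame in which `e` is vertical and `r` is the unit of length. -/
theorem exists_frame (M : Surf) {e : E} (he : ‖e‖ = 1) {r : ℝ} (hr : 0 < r) :
    ∃ (M' : Surf) (A : E ≃ₗᵢ[ℝ] E), A e3 = e ∧ IsSim M' M A r 0 := by
  obtain ⟨A, hA⟩ := exists_iso_e3 he
  obtain ⟨M', hM'⟩ := exists_isSim M A.symm (inv_pos.2 hr) 0
  refine ⟨M', A, hA, ?_⟩
  have h := hM'.symm
  rwa [LinearIsometryEquiv.symm_symm, inv_inv, map_zero, smul_zero, neg_zero] at h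
theorem Cone.cxg {e : E} {s : ℝ} (he : ‖e‖ = 1) (hs : s ≤ 1 / 2) (h : M.Cone e s) : M.CXg e := by
  obtain ⟨R, hR, h⟩ := h
  refine ⟨R, 1, hR, one_pos, fun x h1 h2 => h x h1 ?_⟩
  have h3 : ‖x‖ ≤ ‖x - ⟪x, e⟫ • e‖ + |⟪x, e⟫| := by
    have := norm_add_le (x - ⟪x, e⟫ • e) (⟪x, e⟫ • e)
    rwa [sub_add_cancel, norm_smul, he, mul_one, Real.norm_eq_abs] at this
  have h4 := mul_le_mul_of_nonneg_right hs (norm_nonneg x)
  linarith

theorem CXat.mono {p : E} {ρ L T ρ' L' T' : ℝ} (h : M.CXat p ρ L T) (h1 : ρ ≤ ρ') (h2 : L ≤ L')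
    (h3 : T' ≤ T) : M.CXat p ρ' L' T' := fun z a1 a2 a3 =>
  h z (h1.trans a1) (a2.trans_le h3)
    ((mul_le_mul_of_nonneg_right h2 (norm_nonneg _)).trans_lt a3)
theorem CXat.slab {Λ₀ L T Λ T' : ℝ} (h : M.CXat 0 Λ₀ L T) (hL : L < 1) (hΛ : 0 < Λ) (h1 : Λ₀ ≤ Λ)
    (h2 : Λ + T' < T) : M.Slab (closedBall 0 Λ) Λ T' := by
  intro y hy t a1 a2
  rw [mem_closedBall_zero_iff] at hy
  have b1 := DAPIb.norm_pt_le y t
  have b2 := DAPIb.abs_le_norm_pt y t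
  refine h _ (by rw [sub_zero]; linarith) (by rw [sub_zero]; linarith) ?_
  rw [pr_zero, sub_zero, pr_pt, pt_two, PiLp.zero_apply, sub_zero]
  rcases le_or_gt L 0 with hL0 | hL0
  · have := mul_nonpos_of_nonpos_of_nonneg hL0 (norm_nonneg y)
    linarith
  · have := mul_le_mul_of_nonneg_left hy hL0.le
    nlinarith
theorem zoom_cxat (M : Surf) (p : E) {b : ℝ} (hb : 0 < b) (ρ L T : ℝ) :
    (M.zoom p b).CXat 0 ρ L T ↔ M.CXat p (ρ * b) L (T * b) := by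
  have e1 : ∀ z : E, ‖p + b • z - p‖ = ‖z - 0‖ * b := fun z => by
    rw [add_sub_cancel_left, norm_smul, Real.norm_of_nonneg hb.le, sub_zero, mul_comm]
  have e2 : ∀ z : E, L * ‖pr (p + b • z) - pr p‖ = L * ‖pr z - pr 0‖ * b := fun z => by
    rw [pr_add, add_sub_cancel_left, pr_smul, norm_smul, Real.norm_of_nonneg hb.le, pr_zero,
      sub_zero]
    ring
  have e3' : ∀ z : E, |(p + b • z) 2 - p 2| = |z 2 - (0 : E) 2| * b := fun z => by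
    rw [PiLp.add_apply, add_sub_cancel_left, PiLp.smul_apply, smul_eq_mul, abs_mul,
      abs_of_pos hb, PiLp.zero_apply, sub_zero, mul_comm]
  constructor
  · intro h z a1 a2 a3
    obtain ⟨w, rfl⟩ : ∃ w : E, z = p + b • w :=
      ⟨b⁻¹ • (z - p), by rw [smul_smul, mul_inv_cancel₀ hb.ne', one_smul]; abel⟩
    rw [e1] at a1 a2
    rw [e2, e3'] at a3
    exact (M.zoom_W' p hb w).1 (h w (le_of_mul_le_mul_right a1 hb)
      (lt_of_mul_lt_mul_right a2 hb.le) (lt_of_mul_lt_mul_right a3 hb.le))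
  · intro h z a1 a2 a3
    refine (M.zoom_W' p hb z).2 (h _ ?_ ?_ ?_)
    · rw [e1]
      exact mul_le_mul_of_nonneg_right a1 hb.le
    · rw [e1]
      exact mul_lt_mul_of_pos_right a2 hb
    · rw [e2, e3']
      exact mul_lt_mul_of_pos_right a3 hb
/-- Heights over a disc about the centre of a cell. -/
theorem Cell.height {P : Par} {β : ℝ} {y : ℂ} {b : ℝ} {p : E} (h : M.Cell P β y b p) (hP : P.Ok)
    {ρ : ℝ} (h1 : P.Λ₀ * b ≤ ρ) (h2 : ρ ≤ 10) {x : E} (hx : x ∈ M.S) (hl : |x 2| < 1)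
    (hy : ‖pr x - y‖ ≤ ρ) : |x 2 - p 2| ≤ ρ ∧ ‖x - p‖ < 2 * ρ := by
  have hρ : 0 < ρ := lt_of_lt_of_le (mul_pos (lt_of_lt_of_le one_pos hP.one_le) h.pos) h1
  have a1 : ‖x - p‖ ≤ ‖pr x - y‖ + |x 2 - p 2| := by
    have := norm_le_pr_add (x - p)
    rwa [pr_sub, h.base, PiLp.sub_apply] at this
  have a2 : |x 2 - p 2| ≤ ‖x - p‖ := by
    have := abs_two_le (x - p)
    rwa [PiLp.sub_apply] at this
  have a3 : |x 2 - p 2| ≤ |x 2| + |p 2| := abs_sub _ _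
  have a4 := h.low
  rcases lt_or_ge ‖x - p‖ (P.Λ₀ * b) with hc | hc
  · exact ⟨by linarith, by linarith⟩
  · have a5 : |x 2 - p 2| ≤ P.om / 8 * ‖pr x - pr p‖ :=
      not_lt.1 fun a => not_mem_W' hx (h.cx x hc (by linarith) a)
    rw [h.base] at a5
    have a6 : P.om / 8 * ‖pr x - y‖ ≤ 1 / 80 * ρ :=
      mul_le_mul (by linarith [hP.om_le]) hy (norm_nonneg _) (by norm_num)
    exact ⟨by linarith, by linarith⟩
/-- Mass over a disc about the centre of a cell. -/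
theorem Cell.mass {P : Par} {β : ℝ} {y : ℂ} {b : ℝ} {p : E} (h : M.Cell P β y b p) (hP : P.Ok)
    (hM : M.Mem) {ρ : ℝ} (h1 : P.Λ₀ * b ≤ ρ) (h2 : ρ ≤ 10) :
    M.μ.real (cyl (closedBall y ρ) 1) ≤ 26 * ρ ^ 2 := by
  have hρ : 0 < ρ := lt_of_lt_of_le (mul_pos (lt_of_lt_of_le one_pos hP.one_le) h.pos) h1
  have a1 : M.μ (cyl (closedBall y ρ) 1) ≤ M.μ (ball p (2 * ρ)) := by
    rw [← M.measure_inter_S]
    refine measure_mono fun x hx => mem_ball_iff_norm.2 ?_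
    exact (h.height hP h1 h2 hx.2 hx.1.2 (mem_closedBall_iff_norm.1 hx.1.1)).2
  have a2 := hM.bd p (2 * ρ) (by linarith)
  have a3 := ENNReal.toReal_le_of_le_ofReal (by have := Real.pi_pos; positivity) (a1.trans a2)
  have a4 := Real.pi_lt_d2
  refine le_trans a3 ?_
  nlinarith [sq_nonneg ρ]
theorem Cell.mul_le {P : Par} {β : ℝ} {y : ℂ} {b : ℝ} {p : E} (h : M.Cell P β y b p) (hP : P.Ok)
    (hβ : P.Λ * β ≤ 1 / 10) : P.Λ * b ≤ 1 / 10 ∧ P.Λ₀ * b ≤ P.Λ * b ∧ 4 * b ≤ P.Λ * b ∧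
      b ≤ P.Λ₀ * b := by
  have hb := h.pos.le
  refine ⟨le_trans (mul_le_mul_of_nonneg_left h.small (by linarith [hP.four_le])) hβ,
    mul_le_mul_of_nonneg_right hP.le hb, mul_le_mul_of_nonneg_right hP.four_le hb,
    le_mul_of_one_le_left hb hP.one_le⟩

end Surf

namespace IsSim

variable {M M' : Surf} {A : E ≃ₗᵢ[ℝ] E} {c : ℝ}

theorem simMap_zero (A : E ≃ₗᵢ[ℝ] E) (c : ℝ) : simMap A c 0 0 = 0 := by
  rw [simMap, map_zero, smul_zero, add_zero]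
theorem preimage_ball (h : IsSim M M' A c 0) (r : ℝ) :
    simMap A c 0 ⁻¹' ball 0 (c * r) = ball 0 r := by
  ext x
  have := simMap_mem_ball A h.pos 0 x 0 r
  rwa [simMap_zero] at this
theorem inner_simMap (A : E ≃ₗᵢ[ℝ] E) (c : ℝ) (x e : E) : ⟪simMap A c 0 x, A e⟫ = c * ⟪x, e⟫ := by
  rw [simMap, add_zero, real_inner_smul_left, A.inner_map_map]
theorem hkF (h : IsSim M M' A c 0) (e : E) (r k : ℝ) : M'.HkF (A e) (c * r) k ↔ M.HkF e r k := by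
  have hc := h.pos
  have e1 : M'.Θ 0 (k * (c * r)) = M.Θ 0 (k * r) := by
    have := h.Θ 0 (k * r)
    rwa [simMap_zero, mul_left_comm] at this
  have e2 : ∀ x, simMap A c 0 x ∈ ball (0 : E) (2 * (c * r) / k) ↔ x ∈ ball (0 : E) (2 * r / k) := by
    intro x
    have e : 2 * (c * r) / k = c * (2 * r / k) := by ring
    rw [e, ← h.preimage_ball (2 * r / k), mem_preimage]
  have e3' : ∀ x, k * (c * r) < |⟪simMap A c 0 x, A e⟫| ↔ k * r < |⟪x, e⟫| := by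
    intro x
    rw [inner_simMap, abs_mul, abs_of_pos hc, mul_left_comm]
    exact mul_lt_mul_iff_right₀ hc
  constructor
  · intro H
    exact ⟨e1 ▸ H.dens, fun x a1 a2 => (h.W' x).1 (H.side _ ((e2 x).2 a1) ((e3' x).2 a2))⟩
  · intro H
    refine ⟨by rw [e1]; exact H.dens, fun x a1 a2 => ?_⟩
    obtain ⟨x, rfl⟩ := simMap_surjective A hc 0 x
    exact (h.W' x).2 (H.side x ((e2 x).1 a1) ((e3' x).1 a2))
theorem cone (h : IsSim M M' A c 0) (e : E) (s : ℝ) : M'.Cone (A e) s ↔ M.Cone e s := by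
  have hc := h.pos
  have e1 : ∀ x, ‖simMap A c 0 x‖ = c * ‖x‖ := fun x => by
    rw [simMap, add_zero, norm_smul, A.norm_map, Real.norm_of_nonneg hc.le]
  have e2 : ∀ x, s * ‖simMap A c 0 x‖ < |⟪simMap A c 0 x, A e⟫| ↔ s * ‖x‖ < |⟪x, e⟫| := by
    intro x
    rw [inner_simMap, abs_mul, abs_of_pos hc, e1, mul_left_comm]
    exact mul_lt_mul_iff_right₀ hc
  constructor
  · rintro ⟨R, hR, H⟩
    refine ⟨R / c, div_pos hR hc, fun x a1 a2 => (h.W' x).1 (H _ ?_ ((e2 x).2 a2))⟩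
    rw [e1, mul_comm]
    exact (div_le_iff₀ hc).1 a1
  · rintro ⟨R, hR, H⟩
    refine ⟨c * R, mul_pos hc hR, fun x a1 a2 => ?_⟩
    obtain ⟨x, rfl⟩ := simMap_surjective A hc 0 x
    rw [e1] at a1
    exact (h.W' x).2 (H x (le_of_mul_le_mul_left a1 hc) ((e2 x).1 a2))
theorem E0_ball (h : IsSim M M' A c 0) (e : E) (r : ℝ) :
    M'.E0 (A e) (ball 0 (c * r)) = c ^ 2 * M.E0 e (ball 0 r) := by
  rw [h.E0, h.preimage_ball]
theorem Θ_zero (h : IsSim M M' A c 0) (r : ℝ) : M'.Θ 0 (c * r) = M.Θ 0 r := by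
  have := h.Θ 0 r
  rwa [simMap_zero] at this
theorem flatW_zero (h : IsSim M M' A c 0) (ρ δ : ℝ) (ν : E) :
    M'.FlatW 0 (c * ρ) δ (A ν) ↔ M.FlatW 0 ρ δ ν := by
  have := h.flatW 0 ρ δ ν
  rwa [simMap_zero] at this

end IsSim

end MW
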