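import Pool.Agent.P.MP_064970_gt.SD

/-! Case II, toolbox A: squares, test functions, the bump, the flux. -/

open MeasureTheory Set Filter Topology Metric
open scoped RealInnerProductSpace ENNReal NNReal ComplexConjugate Real

noncomputable section

namespace MW

namespace DAPIa

theorem vol_prod {A B : Set ℝ} (hA : MeasurableSet A) (hB : MeasurableSet B) :
    volume {y : ℂ | y.re ∈ A ∧ y.im ∈ B} = volume A * volume B := by
  have h := Complex.volume_preserving_equiv_real_prod.measure_preimage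
    (hA.prod hB).nullMeasurableSet
  rw [Measure.volume_eq_prod, Measure.prod_prod] at h
  exact h

theorem vol_I2 : volume (Icc (-2 : ℝ) 2) = 4 := by
  rw [Real.volume_Icc]
  norm_num

end DAPIa

theorem isClosed_Sq (r : ℝ) : IsClosed (Sq r) :=
  (isClosed_le Complex.continuous_re.abs continuous_const).inter
    (isClosed_le Complex.continuous_im.abs continuous_const)
theorem measurableSet_Sq (r : ℝ) : MeasurableSet (Sq r) := (isClosed_Sq r).measurableSet
theorem isBounded_Sq (r : ℝ) : Bornology.IsBounded (Sq r) := by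
  refine (isBounded_closedBall (x := (0 : ℂ)) (r := r + r)).subset fun y hy => ?_
  rw [mem_closedBall_zero_iff]
  exact (Complex.norm_le_abs_re_add_abs_im y).trans (add_le_add hy.1 hy.2)
theorem volume_Sq {r : ℝ} (hr : 0 ≤ r) : volume (Sq r) = ENNReal.ofReal (4 * r ^ 2) := by
  have h : Sq r = {y : ℂ | y.re ∈ Icc (-r) r ∧ y.im ∈ Icc (-r) r} := by
    ext y
    simp only [Sq, mem_ofPred_eq, mem_Icc, abs_le]
  rw [h, DAPIa.vol_prod measurableSet_Icc measurableSet_Icc, Real.volume_Icc,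
    ← ENNReal.ofReal_mul (by linarith)]
  congr 1
  ring
theorem norm_le_of_mem_Sq {r : ℝ} {y : ℂ} (h : y ∈ Sq r) : ‖y‖ ≤ 3 / 2 * r := by
  have hr : 0 ≤ r := (abs_nonneg _).trans h.1
  have h1 : y.re ^ 2 ≤ r ^ 2 := by
    rw [← sq_abs]
    exact pow_le_pow_left₀ (abs_nonneg _) h.1 2
  have h2 : y.im ^ 2 ≤ r ^ 2 := by
    rw [← sq_abs]
    exact pow_le_pow_left₀ (abs_nonneg _) h.2 2
  have h3 : ‖y‖ ^ 2 = y.re ^ 2 + y.im ^ 2 := by
    rw [Complex.sq_norm, Complex.normSq_apply]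
    ring
  refine (abs_le_of_sq_le_sq' ?_ (by positivity)).2
  nlinarith [sq_nonneg r]
theorem mem_Sq_of_norm_le {r : ℝ} {y : ℂ} (h : ‖y‖ ≤ r) : y ∈ Sq r :=
  ⟨(Complex.abs_re_le_norm y).trans h, (Complex.abs_im_le_norm y).trans h⟩
theorem volume_Sq_im {X : Set ℝ} (hX : MeasurableSet X) :
    volume {y : ℂ | y ∈ Sq 2 ∧ y.im ∉ X} = 4 * volume (I2 \ X) := by
  have h : {y : ℂ | y ∈ Sq 2 ∧ y.im ∉ X} = {y : ℂ | y.re ∈ Icc (-2 : ℝ) 2 ∧ y.im ∈ I2 \ X} := by
    ext y
    simp only [Sq, I2, mem_ofPred_eq, mem_Icc, abs_le, Set.mem_sdiff, and_assoc]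
  have hI : MeasurableSet I2 := measurableSet_Icc
  rw [h, DAPIa.vol_prod measurableSet_Icc (hI.diff hX), DAPIa.vol_I2]
theorem volume_Sq_re {X : Set ℝ} (hX : MeasurableSet X) :
    volume {y : ℂ | y ∈ Sq 2 ∧ y.re ∉ X} = 4 * volume (I2 \ X) := by
  have h : {y : ℂ | y ∈ Sq 2 ∧ y.re ∉ X} = {y : ℂ | y.re ∈ I2 \ X ∧ y.im ∈ Icc (-2 : ℝ) 2} := by
    ext y
    simp only [Sq, I2, mem_ofPred_eq, mem_Icc, abs_le, Set.mem_sdiff]
    tauto
  have hI : MeasurableSet I2 := measurableSet_Icc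
  rw [h, DAPIa.vol_prod (hI.diff hX) measurableSet_Icc, DAPIa.vol_I2, mul_comm]
theorem measurableSet_onL (θ : ℝ) {V H : Set ℝ} (hV : MeasurableSet V) (hH : MeasurableSet H) :
    MeasurableSet (onL θ V H) :=
  (measurableSet_Sq _).inter ((Complex.measurable_re hV).union (Complex.measurable_im hH))
theorem fderiv_eq_p (z : ℂ → ℝ) (y w : ℂ) : fderiv ℝ z y w = w.re * p1 z y + w.im * p2 z y := by
  have h : w = w.re • (1 : ℂ) + w.im • Complex.I := by
    apply Complex.ext <;> simp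
  conv_lhs => rw [h]
  rw [map_add, map_smul, map_smul]
  rfl
theorem measurable_p1 (z : ℂ → ℝ) : Measurable (p1 z) := measurable_fderiv_apply_const ℝ z 1
theorem measurable_p2 (z : ℂ → ℝ) : Measurable (p2 z) :=
  measurable_fderiv_apply_const ℝ z Complex.I
/-- A `C¹` function that vanishes off the open disc has zero derivative there. -/
theorem fderiv_eq_zero_of_supp {z : ℂ → ℝ} (hz : ContDiff ℝ 1 z) {y₀ : ℂ} {r : ℝ} (hr : 0 < r)
    (h : ∀ y, r ≤ ‖y - y₀‖ → z y = 0) {y : ℂ} (hy : r ≤ ‖y - y₀‖) : fderiv ℝ z y = 0 := by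
  have hcl : IsClosed {w : ℂ | fderiv ℝ z w = 0} :=
    isClosed_eq (hz.continuous_fderiv one_ne_zero) continuous_const
  have hsub : (closedBall y₀ r)ᶜ ⊆ {w : ℂ | fderiv ℝ z w = 0} := by
    intro w hw
    have hev : z =ᶠ[𝓝 w] fun _ => 0 := by
      filter_upwards [isClosed_closedBall.isOpen_compl.mem_nhds hw] with v hv
      refine h v ?_
      rw [mem_compl_iff, mem_closedBall, dist_eq_norm, not_le] at hv
      exact hv.le
    rw [mem_ofPred_eq, hev.fderiv_eq]
    exact fderiv_const_apply _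
  have h2 := hcl.closure_subset_iff.2 hsub
  rw [closure_compl, interior_closedBall _ hr.ne'] at h2
  refine h2 ?_
  rw [mem_compl_iff, mem_ball, dist_eq_norm, not_lt]
  exact hy
theorem Test.nonneg {z : ℂ → ℝ} {m : ℝ} (h : Test z m) : 0 ≤ m := (abs_nonneg _).trans (h.b1 0)
theorem Test.p_eq_zero {z : ℂ → ℝ} {m : ℝ} (h : Test z m) {y : ℂ} (hy : 2 ≤ ‖y‖) :
    p1 z y = 0 ∧ p2 z y = 0 := by
  have h1 : fderiv ℝ z y = 0 :=
    fderiv_eq_zero_of_supp (h.diff.of_le (by norm_num)) (y₀ := 0) two_pos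
      (fun w hw => h.supp w (by simpa using hw)) (by simpa using hy)
  simp [p1, p2, h1]

theorem contDiff_bmp (y : ℂ) (r : ℝ) : ContDiff ℝ 2 (bmp y r) := by
  have h1 : ContDiff ℝ 2 fun w : ℂ => ‖w - y‖ ^ 2 :=
    (contDiff_norm_sq ℝ).comp (contDiff_id.sub contDiff_const)
  exact (Real.smoothTransition.contDiff (n := 2)).comp
    (contDiff_const.mul (contDiff_const.sub (h1.div_const _)))
theorem contDiff_one_bmp (y : ℂ) (r : ℝ) : ContDiff ℝ 1 (bmp y r) :=
  (contDiff_bmp y r).of_le (by norm_num)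
theorem bmp_nonneg (y : ℂ) (r : ℝ) (w : ℂ) : 0 ≤ bmp y r w := Real.smoothTransition.nonneg _
theorem bmp_le_one (y : ℂ) (r : ℝ) (w : ℂ) : bmp y r w ≤ 1 := Real.smoothTransition.le_one _
theorem bmp_eq_one {y w : ℂ} {r : ℝ} (hr : 0 < r) (h : ‖w - y‖ ≤ r / 2) : bmp y r w = 1 := by
  refine Real.smoothTransition.one_of_one_le ?_
  have h1 : ‖w - y‖ ^ 2 / r ^ 2 ≤ 1 / 4 := by
    rw [div_le_iff₀ (by positivity)]
    nlinarith [norm_nonneg (w - y)]
  linarith
theorem bmp_eq_zero {y w : ℂ} {r : ℝ} (hr : 0 < r) (h : r ≤ ‖w - y‖) : bmp y r w = 0 := by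
  refine Real.smoothTransition.zero_of_nonpos ?_
  have h1 : 1 ≤ ‖w - y‖ ^ 2 / r ^ 2 := by
    rw [le_div_iff₀ (by positivity)]
    nlinarith
  linarith
theorem fderiv_bmp_eq_zero {y w : ℂ} {r : ℝ} (hr : 0 < r) (h : r ≤ ‖w - y‖) :
    fderiv ℝ (bmp y r) w = 0 :=
  fderiv_eq_zero_of_supp (contDiff_one_bmp y r) hr (fun _ hv => bmp_eq_zero hr hv) h
theorem tsupport_bmp (y : ℂ) {r : ℝ} (hr : 0 < r) : tsupport (bmp y r) ⊆ closedBall y r := by
  refine closure_minimal (fun w hw => ?_) isClosed_closedBall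
  rw [mem_closedBall, dist_eq_norm]
  by_contra hc
  exact hw (bmp_eq_zero hr (not_le.1 hc).le)
theorem hasCompactSupport_bmp (y : ℂ) {r : ℝ} (hr : 0 < r) : HasCompactSupport (bmp y r) :=
  (isCompact_closedBall y r).of_isClosed_subset (isClosed_tsupport _) (tsupport_bmp y hr)
theorem bmp_zoom (y : ℂ) {b : ℝ} (hb : 0 < b) (r : ℝ) (w : ℂ) :
    bmp y (r * b) (y + b • w) = bmp 0 r w := by
  unfold bmp
  rw [add_sub_cancel_left, sub_zero, norm_smul, Real.norm_of_nonneg hb.le, mul_pow, mul_pow,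
    mul_comm (b ^ 2), mul_div_mul_right _ _ (by positivity)]

namespace DAPIa

theorem fderiv_zoom (y : ℂ) {b : ℝ} (hb : 0 < b) (r : ℝ) (w : ℂ) :
    fderiv ℝ (bmp 0 r) w = b • fderiv ℝ (bmp y (r * b)) (y + b • w) := by
  have h1 : HasFDerivAt (fun v : ℂ => y + b • v) (b • ContinuousLinearMap.id ℝ ℂ) w :=
    ((hasFDerivAt_id w).const_smul b).const_add y
  have h2 := ((contDiff_one_bmp y (r * b)).differentiable one_ne_zero (y + b • w)).hasFDerivAt
  have h3 := h2.comp w h1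
  have h4 : (bmp y (r * b) ∘ fun v : ℂ => y + b • v) = bmp 0 r :=
    funext fun v => bmp_zoom y hb r v
  rw [h4] at h3
  rw [h3.fderiv]
  ext1 v
  simp only [ContinuousLinearMap.comp_apply, _root_.smul_apply,
    ContinuousLinearMap.id_apply, map_smul]

end DAPIa

theorem exists_bmp_bound : ∃ C : ℝ, 0 < C ∧ ∀ (y w : ℂ) (r : ℝ), 0 < r →
    ‖fderiv ℝ (bmp y r) w‖ ≤ C / r := by
  have hd := (contDiff_one_bmp 0 1).continuous_fderiv one_ne_zero
  obtain ⟨C, hC⟩ := hd.bounded_above_of_compact_support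
    ((hasCompactSupport_bmp 0 one_pos).fderiv (𝕜 := ℝ))
  refine ⟨max C 1, lt_max_of_lt_right one_pos, fun y w r hr => ?_⟩
  have h1 := DAPIa.fderiv_zoom y hr 1 (r⁻¹ • (w - y))
  rw [smul_smul, mul_inv_cancel₀ hr.ne', one_smul, add_sub_cancel, one_mul] at h1
  have h2 := hC (r⁻¹ • (w - y))
  rw [h1, norm_smul, Real.norm_of_nonneg hr.le] at h2
  rw [le_div_iff₀ hr, mul_comm]
  exact h2.trans (le_max_left _ _)
theorem integrable_bmp (y : ℂ) {r : ℝ} (hr : 0 < r) : Integrable (bmp y r) :=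
  (contDiff_bmp y r).continuous.integrable_of_hasCompactSupport (hasCompactSupport_bmp y hr)
theorem integral_bmp_le (y : ℂ) {r : ℝ} (hr : 0 < r) : ∫ w, bmp y r w ≤ 4 * r ^ 2 := by
  have h1 : ∫ w, bmp y r w ≤ ∫ w, (ball y r).indicator (fun _ => (1 : ℝ)) w := by
    refine integral_mono (integrable_bmp y hr)
      ((integrable_indicator_iff measurableSet_ball).2 (integrableOn_const measure_ball_lt_top.ne))
      fun w => ?_
    by_cases hw : w ∈ ball y r
    · rw [indicator_of_mem hw]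
      exact bmp_le_one y r w
    · rw [indicator_of_notMem hw]
      rw [mem_ball, dist_eq_norm, not_lt] at hw
      exact (bmp_eq_zero hr hw).le
  rw [integral_indicator measurableSet_ball, setIntegral_const, smul_eq_mul, mul_one,
    Measure.real, Complex.volume_ball] at h1
  simp only [ENNReal.toReal_mul, ENNReal.toReal_pow, ENNReal.toReal_ofReal hr.le,
    ENNReal.coe_toReal, NNReal.coe_real_pi] at h1
  nlinarith [Real.pi_le_four, sq_nonneg r]

namespace DAPIa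

theorem bot_sub (M : Surf) (T : ℝ) : M.Bot T ⊆ lay T := fun _ hx => hx.2.1

theorem meas_N2 (M : Surf) : Measurable fun x => M.N x 2 :=
  (EuclideanSpace.proj (2 : Fin 3) : E →L[ℝ] ℝ).continuous.measurable.comp M.N_meas

end DAPIa

namespace Surf

variable {M : Surf}

theorem Mem.integrableOn_flux (h : M.Mem) (T : ℝ) {η : ℂ → ℝ} (hη : ContDiff ℝ 1 η)
    (hc : HasCompactSupport η) :
    IntegrableOn (fun x => fderiv ℝ η (pr x) (pr (M.N x)) * |M.N x 2|) (lay T) M.μ := by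
  have hd := hη.continuous_fderiv one_ne_zero
  have hcd : HasCompactSupport (fderiv ℝ η) := hc.fderiv (𝕜 := ℝ)
  obtain ⟨C, hC⟩ := hd.bounded_above_of_compact_support hcd
  have hm : Measurable fun x => fderiv ℝ η (pr x) (pr (M.N x)) * |M.N x 2| := by
    refine Measurable.mul ?_ (DAPIa.meas_N2 M).abs
    have h1 : Continuous fun q : ℂ × ℂ => fderiv ℝ η q.1 q.2 :=
      (hd.comp continuous_fst).clm_apply continuous_snd
    exact h1.measurable.comp (measurable_pr.prodMk (measurable_pr.comp M.N_meas))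
  rw [← integrable_indicator_iff (measurableSet_lay T)]
  refine h.bd.integrable (isBounded_cyl hcd.isCompact.isBounded T)
    (hm.indicator (measurableSet_lay T)) (C := C) ?_ ?_
  · intro x hx
    have hC0 : 0 ≤ C := (norm_nonneg _).trans (hC 0)
    by_cases hl : x ∈ lay T
    · rw [indicator_of_mem hl, abs_mul, abs_abs]
      have h1 : ‖pr (M.N x)‖ ≤ 1 := (norm_pr_le _).trans (M.N_unit x hx).le
      have h2 : |M.N x 2| ≤ 1 := (abs_two_le _).trans (M.N_unit x hx).le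
      have h3 : |fderiv ℝ η (pr x) (pr (M.N x))| ≤ C := by
        calc _ ≤ ‖fderiv ℝ η (pr x)‖ * ‖pr (M.N x)‖ := (fderiv ℝ η (pr x)).le_opNorm _
          _ ≤ C * 1 := mul_le_mul (hC _) h1 (norm_nonneg _) hC0
          _ = C := mul_one _
      calc _ ≤ C * 1 := mul_le_mul h3 h2 (abs_nonneg _) hC0
        _ = C := mul_one _
    · rw [indicator_of_notMem hl, abs_zero]
      exact hC0
  · intro x _ hx
    by_cases hl : x ∈ lay T
    · have h1 : pr x ∉ tsupport (fderiv ℝ η) := fun h2 => hx ⟨h2, hl⟩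
      rw [indicator_of_mem hl, image_eq_zero_of_notMem_tsupport h1]
      simp
    · exact indicator_of_notMem hl _
theorem Mem.flux_sub (h : M.Mem) (T : ℝ) {η ζ : ℂ → ℝ} (hη : ContDiff ℝ 1 η)
    (hc : HasCompactSupport η) (hζ : ContDiff ℝ 1 ζ) (hc' : HasCompactSupport ζ) :
    M.Flux T (fun w => η w - ζ w) = M.Flux T η - M.Flux T ζ := by
  unfold Surf.Flux
  rw [← integral_sub ((h.integrableOn_flux T hη hc).mono_set (DAPIa.bot_sub M T))
    ((h.integrableOn_flux T hζ hc').mono_set (DAPIa.bot_sub M T))]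
  refine integral_congr_ae (Eventually.of_forall fun x => ?_)
  beta_reduce
  rw [fderiv_fun_sub (hη.differentiable one_ne_zero _) (hζ.differentiable one_ne_zero _),
    _root_.sub_apply, sub_mul]
theorem Mem.flux_sum (h : M.Mem) (T : ℝ) (u : Finset ℂ) {η : ℂ → ℂ → ℝ}
    (hη : ∀ y ∈ u, ContDiff ℝ 1 (η y)) (hc : ∀ y ∈ u, HasCompactSupport (η y)) :
    M.Flux T (fun w => ∑ y ∈ u, η y w) = ∑ y ∈ u, M.Flux T (η y) := by
  unfold Surf.Flux
  rw [← integral_finsetSum u fun y hy =>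
    (h.integrableOn_flux T (hη y hy) (hc y hy)).mono_set (DAPIa.bot_sub M T)]
  refine integral_congr_ae (Eventually.of_forall fun x => ?_)
  beta_reduce
  rw [fderiv_fun_sum fun y hy => (hη y hy).differentiable one_ne_zero _,
    _root_.sum_apply, Finset.sum_mul]

end Surf

namespace DAPIa

theorem abs_lt {M : Surf} {K : Set ℂ} {T₀ T : ℝ} (hs : M.Slab K T₀ T) {x : E} (hx : x ∈ M.S)
    (hK : pr x ∈ K) (hT : |x 2| ≤ T) : |x 2| < T₀ := by
  by_contra hc
  have h1 := hs (pr x) hK (x 2) (not_lt.1 hc) hT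
  rw [pt_pr] at h1
  exact disjoint_left.1 M.disjS' h1 hx

/-- Two set integrals of a function agree if the sets agree where it does not vanish. -/
theorem setIntegral_eq {μ : Measure E} {A B : Set E} (hA : MeasurableSet A) (hB : MeasurableSet B)
    {f : E → ℝ} (h : ∀ x, f x ≠ 0 → (x ∈ A ↔ x ∈ B)) : ∫ x in A, f x ∂μ = ∫ x in B, f x ∂μ := by
  rw [← integral_indicator hA, ← integral_indicator hB]
  refine integral_congr_ae (Eventually.of_forall fun x => ?_)
  by_cases hf : f x = 0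
  · simp [indicator, hf]
  · by_cases hx : x ∈ A
    · rw [indicator_of_mem hx, indicator_of_mem ((h x hf).1 hx)]
    · rw [indicator_of_notMem hx, indicator_of_notMem fun hb => hx ((h x hf).2 hb)]

theorem mem_of_ne {y : ℂ} {r : ℝ} (hr : 0 < r) {z w : ℂ} {a : ℝ}
    (h : fderiv ℝ (bmp y r) z w * a ≠ 0) : z ∈ closedBall y r := by
  by_contra hc
  rw [mem_closedBall, dist_eq_norm, not_le] at hc
  rw [fderiv_bmp_eq_zero hr hc.le] at h
  simp at h

end DAPIa

namespace Surf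

variable {M : Surf}

/-- The flux does not depend on the height of the layer inside a slab. -/
theorem Mem.flux_layer (h : M.Mem) {y : ℂ} {r T₀ T₁ T : ℝ} (hr : 0 < r) (h1 : T₀ ≤ T₁)
    (h2 : T₁ ≤ T) (hs : M.Slab (closedBall y r) T₀ T) :
    M.Flux T₁ (bmp y r) = M.Flux T (bmp y r) := by
  unfold Surf.Flux
  refine DAPIa.setIntegral_eq (h.measurableSet_Bot T₁) (h.measurableSet_Bot T) fun x hx => ?_
  have hK := DAPIa.mem_of_ne hr hx
  constructor
  · rintro ⟨a1, a2, a3⟩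
    refine ⟨a1, a2.trans_le h2, fun t ht1 ht2 hS => ?_⟩
    have h3 : |t| ≤ T := abs_le.2 ⟨ht1.le, by linarith [(abs_lt.1 a2).2]⟩
    have h4 := DAPIa.abs_lt hs hS (by rwa [pr_pt]) (by rwa [pt_two])
    rw [pt_two] at h4
    exact a3 t (by linarith [(abs_lt.1 h4).1]) ht2 hS
  · rintro ⟨a1, a2, a3⟩
    exact ⟨a1, (DAPIa.abs_lt hs a1 hK a2.le).trans_le h1,
      fun t ht1 ht2 => a3 t (by linarith) ht2⟩
/-- The flux under a blow-up. -/
theorem Mem.flux_zoom (h : M.Mem) (p : E) {b Λ T T' : ℝ} (hb : 0 < b) (hΛ : 0 < Λ)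
    (hl : ∀ z ∈ closedBall (pr p) (Λ * b), ∀ t : ℝ, pt z t ∈ M.S → (|t| < T ↔ |t - p 2| < T' * b)) :
    b * (M.zoom p b).Flux T' (bmp 0 Λ) = M.Flux T (bmp (pr p) (Λ * b)) := by
  unfold Surf.Flux
  have hm := (h.zoom p hb).measurableSet_Bot T'
  have hcont : Continuous fun x : E => b⁻¹ • (x - p) := by fun_prop
  have hback : ∀ x : E, p + b • b⁻¹ • (x - p) = x := fun x => by
    rw [smul_smul, mul_inv_cancel₀ hb.ne', one_smul, add_sub_cancel]
  have hpt : ∀ (x : E) (t : ℝ), p + b • pt (pr (b⁻¹ • (x - p))) t = pt (pr x) (p 2 + b * t) := by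
    intro x t
    rw [← pt_smul, pr_smul, smul_smul, mul_inv_cancel₀ hb.ne', one_smul, pr_sub]
    conv_lhs => rw [← pt_pr p]
    rw [← pt_add, pr_pt, add_sub_cancel]
  have h2 : ∀ x : E, (b⁻¹ • (x - p)) 2 = b⁻¹ * (x 2 - p 2) := fun x => by simp
  have hI : ∫ x in (M.zoom p b).Bot T', fderiv ℝ (bmp 0 Λ) (pr x) (pr ((M.zoom p b).N x))
        * |(M.zoom p b).N x 2| ∂(M.zoom p b).μ
      = (∫ x in (fun x : E => b⁻¹ • (x - p)) ⁻¹' (M.zoom p b).Bot T',
          b * (fderiv ℝ (bmp (pr p) (Λ * b)) (pr x) (pr (M.N x)) * |M.N x 2|) ∂M.μ) / b ^ 2 := by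
    rw [← integral_indicator hm, M.zoom_integral p hb,
      ← integral_indicator (hcont.measurable hm)]
    congr 1
    refine integral_congr_ae (Eventually.of_forall fun x => ?_)
    beta_reduce
    by_cases hx : b⁻¹ • (x - p) ∈ (M.zoom p b).Bot T'
    · rw [indicator_of_mem hx, indicator_of_mem (show x ∈ (fun x : E => b⁻¹ • (x - p)) ⁻¹'
        (M.zoom p b).Bot T' from hx), M.zoom_N p hb, hback, DAPIa.fderiv_zoom (pr p) hb Λ,
        ← pr_smul, ← pr_add, hback, _root_.smul_apply, smul_eq_mul, mul_assoc]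
    · rw [indicator_of_notMem hx, indicator_of_notMem (show x ∉ (fun x : E => b⁻¹ • (x - p)) ⁻¹'
        (M.zoom p b).Bot T' from hx)]
  rw [hI, integral_const_mul]
  have hset : ∫ x in (fun x : E => b⁻¹ • (x - p)) ⁻¹' (M.zoom p b).Bot T',
        fderiv ℝ (bmp (pr p) (Λ * b)) (pr x) (pr (M.N x)) * |M.N x 2| ∂M.μ
      = ∫ x in M.Bot T, fderiv ℝ (bmp (pr p) (Λ * b)) (pr x) (pr (M.N x)) * |M.N x 2| ∂M.μ := by
    refine DAPIa.setIntegral_eq (hcont.measurable hm) (h.measurableSet_Bot T) fun x hx => ?_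
    have hK := DAPIa.mem_of_ne (mul_pos hΛ hb) hx
    have habs : |b⁻¹ * (x 2 - p 2)| < T' ↔ |x 2 - p 2| < T' * b := by
      rw [abs_mul, abs_of_pos (inv_pos.2 hb), inv_mul_lt_iff₀ hb, mul_comm]
    simp only [mem_preimage, Surf.Bot, mem_ofPred_eq, M.zoom_S p hb, hback, hpt, h2, habs]
    constructor
    · rintro ⟨a1, a2, a3⟩
      have a4 : |x 2| < T := (hl _ hK (x 2) (by rwa [pt_pr])).2 a2
      refine ⟨a1, a4, fun t ht1 ht2 hS => ?_⟩
      have a5 := (hl _ hK t hS).1 (abs_lt.2 ⟨ht1, by linarith [(abs_lt.1 a4).2]⟩)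
      refine a3 (b⁻¹ * (t - p 2)) ?_ ?_ ?_
      · rw [lt_inv_mul_iff₀ hb]
        linarith [(abs_lt.1 a5).1]
      · exact mul_lt_mul_of_pos_left (by linarith) (inv_pos.2 hb)
      · rwa [mul_inv_cancel_left₀ hb.ne', add_sub_cancel]
    · rintro ⟨a1, a2, a3⟩
      have a4 : |x 2 - p 2| < T' * b := (hl _ hK (x 2) (by rwa [pt_pr])).1 a2
      refine ⟨a1, a4, fun t ht1 ht2 hS => ?_⟩
      rw [lt_inv_mul_iff₀ hb] at ht2
      have ht3 : b * -T' < b * t := mul_lt_mul_of_pos_left ht1 hb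
      have a5 := (hl _ hK _ hS).2 (by
        rw [add_sub_cancel_left]
        exact abs_lt.2 ⟨by linarith, by linarith [(abs_lt.1 a4).2]⟩)
      exact a3 _ (abs_lt.1 a5).1 (by linarith) hS
  rw [hset]
  field_simp
/-- The lowest points over a slab have downward normal. -/
theorem Mem.bot_nonpos (h : M.Mem) {K : Set ℂ} {T₀ T : ℝ} (h0 : 0 < T₀) (hT : T₀ < T)
    (hs : M.Slab K T₀ T) {x : E} (hx : x ∈ M.Bot T) (hK : pr x ∈ K) : M.N x 2 ≤ 0 := by
  by_contra hc
  obtain ⟨a1, a2, a3⟩ := hx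
  have h1 := DAPIa.abs_lt hs a1 hK a2.le
  have hl : ∀ t : ℝ, pt (pr x) 0 + t • e3 = pt (pr x) t := fun t => by
    rw [pt_add_smul_e3, zero_add]
  have h2 := M.basic_before (a := pt (pr x) 0) (v := e3) (p := -T₀) (s := x 2) (abs_lt.1 h1).1
    (fun t _ => h.sub Set.univ (mem_univ _))
    (fun t ht => by rw [hl]; exact a3 t (by linarith [ht.1]) ht.2)
    (by rwa [hl, pt_pr]) (by rw [hl, pt_pr, e3_inner]; exact not_le.1 hc)
  rw [hl] at h2
  have h3 := hs (pr x) hK (-T₀) (by rw [abs_neg, abs_of_pos h0])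
    (by rw [abs_neg, abs_of_pos h0]; exact hT.le)
  exact disjoint_left.1 M.disj h2 h3
/-- Points of the surface over a slab lie in the middle layer. -/
theorem Slab.abs_lt {K : Set ℂ} {T₀ T : ℝ} (hs : M.Slab K T₀ T) {x : E} (hx : x ∈ M.S)
    (hK : pr x ∈ K) (hT : |x 2| ≤ T) : |x 2| < T₀ := DAPIa.abs_lt hs hx hK hT

end Surf

end MW
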