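import Pool.Agent.P.MP_064970_gt.D.API

/-! D1, Caccioppoli inequality for a linear function, and the tilt lemma. -/

open MeasureTheory Set Filter Topology Metric
open scoped RealInnerProductSpace ENNReal NNReal ComplexConjugate Real

noncomputable section

namespace MW

namespace DCACC3

/-- Cutoff functions with a uniform gradient bound. -/
theorem cutoff : ∃ K : ℝ, 0 < K ∧ ∀ (p : E) (r : ℝ), 0 < r → ∃ η : E → ℝ, ContDiff ℝ 1 η ∧
    (∀ x, 0 ≤ η x ∧ η x ≤ 1) ∧ (∀ x ∈ ball p r, η x = 1) ∧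
    (∀ x, x ∉ ball p (3 / 2 * r) → η x = 0) ∧ ∀ x w, |fderiv ℝ η x w| ≤ K / r * ‖w‖ := by
  let φ : ContDiffBump (0 : E) := ⟨1, 3 / 2, one_pos, by norm_num⟩
  have hφ : ContDiff ℝ 1 φ := φ.contDiff
  obtain ⟨K, hK⟩ := (hφ.continuous_fderiv one_ne_zero).bounded_above_of_compact_support
    (φ.hasCompactSupport.fderiv (𝕜 := ℝ))
  refine ⟨max K 1, lt_max_of_lt_right one_pos, fun p r hr => ?_⟩
  have hn : ∀ x : E, ‖r⁻¹ • (x - p)‖ = ‖x - p‖ / r := fun x => by
    rw [norm_smul, norm_inv, Real.norm_of_nonneg hr.le]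
    ring
  refine ⟨fun x => φ (r⁻¹ • (x - p)), hφ.comp (by fun_prop), fun x => ⟨φ.nonneg, φ.le_one⟩,
    fun x hx => ?_, fun x hx => ?_, fun x w => ?_⟩
  · refine φ.one_of_mem_closedBall ?_
    rw [mem_closedBall_zero_iff, hn, div_le_iff₀ hr]
    change ‖x - p‖ ≤ 1 * r
    rw [one_mul]
    exact (mem_ball_iff_norm.1 hx).le
  · refine φ.zero_of_le_dist ?_
    rw [dist_zero_right, hn, le_div_iff₀ hr]
    exact not_lt.1 fun h => hx (mem_ball_iff_norm.2 h)
  · have h1 : HasFDerivAt (fun x : E => r⁻¹ • (x - p)) (r⁻¹ • ContinuousLinearMap.id ℝ E) x :=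
      ((hasFDerivAt_id x).sub_const p).const_smul r⁻¹
    have h2 := ((hφ.differentiable one_ne_zero) (r⁻¹ • (x - p))).hasFDerivAt.comp x h1
    have h3 : fderiv ℝ (fun x : E => φ (r⁻¹ • (x - p))) x w =
        fderiv ℝ φ (r⁻¹ • (x - p)) (r⁻¹ • w) := by
      have := h2.fderiv
      rw [Function.comp_def] at this
      rw [this]
      rfl
    rw [h3]
    have h4 := (fderiv ℝ φ (r⁻¹ • (x - p))).le_of_opNorm_le
      ((hK _).trans (le_max_left K 1)) (r⁻¹ • w)
    rw [norm_smul, norm_inv, Real.norm_of_nonneg hr.le, Real.norm_eq_abs] at h4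
    refine h4.trans (le_of_eq ?_)
    ring

theorem measurable_wedge (M : Surf) (e : E) : Measurable fun x => wedge (M.N x) e :=
  (continuous_wedge.comp (continuous_id.prodMk continuous_const)).measurable.comp M.N_meas

theorem integrableOn_wedge {M : Surf} (hM : M.Mem) {e : E} (he : ‖e‖ = 1) (p : E) (s : ℝ) :
    IntegrableOn (fun x => wedge (M.N x) e ^ 2) (ball p s) M.μ := by
  refine hM.bd.integrableOn isBounded_ball ((measurable_wedge M e).pow_const 2) (C := 1)
    (fun x hx => ?_) measurableSet_ball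
  rw [abs_of_nonneg (sq_nonneg _)]
  exact pow_le_one₀ (wedge_nonneg _ _) (wedge_le_one (M.N_unit x hx.2) he)

theorem cacc (hFV : S_FV) : ∃ C : ℝ, 0 < C ∧ ∀ M : Surf, M.Mem → ∀ (p e : E) (r h c : ℝ),
    ‖e‖ = 1 → 0 < r → (∀ x ∈ M.S ∩ ball p (2 * r), |⟪x, e⟫ - c| ≤ h) →
    ∫ x in ball p r, wedge (M.N x) e ^ 2 ∂M.μ ≤ C * h ^ 2 := by
  obtain ⟨K, hK, hcut⟩ := cutoff
  have hπ := Real.pi_pos
  refine ⟨32 * π * K ^ 2, by positivity, fun M hM p e r h c he hr hh => ?_⟩
  obtain ⟨η, hη, hη01, hη1, hη0, hD⟩ := hcut p r hr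
  set ζ : E → ℝ := fun x => η x * η x * (⟪x, e⟫ - c) with hζ
  have hζc : ContDiff ℝ 1 ζ := (hη.mul hη).mul ((contDiff_id.inner ℝ contDiff_const).sub contDiff_const)
  have hsupp : tsupport ζ ⊆ closedBall p (3 / 2 * r) := by
    refine closure_minimal (fun x hx => ?_) isClosed_closedBall
    by_contra hn
    refine hx ?_
    rw [hζ]
    simp only [hη0 x fun h' => hn (ball_subset_closedBall h'), zero_mul]
  have hcs : HasCompactSupport ζ :=
    (isCompact_closedBall p (3 / 2 * r)).of_isClosed_subset (isClosed_tsupport ζ) hsupp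
  have hfv := (hFV M).1 ζ hζc hcs (hM.sub _) e
  have hder : ∀ x w, fderiv ℝ ζ x w =
      η x * η x * ⟪w, e⟫ + 2 * η x * (⟪x, e⟫ - c) * fderiv ℝ η x w := by
    intro x w
    have h1 := ((hη.differentiable one_ne_zero) x).hasFDerivAt
    have h2 : HasFDerivAt (fun x : E => ⟪x, e⟫ - c) (innerSL ℝ e) x := by
      have h3 := (innerSL ℝ e).hasFDerivAt (x := x)
      have e1 : (fun x : E => ⟪x, e⟫ - c) = fun x => innerSL ℝ e x - c := by
        funext y
        rw [innerSL_apply_apply, real_inner_comm]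
      rw [e1]
      exact h3.sub_const c
    have h4 : HasFDerivAt ζ _ x := (h1.mul h1).mul h2
    rw [h4.fderiv]
    simp only [_root_.add_apply, _root_.smul_apply, smul_eq_mul, innerSL_apply_apply, Pi.mul_apply,
      real_inner_comm e w]
    ring
  set F : E → ℝ := fun x => fderiv ℝ ζ x e - ⟪M.N x, e⟫ * fderiv ℝ ζ x (M.N x) with hF
  have hFe : ∀ x ∈ M.S, F x = η x * η x * wedge (M.N x) e ^ 2 +
      2 * η x * (⟪x, e⟫ - c) * fderiv ℝ η x (e - ⟪e, M.N x⟫ • M.N x) := by
    intro x hx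
    rw [hF]
    simp only
    rw [hder, hder, wedge_sq (M.N_unit x hx) he, map_sub, map_smul, real_inner_self_eq_norm_sq, he,
      real_inner_comm (M.N x) e, smul_eq_mul]
    ring
  have hball : ball p (3 / 2 * r) ⊆ ball p (2 * r) := ball_subset_ball (by linarith)
  have hcross : ∀ x ∈ M.S, x ∈ ball p (2 * r) →
      |(⟪x, e⟫ - c) * fderiv ℝ η x (e - ⟪e, M.N x⟫ • M.N x)| ≤ |h| * (K / r) * wedge (M.N x) e := by
    intro x hx hb
    rw [abs_mul, wedge_comm (M.N_unit x hx) he, mul_assoc]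
    exact mul_le_mul ((hh x ⟨hx, hb⟩).trans (le_abs_self h)) (hD x _) (abs_nonneg _) (abs_nonneg _)
  have hFm : Measurable F := by
    have hc : Continuous fun q : E × E => fderiv ℝ ζ q.1 e - ⟪q.2, e⟫ * fderiv ℝ ζ q.1 q.2 := by
      have h1 := (hζc.continuous_fderiv one_ne_zero).comp (continuous_fst (X := E) (Y := E))
      exact (h1.clm_apply continuous_const).sub
        ((continuous_snd.inner continuous_const).mul (h1.clm_apply continuous_snd))
    exact hc.measurable.comp (measurable_id.prodMk M.N_meas)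
  have hKr : 0 ≤ |h| * (K / r) := by positivity
  have hFi : Integrable F M.μ := by
    refine hM.bd.integrable (A := ball p (2 * r)) isBounded_ball hFm
      (C := 1 + 2 * (|h| * (K / r))) (fun x hx => ?_) fun x hx hb => ?_
    · rw [hFe x hx]
      by_cases hb : x ∈ ball p (2 * r)
      · have a1 := hcross x hx hb
        have a2 := wedge_nonneg (M.N x) e
        have a3 := wedge_le_one (M.N_unit x hx) he
        obtain ⟨a4, a5⟩ := hη01 x
        have a6 : |η x * η x * wedge (M.N x) e ^ 2| ≤ 1 := by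
          rw [abs_of_nonneg (by positivity)]
          exact mul_le_one₀ (mul_le_one₀ a5 a4 a5) (sq_nonneg _) (pow_le_one₀ a2 a3)
        have a7 : |2 * η x * (⟪x, e⟫ - c) * fderiv ℝ η x (e - ⟪e, M.N x⟫ • M.N x)| ≤
            2 * (|h| * (K / r)) := by
          rw [mul_assoc, abs_mul, abs_of_nonneg (by positivity : 0 ≤ 2 * η x)]
          exact mul_le_mul (by linarith) (a1.trans (mul_le_of_le_one_right hKr a3))
            (abs_nonneg _) zero_le_two
        exact (abs_add_le _ _).trans (add_le_add a6 a7)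
      · rw [hη0 x fun h' => hb (hball h')]
        simp only [mul_zero, zero_mul, add_zero, abs_zero]
        positivity
    · rw [hFe x hx, hη0 x fun h' => hb (hball h')]
      ring
  set G : E → ℝ := fun x => η x * η x * wedge (M.N x) e ^ 2 with hG
  have hG0 : ∀ x, 0 ≤ G x := fun x => mul_nonneg (mul_self_nonneg _) (sq_nonneg _)
  have hGi : Integrable G M.μ := by
    refine hM.bd.integrable (A := ball p (2 * r)) isBounded_ball
      ((hη.continuous.measurable.mul hη.continuous.measurable).mul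
        ((measurable_wedge M e).pow_const 2)) (C := 1) (fun x hx => ?_) fun x _ hb => ?_
    · obtain ⟨a4, a5⟩ := hη01 x
      rw [abs_of_nonneg (hG0 x)]
      exact mul_le_one₀ (mul_le_one₀ a5 a4 a5) (sq_nonneg _)
        (pow_le_one₀ (wedge_nonneg _ _) (wedge_le_one (M.N_unit x hx) he))
    · rw [hG]
      simp only [hη0 x fun h' => hb (hball h'), zero_mul]
  set B : ℝ := 4 * (|h| * (K / r)) ^ 2 with hB
  have hHi : Integrable ((ball p (2 * r)).indicator fun _ => B) M.μ :=
    (integrable_indicator_iff measurableSet_ball).2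
      (integrableOn_const (hM.bd.lt_top isBounded_ball).ne)
  have hle : ∫ x, G x ∂M.μ ≤ ∫ x, (2 * F x + (ball p (2 * r)).indicator (fun _ => B) x) ∂M.μ := by
    refine integral_mono_ae hGi ((hFi.const_mul 2).add hHi) ?_
    filter_upwards [M.ae_mem] with x hx
    rw [hFe x hx, hG]
    by_cases hb : x ∈ ball p (2 * r)
    · rw [indicator_of_mem hb]
      have a1 := (abs_le.1 (hcross x hx hb)).1
      have a4 := (hη01 x).1
      have a2 := mul_le_mul_of_nonneg_left a1 a4
      simp only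
      nlinarith [sq_nonneg (η x * wedge (M.N x) e - 2 * (|h| * (K / r)))]
    · rw [indicator_of_notMem hb]
      simp only [hη0 x fun h' => hb (hball h'), zero_mul, mul_zero, add_zero, le_refl]
  rw [integral_add (hFi.const_mul 2) hHi, integral_const_mul, hfv,
    integral_indicator measurableSet_ball, setIntegral_const, smul_eq_mul] at hle
  have hμ := hM.bd.real_ball p (r := 2 * r) (by linarith)
  have h1 : ∫ x in ball p r, wedge (M.N x) e ^ 2 ∂M.μ = ∫ x in ball p r, G x ∂M.μ := by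
    refine setIntegral_congr_fun measurableSet_ball fun x hx => ?_
    rw [hG]
    simp only [hη1 x hx, one_mul]
  have h2 : ∫ x in ball p r, G x ∂M.μ ≤ ∫ x, G x ∂M.μ :=
    setIntegral_le_integral hGi (Eventually.of_forall hG0)
  have h3 : M.μ.real (ball p (2 * r)) * B ≤ 2 * π * (2 * r) ^ 2 * B :=
    mul_le_mul_of_nonneg_right hμ (by positivity)
  have h4 : 2 * π * (2 * r) ^ 2 * B = 32 * π * K ^ 2 * h ^ 2 := by
    rw [hB, mul_pow |h|, sq_abs]
    field_simp
    ring
  linarith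

theorem tilt (M : Surf) (hM : M.Mem) (p ν e : E) (s : ℝ) (hν : ‖ν‖ = 1) (he : ‖e‖ = 1)
    (hs : 0 < s) (hΘ : 3 / 2 ≤ M.Θ p s) :
    wedge ν e ^ 2 * s ^ 2 ≤ 2 * (∫ x in ball p s, wedge (M.N x) ν ^ 2 ∂M.μ)
      + 2 * ∫ x in ball p s, wedge (M.N x) e ^ 2 ∂M.μ := by
  have i1 := integrableOn_wedge hM hν p s
  have i2 := integrableOn_wedge hM he p s
  have h1 : ∫ _ in ball p s, wedge ν e ^ 2 ∂M.μ ≤
      ∫ x in ball p s, (2 * wedge (M.N x) ν ^ 2 + 2 * wedge (M.N x) e ^ 2) ∂M.μ := by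
    refine integral_mono_ae (integrableOn_const (hM.bd.lt_top isBounded_ball).ne)
      ((i1.const_mul 2).add (i2.const_mul 2)) ?_
    filter_upwards [ae_restrict_of_ae M.ae_mem] with x hx
    have hN := M.N_unit x hx
    have a1 := wedge_triangle hν hN he
    rw [wedge_comm hν hN] at a1
    have a2 : wedge ν e ^ 2 ≤ (wedge (M.N x) ν + wedge (M.N x) e) ^ 2 :=
      pow_le_pow_left₀ (wedge_nonneg _ _) a1 2
    nlinarith [sq_nonneg (wedge (M.N x) ν - wedge (M.N x) e)]
  rw [integral_add (i1.const_mul 2) (i2.const_mul 2), integral_const_mul, integral_const_mul,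
    setIntegral_const, smul_eq_mul] at h1
  have h2 := hM.bd.Θ_le_mass p hs
  have h3 : s ^ 2 ≤ π / 4 * s ^ 2 * M.Θ p s := by
    have a1 := Real.pi_gt_three
    have a2 : (1 : ℝ) ≤ π / 4 * M.Θ p s := by nlinarith
    nlinarith [sq_nonneg s]
  have h4 : wedge ν e ^ 2 * s ^ 2 ≤ wedge ν e ^ 2 * M.μ.real (ball p s) :=
    mul_le_mul_of_nonneg_left (h3.trans h2) (sq_nonneg _)
  linarith

end DCACC3

theorem cacc3_of (hFV : S_FV) : S_CACC3 := ⟨DCACC3.cacc hFV, DCACC3.tilt⟩

end MW
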