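import Pool.Agent.P.MP_064970_gt.D.API

/-! Case II. SYMII gives e; SYM gives Bigraph e a; exists_frame with r = 1 gives IsSim M' M A 1 0 (use IsSim.symm for the conclusion; 1⁻¹ = 1), IsSim.bigraph, cone, cxg, mem, flat, typeII. Bigraph.big, ne, E0_eq_zero.
H(k) at all large r from NEXT with β = 0, C δ ≤ k^4, δ ≤ 1: GAP gives Θ 0 r, Θ 0 (k r) close to 2, TypeII gives the picture; for r ≥ 10 R: r/10 < |x 2| ≤ ‖x‖ < 3r gives R ≤ ‖x‖ and ‖x‖/40 < |x 2|. ENDG. -/

open MeasureTheory Set Filter Topology Metric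
open scoped RealInnerProductSpace ENNReal NNReal ComplexConjugate Real

noncomputable section

namespace MW

namespace DCASEII

end DCASEII

theorem caseII_of (h1 : S_SYMII) (h2 : S_SYM) (h3 : S_NEXT) (h4 : S_GAP) (h5 : S_ENDG) :
    S_CASEII := by
  intro ε hε M hM hpc hnf hII
  obtain ⟨e, he, hcone, hcxg, hez⟩ := h1 ε hε M hM hnf hII
  obtain ⟨a, hbig⟩ := h2 M e hM hpc hnf he hcxg hez
  obtain ⟨M', A, hA, hsim⟩ := M.exists_frame he one_pos
  have hM' : M'.Mem := hsim.symm.mem hM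
  have hII' : M'.TypeII ε := (hsim.typeII ε).1 hII
  have hnf' : ¬ M'.Flat := fun h => hnf (hsim.flat.2 h)
  have hbig' : M'.Bigraph e3 a := by
    rw [← hsim.bigraph e3 a, hA]
    simpa using hbig
  have hcxg' : M'.CXg e3 := by
    rw [← hsim.cxg norm_e3, hA]
    exact hcxg
  have hcone' : M'.Cone e3 (1 / 40) := by
    rw [← hsim.cone e3 (1 / 40), hA]
    exact hcone
  refine ⟨M', A.symm, -((1 : ℝ)⁻¹ • A.symm 0), a, by simpa using hsim.symm, ?_⟩
  refine h5 ε hε M' a hM' hII' (hbig'.big hcxg') ?_ (hbig'.E0_eq_zero hM') ?_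
  · obtain ⟨x, hx, hxa⟩ := hbig'.ne
    exact ⟨x, hx, by rwa [inner_e3] at hxa⟩
  intro k hk hk'
  obtain ⟨C, hC, hN⟩ := h3
  obtain ⟨R, hR, hcn⟩ := hcone'
  set δ := min 1 (k ^ 4 / C) with hδ
  have hδ0 : 0 < δ := lt_min one_pos (by positivity)
  have hδC : C * (0 + δ) ≤ k ^ 4 := by
    rw [zero_add]
    have : δ ≤ k ^ 4 / C := min_le_right _ _
    rwa [le_div_iff₀ hC, mul_comm] at this
  have hg := h4 M' hM' hnf' 0
  have hη : 0 < min k (ε δ) := lt_min hk (hε δ hδ0)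
  obtain ⟨s₀, hs₀⟩ := eventually_atTop.1
    (hg.eventually (lt_mem_nhds (show 2 - min k (ε δ) < 2 by linarith)))
  refine ⟨max (10 * R) (max s₀ (s₀ / k)), lt_max_of_lt_left (by positivity), fun r hr => ?_⟩
  have hr1 : 10 * R ≤ r := (le_max_left _ _).trans hr
  have hr2 : s₀ ≤ r := ((le_max_left _ _).trans (le_max_right _ _)).trans hr
  have hr3 : s₀ ≤ k * r := by
    have : s₀ / k ≤ r := ((le_max_right _ _).trans (le_max_right _ _)).trans hr
    rwa [div_le_iff₀ hk, mul_comm] at this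
  have hr0 : 0 < r := by linarith
  obtain ⟨ν, hν⟩ := hII' δ hδ0 (min_le_left _ _) 0 r hr0
    (by linarith [hs₀ r hr2, min_le_right k (ε δ)])
  refine hN M' e3 ν r k δ 0 hM' norm_e3 hr0 hk hk' hδ0 le_rfl hδC ?_ hν
    (by linarith [hs₀ _ hr3, min_le_left k (ε δ)]) ?_
  · intro x hx hx'
    have hx1 : ‖x‖ < 3 * r := by simpa using hx
    have hx2 : |⟪x, e3⟫| ≤ ‖x‖ := by rw [inner_e3]; exact abs_two_le x
    exact hcn x (by linarith) (by linarith)
  · rw [hbig'.E0_eq_zero hM', zero_mul]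

end MW
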