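import Pool.Agent.P.MP_064970_gt.D.API

/-! D2, assembly by contradiction. Λ_j = Λ₀ + 4 + j, c_j = 1/(j+1), T₀ = Λ_j^4 give M_j, T_j ≥ Λ_j^4 with: not TyR, E0 < c_j, and Flux < c_j or some unit θ_j has ∫ < c_j.
U = hyperfilter ℕ (Nat.hyperfilter_le_atTop), LIM gives M. L = om/8. If x₀ ∉ limO: COR gives Θ_j x₀ 1 → 2, TypeII gives FlatW x₀ 1 δ ν eventually (δ from CELLB, R = ‖x₀‖ + 1),
CELLB and E0_mono contradict E0 < c_j → 0. Else M.Mem; Θ 0 2 ≥ 3/2 (CONV), so not Flat (Flat.reg, UP); the open set {Λ₀ < ‖z‖, L‖pr z‖ < |z 2|} is in W' (CONV, open set clause);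
CXg e3 (norm_sub_inner_e3). Not preconnected: CELLR. Preconnected: EDZ with ek = e3 (ball_subset_cyl, E0_mono, E0_nonneg), SYM gives Bigraph e3 a.
If Flux_j < c_j for U-most j: Λ' = max Λ₁ Λ₀ (FLUXPOS), FLUXLIM at Λ', FLUXMONO with T = T_j/2 (CXat.slab): Flux_j(Λ_j) ≥ Flux_j(Λ') - 2C/Λ_j → FluxN > 0. Else CELLN
(θ_j by choice, 1 as default). -/

open MeasureTheory Set Filter Topology Metric
open scoped RealInnerProductSpace ENNReal NNReal ComplexConjugate Real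

noncomputable section

namespace MW

namespace DCELL

theorem tendsto_c (U : Ultrafilter ℕ) (hU : (U : Filter ℕ) ≤ atTop) :
    Tendsto (fun j : ℕ => 1 / ((j : ℝ) + 1)) U (𝓝 0) :=
  tendsto_one_div_add_atTop_nhds_zero_nat.mono_left hU

theorem ev_le (U : Ultrafilter ℕ) (hU : (U : Filter ℕ) ≤ atTop) (a R : ℝ) :
    ∀ᶠ j : ℕ in (U : Filter ℕ), R ≤ a + j := by
  apply hU
  have : Tendsto (fun j : ℕ => a + (j : ℝ)) atTop atTop :=
    tendsto_atTop_add_const_left _ _ tendsto_natCast_atTop_atTop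
  exact this.eventually_ge_atTop R

theorem le_pow4 {Λ : ℝ} (h : 4 ≤ Λ) : 64 * Λ ≤ Λ ^ 4 := by
  have h1 : 16 ≤ Λ ^ 2 := by nlinarith
  have h2 : 64 ≤ Λ ^ 3 := by nlinarith
  nlinarith

theorem int_mono {M : Surf} (hM : M.Mem) {θ : ℂ} (hθ : ‖θ‖ = 1) {A B : Set E} (hAB : A ⊆ B)
    (hB : Bornology.IsBounded B) (hBm : MeasurableSet B) :
    ∫ x in A, ⟪pr (M.N x), θ⟫ ^ 2 ∂M.μ ≤ ∫ x in B, ⟪pr (M.N x), θ⟫ ^ 2 ∂M.μ := by
  apply setIntegral_mono_set _ (Eventually.of_forall fun x => sq_nonneg _) hAB.eventuallyLE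
  refine hM.bd.integrableOn hB (C := 1) ?_ ?_ hBm
  · exact ((measurable_pr.comp M.N_meas).inner measurable_const).pow_const 2
  · intro x hx
    have h1 : |⟪pr (M.N x), θ⟫| ≤ 1 := by
      refine (abs_real_inner_le_norm _ _).trans ?_
      rw [hθ, mul_one]
      exact (norm_pr_le _).trans (M.N_unit x hx.2).le
    rw [abs_pow]
    exact pow_le_one₀ (abs_nonneg _) h1

end DCELL

open DCELL in
theorem cell_of (hL : S_LIM) (hCo : S_COR) (hCv : S_CONV) (hU : S_UP) (hZ : S_EDZ) (hS : S_SYM)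
    (hB : S_CELLB) (hR : S_CELLR) (hFl : S_FLUXLIM) (hFp : S_FLUXPOS) (hFm : S_FLUXMONO)
    (hN : S_CELLN) : S_CELL := by
  intro ε hε om om₀ Λ₀ hom hom' hom₀ hΛ₀
  by_contra hcon
  have hex : ∀ j : ℕ, ∃ (M : Surf) (T : ℝ) (θ : ℂ), M.Mem ∧ M.TypeII ε ∧ (Λ₀ + 4 + j) ^ 4 ≤ T ∧
      M.CellHyp Λ₀ (om / 8) om₀ T ∧ ¬ M.TyR om 0 4 (Λ₀ + 5) ∧
      M.E0 e3 (cyl (ball 0 (Λ₀ + 4 + j)) (2 * (Λ₀ + 4 + j))) < 1 / ((j : ℝ) + 1) ∧ ‖θ‖ = 1 ∧
      (M.Flux (2 * (Λ₀ + 4 + j)) (bmp 0 (Λ₀ + 4 + j)) < 1 / ((j : ℝ) + 1) ∨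
        ∫ x in cyl (ball 0 (Λ₀ + 4 + j)) (2 * (Λ₀ + 4 + j)), ⟪pr (M.N x), θ⟫ ^ 2 ∂M.μ
          < 1 / ((j : ℝ) + 1)) := by
    intro j
    have hj : (0 : ℝ) ≤ j := Nat.cast_nonneg j
    by_contra hno
    apply hcon
    refine ⟨Λ₀ + 4 + j, 1 / ((j : ℝ) + 1), (Λ₀ + 4 + j) ^ 4, by linarith, by linarith,
      by positivity, by rw [div_le_one (by positivity)]; linarith, by positivity, ?_⟩
    intro M hM hII T hT hC
    by_cases h1 : M.TyR om 0 4 (Λ₀ + 5)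
    · exact Or.inl h1
    right
    by_cases h2 : 1 / ((j : ℝ) + 1) ≤ M.E0 e3 (cyl (ball 0 (Λ₀ + 4 + j)) (2 * (Λ₀ + 4 + j)))
    · exact Or.inl h2
    right
    constructor
    · by_contra h3
      exact hno ⟨M, T, 1, hM, hII, hT, hC, h1, not_le.1 h2, norm_one, Or.inl (not_le.1 h3)⟩
    · intro θ hθ
      by_contra h3
      exact hno ⟨M, T, θ, hM, hII, hT, hC, h1, not_le.1 h2, hθ, Or.inr (not_le.1 h3)⟩
  choose Mk T θk hM hII hT hC hnR hE hθ hF using hex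
  set U : Ultrafilter ℕ := hyperfilter ℕ with hUdef
  have hUt : (U : Filter ℕ) ≤ atTop := Nat.hyperfilter_le_atTop
  have hc0 := tendsto_c U hUt
  have hΛ4 : ∀ j : ℕ, 4 ≤ Λ₀ + 4 + j := fun j => by
    have hj : (0 : ℝ) ≤ j := Nat.cast_nonneg j
    linarith
  have hT64 : ∀ j : ℕ, 64 * (Λ₀ + 4 + j) ≤ T j := fun j => (le_pow4 (hΛ4 j)).trans (hT j)
  have hTR : ∀ R : ℝ, ∀ᶠ j : ℕ in (U : Filter ℕ), R ≤ T j := fun R => by
    filter_upwards [ev_le U hUt (Λ₀ + 4) R] with j hj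
    have := hT64 j
    have := hΛ4 j
    linarith
  have hbdd : ∀ r t : ℝ, Bornology.IsBounded (cyl (ball (0 : ℂ) r) t) := fun r t =>
    isBounded_cyl isBounded_ball t
  obtain ⟨M, hO, hBd, hConv⟩ := hL U Mk hM
  have hL0 : 0 < om / 8 := by positivity
  by_cases hbad : ∃ x₀, x₀ ∉ limO U Mk
  · obtain ⟨x₀, hx₀⟩ := hbad
    have hsp := hCo U Mk hM x₀ hx₀ 1 one_pos
    obtain ⟨c, hc, hB'⟩ := hB om₀ Λ₀ (om / 8) hom₀ hΛ₀ hL0 (by linarith)
    obtain ⟨δ, T₀, hδ, hδ1, hB''⟩ := hB' (‖x₀‖ + 1) (by positivity)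
    have h1 : ∀ᶠ j : ℕ in (U : Filter ℕ), 2 - ε δ < (Mk j).Θ x₀ 1 :=
      hsp.eventually (lt_mem_nhds (by linarith [hε δ hδ]))
    have h2 : ∀ᶠ j : ℕ in (U : Filter ℕ), 1 / ((j : ℝ) + 1) < c :=
      hc0.eventually (gt_mem_nhds hc)
    obtain ⟨j, hj1, hj2, hj3⟩ := (h1.and (h2.and (hTR T₀))).exists
    obtain ⟨ν, hν⟩ := hII j δ hδ hδ1 x₀ 1 one_pos (by linarith)
    have h3 := hB'' (Mk j) (hM j) (T j) hj3 (hC j) x₀ ν (by linarith) hν
    have h4 : (Mk j).E0 e3 (cyl (ball 0 1) (2 * Λ₀))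
        ≤ (Mk j).E0 e3 (cyl (ball 0 (Λ₀ + 4 + j)) (2 * (Λ₀ + 4 + j))) := by
      refine (hM j).E0_mono norm_e3 ?_ (hbdd _ _)
      rintro x ⟨⟨hx1, hx2⟩, -⟩
      have hj : (0 : ℝ) ≤ j := Nat.cast_nonneg j
      exact ⟨ball_subset_ball (by linarith) hx1, by linarith⟩
    linarith [hE j]
  have hOu : M.O = univ := by
    rw [hO]
    exact eq_univ_of_forall fun x => by
      by_contra hx
      exact hbad ⟨x, hx⟩
  have hMem : M.Mem := ⟨hOu, hBd⟩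
  obtain ⟨-, -, hΘ, -, -, -, -, hW', -⟩ := hCv U Mk M hM hConv
  have hdens : 3 / 2 ≤ M.Θ 0 2 :=
    ge_of_tendsto (hΘ 0 2 two_pos (hMem.sub _)) (Eventually.of_forall fun j => (hC j).dens)
  have hnf : ¬ M.Flat := fun hf => by
    have := hU M hMem 0 2 two_pos (hf.reg 0 2)
    linarith
  have hcx : ∀ z : E, Λ₀ < ‖z‖ → om / 8 * ‖pr z‖ < |z 2| → z ∈ M.W' := by
    have hG : IsOpen {z : E | Λ₀ < ‖z‖ ∧ om / 8 * ‖pr z‖ < |z 2|} := by
      have h1 : IsOpen {z : E | Λ₀ < ‖z‖} := isOpen_lt continuous_const continuous_norm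
      have h2 : IsOpen {z : E | om / 8 * ‖pr z‖ < |z 2|} :=
        isOpen_lt (continuous_const.mul continuous_pr.norm) (by fun_prop)
      exact h1.inter h2
    intro z h1 h2
    refine hW' _ hG (hMem.sub _) ?_ ⟨h1, h2⟩
    rintro x ⟨hx1, hx2⟩
    filter_upwards [hTR (‖x‖ + 1)] with j hj
    refine (hC j).cx x (by simpa using hx1.le) (by simpa using by linarith) ?_
    simpa using hx2
  have hcxg : M.CXg e3 := by
    refine ⟨Λ₀ + 1, om / 8, by linarith, hL0, fun x h1 h2 => hcx x (by linarith) ?_⟩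
    rwa [norm_sub_inner_e3, inner_e3] at h2
  by_cases hpc : IsPreconnected M.S
  swap
  · obtain ⟨j, hj⟩ := (hR U Mk M om Λ₀ hM hMem hConv hpc hom hom' hΛ₀ hcx).exists
    exact hnR j hj
  have hEz : M.EdZero e3 := by
    refine hZ U Mk M (fun _ => e3) e3 hM hMem hConv (fun _ => norm_e3) tendsto_const_nhds hcxg ?_
    intro R
    refine squeeze_zero' (Eventually.of_forall fun j => (Mk j).E0_nonneg _ _) ?_ hc0
    filter_upwards [ev_le U hUt (Λ₀ + 4) R] with j hj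
    refine le_trans ((hM j).E0_mono norm_e3 ?_ (hbdd _ _)) (hE j).le
    have := hΛ4 j
    exact inter_subset_left.trans (ball_subset_cyl hj (by linarith))
  obtain ⟨a, hBig⟩ := hS M e3 hMem hpc hnf norm_e3 hcxg hEz
  rcases U.em (fun j : ℕ => (Mk j).Flux (2 * (Λ₀ + 4 + j)) (bmp 0 (Λ₀ + 4 + j))
      < 1 / ((j : ℝ) + 1)) with hfl | hfl
  · obtain ⟨Λ₁, hΛ₁⟩ := hFp M a hMem hBig
    set Λ' := max Λ₁ Λ₀ with hΛ'
    have hΛ'0 : Λ₀ ≤ Λ' := le_max_right _ _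
    have hΛ'p : 0 < Λ' := by linarith
    have hsl : M.Slab (closedBall 0 Λ') (3 / 2 * Λ') (2 * Λ') := by
      intro y hy t ht1 ht2
      have hy' : ‖y‖ ≤ Λ' := by simpa using hy
      apply hcx
      · have := abs_two_le (pt y t)
        rw [pt_two] at this
        linarith
      · rw [pr_pt, pt_two]
        nlinarith [norm_nonneg y]
    have hpos := hΛ₁ Λ' (le_max_left _ _) hΛ'p hsl
    have hslk : ∀ᶠ j : ℕ in (U : Filter ℕ), (Mk j).Slab (closedBall 0 Λ') Λ' (2 * Λ') := by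
      filter_upwards [hTR (3 * Λ' + 1)] with j hj
      exact (hC j).cx.slab (by linarith) hΛ'p hΛ'0 (by linarith)
    have hlim := hFl U Mk M a Λ' hM hMem hConv hBig hΛ'p hslk hsl
    obtain ⟨C, hCp, hmono⟩ := hFm
    have hlow : Tendsto (fun j : ℕ => (Mk j).Flux (2 * Λ') (bmp 0 Λ')
        - (2 * C + 1) * (1 / ((j : ℝ) + 1))) U (𝓝 (M.FluxN (2 * Λ') (bmp 0 Λ') - (2 * C + 1) * 0)) :=
      hlim.sub (hc0.const_mul _)
    rw [mul_zero, sub_zero] at hlow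
    obtain ⟨j, hj1, hj2, hj3⟩ := ((hlow.eventually (lt_mem_nhds hpos)).and
      (hfl.and (ev_le U hUt (Λ₀ + 4) (2 * Λ')))).exists
    have h4 := hΛ4 j
    have h64 := hT64 j
    have hj : (0 : ℝ) ≤ j := Nat.cast_nonneg j
    have hm := hmono (Mk j) (hM j) Λ' (Λ₀ + 4 + j) (T j / 2) (by linarith) hj3 (by linarith)
      ((hC j).cx.slab (by linarith) hΛ'p hΛ'0 (by linarith))
      ((hC j).cx.slab (by linarith) (by linarith) (by linarith) (by linarith))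
    have hest : C * (Λ₀ + 4 + j) ^ 3 / (T j / 2) ≤ 2 * C * (1 / ((j : ℝ) + 1)) := by
      rw [div_le_iff₀ (by linarith)]
      have h5 : (Λ₀ + 4 + j) ^ 3 * ((j : ℝ) + 1) ≤ T j := by
        refine le_trans ?_ (hT j)
        have : (Λ₀ + 4 + j) ^ 4 = (Λ₀ + 4 + j) ^ 3 * (Λ₀ + 4 + j) := by ring
        rw [this]
        exact mul_le_mul_of_nonneg_left (by linarith) (by positivity)
      have h6 : 2 * C * (1 / ((j : ℝ) + 1)) * (T j / 2) = C * (T j / ((j : ℝ) + 1)) := by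
        field_simp
      rw [h6]
      refine mul_le_mul_of_nonneg_left ?_ hCp.le
      rw [le_div_iff₀ (by positivity)]
      exact h5
    linarith
  · refine hN U Mk M θk hM hMem hConv hpc hnf hθ fun R => ?_
    refine squeeze_zero' (Eventually.of_forall fun j => integral_nonneg fun x => sq_nonneg _) ?_ hc0
    filter_upwards [hfl, ev_le U hUt (Λ₀ + 4) R] with j hj1 hj2
    have h1 := (hF j).resolve_left hj1
    have := hΛ4 j
    refine le_trans (int_mono (hM j) (hθ j) (ball_subset_cyl hj2 (by linarith)) (hbdd _ _)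
      (measurableSet_cyl measurableSet_ball _)) h1.le

end MW
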