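import Pool.Agent.P.MP_064970_gt.D.API

/-! D2, bad points. c = om₀^2/128. w = wedge ν e3 ≤ 2L: else take v from exists_steepest, q = x₀ + t v with t = 2(R+1)/L + Λ₀ + R + 1 < 1/δ,
FlatW.exists_mem gives x ∈ S within δ of q, and x violates CXat (T ≥ t + R + 2). So ν 2 ^ 2 ≥ 24/25; q₀ = pt 0 t₀ with t₀ = ⟪x₀,ν⟫/ν 2 lies on the plane,
|t₀| ≤ 2R, FlatW.dens and MONO give Θ q₀ r ≥ 2 - δ ≥ 3/2 for r ≥ 1/2 ≥ δ: the second alternative of `stop` fails. With Z = cyl (ball 0 1) (2Λ₀) ⊆ ball x₀ (1/δ):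
om₀^2/4 ≤ ∫_Z ‖pr N‖^2 ≤ 2 w^2 μ(Z) + 2δ (wedge_e3, wedge_triangle, FlatW.tilt). Slab (ball 0 1) Λ₀ (2Λ₀) from CXat directly; ELB:
E0 ≥ w^2 μ(Z)/8 - 100 δ ≥ om₀^2/64 - 101 δ. -/

open MeasureTheory Set Filter Topology Metric
open scoped RealInnerProductSpace ENNReal NNReal ComplexConjugate Real

noncomputable section

namespace MW

namespace DCELLB

/-- The plane of the picture is not steep. -/
theorem wedge_le {M : Surf} {Λ₀ L T R δ t : ℝ} {x₀ ν : E} (hL : 0 < L) (hL1 : L ≤ 1 / 10)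
    (hc : M.CXat 0 Λ₀ L T) (hx : ‖x₀‖ ≤ R) (h : M.FlatW x₀ 1 δ ν) (hδ : 0 < δ) (hδ1 : δ ≤ 1)
    (ht0 : 0 < t) (ht1 : 2 * (R + 1) ≤ L * t) (ht2 : Λ₀ + R + 1 ≤ t) (ht3 : t < 1 / δ)
    (hT : R + t + 1 ≤ T) : wedge ν e3 ≤ 2 * L := by
  by_contra hw
  rw [not_le] at hw
  obtain ⟨v, hv1, hv2, hv3⟩ := exists_steepest norm_e3 h.unit
  rw [inner_e3] at hv3
  have hn : ‖t • v‖ = t := by rw [norm_smul, hv1, mul_one, Real.norm_of_nonneg ht0.le]
  obtain ⟨x, hxS, hxq⟩ := h.exists_mem one_pos hδ hδ1 (q := x₀ + t • v)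
    (by rwa [mem_ball_iff_norm, add_sub_cancel_left, hn])
    (by rw [add_sub_cancel_left, real_inner_smul_left, hv2, mul_zero])
  rw [mem_ball_iff_norm, mul_one] at hxq
  obtain ⟨d, hd⟩ : ∃ d, d = x - (x₀ + t • v) := ⟨_, rfl⟩
  rw [← hd] at hxq
  have hx' : x = t • v + (x₀ + d) := by
    rw [hd]
    abel
  have h1 : ‖x₀ + d‖ < R + 1 := by linarith [norm_add_le x₀ d]
  have h2 : ‖x‖ < R + t + 1 := by
    have := norm_add_le (t • v) (x₀ + d)
    rw [← hx'] at this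
    linarith
  have h3 : Λ₀ ≤ ‖x‖ := by
    have := norm_sub_le x (x₀ + d)
    rw [show x - (x₀ + d) = t • v by rw [hx', add_sub_cancel_right], hn] at this
    linarith
  have h4 : t * wedge ν e3 - (R + 1) < x 2 := by
    have e : x 2 = t * v 2 + (x₀ + d) 2 := by rw [hx']; rfl
    have := (abs_le.1 (abs_two_le (x₀ + d))).1
    rw [e, hv3]
    linarith
  refine Surf.not_mem_W' hxS (hc x (by rwa [sub_zero]) (by rw [sub_zero]; linarith) ?_)
  have h5 := norm_pr_le x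
  have h6 : L * ‖pr x‖ ≤ L * (R + t + 1) := mul_le_mul_of_nonneg_left (by linarith) hL.le
  have h7 : t * (2 * L) < t * wedge ν e3 := mul_lt_mul_of_pos_left hw ht0
  have hR : 0 ≤ R := (norm_nonneg _).trans hx
  have h8 : L * (R + 1) ≤ 1 / 10 * (R + 1) := mul_le_mul_of_nonneg_right hL1 (by linarith)
  rw [pr_zero, sub_zero, PiLp.zero_apply, sub_zero]
  refine lt_of_lt_of_le ?_ (le_abs_self _)
  nlinarith

/-- The plane of the picture meets the vertical axis in a point of high density. -/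
theorem exists_dens (hmono : S_MONO) {M : Surf} (hM : M.Mem) {R δ r : ℝ} {x₀ ν : E} (hR : 0 < R)
    (hx : ‖x₀‖ ≤ R) (h : M.FlatW x₀ 1 δ ν) (hδ : 0 < δ) (hδ1 : δ ≤ 1 / 2) (hr : δ ≤ r)
    (hw : wedge ν e3 ≤ 1 / 2) (h3 : 3 * R < 1 / δ) :
    ∃ t : ℝ, |t| ≤ 2 * R ∧ 3 / 2 ≤ M.Θ (pt 0 t) r := by
  have h1 := wedge_sq h.unit norm_e3
  rw [inner_e3] at h1
  have h2 : 1 / 2 ≤ |ν 2| := by
    refine abs_le_of_sq_le_sq' ?_ (abs_nonneg _) |>.2
    rw [sq_abs]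
    nlinarith [wedge_nonneg ν e3]
  have h0 : ν 2 ≠ 0 := abs_pos.1 (by linarith)
  have h4 : |⟪x₀, ν⟫ / ν 2| ≤ 2 * R := by
    have := abs_real_inner_le_norm x₀ ν
    rw [h.unit, mul_one] at this
    rw [abs_div, div_le_iff₀ (by linarith)]
    nlinarith
  refine ⟨⟪x₀, ν⟫ / ν 2, h4, ?_⟩
  have h5 : ‖pt 0 (⟪x₀, ν⟫ / ν 2)‖ ≤ 2 * R := by
    have := norm_le_pr_add (pt 0 (⟪x₀, ν⟫ / ν 2))
    rw [pr_pt, pt_two, norm_zero, zero_add] at this
    linarith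
  have h6 := h.dens (pt 0 (⟪x₀, ν⟫ / ν 2))
    (by
      rw [mem_ball_iff_norm]
      linarith [norm_sub_le (pt 0 (⟪x₀, ν⟫ / ν 2)) x₀])
    (by
      rw [inner_sub_left, real_inner_comm ν (pt _ _), inner_pt, inner_zero_right, zero_add,
        mul_div_cancel₀ _ h0, sub_self])
  rw [mul_one] at h6
  have h7 := (hmono M (pt 0 (⟪x₀, ν⟫ / ν 2)) δ r hδ hr (hM.sub _)).1
  linarith

theorem int_wedge {M : Surf} (hM : M.Mem) {ν : E} (hν : ‖ν‖ = 1) {A : Set E}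
    (hA : Bornology.IsBounded A) (hm : MeasurableSet A) :
    IntegrableOn (fun x => wedge (M.N x) ν ^ 2) A M.μ := by
  refine hM.bd.integrableOn hA (C := 1)
    ((continuous_wedge.measurable.comp (M.N_meas.prodMk measurable_const)).pow_const 2)
    (fun x hx => ?_) hm
  have h1 := wedge_le_one (M.N_unit x hx.2) hν
  have h2 := wedge_nonneg (M.N x) ν
  rw [abs_of_nonneg (sq_nonneg _)]
  nlinarith

theorem int_mono {M : Surf} (hM : M.Mem) {ν : E} (hν : ‖ν‖ = 1) {A B : Set E}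
    (hB : Bornology.IsBounded B) (hm : MeasurableSet B) (h : A ⊆ B) :
    ∫ x in A, wedge (M.N x) ν ^ 2 ∂M.μ ≤ ∫ x in B, wedge (M.N x) ν ^ 2 ∂M.μ :=
  setIntegral_mono_set (int_wedge hM hν hB hm) (Eventually.of_forall fun _ => sq_nonneg _)
    h.eventuallyLE

theorem int_tri {M : Surf} (hM : M.Mem) {ν : E} (hν : ‖ν‖ = 1) {A : Set E}
    (hA : Bornology.IsBounded A) (hm : MeasurableSet A) :
    ∫ x in A, wedge (M.N x) e3 ^ 2 ∂M.μ ≤
      2 * ∫ x in A, wedge (M.N x) ν ^ 2 ∂M.μ + 2 * (wedge ν e3 ^ 2 * M.μ.real A) := by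
  have h1 := (int_wedge hM hν hA hm).const_mul 2
  have h2 : IntegrableOn (fun _ : E => 2 * wedge ν e3 ^ 2) A M.μ :=
    integrableOn_const (hM.bd.lt_top hA).ne
  have h3 : ∫ x in A, wedge (M.N x) e3 ^ 2 ∂M.μ ≤
      ∫ x in A, (2 * wedge (M.N x) ν ^ 2 + 2 * wedge ν e3 ^ 2) ∂M.μ := by
    refine integral_mono_ae (int_wedge hM norm_e3 hA hm) (h1.add h2) ?_
    filter_upwards [ae_restrict_of_ae M.ae_unit] with x hx
    have k1 := wedge_triangle hx hν norm_e3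
    have k2 := wedge_nonneg (M.N x) e3
    nlinarith [sq_nonneg (wedge (M.N x) ν - wedge ν e3)]
  rw [integral_add h1 h2, integral_const_mul, setIntegral_const, smul_eq_mul] at h3
  linarith

end DCELLB

theorem cellb_of (hE : S_ELB) (hM : S_MONO) : S_CELLB := by
  intro om₀ Λ₀ L hom hΛ hL hL1
  refine ⟨om₀ ^ 2 / 128, by positivity, fun R hR => ?_⟩
  obtain ⟨t, ht⟩ : ∃ t, t = 2 * (R + 1) / L + Λ₀ + R + 1 := ⟨_, rfl⟩
  have h0 : 0 < 2 * (R + 1) / L := by positivity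
  have ht2 : Λ₀ + R + 1 ≤ t := by linarith
  have ht1 : 2 * (R + 1) ≤ L * t := by
    have := mul_le_mul_of_nonneg_left (show 2 * (R + 1) / L ≤ t by linarith) hL.le
    rwa [mul_div_cancel₀ _ hL.ne'] at this
  obtain ⟨δ, hδ, hδ1, hδ2⟩ : ∃ δ : ℝ, 0 < δ ∧ δ ≤ 1 / (4 * t) ∧ δ ≤ om₀ ^ 2 / 12928 :=
    ⟨min (1 / (4 * t)) (om₀ ^ 2 / 12928), lt_min (one_div_pos.2 (by linarith)) (by positivity),
      min_le_left _ _, min_le_right _ _⟩
  have hδ3 : 4 * t ≤ 1 / δ := (le_one_div (by linarith) hδ).2 hδ1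
  have hδ4 : δ ≤ 1 / 2 := hδ1.trans (one_div_le_one_div_of_le two_pos (by linarith))
  refine ⟨δ, 4 * t, hδ, by linarith, fun M hMm T hT hc x₀ ν hx h => ?_⟩
  have hw := DCELLB.wedge_le hL hL1 hc.cx hx h hδ (by linarith) (by linarith) ht1 ht2
    (by linarith) (by linarith)
  obtain ⟨r, hr1, hr2, hs⟩ := hc.stop
  rcases hs with hs | hs
  swap
  · obtain ⟨s, h1, h2⟩ := DCELLB.exists_dens hM hMm hR hx h hδ hδ4 (r := r) (by linarith)
      (by linarith) (by linarith)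
    exact absurd (hs s (by linarith)) (not_lt.2 h2)
  have hb : Bornology.IsBounded (cyl (ball (0 : ℂ) 1) (2 * Λ₀)) := isBounded_cyl isBounded_ball _
  have hm : MeasurableSet (cyl (ball (0 : ℂ) 1) (2 * Λ₀)) := measurableSet_cyl measurableSet_ball _
  have h1 := hE M hMm (ball 0 1) Λ₀ (2 * Λ₀) ν measurableSet_ball isBounded_ball (by linarith)
    (by linarith) ((hc.cx.slab (by linarith) (by linarith) le_rfl (T' := 2 * Λ₀) (by linarith)).mono
      (ball_subset_closedBall.trans (closedBall_subset_closedBall hΛ)) le_rfl le_rfl)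
    h.unit (by linarith)
  have h2 := DCELLB.int_mono hMm norm_e3 hb hm (A := cyl (ball (0 : ℂ) r) (2 * Λ₀))
    fun x hx => ⟨ball_subset_ball hr2 hx.1, hx.2⟩
  have h3 := DCELLB.int_tri hMm h.unit hb hm
  have h4 := DCELLB.int_mono hMm h.unit (A := cyl (ball (0 : ℂ) 1) (2 * Λ₀))
    (B := ball x₀ (1 / δ)) isBounded_ball measurableSet_ball fun x hxc => by
      have k1 := norm_le_pr_add x
      have k2 := mem_ball_zero_iff.1 hxc.1
      have k3 : |x 2| < 2 * Λ₀ := hxc.2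
      rw [mem_ball_iff_norm]
      linarith [norm_sub_le x x₀]
  have h5 := h.tilt
  simp only [← wedge_e3] at hs
  have h6 : om₀ ^ 2 * (1 / 4) ≤ om₀ ^ 2 * r ^ 2 :=
    mul_le_mul_of_nonneg_left (by nlinarith) (sq_nonneg _)
  linarith

end MW
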