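import Pool.Agent.P.MP_064970_gt.D.API

/-! D2. θ = limit of θk along U (the unit circle is compact). For a continuous bump φ ≥ 0 with compact support in ball 0 R:
∫ φ ⟪pr N_k, θ⟫^2 ≤ 2 ∫_{ball 0 R} ⟪pr N_k, θk⟫^2 + 2 ‖θ - θk‖^2 μ_k(ball 0 R) → 0; Conv.meas gives ∫ φ ⟪pr N, θ⟫^2 dμ = 0, eq_zero_of_ae gives ⟪pt θ 0, N⟫ = 0 on S.
S is nonempty (not Flat). Second clause of FLAT1, first clause of FLAT2. -/

open MeasureTheory Set Filter Topology Metric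
open scoped RealInnerProductSpace ENNReal NNReal ComplexConjugate Real

noncomputable section

namespace MW

namespace DCELLN

/-- The test function. -/
def tf (R : ℝ) (θ : ℂ) (q : E × E) : ℝ := max (R - ‖q.1‖) 0 * ⟪pr q.2, θ⟫ ^ 2

theorem tf_cont (R : ℝ) (θ : ℂ) : Continuous (tf R θ) := by
  unfold tf
  fun_prop

theorem tf_nonneg (R : ℝ) (θ : ℂ) (q : E × E) : 0 ≤ tf R θ q :=
  mul_nonneg (le_max_right _ _) (sq_nonneg _)

theorem tf_zero {R : ℝ} (θ : ℂ) {x : E} (n : E) (hx : x ∉ ball (0 : E) R) : tf R θ (x, n) = 0 := by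
  rw [mem_ball_zero_iff, not_lt] at hx
  rw [tf, max_eq_right (by linarith), zero_mul]

theorem abs_in {n : E} (hn : ‖n‖ = 1) (θ : ℂ) : |⟪pr n, θ⟫| ≤ ‖θ‖ :=
  (abs_real_inner_le_norm _ _).trans
    (mul_le_of_le_one_left (norm_nonneg _) ((norm_pr_le n).trans hn.le))

theorem sq_in {n : E} (hn : ‖n‖ = 1) (θ : ℂ) : ⟪pr n, θ⟫ ^ 2 ≤ ‖θ‖ ^ 2 := by
  rw [← sq_abs]
  exact pow_le_pow_left₀ (abs_nonneg _) (abs_in hn θ) 2

theorem meas_in (M : Surf) (θ : ℂ) : Measurable fun x => ⟪pr (M.N x), θ⟫ ^ 2 :=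
  (show Continuous fun n : E => ⟪pr n, θ⟫ ^ 2 by fun_prop).measurable.comp M.N_meas

theorem max_le {R : ℝ} (hR : 0 < R) (x : E) : max (R - ‖x‖) 0 ≤ R :=
  _root_.max_le (by linarith [norm_nonneg x]) hR.le

theorem tf_int {M : Surf} (h : M.Mem) {R : ℝ} (hR : 0 < R) (θ : ℂ) :
    Integrable (fun x => tf R θ (x, M.N x)) M.μ := by
  refine h.bd.integrable (A := ball 0 R) isBounded_ball
    ((tf_cont R θ).measurable.comp (measurable_id.prodMk M.N_meas)) (C := R * ‖θ‖ ^ 2)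
    (fun x hx => ?_) fun x _ hx => tf_zero θ _ hx
  rw [abs_of_nonneg (tf_nonneg _ _ _)]
  exact mul_le_mul (max_le hR x) (sq_in (M.N_unit x hx) θ) (sq_nonneg _) hR.le

theorem tf_le {M : Surf} (h : M.Mem) {R : ℝ} (hR : 0 < R) (θ θ' : ℂ) :
    ∫ x, tf R θ (x, M.N x) ∂M.μ ≤ 2 * R * (∫ x in ball 0 R, ⟪pr (M.N x), θ'⟫ ^ 2 ∂M.μ) +
      2 * R * ‖θ - θ'‖ ^ 2 * (2 * π * R ^ 2) := by
  have i1 : IntegrableOn (fun x => ⟪pr (M.N x), θ'⟫ ^ 2) (ball 0 R) M.μ :=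
    h.bd.integrableOn isBounded_ball (meas_in M θ') (C := ‖θ'‖ ^ 2) (fun x hx => by
      rw [abs_of_nonneg (sq_nonneg _)]
      exact sq_in (M.N_unit x hx.2) θ') measurableSet_ball
  have i2 : IntegrableOn (fun _ : E => 2 * R * ‖θ - θ'‖ ^ 2) (ball 0 R) M.μ :=
    integrableOn_const (h.bd.lt_top isBounded_ball).ne
  rw [← setIntegral_eq_integral_of_forall_compl_eq_zero fun x hx => tf_zero θ (M.N x) hx]
  calc ∫ x in ball 0 R, tf R θ (x, M.N x) ∂M.μ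
      ≤ ∫ x in ball 0 R, (2 * R * ⟪pr (M.N x), θ'⟫ ^ 2 + 2 * R * ‖θ - θ'‖ ^ 2) ∂M.μ := by
        refine integral_mono_ae (tf_int h hR θ).integrableOn ((i1.const_mul _).add i2) ?_
        filter_upwards [ae_restrict_of_ae M.ae_unit] with x hx
        have e : ⟪pr (M.N x), θ⟫ = ⟪pr (M.N x), θ'⟫ + ⟪pr (M.N x), θ - θ'⟫ := by
          rw [inner_sub_right]
          ring
        have h1 := sq_in hx (θ - θ')
        have h2 : ⟪pr (M.N x), θ⟫ ^ 2 ≤ 2 * ⟪pr (M.N x), θ'⟫ ^ 2 + 2 * ‖θ - θ'‖ ^ 2 := by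
          rw [e]
          nlinarith [sq_nonneg (⟪pr (M.N x), θ'⟫ - ⟪pr (M.N x), θ - θ'⟫)]
        calc tf R θ (x, M.N x) ≤ R * (2 * ⟪pr (M.N x), θ'⟫ ^ 2 + 2 * ‖θ - θ'‖ ^ 2) :=
              mul_le_mul (max_le hR x) h2 (sq_nonneg _) hR.le
          _ = _ := by ring
    _ = 2 * R * (∫ x in ball 0 R, ⟪pr (M.N x), θ'⟫ ^ 2 ∂M.μ) +
          2 * R * ‖θ - θ'‖ ^ 2 * M.μ.real (ball 0 R) := by
        rw [integral_add (i1.const_mul _) i2, integral_const_mul, setIntegral_const, smul_eq_mul,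
          mul_comm (M.μ.real _)]
    _ ≤ _ := by
        have := h.bd.real_ball 0 hR
        gcongr

theorem orth {U : Ultrafilter ℕ} {Mk : ℕ → Surf} {M : Surf} {θk : ℕ → ℂ} {θ : ℂ}
    (hk : ∀ k, (Mk k).Mem) (hM : M.Mem) (hc : Conv (U : Filter ℕ) Mk M)
    (hθ : Tendsto θk U (𝓝 θ))
    (h : ∀ R, Tendsto (fun k => ∫ x in ball 0 R, ⟪pr ((Mk k).N x), θk k⟫ ^ 2 ∂(Mk k).μ) U (𝓝 0))
    {y : E} (hy : y ∈ M.S) : ⟪pr (M.N y), θ⟫ = 0 := by
  have hR : 0 < ‖y‖ + 1 := by positivity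
  set R := ‖y‖ + 1 with hRd
  have t1 := hc.meas (tf R θ) (closedBall 0 R) (tf_cont R θ) (isCompact_closedBall _ _) (hM.sub _)
    fun x n hx => tf_zero θ n fun h' => hx (ball_subset_closedBall h')
  have t2 : Tendsto (fun k => 2 * R * (∫ x in ball 0 R, ⟪pr ((Mk k).N x), θk k⟫ ^ 2 ∂(Mk k).μ) +
      2 * R * ‖θ - θk k‖ ^ 2 * (2 * π * R ^ 2)) U
      (𝓝 (2 * R * 0 + 2 * R * ‖θ - θ‖ ^ 2 * (2 * π * R ^ 2))) :=
    ((h R).const_mul _).add ((((hθ.const_sub θ).norm.pow 2).const_mul _).mul_const _)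
  have h0 : ∫ x, tf R θ (x, M.N x) ∂M.μ = 0 := by
    refine le_antisymm ?_ (integral_nonneg fun x => tf_nonneg _ _ _)
    have := le_of_tendsto_of_tendsto' t1 t2 fun k => tf_le (hk k) hR θ (θk k)
    simpa using this
  rw [integral_eq_zero_iff_of_nonneg (fun x => tf_nonneg _ _ _) (tf_int hM hR θ)] at h0
  refine M.eq_zero_of_ae (g := fun x => ⟪pr (M.N x), θ⟫) (U := ball 0 R) isOpen_ball
    (((show Continuous fun n : E => ⟪pr n, θ⟫ by fun_prop).comp_continuousOn M.N_cont).mono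
      inter_subset_left) ?_ y ⟨hy, by rw [mem_ball_zero_iff]; linarith⟩
  filter_upwards [h0] with x hx hxR
  rw [mem_ball_zero_iff] at hxR
  rcases mul_eq_zero.1 hx with h1 | h1
  · exact absurd h1 (lt_max_of_lt_left (by linarith)).ne'
  · exact pow_eq_zero_iff two_ne_zero |>.1 h1

end DCELLN

theorem celln_of (h1 : S_FLAT1) (h2 : S_FLAT2) : S_CELLN := by
  intro U Mk M θk hk hM hc hS hF hθ h
  obtain ⟨θ, hθ1, hθ2⟩ := (isCompact_sphere (0 : ℂ) 1).ultrafilter_le_nhds (U.map θk)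
    (le_principal_iff.2 (mem_map.2 (Eventually.of_forall fun k => by simpa using hθ k)))
  have hn : ‖θ‖ = 1 := by simpa using hθ1
  obtain ⟨x, hx⟩ : M.S.Nonempty := by
    by_contra hne
    exact hF fun x hx => absurd ⟨x, hx⟩ hne
  refine hF (h2.1 M hS ⟨x, hx, (h1 M x hx).2.1 (pt θ 0) (fun e => ?_) ?_⟩)
  · have := norm_pt_zero θ
    rw [e, hn, norm_zero] at this
    exact zero_ne_one this
  · filter_upwards [self_mem_nhdsWithin] with y hy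
    rw [real_inner_comm, inner_pt, DCELLN.orth hk hM hc hθ2 h hy]
    ring

end MW
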