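import Pool.Agent.P.MP_064970_gt.D.API

/-! D1 + D2. L = om/8; CX gives om₀ Λ₀ β₀; CELL gives Λ c T₀; P = ⟨om, Λ₀, Λ, c⟩; β₁ = min of β, β₀, 1/(2T₀), 1/(100Λ); STOP gives k₀; also k ≤ β₀, k ≤ 1/100. Cell: low from k + 2b ≤ 1/2.
M' = M.zoom p b (isSim_zoom, simMap_zoom, zoom_S, zoom_N, zoom_Θ, zoom_typeII, Mem.zoom) satisfies CellHyp Λ₀ L om₀ (1/(2b)): zoom_cxat, CXat.mono; r' = r/b;
IsSim.setIntegral and S ∩ cyl (ball y r) 1 ⊆ {‖pr x - y‖ < r, |x 2 - p 2| < 2Λ₀ b} (Cell.height with ρ = Λ₀ b); p + b • pt 0 t = pt y (p 2 + b t).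
Back: TyR with t_i = p 2 + b t_i' (Cell.height with ρ = (Λ₀+4) b for uniqueness); IsSim.E0 and E0_mono; flux_zoom with T' = 2Λ, T = 1/k
(|t| < 1/k → |t| ≤ k by Hk.abs_le, then Cell.height with ρ = Λ b). -/

open MeasureTheory Set Filter Topology Metric
open scoped RealInnerProductSpace ENNReal NNReal ComplexConjugate Real

noncomputable section

namespace MW

namespace DCELLS

open Surf

variable {M : Surf} {P : Par} {β : ℝ} {y : ℂ} {b : ℝ} {p : E}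

/-- The cylinder about `p` of radius `r b` and half height `T b`. -/
def zc (p : E) (b r T : ℝ) : Set E := {x | ‖pr x - pr p‖ < r * b ∧ |x 2 - p 2| < T * b}

theorem pre_cyl (p : E) (hb : 0 < b) (r T : ℝ) :
    simMap (LinearIsometryEquiv.refl ℝ E) b⁻¹ (-(b⁻¹ • p)) ⁻¹' cyl (ball 0 r) T = zc p b r T := by
  ext x
  have h1 : ‖b⁻¹ • (pr x - pr p)‖ < r ↔ ‖pr x - pr p‖ < r * b := by
    rw [norm_smul, Real.norm_eq_abs, abs_of_pos (inv_pos.2 hb), inv_mul_lt_iff₀ hb, mul_comm]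
  have h2 : |b⁻¹ * (x 2 - p 2)| < T ↔ |x 2 - p 2| < T * b := by
    rw [abs_mul, abs_of_pos (inv_pos.2 hb), inv_mul_lt_iff₀ hb, mul_comm]
  simp only [mem_preimage, simMap_zoom, cyl, zc, mem_ofPred_eq, mem_ball_zero_iff, pr_smul, pr_sub,
    PiLp.smul_apply, PiLp.sub_apply, smul_eq_mul, h1, h2]

theorem measurableSet_zc (p : E) (b r T : ℝ) : MeasurableSet (zc p b r T) :=
  ((isOpen_lt (f := fun x : E => ‖pr x - pr p‖) (by fun_prop) continuous_const).inter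
    (isOpen_lt (f := fun x : E => |x 2 - p 2|) (by fun_prop) continuous_const)).measurableSet

theorem zc_subset (p : E) {b r T H : ℝ} (h : |p 2| + T * b ≤ H) :
    zc p b r T ⊆ cyl (ball (pr p) (r * b)) H := fun x hx => by
  refine ⟨mem_ball_iff_norm.2 hx.1, ?_⟩
  have h1 := abs_add_le (x 2 - p 2) (p 2)
  rw [sub_add_cancel] at h1
  have h2 := hx.2
  linarith

theorem isBounded_zc (p : E) (b r T : ℝ) : Bornology.IsBounded (zc p b r T) :=
  (isBounded_cyl isBounded_ball _).subset (zc_subset p le_rfl)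

theorem zoom_int (M : Surf) (p : E) (hb : 0 < b) (r T : ℝ) (g : E → ℝ) :
    b ^ 2 * ∫ x in cyl (ball 0 r) T, g ((M.zoom p b).N x) ∂(M.zoom p b).μ
      = ∫ x in zc p b r T, g (M.N x) ∂M.μ := by
  have h := M.isSim_zoom p hb
  rw [h.setIntegral, pre_cyl p hb, ← mul_assoc, ← mul_pow, mul_inv_cancel₀ hb.ne', one_pow, one_mul]
  simp only [h.N, LinearIsometryEquiv.coe_refl, id]

theorem zoom_E0 (M : Surf) (p : E) (hb : 0 < b) (r T : ℝ) :
    b ^ 2 * (M.zoom p b).E0 e3 (cyl (ball 0 r) T) = M.E0 e3 (zc p b r T) := by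
  have h := (M.isSim_zoom p hb).E0 e3 (cyl (ball 0 r) T)
  rw [pre_cyl p hb] at h
  have h1 : (LinearIsometryEquiv.refl ℝ E) e3 = e3 := rfl
  rw [h1] at h
  rw [h, ← mul_assoc, ← mul_pow, mul_inv_cancel₀ hb.ne', one_pow, one_mul]

theorem int_mono (hM : M.Mem) {A B : Set E} (hAB : A ∩ M.S ⊆ B) (hB : Bornology.IsBounded B)
    (hBm : MeasurableSet B) {g : E → ℝ} (hg : Continuous g) (h0 : ∀ n, 0 ≤ g n)
    (h1 : ∀ n, ‖n‖ = 1 → g n ≤ 1) : ∫ x in A, g (M.N x) ∂M.μ ≤ ∫ x in B, g (M.N x) ∂M.μ := by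
  refine setIntegral_mono_set (hM.bd.integrableOn hB (hg.measurable.comp M.N_meas) (C := 1)
    (fun x hx => ?_) hBm) (Eventually.of_forall fun x => h0 _) ?_
  · rw [abs_of_nonneg (h0 _)]
    exact h1 _ (M.N_unit x hx.2)
  · filter_upwards [M.ae_mem] with x hx hA
    exact hAB ⟨hA, hx⟩

theorem pt_zoom (p : E) (b : ℝ) (z : ℂ) (t : ℝ) :
    p + b • pt z t = pt (pr p + b • z) (p 2 + b * t) := by
  rw [pt_add, pt_smul, pt_pr]

theorem pt_zoom' (p : E) (hb : 0 < b) (z : ℂ) (t : ℝ) :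
    p + b • pt (b⁻¹ • (z - pr p)) t = pt z (p 2 + b * t) := by
  rw [pt_zoom, smul_smul, mul_inv_cancel₀ hb.ne', one_smul, add_sub_cancel]

theorem sq_pr_le (n : E) (hn : ‖n‖ = 1) : ‖pr n‖ ^ 2 ≤ 1 := by
  have h := norm_pr_le n
  rw [hn] at h
  nlinarith [norm_nonneg (pr n)]

theorem sq_inner_le {θ : ℂ} (hθ : ‖θ‖ = 1) (n : E) (hn : ‖n‖ = 1) : ⟪pr n, θ⟫ ^ 2 ≤ 1 := by
  have h := abs_real_inner_le_norm (pr n) θ
  rw [hθ, mul_one] at h
  have h1 := norm_pr_le n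
  rw [hn] at h1
  rw [sq_le_one_iff_abs_le_one]
  linarith

/-- The blown up cell satisfies the hypothesis of D2. -/
theorem cellHyp (hM : M.Mem) (hP : P.Ok) (h : M.Cell P β y b p) (hΛ : P.Λ * b ≤ 1 / 100)
    {k om₀ : ℝ} (hs : M.Stop k om₀ y b p) :
    (M.zoom p b).CellHyp P.Λ₀ (P.om / 8) om₀ (1 / (2 * b)) := by
  have hb := h.pos
  obtain ⟨-, m1, m2, m3⟩ : P.Λ * b ≤ 1 / 100 ∧ P.Λ₀ * b ≤ P.Λ * b ∧ 4 * b ≤ P.Λ * b ∧
      b ≤ P.Λ₀ * b := ⟨hΛ, by nlinarith [hP.le], by nlinarith [hP.four_le],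
        by nlinarith [hP.one_le]⟩
  have hT : 1 / (2 * b) * b = 1 / 2 := by field_simp
  refine ⟨?_, ?_, ?_⟩
  · rw [M.zoom_Θ p hb, smul_zero, add_zero, mul_comm]
    exact h.dens
  · rw [M.zoom_cxat p hb, hT]
    exact h.cx.mono le_rfl le_rfl (by norm_num)
  · obtain ⟨r, hr1, hr2, hr⟩ := hs.stop
    have hrb : r / b * b = r := by field_simp
    refine ⟨r / b, by rw [lt_div_iff₀ hb]; linarith, by rw [div_le_iff₀ hb]; linarith, ?_⟩
    rcases hr with hr | hr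
    · left
      have h1 := zoom_int M p hb (r / b) (2 * P.Λ₀) fun n => ‖pr n‖ ^ 2
      have h2 : cyl (ball y r) 1 ∩ M.S ⊆ zc p b (r / b) (2 * P.Λ₀) := fun x hx => by
        have h3 : ‖pr x - y‖ < r := mem_ball_iff_norm.1 hx.1.1
        have h4 := (h.height hP (ρ := P.Λ₀ * b) le_rfl (by linarith) hx.2 hx.1.2 (by linarith)).1
        refine ⟨by rw [hrb, h.base]; exact h3, by linarith⟩
      have h3 := int_mono hM h2 (isBounded_zc _ _ _ _) (measurableSet_zc _ _ _ _)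
        (g := fun n => ‖pr n‖ ^ 2) (by fun_prop) (fun _ => sq_nonneg _) sq_pr_le
      refine le_of_mul_le_mul_left ?_ (pow_pos hb 2)
      rw [h1]
      calc b ^ 2 * (om₀ ^ 2 * (r / b) ^ 2) = om₀ ^ 2 * r ^ 2 := by field_simp
        _ ≤ _ := hr.trans h3
    · right
      intro t ht
      rw [M.zoom_Θ p hb, pt_zoom, smul_zero, add_zero, h.base, mul_comm b (r / b), hrb]
      refine hr _ ((abs_add_le _ _).trans ?_)
      have h1 : |b * t| ≤ 1 / 2 := by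
        rw [abs_mul, abs_of_pos hb, ← hT, mul_comm]
        exact mul_le_mul_of_nonneg_right ht hb.le
      linarith [h.low]

/-- Regular cells. -/
theorem tyR (hP : P.Ok) (h : M.Cell P β y b p) (hΛ : P.Λ * b ≤ 1 / 100)
    (H : (M.zoom p b).TyR P.om 0 4 (P.Λ₀ + 5)) : M.TyR P.om y (4 * b) 1 := by
  have hb := h.pos
  have m1 : P.Λ₀ * b ≤ P.Λ * b := by nlinarith [hP.le]
  have m2 : 4 * b ≤ P.Λ * b := by nlinarith [hP.four_le]
  have m3 : b ≤ P.Λ₀ * b := by nlinarith [hP.one_le]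
  intro z hz
  have hz' : ‖z - y‖ < 4 * b := mem_ball_iff_norm.1 hz
  have hz1 : b⁻¹ • (z - pr p) ∈ ball (0 : ℂ) 4 := by
    rw [mem_ball_zero_iff, norm_smul, Real.norm_eq_abs, abs_of_pos (inv_pos.2 hb),
      inv_mul_lt_iff₀ hb, h.base, mul_comm]
    exact hz'
  obtain ⟨t₁, t₂, h12, a1, a2, s1, s2, n1, n2, hu⟩ := H _ hz1
  rw [M.zoom_S p hb, pt_zoom' p hb] at s1 s2
  rw [M.zoom_N p hb, pt_zoom' p hb] at n1 n2
  have key : ∀ t : ℝ, |t| < P.Λ₀ + 5 → |p 2 + b * t| < 1 := fun t ht => by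
    have h1 := abs_add_le (p 2) (b * t)
    rw [abs_mul, abs_of_pos hb] at h1
    have h2 := mul_lt_mul_of_pos_left ht hb
    nlinarith [h.low]
  refine ⟨p 2 + b * t₁, p 2 + b * t₂, by nlinarith, key _ a1, key _ a2, s1, s2, n1, n2,
    fun t ht hS => ?_⟩
  have h1 := (h.height hP (ρ := (P.Λ₀ + 4) * b) (by linarith) (by linarith) hS
    (by simpa using ht) (by rw [pr_pt]; linarith)).1
  rw [pt_two] at h1
  have h2 : p 2 + b * ((t - p 2) / b) = t := by field_simp; ring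
  have h3 : |(t - p 2) / b| < P.Λ₀ + 5 := by
    rw [abs_div, abs_of_pos hb, div_lt_iff₀ hb]
    linarith
  rcases hu _ h3 (by rw [M.zoom_S p hb, pt_zoom' p hb, h2]; exact hS) with h4 | h4
  · left; rw [← h4, h2]
  · right; rw [← h4, h2]

theorem zc_cell (h : M.Cell P β y b p) (hΛ : P.Λ * b ≤ 1 / 100) :
    zc p b P.Λ (2 * P.Λ) ⊆ cyl (ball y (P.Λ * b)) 1 := by
  rw [← h.base]
  exact zc_subset p (by linarith [h.low])

/-- Cells with energy. -/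
theorem tyE (hM : M.Mem) (h : M.Cell P β y b p) (hΛ : P.Λ * b ≤ 1 / 100)
    (H : P.c ≤ (M.zoom p b).E0 e3 (cyl (ball 0 P.Λ) (2 * P.Λ))) : M.TyE P y b := by
  have hb := h.pos
  have h1 := zoom_E0 M p hb P.Λ (2 * P.Λ)
  have h2 := hM.E0_mono norm_e3 (inter_subset_left.trans (zc_cell h hΛ))
    (isBounded_cyl isBounded_ball _)
  have h3 := mul_le_mul_of_nonneg_left H (sq_nonneg b)
  unfold Surf.TyE
  linarith

/-- Cells with flux. -/
theorem tyF (hM : M.Mem) (hP : P.Ok) (h : M.Cell P β y b p) (hΛ : P.Λ * b ≤ 1 / 100) {k : ℝ}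
    (hk : 0 < k) (hk' : k ≤ 1 / 100) (hH : M.Hk k)
    (H1 : P.c ≤ (M.zoom p b).Flux (2 * P.Λ) (bmp 0 P.Λ))
    (H2 : ∀ θ : ℂ, ‖θ‖ = 1 → P.c ≤ ∫ x in cyl (ball 0 P.Λ) (2 * P.Λ),
      ⟪pr ((M.zoom p b).N x), θ⟫ ^ 2 ∂(M.zoom p b).μ) : M.TyF P k y b := by
  have hb := h.pos
  have hΛ0 : 0 < P.Λ := by linarith [hP.four_le]
  have m0 : 0 < P.Λ * b := mul_pos hΛ0 hb
  have m1 : P.Λ₀ * b ≤ P.Λ * b := by nlinarith [hP.le]
  have hk1 : 100 ≤ 1 / k := by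
    rw [le_div_iff₀ hk]; linarith
  refine ⟨?_, fun θ hθ => ?_⟩
  · have h1 := hM.flux_zoom p (T := 1 / k) (T' := 2 * P.Λ) hb hΛ0 fun z hz t hS => by
      rw [h.base] at hz
      have hz' : ‖z - y‖ ≤ P.Λ * b := mem_closedBall_iff_norm.1 hz
      constructor
      · intro ht
        have h2 : ‖z‖ ≤ ‖z - y‖ + ‖y‖ := by simpa using norm_add_le (z - y) y
        have h3 := norm_le_pr_add (pt z t)
        rw [pr_pt, pt_two] at h3
        have h4 : 2 / k = 1 / k + 1 / k := by ring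
        have h5 := hH.abs_le hS (by linarith [h.near])
        have h6 := (h.height hP (ρ := P.Λ * b) m1 (by linarith) hS (by linarith)
          (by rw [pr_pt]; exact hz')).1
        rw [pt_two] at h6
        linarith
      · intro ht
        have h2 := abs_add_le (t - p 2) (p 2)
        rw [sub_add_cancel] at h2
        linarith [h.low]
    rw [h.base] at h1
    rw [← h1, mul_comm]
    exact mul_le_mul_of_nonneg_left H1 hb.le
  · have h1 := zoom_int M p hb P.Λ (2 * P.Λ) fun n => ⟪pr n, θ⟫ ^ 2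
    have h2 := int_mono hM (inter_subset_left.trans (zc_cell h hΛ))
      (isBounded_cyl isBounded_ball _) (measurableSet_cyl measurableSet_ball _)
      (g := fun n => ⟪pr n, θ⟫ ^ 2) (by fun_prop) (fun _ => sq_nonneg _) (sq_inner_le hθ)
    have h3 := mul_le_mul_of_nonneg_left (H2 θ hθ) (sq_nonneg b)
    linarith

end DCELLS

open DCELLS in
theorem cells_of (hS : S_STOP) (hX : S_CX) (hC : S_CELL) : S_CELLS := by
  intro ε hε om hom hom'
  obtain ⟨om₀, Λ₀, β₀, hom₀, hΛ₀, hβ₀, hX⟩ := hX ε hε (om / 8) (by positivity) (by linarith)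
  obtain ⟨Λ, c, T₀, hΛ, hΛ4, hc, hc1, hT₀, hC⟩ := hC ε hε om om₀ Λ₀ hom hom' hom₀ hΛ₀
  have hP : Par.Ok ⟨om, Λ₀, Λ, c⟩ := ⟨hom, hom', hΛ₀, hΛ, hΛ4, hc, hc1⟩
  have hΛ0 : 0 < Λ := by linarith
  refine ⟨⟨om, Λ₀, Λ, c⟩, hP, rfl, fun β hβ => ?_⟩
  obtain ⟨k₀, hk₀, hS⟩ := hS om₀ (min (min β β₀) (min (1 / (2 * T₀)) (1 / (100 * Λ)))) hom₀
    (by positivity)
  refine ⟨min k₀ (min β₀ (1 / 100)), by positivity, fun k hk hkk M hM hII hH y hy => ?_⟩
  simp only [le_min_iff] at hkk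
  obtain ⟨b, p, hb, hst⟩ := hS k hk hkk.1 M hM hH y hy
  simp only [le_min_iff] at hb
  obtain ⟨⟨b1, b2⟩, b3, b4⟩ := hb
  have hb := hst.pos
  have hΛb : Λ * b ≤ 1 / 100 := by
    rw [le_div_iff₀ (by positivity)] at b4
    linarith
  have hT : T₀ ≤ 1 / (2 * b) := by
    rw [le_div_iff₀ (by positivity)] at b3 ⊢
    linarith
  have hcell : M.Cell ⟨om, Λ₀, Λ, c⟩ β y b p :=
    ⟨hb, b1, hy, hst.base, by have := hst.low; nlinarith [hkk.2.2], hst.dens,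
      hX k hk hkk.2.1 M hM hII hH y b p hy b2 hst⟩
  refine ⟨b, p, hcell, ?_⟩
  rcases hC (M.zoom p b) (hM.zoom p hb) ((M.zoom_typeII p hb ε).2 hII) _ hT
    (cellHyp hM hP hcell hΛb hst) with h | h | h
  · exact Or.inl (tyR hP hcell hΛb h)
  · exact Or.inr (Or.inl (tyE hM hcell hΛb h))
  · exact Or.inr (Or.inr (tyF hM hP hcell hΛb hk hkk.2.2 hH h.1 h.2))

end MW
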