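import Pool.Agent.P.MP_064970_gt.D.API

/-! D5, chords. ‖g‖ ≤ 1/10. In both parts z = x - t • dir g is in W' by the cone condition of the cell (t = 4Λ₀ b, resp. t = 20Λ b; Cell.height with ρ = Λ₀ b, resp. 5Λ b; dir_two_bounds, pr_dir),
so Mem.chord gives 0 < ell < t and ⟪N x*, dir g⟫ ≤ 0; x* ∈ S (partner_mem), |x 2|, |x* 2| ≤ k (Hk.abs_le'). Part 1: RCELL on ball y (4b); x is the upper point (inner_dir_neg), pr x* ∈ ball y (2b),
x* is the lower point over pr x* (inner_dir_pos), |lo (pr x*) - lo (pr x)| ≤ 2 om ‖pr x* - pr x‖ ≤ 2 om 2k ‖g‖ (norm_pr_partner_dir). -/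

open MeasureTheory Set Filter Topology Metric
open scoped RealInnerProductSpace ENNReal NNReal ComplexConjugate Real

noncomputable section

namespace MW

namespace DCHORD

theorem abs_two_le (x : E) : |x 2| ≤ ‖x‖ := by
  have h := norm_sq_eq x
  have h1 : 0 ≤ ‖pr x‖ ^ 2 := sq_nonneg _
  exact abs_le_of_sq_le_sq (by nlinarith) (norm_nonneg _)

theorem core {M : Surf} {P : Par} {k β : ℝ} {y : ℂ} {b : ℝ} {p : E} {g : ℂ} {x : E}
    (hM : M.Mem) (hP : P.Ok) (hk : 0 < k) (hk' : k ≤ 1 / 20) (hH : M.Hk k)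
    (hC : M.Cell P β y b p) (hg : ‖g‖ ≤ 1 / 10) (hx : x ∈ M.S) (hl : |x 2| < 1)
    (htop : 0 < ⟪M.N x, dir g⟫) {ρ : ℝ} (h0 : 0 < ρ) (h1 : P.Λ₀ * b ≤ ρ) (h2 : ρ ≤ 1 / 2)
    (hy : ‖pr x - y‖ ≤ ρ) :
    |x 2 - p 2| ≤ ρ ∧ |x 2| ≤ k ∧ |M.partner (dir g) x 2| ≤ k ∧
      |M.partner (dir g) x 2 - x 2| ≤ 4 * ρ ∧ ⟪M.N (M.partner (dir g) x), dir g⟫ ≤ 0 := by
  obtain ⟨ha, hb⟩ := hC.height hP h1 (by linarith) hx hl hy
  obtain ⟨hd1, hd2⟩ := dir_two_bounds hg
  have hnd := norm_dir g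
  have hsm : ∀ t : ℝ, 0 ≤ t → ‖t • dir g‖ = t := fun t ht => by
    rw [norm_smul, hnd, mul_one, Real.norm_eq_abs, abs_of_nonneg ht]
  have hz2 : (x - (4 * ρ) • dir g) 2 = x 2 - 4 * ρ * dir g 2 := by simp
  have hab := abs_le.mp ha
  have hlow : 2 * ρ < |(x - (4 * ρ) • dir g) 2 - p 2| := by
    rw [hz2]
    have : x 2 - 4 * ρ * dir g 2 - p 2 < -(2 * ρ) := by nlinarith
    exact lt_abs.mpr (Or.inr (by linarith))
  have hup : ‖x - (4 * ρ) • dir g - p‖ < 6 * ρ := by
    have e : x - (4 * ρ) • dir g - p = (x - p) - (4 * ρ) • dir g := by abel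
    rw [e]
    have := norm_sub_le (x - p) ((4 * ρ) • dir g)
    rw [hsm _ (by linarith)] at this
    linarith
  have hW : x - (4 * ρ) • dir g ∈ M.W' := by
    refine hC.cx _ ?_ (by linarith) ?_
    · have := abs_two_le (x - (4 * ρ) • dir g - p)
      rw [PiLp.sub_apply (x := x - (4 * ρ) • dir g)] at this
      linarith
    · have h3 := norm_pr_le (x - (4 * ρ) • dir g - p)
      rw [pr_sub (x - (4 * ρ) • dir g) p] at h3
      have h4 := hP.om_le
      have h5 := hP.om_pos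
      have h6 := norm_nonneg (pr (x - (4 * ρ) • dir g) - pr p)
      nlinarith
  obtain ⟨he0, he1, -, hN, -, -⟩ := hM.chord hx htop (by linarith) hW
  have hxn : ‖x‖ ≤ 5 := by
    have h3 := norm_le_pr_add x
    have h4 : ‖pr x‖ ≤ ‖pr x - y‖ + ‖y‖ := by
      simpa using norm_add_le (pr x - y) y
    have h5 := hC.near
    linarith
  have hpn : ‖M.partner (dir g) x‖ ≤ 30 := by
    have := norm_sub_le x (M.ell (dir g) x • dir g)
    rw [hsm _ he0.le] at this
    unfold Surf.partner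
    linarith
  refine ⟨ha, hH.abs_le' hk hk' hx (by linarith),
    hH.abs_le' hk hk' (hM.partner_mem _ hx) hpn, ?_, hN⟩
  have e2 : M.partner (dir g) x 2 - x 2 = -(M.ell (dir g) x * dir g 2) := by
    simp [Surf.partner]
  rw [e2, abs_neg, abs_of_nonneg (by positivity)]
  nlinarith

end DCHORD

theorem chord_of (hR : S_RCELL) : S_CHORD := by
  intro M P k β y b p g x hM hP hk hk' hβ hH hC hg hx hl htop
  obtain ⟨m1, m2, m3, m4⟩ := hC.mul_le hP hβ
  have hb := hC.pos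
  have hL := hP.one_le
  have hg0 := norm_nonneg g
  have hg' : ‖g‖ ≤ 1 / 10 := by nlinarith
  have hom := hP.om_le
  have hom0 := hP.om_pos
  refine ⟨fun hT hy => ?_, fun hy => ?_⟩
  · have hy' : ‖pr x - y‖ < b := by rwa [mem_ball, dist_eq_norm] at hy
    obtain ⟨-, c2, c3, c4, c5⟩ := DCHORD.core hM hP hk hk' hH hC hg' hx hl htop
      (ρ := P.Λ₀ * b) (by linarith) le_rfl (by linarith) (by linarith)
    obtain ⟨hS, hLip⟩ := hR M P.om y (4 * b) hM hom0 hom hT
    have hd := M.norm_pr_partner_dir g x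
    have hx4 : pr x ∈ ball y (4 * b) := by
      rw [mem_ball, dist_eq_norm]; linarith
    have hs4 : pr (M.partner (dir g) x) ∈ ball y (4 * b) := by
      rw [mem_ball, dist_eq_norm]
      have h3 : ‖pr (M.partner (dir g) x) - y‖
          ≤ ‖pr (M.partner (dir g) x) - pr x‖ + ‖pr x - y‖ := norm_sub_le_norm_sub_add_norm_sub _ _ _
      have h4 : |M.partner (dir g) x 2 - x 2| * ‖g‖ ≤ 4 * (P.Λ₀ * b) * ‖g‖ :=
        mul_le_mul_of_nonneg_right c4 hg0
      have h5 : 4 * (P.Λ₀ * b) * ‖g‖ ≤ b := by nlinarith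
      linarith
    have hhi : x 2 = M.hi (pr x) := by
      rcases (hS _ hx4).uniq (x 2) hl (by rw [pt_pr]; exact hx) with h | h
      · exact h
      · exfalso
        have h3 := (hS _ hx4).lo_N
        rw [← h, pt_pr] at h3
        have := inner_dir_neg hg' (h3.trans hom)
        linarith
    have hlo : M.partner (dir g) x 2 = M.lo (pr (M.partner (dir g) x)) := by
      rcases (hS _ hs4).uniq (M.partner (dir g) x 2) (by linarith)
        (by rw [pt_pr]; exact hM.partner_mem _ hx) with h | h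
      · exfalso
        have h3 := (hS _ hs4).hi_N
        rw [← h, pt_pr] at h3
        have := inner_dir_pos hg' (h3.trans hom)
        linarith
      · exact h
    refine ⟨hhi, c3, ?_⟩
    have h3 := (hLip _ hs4 _ hx4).2
    rw [← hlo, hd] at h3
    have h4 : |M.partner (dir g) x 2 - x 2| ≤ 2 * k := by
      have := abs_sub (M.partner (dir g) x 2) (x 2)
      linarith
    have h5 : |M.partner (dir g) x 2 - x 2| * ‖g‖ ≤ 2 * k * ‖g‖ :=
      mul_le_mul_of_nonneg_right h4 hg0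
    have h6 : 0 ≤ k * ‖g‖ := by positivity
    have h7 : 2 * P.om * (|M.partner (dir g) x 2 - x 2| * ‖g‖) ≤ 2 * P.om * (2 * k * ‖g‖) :=
      mul_le_mul_of_nonneg_left h5 (by linarith)
    nlinarith
  · obtain ⟨c1, -, c3, c4, -⟩ := DCHORD.core hM hP hk hk' hH hC hg' hx hl htop
      (ρ := 5 * P.Λ * b) (by nlinarith) (by nlinarith) (by nlinarith) hy
    refine ⟨c1, c3, ?_⟩
    have := abs_sub_le (M.partner (dir g) x 2) (x 2) (p 2)
    linarith

end MW
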