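import Pool.Agent.P.MP_064970_gt.D.API

/-! D3, Vitali. Choose b, p as functions (default values off the disc). Finite subcover Y of closedBall 0 3 by ball y (b y) (IsCompact.elim_nhds_subcover).
Vitali.exists_disjoint_subfamily_covering_enlargement_closedBall (or _ball) for the finite set of y ∈ Y that are not TyR, radii Λ * b y, gives u.
Ro = (⋃ y ∈ Y with TyR, ball y (b y)) \ ⋃ y ∈ u, closedBall y (5 Λ b y). -/

open MeasureTheory Set Filter Topology Metric
open scoped RealInnerProductSpace ENNReal NNReal ComplexConjugate Real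

noncomputable section

namespace MW

namespace DCOVER3

end DCOVER3

theorem cover3 : S_COVER3 := by
  classical
  intro M P k β hP h
  choose! b p hc hty using h
  have hΛ : 1 ≤ P.Λ := hP.one_le.trans hP.le
  obtain ⟨Y, hY, hcov⟩ := (isCompact_closedBall (0 : ℂ) 3).elim_nhds_subcover
    (fun y => ball y (b y)) fun y hy => ball_mem_nhds y (hc y (mem_closedBall_zero_iff.mp hy)).pos
  have hY3 : ∀ y ∈ Y, ‖y‖ ≤ 3 := fun y hy => mem_closedBall_zero_iff.mp (hY y hy)
  obtain ⟨u, hu, hdis, hen⟩ := Vitali.exists_disjoint_subfamily_covering_enlargement_closedBall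
    {y | y ∈ Y ∧ ¬ M.TyR P.om y (4 * b y) 1} id (fun y => P.Λ * b y) (P.Λ * β)
    (fun y hy => mul_le_mul_of_nonneg_left (hc y (hY3 y hy.1)).small (by linarith)) 5 (by norm_num)
  have hfin : u.Finite := Y.finite_toSet.subset fun y hy => (hu hy).1
  lift u to Finset ℂ using hfin
  refine ⟨u, b, p, (⋃ y ∈ {y | y ∈ Y ∧ M.TyR P.om y (4 * b y) 1}, ball y (b y)) \
    ⋃ y ∈ u, closedBall y (5 * P.Λ * b y), fun y hy => hc y (hY3 y (hu hy).1),
    fun y hy => (hty y (hY3 y (hu hy).1)).resolve_left (hu hy).2,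
    fun y hy z hz hne => hdis hy hz hne,
    (isOpen_biUnion fun _ _ => isOpen_ball).sdiff
      (isClosed_biUnion_finset fun _ _ => isClosed_closedBall), fun z hz => ?_,
    fun z hz y hy => ?_, fun z hz => ?_⟩
  · by_cases h1 : z ∈ ⋃ y ∈ u, closedBall y (5 * P.Λ * b y)
    · obtain ⟨y, hy, hzy⟩ := mem_iUnion₂.mp h1
      exact .inr ⟨y, hy, mem_closedBall_iff_norm.mp hzy⟩
    obtain ⟨y, hy, hzy⟩ := mem_iUnion₂.mp (hcov (mem_closedBall_zero_iff.mpr hz))
    by_cases hR : M.TyR P.om y (4 * b y) 1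
    · exact .inl ⟨mem_iUnion₂.mpr ⟨y, ⟨hy, hR⟩, hzy⟩, h1⟩
    obtain ⟨w, hw, hsub⟩ := hen y ⟨hy, hR⟩
    refine (h1 (mem_iUnion₂.mpr ⟨w, hw, ?_⟩)).elim
    rw [mul_assoc]
    exact hsub (closedBall_subset_closedBall (le_mul_of_one_le_left (hc y (hY3 y hy)).pos.le hΛ)
      (ball_subset_closedBall hzy))
  · exact not_le.mp fun hle => hz.2 (mem_iUnion₂.mpr ⟨y, hy, mem_closedBall_iff_norm.mpr hle⟩)
  · obtain ⟨y, hy, hzy⟩ := mem_iUnion₂.mp hz.1
    exact ⟨y, b y, p y, hc y (hY3 y hy.1), hy.2, hzy⟩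

end MW
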