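import Pool.Agent.P.MP_064970_gt.D.API

/-! D5. exists_frame with e = dir g, r = 1: IsSim M' M A 1 0. CACO for M' with l₁ y = (vp g (A (pt y 0))).re, l₂ = im part (norms ≤ 2; vp g (A x) = vp g (A (pt (pr x) 0))), R = 3θ, T₀ = 1/2, T = 1, B = 2/θ,
g₁ = indicator (V ∩ Icc (-2θ) (-θ)) / m₋ - indicator (V ∩ Icc θ (2θ)) / m₊ (m the measures), g₂ with H. η_i s = ∫ from -R to s lies in [0,1], is 1 on [-θ,θ] and 0 for |s| ≥ 2θ.
Slab: x = A (pt y t), ⟪x, dir g⟫ = t; eq_pt_vp gives |x 2| ≥ 1/3 > k, ‖x‖ ≤ 3. Left side ≥ E0 (dir g) (ball 0 (θ/2)) (there vp g x ∈ Sq θ). The gradient term has norm ≤ 8/θ and vanishes unless vp g x ∈ onL θ V H;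
points of S there have |x 2| ≤ k < 1/2. alpha is bounded on top points over the slab (chord_slab), which gives integrability. Transfer with IsSim.setIntegral, alpha, edx, top, E0_ball. -/

open MeasureTheory Set Filter Topology Metric
open scoped RealInnerProductSpace ENNReal NNReal ComplexConjugate Real

noncomputable section

namespace MW

namespace DCUT

theorem prim {P : Set ℝ} (hP : MeasurableSet P) {a : ℝ} (ha : P ⊆ Ioi a) (s : ℝ) :
    ∫ t in a..s, P.indicator (fun _ => (1 : ℝ)) t = volume.real (P ∩ Iic s) := by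
  rcases le_total a s with h | h
  · rw [intervalIntegral.integral_of_le h, setIntegral_indicator hP, setIntegral_const,
      smul_eq_mul, mul_one]
    congr 1
    ext t
    exact ⟨fun ht => ⟨ht.2, ht.1.2⟩, fun ht => ⟨⟨ha ht.1, ht.2⟩, ht.1⟩⟩
  · rw [intervalIntegral.integral_of_ge h, setIntegral_indicator hP]
    have h1 : Ioc s a ∩ P = ∅ :=
      eq_empty_of_forall_notMem fun t ht => absurd (ha ht.2) (not_lt.2 ht.1.2)
    have h2 : P ∩ Iic s = ∅ :=
      eq_empty_of_forall_notMem fun t ht => absurd (ha ht.1) (not_lt.2 (le_trans ht.2 h))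
    rw [h1, h2]
    simp

theorem ii {γ : ℝ → ℝ} (hm : Measurable γ) {B : ℝ} (hB : ∀ s, |γ s| ≤ B) (a b : ℝ) :
    IntervalIntegrable γ volume a b := by
  rw [intervalIntegrable_iff]
  exact IntegrableOn.of_bound measure_Ioc_lt_top hm.aestronglyMeasurable B
    (Eventually.of_forall hB)

/-- The one-dimensional cutoff with derivative on a given set. -/
theorem cutoff {X : Set ℝ} (hX : MeasurableSet X) {θ : ℝ} (hθ : 0 < θ)
    (h1 : θ / 2 ≤ volume.real (X ∩ Icc θ (2 * θ)))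
    (h2 : θ / 2 ≤ volume.real (X ∩ Icc (-(2 * θ)) (-θ))) :
    ∃ γ : ℝ → ℝ, Measurable γ ∧ (∀ s, |γ s| ≤ 2 / θ) ∧ (∀ s, γ s ≠ 0 → s ∈ X ∧ |s| ≤ 2 * θ) ∧
      (∀ s, |∫ t in (-(3 * θ))..s, γ t| ≤ 1) ∧
      (∀ s, |s| < θ → ∫ t in (-(3 * θ))..s, γ t = 1) ∧
      ∀ s, 2 * θ < |s| → ∫ t in (-(3 * θ))..s, γ t = 0 := by
  set P := X ∩ Icc (-(2 * θ)) (-θ) with hP
  set Q := X ∩ Icc θ (2 * θ) with hQ
  have hPm : MeasurableSet P := hX.inter measurableSet_Icc
  have hQm : MeasurableSet Q := hX.inter measurableSet_Icc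
  have hp : 0 < volume.real P := by linarith
  have hq : 0 < volume.real Q := by linarith
  have hPf : volume P ≠ ⊤ := (lt_of_le_of_lt (measure_mono inter_subset_right)
    measure_Icc_lt_top).ne
  have hQf : volume Q ≠ ⊤ := (lt_of_le_of_lt (measure_mono inter_subset_right)
    measure_Icc_lt_top).ne
  have hi : ∀ {Y : Set ℝ}, MeasurableSet Y → Measurable (Y.indicator fun _ => (1 : ℝ)) ∧
      ∀ s, |Y.indicator (fun _ => (1 : ℝ)) s| ≤ 1 := by
    intro Y hY
    refine ⟨measurable_const.indicator hY, fun s => ?_⟩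
    by_cases hs : s ∈ Y <;> simp [hs]
  have key : ∀ s, ∫ t in (-(3 * θ))..s, (P.indicator (fun _ => (1 : ℝ)) t / volume.real P
      - Q.indicator (fun _ => (1 : ℝ)) t / volume.real Q)
      = volume.real (P ∩ Iic s) / volume.real P - volume.real (Q ∩ Iic s) / volume.real Q := by
    intro s
    rw [intervalIntegral.integral_sub ((ii (hi hPm).1 (hi hPm).2 _ _).div_const _)
      ((ii (hi hQm).1 (hi hQm).2 _ _).div_const _), intervalIntegral.integral_div,
      intervalIntegral.integral_div, prim hPm, prim hQm]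
    · intro t ht
      have := ht.2.1
      show -(3 * θ) < t
      linarith
    · intro t ht
      have := ht.2.1
      show -(3 * θ) < t
      linarith
  have hfull : ∀ {Y : Set ℝ} {s : ℝ}, Y ⊆ Iic s → Y ∩ Iic s = Y := fun h => inter_eq_left.2 h
  have hemp : ∀ {Y : Set ℝ} {s : ℝ}, Y ⊆ Ioi s → volume.real (Y ∩ Iic s) = 0 := by
    intro Y s h
    have : Y ∩ Iic s = ∅ :=
      eq_empty_of_forall_notMem fun t ht => not_lt.2 (mem_Iic.1 ht.2) (mem_Ioi.1 (h ht.1))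
    rw [this]
    simp
  refine ⟨fun t => P.indicator (fun _ => (1 : ℝ)) t / volume.real P
      - Q.indicator (fun _ => (1 : ℝ)) t / volume.real Q,
    ((hi hPm).1.div_const _).sub ((hi hQm).1.div_const _), fun s => ?_, fun s hs => ?_,
    fun s => ?_, fun s hs => ?_, fun s hs => ?_⟩
  · have e1 : 1 / volume.real P ≤ 2 / θ := by
      rw [div_le_div_iff₀ hp hθ]; linarith
    have e2 : 1 / volume.real Q ≤ 2 / θ := by
      rw [div_le_div_iff₀ hq hθ]; linarith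
    have e3 : 0 < 1 / volume.real P := by positivity
    have e4 : 0 < 1 / volume.real Q := by positivity
    have e5 : 0 < 2 / θ := by positivity
    beta_reduce
    by_cases hs : s ∈ P <;> by_cases hs' : s ∈ Q <;>
      simp only [indicator, hs, hs', if_true, if_false, zero_div] <;>
      rw [abs_le] <;> constructor <;> linarith
  · by_cases h3 : s ∈ P
    · exact ⟨h3.1, abs_le.2 ⟨h3.2.1, by linarith [h3.2.2]⟩⟩
    · by_cases h4 : s ∈ Q
      · exact ⟨h4.1, abs_le.2 ⟨by linarith [h4.2.1], h4.2.2⟩⟩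
      · exact absurd (by simp [h3, h4]) hs
  · rw [key]
    have e1 : volume.real (P ∩ Iic s) / volume.real P ≤ 1 :=
      (div_le_one hp).2 (measureReal_mono inter_subset_left hPf)
    have e2 : volume.real (Q ∩ Iic s) / volume.real Q ≤ 1 :=
      (div_le_one hq).2 (measureReal_mono inter_subset_left hQf)
    have e3 : 0 ≤ volume.real (P ∩ Iic s) / volume.real P := by positivity
    have e4 : 0 ≤ volume.real (Q ∩ Iic s) / volume.real Q := by positivity
    rw [abs_le]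
    constructor <;> linarith
  · rw [abs_lt] at hs
    rw [key, hfull (fun t ht => le_trans ht.2.2 hs.1.le),
      hemp (fun t ht => lt_of_lt_of_le hs.2 ht.2.1), div_self hp.ne']
    simp
  · rw [key]
    rcases lt_abs.1 hs with h | h
    · rw [hfull (fun t ht => le_trans ht.2.2 (by linarith)),
        hfull (fun t ht => le_trans ht.2.2 h.le), div_self hp.ne', div_self hq.ne', sub_self]
    · rw [hemp (fun t ht => lt_of_lt_of_le (by linarith) ht.2.1),
        hemp (fun t ht => lt_of_lt_of_le (by linarith) ht.2.1)]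
      simp

theorem norm_vp_le {g : ℂ} (hg : ‖g‖ ≤ 1 / 10) (x : E) : ‖vp g x‖ ≤ 11 / 10 * ‖x‖ := by
  have h1 := norm_vp_sub_pr g x
  have h2 := norm_pr_le x
  have h3 := abs_two_le x
  have h4 : ‖vp g x‖ ≤ ‖vp g x - pr x‖ + ‖pr x‖ := by
    simpa using norm_add_le (vp g x - pr x) (pr x)
  have h5 : |x 2| * ‖g‖ ≤ ‖x‖ * (1 / 10) := mul_le_mul h3 hg (norm_nonneg _) (norm_nonneg _)
  linarith

theorem norm_pr_le' {g : ℂ} (hg : ‖g‖ ≤ 1 / 10) (x : E) : ‖pr x‖ ≤ ‖vp g x‖ + |x 2| / 10 := by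
  have h1 := norm_vp_sub_pr g x
  have h4 : ‖pr x‖ ≤ ‖vp g x‖ + ‖vp g x - pr x‖ := by
    simpa using norm_sub_le (vp g x) (vp g x - pr x)
  have h5 : |x 2| * ‖g‖ ≤ |x 2| * (1 / 10) := mul_le_mul_of_nonneg_left hg (abs_nonneg _)
  linarith

/-- The two heights of a point differ by little. -/
theorem height {g : ℂ} (hg : ‖g‖ ≤ 1 / 10) (x : E) :
    |x 2| ≤ 11 / 10 * |⟪x, dir g⟫| + ‖pr x‖ / 10 ∧ |⟪x, dir g⟫| ≤ |x 2| + ‖pr x‖ / 10 := by
  have hn := norm_nonneg g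
  have h1 : 1 ≤ √(1 + ‖g‖ ^ 2) := Real.one_le_sqrt.2 (by nlinarith)
  have h2 : √(1 + ‖g‖ ^ 2) ≤ 11 / 10 := Real.sqrt_le_iff.2 ⟨by norm_num, by nlinarith⟩
  have h3 : ⟪x, dir g⟫ * √(1 + ‖g‖ ^ 2) = x 2 - ⟪g, pr x⟫ := by
    rw [inner_dir, div_mul_cancel₀ _ (by linarith)]
  have h4 : |⟪g, pr x⟫| ≤ ‖pr x‖ / 10 := by
    have h5 := abs_real_inner_le_norm g (pr x)
    have h6 := mul_le_mul_of_nonneg_right hg (norm_nonneg (pr x))
    linarith
  have h5 : |⟪x, dir g⟫| * √(1 + ‖g‖ ^ 2) = |x 2 - ⟪g, pr x⟫| := by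
    rw [← h3, abs_mul, abs_of_nonneg (Real.sqrt_nonneg _)]
  have h6 := mul_le_mul_of_nonneg_left h1 (abs_nonneg ⟪x, dir g⟫)
  have h7 := mul_le_mul_of_nonneg_left h2 (abs_nonneg ⟪x, dir g⟫)
  have h8 := abs_sub (x 2) ⟪g, pr x⟫
  have h9 : |x 2| ≤ |x 2 - ⟪g, pr x⟫| + |⟪g, pr x⟫| := by
    simpa using abs_add_le (x 2 - ⟪g, pr x⟫) ⟪g, pr x⟫
  constructor <;> linarith

theorem box {g : ℂ} (hg : ‖g‖ ≤ 1 / 10) {x : E} (h1 : ‖vp g x‖ ≤ 3 / 2)
    (h2 : |⟪x, dir g⟫| ≤ 1) : ‖x‖ ≤ 3 ∧ (1 / 2 ≤ |⟪x, dir g⟫| → 1 / 3 ≤ |x 2|) := by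
  have h3 := norm_pr_le' hg x
  have h4 := height hg x
  have h5 := norm_le_pr_add x
  exact ⟨by linarith [h4.1], fun h => by linarith [h4.1, h4.2]⟩

/-- The oblique projection in the rotated frame. -/
def LL (g : ℂ) (A : E ≃ₗᵢ[ℝ] E) : ℂ →L[ℝ] ℂ := LinearMap.toContinuousLinearMap
  { toFun := fun y => vp g (A (pt y 0))
    map_add' := fun y z => by
      rw [← vp_add, ← map_add, ← pt_add, add_zero]
    map_smul' := fun c y => by
      rw [RingHom.id_apply, ← vp_smul, ← map_smul, ← pt_smul, mul_zero] }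

theorem LL_apply (g : ℂ) (A : E ≃ₗᵢ[ℝ] E) (y : ℂ) : LL g A y = vp g (A (pt y 0)) := rfl

theorem LL_pr {g : ℂ} {A : E ≃ₗᵢ[ℝ] E} (hA : A e3 = dir g) (x : E) :
    LL g A (pr x) = vp g (A x) := by
  have h1 : x = pt (pr x) 0 + x 2 • e3 := by rw [pt_add_smul_e3, zero_add, pt_pr]
  conv_rhs => rw [h1]
  rw [map_add, map_smul, hA, vp_add, vp_smul, vp_dir, smul_zero, add_zero, LL_apply]

theorem LL_inj {g : ℂ} {A : E ≃ₗᵢ[ℝ] E} (hA : A e3 = dir g) {y : ℂ} (h : LL g A y = 0) :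
    y = 0 := by
  have h1 := eq_pt_vp g (A (pt y 0))
  rw [← LL_apply, h, ← hA, ← map_smul] at h1
  have h2 : pt (0 : ℂ) 0 = 0 := by ext i; fin_cases i <;> simp
  rw [h2, zero_add] at h1
  have h3 := congrArg pr (A.injective h1)
  rwa [pr_pt, pr_smul, pr_e3, smul_zero] at h3

theorem norm_LL {g : ℂ} (hg : ‖g‖ ≤ 1 / 10) (A : E ≃ₗᵢ[ℝ] E) (y : ℂ) :
    ‖LL g A y‖ ≤ 2 * ‖y‖ := by
  have h1 := norm_vp_le hg (A (pt y 0))
  rw [A.norm_map, norm_pt_zero] at h1
  rw [LL_apply]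
  linarith [norm_nonneg y]

/-- The estimate in the rotated frame. -/
theorem core (hC : S_CACO) {M : Surf} (hM : M.Mem) {L : ℂ →L[ℝ] ℂ} {θ c : ℝ} {V H : Set ℝ}
    {G : Set E} (hθ : 0 < θ) (hV : MeasurableSet V) (hH : MeasurableSet H)
    (hV1 : θ / 2 ≤ volume.real (V ∩ Icc θ (2 * θ)))
    (hV2 : θ / 2 ≤ volume.real (V ∩ Icc (-(2 * θ)) (-θ)))
    (hH1 : θ / 2 ≤ volume.real (H ∩ Icc θ (2 * θ)))
    (hH2 : θ / 2 ≤ volume.real (H ∩ Icc (-(2 * θ)) (-θ)))
    (hinj : ∀ y, L y = 0 → y = 0) (hL : ∀ y, ‖L y‖ ≤ 2 * ‖y‖)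
    (hs : M.Slab (L ⁻¹' Sq (3 * θ)) (1 / 2) 1)
    (hG : MeasurableSet G) (hGc : G ⊆ cyl (L ⁻¹' Sq (3 * θ)) 1)
    (hb : cyl (L ⁻¹' Sq (3 * θ)) 1 ⊆ ball 0 4)
    (hGS : ∀ x ∈ M.S, |x 2| < 1 → L (pr x) ∈ onL θ V H → x ∈ G) (hθ1 : θ ≤ 1) :
    M.E0 e3 (ball 0 (θ / 2)) ≤ 512 / θ ^ 2 *
      ∫ x in G ∩ M.top e3, (M.alpha e3 x - c) ^ 2 * M.N x 2 ∂M.μ := by
  obtain ⟨γ₁, hm₁, hb₁, hs₁, he₁, ho₁, hz₁⟩ := cutoff hV hθ hV1 hV2
  obtain ⟨γ₂, hm₂, hb₂, hs₂, he₂, ho₂, hz₂⟩ := cutoff hH hθ hH1 hH2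
  set l₁ : ℂ →L[ℝ] ℝ := Complex.reCLM.comp L with hl₁
  set l₂ : ℂ →L[ℝ] ℝ := Complex.imCLM.comp L with hl₂
  have el₁ : ∀ y, l₁ y = (L y).re := fun y => rfl
  have el₂ : ∀ y, l₂ y = (L y).im := fun y => rfl
  have hn₁ : ‖l₁‖ ≤ 2 := ContinuousLinearMap.opNorm_le_bound _ (by norm_num) fun y =>
    (Complex.abs_re_le_norm _).trans (hL y)
  have hn₂ : ‖l₂‖ ≤ 2 := ContinuousLinearMap.opNorm_le_bound _ (by norm_num) fun y =>
    (Complex.abs_im_le_norm _).trans (hL y)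
  have hvan : ∀ {γ : ℝ → ℝ} {X : Set ℝ}, (∀ s, γ s ≠ 0 → s ∈ X ∧ |s| ≤ 2 * θ) →
      ∀ s, 3 * θ ≤ |s| → γ s = 0 := by
    intro γ X h s hs'
    by_contra hn
    linarith [(h s hn).2]
  have h3θ : 2 * θ < |3 * θ| := by rw [abs_of_pos (by linarith)]; linarith
  have key := hC M hM l₁ l₂ γ₁ γ₂ (3 * θ) (2 / θ) (1 / 2) 1 c
    (fun y h1 h2 => hinj y (Complex.ext h1 h2)) hm₁ hm₂ (by linarith) hb₁ hb₂ (hvan hs₁)
    (hvan hs₂) (hz₁ _ h3θ) (hz₂ _ h3θ) (by norm_num) (by norm_num) hs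
  set η₁ : ℝ → ℝ := fun s => ∫ t in (-(3 * θ))..s, γ₁ t with hη₁
  set η₂ : ℝ → ℝ := fun s => ∫ t in (-(3 * θ))..s, γ₂ t with hη₂
  have hc₁ : Continuous η₁ := intervalIntegral.continuous_primitive (ii hm₁ hb₁) _
  have hc₂ : Continuous η₂ := intervalIntegral.continuous_primitive (ii hm₂ hb₂) _
  have hsq : ∀ y, η₁ (l₁ y) ≠ 0 → η₂ (l₂ y) ≠ 0 → L y ∈ Sq (3 * θ) := by
    intro y h1 h2
    have h3 : |l₁ y| ≤ 2 * θ := not_lt.1 fun h => h1 (hz₁ _ h)
    have h4 : |l₂ y| ≤ 2 * θ := not_lt.1 fun h => h2 (hz₂ _ h)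
    exact ⟨by rw [← el₁]; linarith, by rw [← el₂]; linarith⟩
  have hN2 : Measurable fun x => M.N x 2 :=
    (EuclideanSpace.proj 2 : E →L[ℝ] ℝ).continuous.measurable.comp M.N_meas
  have hN1 : ∀ x ∈ M.S, |M.N x 2| ≤ 1 := fun x hx => by
    rw [← M.N_unit x hx]; exact abs_two_le _
  have htop : ∀ x ∈ M.top e3, 0 < M.N x 2 := fun x hx => by rw [← inner_e3]; exact hx
  have hD : MeasurableSet (lay 1 ∩ M.top e3) := (measurableSet_lay 1).inter (M.measurableSet_top _)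
  have hD' : MeasurableSet (G ∩ M.top e3) := hG.inter (M.measurableSet_top _)
  -- the left side
  have hleft : M.E0 e3 (ball 0 (θ / 2)) ≤ ∫ x in lay 1 ∩ M.top e3,
      (η₁ (l₁ (pr x)) * η₂ (l₂ (pr x))) ^ 2 * M.edx e3 x * M.N x 2 ∂M.μ := by
    have hint : IntegrableOn
        (fun x => (η₁ (l₁ (pr x)) * η₂ (l₂ (pr x))) ^ 2 * M.edx e3 x * M.N x 2)
        (lay 1 ∩ M.top e3) M.μ := by
      refine IntegrableOn.of_forall_sdiff_eq_zero (s := ball 0 4) ?_ hD ?_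
      · refine hM.bd.integrableOn isBounded_ball ?_ (C := 1 * 2 * 1) ?_ measurableSet_ball
        · have hcc : Continuous fun x : E => (η₁ (l₁ (pr x)) * η₂ (l₂ (pr x))) ^ 2 :=
            ((hc₁.comp (l₁.continuous.comp continuous_pr)).mul
              (hc₂.comp (l₂.continuous.comp continuous_pr))).pow 2
          exact (hcc.measurable.mul (hM.measurable_edx e3)).mul hN2
        · intro x hx
          rw [abs_mul, abs_mul]
          refine mul_le_mul (mul_le_mul ?_ ?_ (abs_nonneg _) zero_le_one) (hN1 x hx.2)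
            (abs_nonneg _) (by norm_num)
          · rw [abs_pow, abs_mul]
            exact pow_le_one₀ (by positivity) (mul_le_one₀ (he₁ _) (abs_nonneg _) (he₂ _))
          · rw [abs_of_nonneg (M.edx_nonneg _ _)]
            exact hM.edx_le_two norm_e3 hx.2
      · intro x hx
        have h0 : η₁ (l₁ (pr x)) * η₂ (l₂ (pr x)) = 0 := by
          by_contra hn
          exact hx.2 (hb ⟨hsq _ (left_ne_zero_of_mul hn) (right_ne_zero_of_mul hn), hx.1.1⟩)
        rw [h0]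
        ring
    have hsub : ball (0 : E) (θ / 2) ∩ M.top e3 ⊆ lay 1 ∩ M.top e3 := by
      refine inter_subset_inter_left _ fun x hx => ?_
      have h1 := mem_ball_zero_iff.1 hx
      have h2 := abs_two_le x
      show |x 2| < 1
      linarith
    calc M.E0 e3 (ball 0 (θ / 2)) = ∫ x in ball (0 : E) (θ / 2) ∩ M.top e3,
          (η₁ (l₁ (pr x)) * η₂ (l₂ (pr x))) ^ 2 * M.edx e3 x * M.N x 2 ∂M.μ := by
          refine setIntegral_congr_fun (measurableSet_ball.inter (M.measurableSet_top _))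
            fun x hx => ?_
          have h1 := mem_ball_zero_iff.1 hx.1
          have h2 := hL (pr x)
          have h3 := norm_pr_le x
          have h4 : η₁ (l₁ (pr x)) = 1 :=
            ho₁ _ (lt_of_le_of_lt (Complex.abs_re_le_norm (L (pr x))) (by linarith))
          have h5 : η₂ (l₂ (pr x)) = 1 :=
            ho₂ _ (lt_of_le_of_lt (Complex.abs_im_le_norm (L (pr x))) (by linarith))
          beta_reduce
          rw [h4, h5, inner_e3]
          ring
      _ ≤ _ := by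
          refine setIntegral_mono_set hint ?_ hsub.eventuallyLE
          filter_upwards [ae_restrict_mem hD] with x hx
          exact mul_nonneg (mul_nonneg (sq_nonneg _) (M.edx_nonneg _ _)) (htop x hx.2).le
  -- the right side
  have hint : IntegrableOn (fun x => (M.alpha e3 x - c) ^ 2 * M.N x 2) (G ∩ M.top e3) M.μ := by
    refine hM.bd.integrableOn (isBounded_ball.subset (inter_subset_left.trans (hGc.trans hb)))
      ((((hM.measurable_alpha e3).sub_const c).pow_const 2).mul hN2)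
      (C := (1 / 2 + |c|) ^ 2 * 1) ?_ hD'
    intro x hx
    have h1 := ((hM.chord_slab (by norm_num) (by norm_num) hs hx.2 (hGc hx.1.1)).2
      (htop x hx.1.2)).2.2.2.2.1
    rw [abs_mul, abs_pow]
    refine mul_le_mul (pow_le_pow_left₀ (abs_nonneg _) ?_ 2) (hN1 x hx.2) (abs_nonneg _)
      (by positivity)
    linarith [abs_sub (M.alpha e3 x) c]
  have hright : ∫ x in lay 1 ∩ M.top e3, (M.alpha e3 x - c) ^ 2 *
      ‖(γ₁ (l₁ (pr x)) * η₂ (l₂ (pr x))) • l₁ + (η₁ (l₁ (pr x)) * γ₂ (l₂ (pr x))) • l₂‖ ^ 2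
        * M.N x 2 ∂M.μ
      ≤ 64 / θ ^ 2 * ∫ x in G ∩ M.top e3, (M.alpha e3 x - c) ^ 2 * M.N x 2 ∂M.μ := by
    rw [← integral_const_mul, ← integral_indicator hD, ← integral_indicator hD']
    refine integral_mono_of_nonneg (Eventually.of_forall fun x => ?_)
      ((integrable_indicator_iff hD').2 (hint.const_mul _)) ?_
    · refine indicator_nonneg (fun x hx => ?_) x
      exact mul_nonneg (mul_nonneg (sq_nonneg _) (sq_nonneg _)) (htop x hx.2).le
    · filter_upwards [M.ae_mem] with x hx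
      have hnn : 0 ≤ (G ∩ M.top e3).indicator
          (fun x => 64 / θ ^ 2 * ((M.alpha e3 x - c) ^ 2 * M.N x 2)) x :=
        indicator_nonneg (fun x hx => mul_nonneg (by positivity)
          (mul_nonneg (sq_nonneg _) (htop x hx.2).le)) x
      by_cases hxD : x ∈ lay 1 ∩ M.top e3
      · rw [indicator_of_mem hxD]
        by_cases hxG : L (pr x) ∈ onL θ V H
        · rw [indicator_of_mem (show x ∈ G ∩ M.top e3 from ⟨hGS x hx hxD.1 hxG, hxD.2⟩)]
          have hθ' : 0 < 2 / θ := by positivity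
          have h1 : ‖(γ₁ (l₁ (pr x)) * η₂ (l₂ (pr x))) • l₁‖ ≤ 2 / θ * 1 * 2 := by
            rw [norm_smul, Real.norm_eq_abs, abs_mul]
            exact mul_le_mul (mul_le_mul (hb₁ _) (he₂ _) (abs_nonneg _) hθ'.le) hn₁
              (norm_nonneg _) (by positivity)
          have h2 : ‖(η₁ (l₁ (pr x)) * γ₂ (l₂ (pr x))) • l₂‖ ≤ 1 * (2 / θ) * 2 := by
            rw [norm_smul, Real.norm_eq_abs, abs_mul]
            exact mul_le_mul (mul_le_mul (he₁ _) (hb₂ _) (abs_nonneg _) zero_le_one) hn₂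
              (norm_nonneg _) (by positivity)
          have h3 : ‖(γ₁ (l₁ (pr x)) * η₂ (l₂ (pr x))) • l₁
              + (η₁ (l₁ (pr x)) * γ₂ (l₂ (pr x))) • l₂‖ ≤ 8 / θ := by
            refine (norm_add_le _ _).trans ?_
            have : 8 / θ = 2 / θ * 1 * 2 + 1 * (2 / θ) * 2 := by ring
            linarith
          have h4 := pow_le_pow_left₀ (norm_nonneg _) h3 2
          have h5 := mul_le_mul_of_nonneg_left h4
            (mul_nonneg (sq_nonneg (M.alpha e3 x - c)) (htop x hxD.2).le)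
          have h6 : (8 / θ) ^ 2 = 64 / θ ^ 2 := by rw [div_pow]; norm_num
          rw [h6] at h5
          linarith
        · have h1 : γ₁ (l₁ (pr x)) * η₂ (l₂ (pr x)) = 0 := by
            by_contra hn
            have h2 := hs₁ _ (left_ne_zero_of_mul hn)
            have h3 : |l₂ (pr x)| ≤ 2 * θ := not_lt.1 fun h => right_ne_zero_of_mul hn (hz₂ _ h)
            exact hxG ⟨⟨h2.2, h3⟩, Or.inl h2.1⟩
          have h2 : η₁ (l₁ (pr x)) * γ₂ (l₂ (pr x)) = 0 := by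
            by_contra hn
            have h2 := hs₂ _ (right_ne_zero_of_mul hn)
            have h3 : |l₁ (pr x)| ≤ 2 * θ := not_lt.1 fun h => left_ne_zero_of_mul hn (hz₁ _ h)
            exact hxG ⟨⟨h3, h2.2⟩, Or.inr h2.1⟩
          rw [h1, h2, zero_smul, zero_smul, add_zero, norm_zero]
          simpa using hnn
      · rw [indicator_of_notMem hxD]
        exact hnn
  have e : 512 / θ ^ 2 * ∫ x in G ∩ M.top e3, (M.alpha e3 x - c) ^ 2 * M.N x 2 ∂M.μ
      = 8 * (64 / θ ^ 2 * ∫ x in G ∩ M.top e3, (M.alpha e3 x - c) ^ 2 * M.N x 2 ∂M.μ) := by ring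
  rw [e]
  exact hleft.trans (key.trans (mul_le_mul_of_nonneg_left hright (by norm_num)))

end DCUT

theorem cut_of (hC : S_CACO) : S_CUT := by
  refine ⟨512, by norm_num, ?_⟩
  intro M k g θ c V H hM hk hk' hH hg hθ hθ' hVm hHm hV1 hV2 hH1 hH2
  obtain ⟨M', A, hA, hs⟩ := M.exists_frame (norm_dir g) one_pos
  have hM' : M'.Mem := hs.symm.mem hM
  have hmap : ∀ x, simMap A 1 0 x = A x := fun x => by simp [simMap]
  have hin : ∀ x, ⟪A x, dir g⟫ = x 2 := fun x => by rw [← hA, A.inner_map_map, inner_e3]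
  have hsq : ∀ {y : ℂ}, y ∈ Sq (3 * θ) → ‖y‖ ≤ 3 / 2 := fun h => by
    linarith [norm_le_of_mem_Sq h]
  have hbox : ∀ x : E, DCUT.LL g A (pr x) ∈ Sq (3 * θ) → |x 2| ≤ 1 →
      ‖x‖ ≤ 3 ∧ (1 / 2 ≤ |x 2| → 1 / 3 ≤ |A x 2|) := by
    intro x h1 h2
    rw [DCUT.LL_pr hA] at h1
    have h3 := DCUT.box hg (hsq h1) (by rw [hin]; exact h2)
    rwa [A.norm_map, hin] at h3
  have h40 : (40 : ℝ) ≤ 2 / k := by
    rw [le_div_iff₀ hk]; linarith
  have hon : ∀ {y : ℂ}, y ∈ onL θ V H → y ∈ Sq (3 * θ) := fun h =>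
    ⟨by linarith [h.1.1], by linarith [h.1.2]⟩
  have key := DCUT.core hC hM' (L := DCUT.LL g A) (c := c) (G := A ⁻¹' ovL g θ V H) hθ hVm hHm
    hV1 hV2 hH1 hH2 (fun y => DCUT.LL_inj hA) (DCUT.norm_LL hg A)
    (by
      intro y hy t ht1 ht2
      have h1 := hbox (pt y t) hy ht2
      rw [← hs.W', hmap]
      refine hH.side _ ?_ ?_
      · rw [mem_ball_zero_iff, A.norm_map]
        linarith [h1.1]
      · linarith [h1.2 ht1])
    ((measurableSet_ovL g θ hVm hHm).preimage A.continuous.measurable)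
    (by
      intro x hx
      refine ⟨?_, ?_⟩
      · show DCUT.LL g A (pr x) ∈ Sq (3 * θ)
        rw [DCUT.LL_pr hA]
        exact hon hx.1
      · have h1 := (DCUT.height hg (A x)).2
        have h2 := DCUT.norm_pr_le' hg (A x)
        have h3 := hsq (hon hx.1)
        have h4 := hx.2
        rw [hin] at h1
        linarith)
    (by
      intro x hx
      rw [mem_ball_zero_iff]
      linarith [(hbox x hx.1 hx.2.le).1])
    (by
      intro x hx h1 h2
      have h3 := (hbox x (hon h2) h1.le).1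
      rw [DCUT.LL_pr hA] at h2
      refine ⟨h2, ?_⟩
      have h4 : A x ∈ M.S := by rw [← hmap]; exact (hs.S x).2 hx
      have h5 := hH.abs_le' hk hk' h4 (by rw [A.norm_map]; linarith)
      linarith)
    (by linarith)
  have e1 := hs.E0_ball e3 (θ / 2)
  rw [hA, one_mul, one_pow, one_mul] at e1
  have e2 : simMap A 1 0 ⁻¹' (ovL g θ V H ∩ M.top (dir g)) = A ⁻¹' ovL g θ V H ∩ M'.top e3 := by
    ext x
    rw [mem_preimage, mem_inter_iff, mem_inter_iff, ← hs.top e3 x, hA, mem_preimage, hmap]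
  rw [e1, hs.setIntegral, e2, one_pow, one_mul]
  refine key.trans (le_of_eq ?_)
  congr 1
  refine integral_congr_ae (Eventually.of_forall fun x => ?_)
  beta_reduce
  have e3' := hs.alpha e3 x
  rw [hA, one_mul, inner_zero_left, add_zero] at e3'
  rw [e3', hs.N, hin]

end MW
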