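import Pool.Agent.P.MP_064970_gt.D.API

/-! D1, the cone condition. δ = L^2/64, om₀ = L/8, Λ₀ = 2 Λ (Λ from DEC for ε δ), β₀ = L/20. Let s = ‖z - p‖, Δ = z 2 - p 2; L‖pr z - pr p‖ < |Δ| and
norm_sq_eq give |Δ| > L s/2. Case s ≤ 1: DEC, TypeII give FlatW p s δ ν; Θ p s ≥ 3/2 (MONO); second part of CACC3 with e = e3:
ball p s ⊆ ball p (s/δ), S ∩ ball p s ⊆ cyl (ball y s) 1 (Hk.abs_le'), b < s, so wedge ν e3 ≤ L/4; abs_inner_le_add_wedge gives
|⟪z-p,ν⟫| ≥ L s/4 > δ s, FlatW.side. Case s > 1: |z 2| > L/2 - k - 2b ≥ k, ‖z‖ < 24 ≤ 2/k, Hk.side. -/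

open MeasureTheory Set Filter Topology Metric
open scoped RealInnerProductSpace ENNReal NNReal ComplexConjugate Real

noncomputable section

namespace MW

namespace DCX

end DCX

theorem cx_of (hD : S_DEC) (hM : S_MONO) (hC : S_CACC3) : S_CX := by
  intro ε hε L hL hL1
  have hδ : 0 < L ^ 2 / 64 := by positivity
  have hδ1 : L ^ 2 / 64 < 1 := by nlinarith
  obtain ⟨Λ, hΛ, hDEC⟩ := hD (ε (L ^ 2 / 64)) (hε _ hδ)
  refine ⟨L / 8, 2 * Λ, L / 20, by positivity, by linarith, by positivity, ?_⟩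
  intro k hk hkβ M hMem hII hH y b p hy hb hS z hz1 hz2 hz3
  have hb0 := hS.pos
  have hk' : k ≤ 1 / 20 := by linarith
  set s := ‖z - p‖ with hs
  have hs0 : 0 < s := lt_of_lt_of_le (by positivity) hz1
  have hp : ‖p‖ ≤ 4 := by
    have h1 := norm_le_pr_add p
    rw [hS.base] at h1
    have := hS.low
    linarith
  have hΔ : L * s / 2 < |z 2 - p 2| := by
    have h1 := norm_sq_eq (z - p)
    rw [pr_sub, ← hs] at h1
    have h2 : (z - p) 2 = z 2 - p 2 := rfl
    rw [h2, ← sq_abs (z 2 - p 2)] at h1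
    have h3 : (L * ‖pr z - pr p‖) ^ 2 < |z 2 - p 2| ^ 2 :=
      pow_lt_pow_left₀ hz3 (by positivity) two_ne_zero
    have h4 : L ^ 2 * |z 2 - p 2| ^ 2 ≤ |z 2 - p 2| ^ 2 := by
      have : L ^ 2 ≤ 1 := by nlinarith
      nlinarith [sq_nonneg (|z 2 - p 2|)]
    refine lt_of_pow_lt_pow_left₀ 2 (abs_nonneg _) ?_
    have h5 : (L * s / 2) ^ 2 = (L ^ 2 * ‖pr z - pr p‖ ^ 2 + L ^ 2 * |z 2 - p 2| ^ 2) / 4 := by
      rw [div_pow, mul_pow, h1]; ring
    rw [h5]
    nlinarith [sq_nonneg (|z 2 - p 2|)]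
  rcases le_or_gt s 1 with hs1 | hs1
  · have h2b : 2 * b ≤ s := by nlinarith
    obtain ⟨ν, hF⟩ := hII _ hδ hδ1.le p s hs0
      (hDEC M hMem p (2 * b) s (by positivity) (by linarith) hS.dens)
    have hΘ : 3 / 2 ≤ M.Θ p s :=
      hS.dens.trans (hM M p (2 * b) s (by positivity) h2b (hMem.sub _)).1
    have hW := hC.2 M hMem p ν e3 s hF.unit norm_e3 hs0 hΘ
    have hsd : s < s / (L ^ 2 / 64) := by
      rw [lt_div_iff₀ hδ]; nlinarith
    have hmw : Measurable fun x => wedge (M.N x) ν ^ 2 :=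
      (continuous_wedge.measurable.comp (M.N_meas.prodMk measurable_const)).pow_const 2
    have h1 : ∫ x in ball p s, wedge (M.N x) ν ^ 2 ∂M.μ ≤ L ^ 2 / 64 * s ^ 2 := by
      refine le_trans (setIntegral_mono_set ?_ (Eventually.of_forall fun x => sq_nonneg _)
        (ball_subset_ball hsd.le).eventuallyLE) hF.tilt
      refine hMem.bd.integrableOn (C := 1) isBounded_ball hmw (fun x hx => ?_) measurableSet_ball
      have a := wedge_le_one (M.N_unit x hx.2) hF.unit
      have a' := wedge_nonneg (M.N x) ν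
      rw [abs_of_nonneg (sq_nonneg _)]
      nlinarith
    have h2 : ∫ x in ball p s, wedge (M.N x) e3 ^ 2 ∂M.μ ≤ (L / 8) ^ 2 * s ^ 2 := by
      simp only [wedge_e3]
      refine le_trans (setIntegral_mono_set ?_ (Eventually.of_forall fun x => sq_nonneg _) ?_)
        (hS.tilt s (by linarith) hs1)
      · refine hMem.bd.integrableOn (C := 1) (isBounded_cyl isBounded_ball 1)
          ((measurable_pr.comp M.N_meas).norm.pow_const 2) (fun x hx => ?_)
          (measurableSet_cyl measurableSet_ball 1)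
        have a := norm_pr_le (M.N x)
        rw [M.N_unit x hx.2] at a
        rw [abs_of_nonneg (sq_nonneg _)]
        nlinarith [norm_nonneg (pr (M.N x))]
      · filter_upwards [M.ae_mem] with x hx hxb
        have hxb' : ‖x - p‖ < s := mem_ball_iff_norm.1 (show x ∈ ball p s from hxb)
        refine ⟨?_, ?_⟩
        · rw [mem_ball, dist_eq_norm, ← hS.base, ← pr_sub]
          exact (norm_pr_le _).trans_lt hxb'
        · have h3 : ‖x‖ ≤ 30 := by
            have := norm_add_le (x - p) p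
            rw [sub_add_cancel] at this
            linarith
          exact (hH.abs_le' hk hk' hx h3).trans_lt (by linarith)
    have hw : wedge ν e3 ≤ L / 4 := by
      have h3 : wedge ν e3 ^ 2 * s ^ 2 ≤ (L / 4) ^ 2 * s ^ 2 := by nlinarith
      have h4 := le_of_mul_le_mul_right h3 (by positivity : 0 < s ^ 2)
      exact (pow_le_pow_iff_left₀ (wedge_nonneg _ _) (by positivity) two_ne_zero).1 h4
    refine hF.side z (by rw [mem_ball, dist_eq_norm]; exact hsd) ?_
    have h5 := abs_inner_le_add_wedge norm_e3 hF.unit (z - p)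
    rw [inner_e3, ← hs] at h5
    have h6 : (z - p) 2 = z 2 - p 2 := rfl
    rw [h6] at h5
    have h7 : wedge ν e3 * s ≤ L / 4 * s := mul_le_mul_of_nonneg_right hw hs0.le
    have h8 : L ^ 2 / 64 * s ≤ L / 4 * s := mul_le_mul_of_nonneg_right (by nlinarith) hs0.le
    linarith
  · refine hH.side z ?_ ?_
    · rw [mem_ball_zero_iff]
      have h1 := norm_add_le (z - p) p
      rw [sub_add_cancel] at h1
      have h2 : (40 : ℝ) ≤ 2 / k := by rw [le_div_iff₀ hk]; linarith
      linarith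
    · have h1 := abs_sub (z 2) (p 2)
      have h2 := hS.low
      have h3 : L / 2 < L * s / 2 := by nlinarith
      linarith

end MW
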