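import Pool.Agent.P.MP_064970_gt.D.API

/-! D5, assembly: the decay of the energy from the cell decomposition, the weak equation, the grid
approximation and the tilted Caccioppoli inequality. -/

open MeasureTheory Set Filter Topology Metric
open scoped RealInnerProductSpace ENNReal NNReal ComplexConjugate Real

noncomputable section

namespace MW

namespace DDECAY

theorem small (A : ℝ) {η : ℝ} (hη : 0 < η) : ∀ᶠ k in 𝓝 (0 : ℝ), A * √k ≤ η := by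
  have h : Tendsto (fun k : ℝ => A * √k) (𝓝 0) (𝓝 (A * √0)) :=
    (continuous_const.mul Real.continuous_sqrt).tendsto 0
  rw [Real.sqrt_zero, mul_zero] at h
  exact h.eventually (Iic_mem_nhds hη)

theorem exists_k {p : ℝ → Prop} (h : ∀ᶠ k in 𝓝 (0 : ℝ), p k) :
    ∃ k₀ : ℝ, 0 < k₀ ∧ ∀ k : ℝ, 0 < k → k ≤ k₀ → p k := by
  obtain ⟨δ, hδ, h⟩ := Metric.eventually_nhds_iff.1 h
  refine ⟨δ / 2, by positivity, fun k hk hk' => h ?_⟩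
  rw [Real.dist_eq, sub_zero, abs_of_pos hk]
  linarith

/-- A large cell does not carry energy. -/
theorem not_tyE {M : Surf} {P : Par} {β : ℝ} {y : ℂ} {b : ℝ} {p : E} (hM : M.Mem) (hP : P.Ok)
    (hβ : P.Λ * β ≤ 1 / 10) (hc : M.Cell P β y b p) {s : ℝ} (hs : 0 < s)
    (hE : M.E0 e3 (ball 0 5) ≤ s ^ 2) (hb : s / P.c < b) : ¬ M.TyE P y b := by
  intro h
  have h1 := (hc.mul_le hP hβ).1
  have hsub : cyl (ball y (P.Λ * b)) 1 ⊆ ball (0 : E) 5 := by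
    refine cyl_subset_ball (ρ := 4) (fun z hz => ?_) zero_le_one (by norm_num) (by norm_num)
    have h2 : ‖z - y‖ < P.Λ * b := by simpa [dist_eq_norm] using hz
    have h3 : ‖z‖ ≤ ‖z - y‖ + ‖y‖ := by simpa using norm_add_le (z - y) y
    have h4 := hc.near
    linarith
  have h2 := hM.E0_mono norm_e3 (A := cyl (ball y (P.Λ * b)) 1) (B := ball 0 5)
    (inter_subset_left.trans hsub) isBounded_ball
  have h3 : P.c * b ^ 2 ≤ s ^ 2 := (le_trans h h2).trans hE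
  have hc0 := hP.c_pos
  have hc1 := hP.c_le
  have h4 : s < b * P.c := (div_lt_iff₀ hc0).1 hb
  have hb0 := hc.pos
  have h5 : s ^ 2 < (b * P.c) ^ 2 := by gcongr
  have h6 : (b * P.c) ^ 2 ≤ P.c * b ^ 2 := by
    have : (b * P.c) ^ 2 = P.c * (P.c * b ^ 2) := by ring
    rw [this]
    exact mul_le_of_le_one_left (by positivity) hc1
  linarith

/-- The sums over the large and the small cells. -/
theorem sums {M : Surf} {P : Par} {k β : ℝ} {u : Finset ℂ} {b : ℂ → ℝ} {p : ℂ → E} {Ro : Set ℂ}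
    (hM : M.Mem) (hP : P.Ok) (hβ : P.Λ * β ≤ 1 / 10) (hcov : M.Cover P k β u b p Ro) {s Cs : ℝ}
    (hs : 0 < s) (hsk : s ≤ k) (hk1 : k ≤ 1) (hCs : 0 < Cs) (hE : M.E0 e3 (ball 0 5) ≤ s ^ 2)
    (hS : ∀ w ⊆ u, ((∀ y ∈ w, M.TyE P y (b y)) → P.c * ∑ y ∈ w, b y ^ 2 ≤ M.E0 e3 (ball 0 5)) ∧
      ((∀ y ∈ w, M.TyF P k y (b y)) → ∑ y ∈ w, b y ≤ Cs * k)) :
    ∃ w u₁ : Finset ℂ, w ⊆ u ∧ u₁ ⊆ u ∧ (∀ y ∈ u, y ∉ w → y ∈ u₁) ∧ (∀ y ∈ w, b y ≤ s / P.c) ∧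
      (∀ y ∈ u₁, s / P.c < b y) ∧ ∑ y ∈ u₁, b y ≤ Cs * k ∧
      ∑ y ∈ w, b y ^ 2 ≤ (1 + Cs) / P.c * k * s ∧
      ∑ y ∈ u, b y ^ 2 ≤ (Cs + (1 + Cs) / P.c) * k := by
  classical
  have hc0 := hP.c_pos
  have hk0 : 0 < k := hs.trans_le hsk
  have hb0 : ∀ y ∈ u, 0 < b y := fun y hy => (hcov.cell y hy).pos
  have hb1 : ∀ y ∈ u, b y ≤ 1 := fun y hy => by
    have h := (hcov.cell y hy).mul_le hP hβ
    linarith [h.1, h.2.2.1, hb0 y hy]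
  have h1 : ∑ y ∈ u.filter (fun y => ¬ b y ≤ s / P.c), b y ≤ Cs * k := by
    refine (hS _ (Finset.filter_subset _ _)).2 fun y hy => ?_
    rw [Finset.mem_filter] at hy
    exact (hcov.bad y hy.1).resolve_left
      (not_tyE hM hP hβ (hcov.cell y hy.1) hs hE (not_le.1 hy.2))
  have h2 : ∑ y ∈ u.filter (fun y => b y ≤ s / P.c), b y ^ 2 ≤ (1 + Cs) / P.c * k * s := by
    set w := u.filter (fun y => b y ≤ s / P.c) with hw
    have hwu : w ⊆ u := Finset.filter_subset _ _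
    rw [← Finset.sum_filter_add_sum_filter_not w (fun y => M.TyE P y (b y))]
    have a1 : P.c * ∑ y ∈ w.filter (fun y => M.TyE P y (b y)), b y ^ 2 ≤ s ^ 2 :=
      ((hS _ ((Finset.filter_subset _ _).trans hwu)).1
        fun y hy => (Finset.mem_filter.1 hy).2).trans hE
    have a2 : ∑ y ∈ w.filter (fun y => ¬ M.TyE P y (b y)), b y ≤ Cs * k := by
      refine (hS _ ((Finset.filter_subset _ _).trans hwu)).2 fun y hy => ?_
      rw [Finset.mem_filter] at hy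
      exact (hcov.bad y (hwu hy.1)).resolve_left hy.2
    have a3 : ∑ y ∈ w.filter (fun y => ¬ M.TyE P y (b y)), b y ^ 2
        ≤ s / P.c * ∑ y ∈ w.filter (fun y => ¬ M.TyE P y (b y)), b y := by
      rw [Finset.mul_sum]
      refine Finset.sum_le_sum fun y hy => ?_
      have hyw := (Finset.mem_filter.1 hy).1
      have hle : b y ≤ s / P.c := (Finset.mem_filter.1 hyw).2
      have := hb0 y (hwu hyw)
      nlinarith
    have a4 : ∑ y ∈ w.filter (fun y => M.TyE P y (b y)), b y ^ 2 ≤ s ^ 2 / P.c := by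
      rw [le_div_iff₀ hc0, mul_comm]
      exact a1
    have a5 : s / P.c * ∑ y ∈ w.filter (fun y => ¬ M.TyE P y (b y)), b y ≤ s / P.c * (Cs * k) :=
      mul_le_mul_of_nonneg_left a2 (by positivity)
    have a6 : s ^ 2 / P.c ≤ k * s / P.c := by
      gcongr
      nlinarith
    have a7 : (1 + Cs) / P.c * k * s = k * s / P.c + s / P.c * (Cs * k) := by
      field_simp
    linarith
  refine ⟨u.filter (fun y => b y ≤ s / P.c), u.filter (fun y => ¬ b y ≤ s / P.c),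
    Finset.filter_subset _ _, Finset.filter_subset _ _, fun y hy hyw => ?_,
    fun y hy => (Finset.mem_filter.1 hy).2, fun y hy => not_le.1 (Finset.mem_filter.1 hy).2,
    h1, h2, ?_⟩
  · rw [Finset.mem_filter] at hyw ⊢
    exact ⟨hy, fun h => hyw ⟨hy, h⟩⟩
  · rw [← Finset.sum_filter_add_sum_filter_not u (fun y => b y ≤ s / P.c)]
    have a1 : ∑ y ∈ u.filter (fun y => ¬ b y ≤ s / P.c), b y ^ 2
        ≤ ∑ y ∈ u.filter (fun y => ¬ b y ≤ s / P.c), b y := by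
      refine Finset.sum_le_sum fun y hy => ?_
      have hyu := (Finset.mem_filter.1 hy).1
      have := hb0 y hyu
      have := hb1 y hyu
      nlinarith
    have a2 : (1 + Cs) / P.c * k * s ≤ (1 + Cs) / P.c * k :=
      mul_le_of_le_one_right (by positivity) (hsk.trans hk1)
    nlinarith

/-- The choice of the lines. -/
theorem lines (h5 : S_LINES) {M : Surf} {P : Par} {k β : ℝ} {u w u₁ : Finset ℂ} {b : ℂ → ℝ}
    {p : ℂ → E} {Ro : Set ℂ} (hP : P.Ok) (hcov : M.Cover P k β u b p Ro) (hw : w ⊆ u)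
    (hu₁ : u₁ ⊆ u) (hsplit : ∀ y ∈ u, y ∉ w → y ∈ u₁) {τ B₁ B₂ η : ℝ} (hτ : 0 < τ)
    (h1 : ∑ y ∈ u₁, b y ≤ B₁) (h2 : ∑ y ∈ w, b y ^ 2 ≤ B₂)
    (hη : 12 * P.Λ * B₁ + 144 * P.Λ ^ 2 * B₂ / τ ≤ η) :
    ∃ V H : Set ℝ, MeasurableSet V ∧ MeasurableSet H ∧ volume (I2 \ V) ≤ ENNReal.ofReal η ∧
      volume (I2 \ H) ≤ ENNReal.ofReal η ∧
      (∀ z : ℂ, z.re ∈ V ∨ z.im ∈ H → ∀ y ∈ u₁, 6 * P.Λ * b y < ‖z - y‖) ∧
      (∀ s ∈ V ∩ I2, volume {t : ℝ | t ∈ I2 ∧ (⟨s, t⟩ : ℂ) ∉ Ro} ≤ ENNReal.ofReal τ) ∧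
      ∀ t ∈ H ∩ I2, volume {s : ℝ | s ∈ I2 ∧ (⟨s, t⟩ : ℂ) ∉ Ro} ≤ ENNReal.ofReal τ := by
  have hΛ : 0 < P.Λ := by linarith [hP.four_le]
  have hb0 : ∀ y ∈ u, 0 < b y := fun y hy => (hcov.cell y hy).pos
  obtain ⟨V, H, hV, hH, cV, cH, hoff, hver, hhor⟩ := h5 u₁ w (fun y => 6 * P.Λ * b y) τ
    (fun y hy => by have := hb0 y (hu₁ hy); positivity)
    (fun y hy => by have := hb0 y (hw hy); positivity) hτ
  have hle : 2 * ∑ y ∈ u₁, 6 * P.Λ * b y + 4 * (∑ y ∈ w, (6 * P.Λ * b y) ^ 2) / τ ≤ η := by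
    have e1 : 2 * ∑ y ∈ u₁, 6 * P.Λ * b y = 12 * P.Λ * ∑ y ∈ u₁, b y := by
      rw [← Finset.mul_sum]
      ring
    have e2 : 4 * (∑ y ∈ w, (6 * P.Λ * b y) ^ 2) = 144 * P.Λ ^ 2 * ∑ y ∈ w, b y ^ 2 := by
      simp only [mul_pow]
      rw [← Finset.mul_sum]
      ring
    rw [e1, e2]
    refine le_trans ?_ hη
    gcongr
  have key : ∀ z : ℂ, z ∈ Sq 2 → z.re ∈ V ∨ z.im ∈ H → z ∉ Ro →
      ∃ y ∈ w, ‖z - y‖ ≤ 6 * P.Λ * b y := by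
    intro z hz hVH hR
    have hn : ‖z‖ ≤ 3 := by
      have := norm_le_of_mem_Sq hz
      linarith
    obtain ⟨y, hy, hzy⟩ := (hcov.cover z hn).resolve_left hR
    have hpos : 0 < P.Λ * b y := mul_pos hΛ (hb0 y hy)
    by_cases hyw : y ∈ w
    · exact ⟨y, hyw, by nlinarith⟩
    · have := hoff z hVH y (hsplit y hy hyw)
      nlinarith
  refine ⟨V, H, hV, hH, ?_, ?_, hoff, fun s hs => ?_, fun t ht => ?_⟩
  · exact (measure_mono fun x hx => hx.2).trans (cV.trans (ENNReal.ofReal_le_ofReal hle))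
  · exact (measure_mono fun x hx => hx.2).trans (cH.trans (ENNReal.ofReal_le_ofReal hle))
  · refine (measure_mono fun t ht => ?_).trans (hver s hs.1)
    exact key ⟨s, t⟩ ⟨abs_le.2 hs.2, abs_le.2 ht.1⟩ (Or.inl hs.1) ht.2
  · refine (measure_mono fun s hs => ?_).trans (hhor t ht.1)
    exact key ⟨s, t⟩ ⟨abs_le.2 hs.1, abs_le.2 ht.2⟩ (Or.inr ht.1) hs.2

theorem scale (a : ℂ → ℝ) {σ : ℝ} (hσ : 0 < σ) (c₀ : ℝ) (g z : ℂ) :
    a z - σ * c₀ - ⟪σ • g, z⟫ = σ * (a z / σ - c₀ - ⟪g, z⟫) := by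
  rw [real_inner_smul_left]
  field_simp

/-- The error terms of the estimate. -/
theorem err_le {Ce Λ₀ Λ C₀ C₁ c D k s G q t : ℝ} (hCe : 0 < Ce) (hD : 0 < D) (hk : 0 < k)
    (hkq : k ≤ q) (hq : q ≤ 1) (hG0 : 0 ≤ G) (hs : 0 < s) (hG : G ≤ 2 * C₀ * s)
    (h : Ce * Λ₀ ^ 2 * (4 * C₀ ^ 2 + Λ ^ 2 * D * (4 * C₁ ^ 2 + Λ ^ 2 / c ^ 2 + 4 * C₀ ^ 2)) * q
      ≤ t) :
    Ce * Λ₀ ^ 2 * (k ^ 2 * G ^ 2 + Λ ^ 2 * (D * k) *
      ((2 * s * C₁) ^ 2 + Λ ^ 2 * (s / c) ^ 2 + k ^ 2 * G ^ 2)) ≤ t * s ^ 2 := by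
  have hk1 : k ≤ 1 := hkq.trans hq
  have a0 : G ^ 2 ≤ (2 * C₀ * s) ^ 2 := by gcongr
  have a1 : k ^ 2 ≤ q := by nlinarith
  have a2 : k ^ 2 ≤ 1 := a1.trans hq
  calc Ce * Λ₀ ^ 2 * (k ^ 2 * G ^ 2 + Λ ^ 2 * (D * k) *
        ((2 * s * C₁) ^ 2 + Λ ^ 2 * (s / c) ^ 2 + k ^ 2 * G ^ 2))
      ≤ Ce * Λ₀ ^ 2 * (q * (2 * C₀ * s) ^ 2 + Λ ^ 2 * (D * q) *
        ((2 * s * C₁) ^ 2 + Λ ^ 2 * (s / c) ^ 2 + 1 * (2 * C₀ * s) ^ 2)) := by
        have hq0 : 0 ≤ q := hk.le.trans hkq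
        gcongr
    _ = Ce * Λ₀ ^ 2 * (4 * C₀ ^ 2 + Λ ^ 2 * D * (4 * C₁ ^ 2 + Λ ^ 2 / c ^ 2 + 4 * C₀ ^ 2)) * q
        * s ^ 2 := by ring
    _ ≤ t * s ^ 2 := by gcongr

theorem weak_le {Cw om κ η Λ s m : ℝ} (hCw : 0 < Cw) (hη : 0 < η) (hΛ : 0 < Λ) (hs : 0 < s)
    (hm : 0 ≤ m) (hom : om ^ 2 ≤ η) (hκ : 3 * Cw * η = κ) :
    Cw * (om ^ 2 + √(η ^ 2) + Λ * √((η / Λ) ^ 2)) * √(s ^ 2) * m ≤ κ / 2 * (2 * s) * m := by
  rw [Real.sqrt_sq hη.le, Real.sqrt_sq (div_pos hη hΛ).le, Real.sqrt_sq hs.le,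
    mul_div_cancel₀ _ hΛ.ne', ← hκ]
  have : Cw * (om ^ 2 + η + η) * s * m ≤ Cw * (η + η + η) * s * m := by gcongr
  linarith

/-- The size of the tilt. -/
theorem tilt_le {Λ₀ C₀ k q s G G₀ : ℝ} (hΛ₀ : 1 ≤ Λ₀) (hC₀ : 0 < C₀) (hs : 0 < s) (hsk : s ≤ k)
    (hkq : k ≤ q) (hG0 : 0 ≤ G) (hG : G = 2 * s * G₀) (hG₀ : G₀ ≤ C₀) (h : 20 * Λ₀ * C₀ * q ≤ 1) :
    G ≤ 2 * C₀ * s ∧ 10 * Λ₀ * G ≤ 1 ∧ G ≤ 1 / 10 ∧ k * G ≤ s := by
  have hq0 : 0 < q := hs.trans_le (hsk.trans hkq)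
  have hsq : s ≤ q := hsk.trans hkq
  have hg : G ≤ 2 * C₀ * s := by
    rw [hG]
    nlinarith
  have hg1 : 10 * Λ₀ * G ≤ 1 := by
    calc 10 * Λ₀ * G ≤ 10 * Λ₀ * (2 * C₀ * q) :=
          mul_le_mul_of_nonneg_left (hg.trans (by gcongr)) (by positivity)
      _ ≤ 1 := by linarith
  refine ⟨hg, hg1, by nlinarith, ?_⟩
  have a1 : 2 * C₀ * q ≤ 1 := by nlinarith [mul_pos hC₀ hq0]
  calc k * G ≤ q * (2 * C₀ * s) := by gcongr
    _ = 2 * C₀ * q * s := by ring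
    _ ≤ s := mul_le_of_le_one_left hs.le a1

end DDECAY

open DDECAY in
theorem decay_of (h1 : S_CELLS) (h2 : S_COVER3) (h3 : S_MID) (h4 : S_SUMS) (h5 : S_LINES)
    (h6 : S_WEAK) (h7 : S_GLINE) (h8 : S_GRID) (h9 : S_EST) (h10 : S_CUT) : S_DECAY := by
  obtain ⟨Cw, hCw, h6⟩ := h6
  obtain ⟨C₀, hC₀, h8⟩ := h8
  obtain ⟨Ce, hCe, h9⟩ := h9
  obtain ⟨Cc, hCc, h10⟩ := h10
  refine ⟨2 * C₀ + Cc * (8 * C₀ + 1), by positivity, fun ε hε θ hθ hθ4 => ?_⟩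
  obtain ⟨κ, C₁, hκ, hκ1, hC₁, h8⟩ := h8 θ hθ hθ4
  obtain ⟨η, hη, hηκ⟩ : ∃ η : ℝ, 0 < η ∧ 3 * Cw * η = κ :=
    ⟨κ / (3 * Cw), by positivity, by field_simp⟩
  obtain ⟨P, hP, hom, h1⟩ := h1 ε hε (min (1 / 10) η) (by positivity) (min_le_left _ _)
  have hom2 : P.om ^ 2 ≤ η := by
    have a1 : P.om ≤ η := hom ▸ min_le_right _ _
    have a2 := hP.om_le
    have a3 := hP.om_pos
    nlinarith
  have hΛ : 0 < P.Λ := by linarith [hP.four_le]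
  have hΛ₀ : 0 < P.Λ₀ := by linarith [hP.one_le]
  have hc := hP.c_pos
  obtain ⟨β, hβ0, hβ⟩ : ∃ β : ℝ, 0 < β ∧ P.Λ * β ≤ 1 / 10 :=
    ⟨1 / (10 * P.Λ), by positivity, le_of_eq (by field_simp)⟩
  obtain ⟨k₁, hk₁, h1⟩ := h1 β hβ0
  obtain ⟨Cs, k₂, hCs, hk₂, h4⟩ := h4 P hP
  obtain ⟨D, hD, hDe⟩ : ∃ D : ℝ, 0 < D ∧ D = (1 + Cs) / P.c := ⟨_, by positivity, rfl⟩
  obtain ⟨k₀, hk₀, hsm⟩ := exists_k
    ((small 1 (lt_min (lt_min hk₁ hk₂) (by norm_num : (0 : ℝ) < 1 / 20))).and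
    ((small (12 * P.Λ * Cs + 144 * P.Λ ^ 2 * D) (lt_min hκ (pow_pos hη 2))).and
    ((small (Cs + D) (pow_pos (div_pos hη hΛ) 2)).and
    ((small (32 * P.Λ₀) hκ).and
    ((small (20 * P.Λ₀ * C₀) one_pos).and
    (small (Ce * P.Λ₀ ^ 2 * (4 * C₀ ^ 2 + P.Λ ^ 2 * D *
      (4 * C₁ ^ 2 + P.Λ ^ 2 / P.c ^ 2 + 4 * C₀ ^ 2))) (pow_pos hθ 6)))))))
  refine ⟨k₀, hk₀, fun k hk hkk M hM hII hH Eb hEb hEk hE => ?_⟩
  obtain ⟨s1, s2, s3, s4, s5, s6⟩ := hsm k hk hkk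
  obtain ⟨s, hs, rfl⟩ : ∃ s : ℝ, 0 < s ∧ Eb = s ^ 2 :=
    ⟨√Eb, Real.sqrt_pos.2 hEb, (Real.sq_sqrt hEb.le).symm⟩
  have hqk : √k ^ 2 = k := Real.sq_sqrt hk.le
  have hq0 : 0 < √k := Real.sqrt_pos.2 hk
  generalize √k = q at *
  rw [one_mul, le_min_iff, le_min_iff] at s1
  obtain ⟨⟨q1, q2⟩, q3⟩ := s1
  have hkq : k ≤ q := by nlinarith
  have hsk : s ≤ k := (pow_le_pow_iff_left₀ hs.le hk.le two_ne_zero).1 hEk
  have hk20 : k ≤ 1 / 20 := hkq.trans q3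
  rw [Real.sqrt_sq hs.le]
  obtain ⟨u, b, p, Ro, hcov⟩ := h2 M P k β hP (h1 k hk (hkq.trans q1) M hM hII hH)
  obtain ⟨a, ha⟩ := h3 M P k β u b p Ro hM hP hβ hcov
  obtain ⟨w, u₁, hw, hu₁, hsplit, hws, hul, t1, t2, t3⟩ := sums hM hP hβ hcov hs hsk
    (by linarith) hCs hE (h4 M k β u b p Ro hM hk (hkq.trans q2) hβ hH hcov)
  rw [← hDe] at t2 t3
  obtain ⟨V, H, hV, hH', cV, cH, hoff, hver, hhor⟩ := lines h5 hP hcov hw hu₁ hsplit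
    (τ := q * s) (η := min κ (η ^ 2)) (by positivity) t1 t2 (by
      refine le_trans ?_ s2
      have e1 : 144 * P.Λ ^ 2 * (D * k * s) / (q * s) = 144 * P.Λ ^ 2 * D * q := by
        rw [← hqk]
        field_simp
      have e2 : 12 * P.Λ * (Cs * k) ≤ 12 * P.Λ * (Cs * q) := by gcongr
      rw [e1]
      linarith)
  obtain ⟨hdiff, hen, hweak⟩ := h6 M P k β u b p Ro a (s ^ 2) ((η / P.Λ) ^ 2) (η ^ 2) V H hM hP hk
    hk20 hβ hH hcov ha hE (t3.trans (le_trans (by gcongr) s3)) hV hH' (by positivity)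
    (cV.trans (ENNReal.ofReal_le_ofReal (min_le_right _ _)))
    (cH.trans (ENNReal.ofReal_le_ofReal (min_le_right _ _)))
  have hlip : LipschitzWith ⟨4 * P.Λ₀, by positivity⟩ a :=
    LipschitzWith.of_dist_le_mul fun z w => by
      rw [Real.dist_eq, dist_eq_norm]
      exact ha.lip z w
  obtain ⟨ev, eh, hgd⟩ := h7 a ⟨4 * P.Λ₀, by positivity⟩ Ro V H (2 * s) (q * s) κ hlip hcov.isOpen
    hdiff hV hH' (by positivity) (by positivity) hκ.le hκ1 (by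
      change 16 * (4 * P.Λ₀) * (q * s) ≤ κ * (2 * s)
      have : 32 * P.Λ₀ * q * (2 * s) ≤ κ * (2 * s) := by gcongr
      linarith)
    (cV.trans (ENNReal.ofReal_le_ofReal (min_le_left _ _)))
    (cH.trans (ENNReal.ofReal_le_ofReal (min_le_left _ _))) hver hhor (by linarith)
    (fun z m hz => (hweak z m hz).trans (weak_le hCw hη hΛ hs hz.nonneg hom2 hηκ))
  obtain ⟨c₀, g₀, V', H', hV', hH'', hVV, hHH, hg₀, m1, m2, m3, m4, hint, hsup⟩ :=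
    h8 _ V H ev eh κ hgd le_rfl
  have hσ : 0 < 2 * s := by positivity
  have hg0 := norm_nonneg ((2 * s) • g₀)
  obtain ⟨hg, hg1, hg2, hg3⟩ := tilt_le hP.one_le hC₀ hs hsk hkq hg0
    (by rw [norm_smul, Real.norm_of_nonneg hσ.le]) hg₀ s5
  have hest := h9 M P k β u w b p Ro a θ V' H' ((2 * s) • g₀) (2 * s * c₀) (2 * s * C₁) (s / P.c)
    (D * k) hM hP hk hk20 hβ hH hcov ha hg1 hθ hθ4 hV' hH'' hw hws
    (t2.trans (mul_le_of_le_one_right (by positivity) (by linarith)))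
    (fun y hy hyw z hz => by
      have a1 := hoff z (hz.2.imp (fun h => hVV h) fun h => hHH h) y (hsplit y hy hyw)
      have a2 := hul y (hsplit y hy hyw)
      have a3 : s ≤ s / P.c := le_div_self hs.le hc hP.c_le
      have a4 := (hcov.cell y hy).pos
      have a5 : b y ≤ P.Λ * b y := le_mul_of_one_le_left a4.le (by linarith [hP.four_le])
      linarith)
    (fun z hz => by
      rw [scale a hσ, abs_mul, abs_of_pos hσ]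
      exact mul_le_mul_of_nonneg_left (hsup z hz.1 hz.2) hσ.le)
  have hcut := h10 M k ((2 * s) • g₀) θ (2 * s * c₀ / √(1 + ‖(2 * s) • g₀‖ ^ 2)) V' H' hM hk hk20
    hH hg2 hθ hθ4 hV' hH'' m1 m2 m3 m4
  have herr := err_le (Λ₀ := P.Λ₀) (Λ := P.Λ) (C₁ := C₁) (c := P.c) hCe hD hk hkq (by linarith) hg0
    hs hg s6
  have hmain : ∫ z in onL θ V' H', (a z - 2 * s * c₀ - ⟪(2 * s) • g₀, z⟫) ^ 2
      ≤ (2 * s) ^ 2 * (C₀ * θ ^ 6) := by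
    simp only [scale a hσ, mul_pow (2 * s)]
    rw [integral_const_mul]
    exact mul_le_mul_of_nonneg_left hint (by positivity)
  refine ⟨(2 * s) • g₀, hg.trans ?_, hcut.trans ?_⟩
  · have : 0 ≤ Cc * (8 * C₀ + 1) * s := by positivity
    linarith
  · calc _ ≤ Cc / θ ^ 2 * ((8 * C₀ + 1) * θ ^ 6 * s ^ 2) :=
          mul_le_mul_of_nonneg_left (hest.trans (by linarith)) (by positivity)
      _ = Cc * (8 * C₀ + 1) * θ ^ 4 * s ^ 2 := by field_simp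
      _ ≤ _ := by
          have : 0 ≤ 2 * C₀ * θ ^ 4 * s ^ 2 := by positivity
          linarith

end MW
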