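import Pool.Agent.P.MP_064970_gt.D.API

/-! D6, end data. d1: HkF.abs_le at scale ‖x‖ with k = min ε (1/10). d2: CACC3 with p = 0, h = k r, wedge_e3. d3: P from CELLS with om = 1/10, c' = c/(4Λ^2); given ε, β = min (ε/(2Λ)) (1/(10Λ)), k = min k₀ (1/20);
for s = ‖y‖ large take M' with IsSim M' M (refl) s 0 (M.sim (refl) s⁻¹ 0 and IsSim.symm, or zoom 0 s), Hk M' k (hk_iff, IsSim.hkF), the cell at y' = y/s is not TyR (the line over y misses S), not TyE (IsSim.E0, energy 0), so TyF;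
S ∩ cyl (ball y' (Λ b)) 1 ⊆ ball p (2Λ b) (Cell.height), p = pt y' (p 2); scale back with IsSim.setIntegral_ball: t = s p 2, radius 2Λ b s. -/

open MeasureTheory Set Filter Topology Metric
open scoped RealInnerProductSpace ENNReal NNReal ComplexConjugate Real

noncomputable section

namespace MW

namespace DENDG

end DENDG

theorem endg_of (hC : S_CELLS) (h3 : S_CACC3) : S_ENDG := by
  intro ε₀ hε₀ M a hM hII hbig hne hE hH
  refine ⟨hM, hbig, hne, fun ε hε => ?_, fun ε hε => ?_, ?_⟩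
  · have hk : 0 < min ε (1 / 10) := lt_min hε (by norm_num)
    obtain ⟨r₀, hr₀, h⟩ := hH _ hk (min_le_right _ _)
    refine ⟨r₀, fun x hx hR => ?_⟩
    have hx0 : 0 < ‖x‖ := hr₀.trans_le hR
    have h1 := (h ‖x‖ hR).abs_le hx (by
      rw [lt_div_iff₀ hk]
      nlinarith [min_le_right ε (1 / 10)])
    rw [inner_e3] at h1
    exact h1.trans (mul_le_mul_of_nonneg_right (min_le_left _ _) hx0.le)
  · obtain ⟨C, hC0, hcac⟩ := h3.1
    have hk : 0 < min (ε / C) (1 / 10) := lt_min (by positivity) (by norm_num)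
    obtain ⟨r₀, hr₀, h⟩ := hH _ hk (min_le_right _ _)
    refine ⟨r₀, fun r hR => ?_⟩
    set k := min (ε / C) (1 / 10) with hkd
    have hk1 : k ≤ 1 / 10 := min_le_right _ _
    have hk2 : k ≤ ε / C := min_le_left _ _
    have hr : 0 < r := hr₀.trans_le hR
    have h1 := hcac M hM 0 e3 r (k * r) 0 norm_e3 hr (fun x hx => by
      rw [sub_zero]
      refine (h r hR).abs_le hx.1 ((mem_ball_zero_iff.1 hx.2).trans_le ?_)
      rw [le_div_iff₀ hk]
      nlinarith)
    simp only [wedge_e3] at h1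
    refine h1.trans ?_
    rw [le_div_iff₀ hC0] at hk2
    have h2 : C * k ^ 2 ≤ ε := by nlinarith
    calc C * (k * r) ^ 2 = C * k ^ 2 * r ^ 2 := by ring
      _ ≤ ε * r ^ 2 := by gcongr
  · obtain ⟨P, hP, -, hcells⟩ := hC ε₀ hε₀ (1 / 10) (by norm_num) le_rfl
    have hΛ : 0 < P.Λ := by linarith [hP.four_le]
    have hc := hP.c_pos
    refine ⟨P.c / (4 * P.Λ ^ 2), by positivity, fun ε hε => ?_⟩
    set β := min (ε / (2 * P.Λ)) (1 / (10 * P.Λ)) with hβd
    have hβ : 0 < β := lt_min (by positivity) (by positivity)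
    have hβ1 : β * (2 * P.Λ) ≤ ε := (le_div_iff₀ (by positivity)).1 (min_le_left _ _)
    have hβ2 : β * (10 * P.Λ) ≤ 1 := (le_div_iff₀ (by positivity)).1 (min_le_right _ _)
    obtain ⟨k₀, hk₀, hcell⟩ := hcells β hβ
    have hk : 0 < min k₀ (1 / 20) := lt_min hk₀ (by norm_num)
    obtain ⟨r₀, hr₀, h⟩ := hH _ hk ((min_le_right _ _).trans (by norm_num))
    refine ⟨r₀, fun y hy hyS => ?_⟩
    set s := ‖y‖ with hsd
    have hs : 0 < s := hr₀.trans_le hy
    have hs' : 0 < s⁻¹ := inv_pos.2 hs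
    set A := LinearIsometryEquiv.refl ℝ E with hA
    have hsim := M.isSim A hs' 0
    set M' := M.sim A s⁻¹ 0 with hM'
    have hAe : A e3 = e3 := rfl
    have hHk : M'.Hk (min k₀ (1 / 20)) := by
      have := (hsim.hkF e3 s _).2 (h s hy)
      rw [hAe, inv_mul_cancel₀ hs.ne'] at this
      exact Surf.hk_iff.2 this
    have hmap : ∀ t : ℝ, simMap A s⁻¹ 0 (pt y (s * t)) = pt (s⁻¹ • y) t := fun t => by
      rw [simMap, add_zero, hA, LinearIsometryEquiv.coe_refl, id, ← pt_smul,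
        inv_mul_cancel_left₀ hs.ne']
    have hy' : ‖s⁻¹ • y‖ ≤ 3 := by
      rw [norm_smul, Real.norm_eq_abs, abs_of_pos hs', ← hsd, inv_mul_cancel₀ hs.ne']; norm_num
    obtain ⟨b, p, hcl, hty⟩ := hcell _ hk (min_le_left _ _) M' (hsim.mem hM)
      ((hsim.typeII ε₀).2 hII) hHk _ hy'
    have hb := hcl.pos
    have hbβ := hcl.small
    rcases hty with hR | hE' | hF
    · obtain ⟨t₁, -, -, -, -, h1, -⟩ := hR _ (mem_ball_self (by positivity))
      rw [← hmap, hsim.S] at h1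
      exact absurd ⟨_, h1, pr_pt _ _⟩ hyS
    · have h1 := hsim.E0 e3 (cyl (ball (s⁻¹ • y) (P.Λ * b)) 1)
      rw [hAe, hE, mul_zero] at h1
      have h2 : P.c * b ^ 2 ≤ M'.E0 e3 (cyl (ball (s⁻¹ • y) (P.Λ * b)) 1) := hE'
      rw [h1] at h2
      exact absurd h2 (not_le.2 (by positivity))
    · refine ⟨s * p 2, 2 * (P.Λ * b) * s, by positivity, ?_, fun θ hθ => ?_⟩
      · have : 2 * (P.Λ * b) ≤ ε := by nlinarith
        exact mul_le_mul_of_nonneg_right this hs.le
      have h1 := hF.2 θ hθ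
      have hp : simMap A s⁻¹ 0 (pt y (s * p 2)) = p := by rw [hmap, ← hcl.base, pt_pr]
      have hrad : s⁻¹ * (2 * (P.Λ * b) * s) = 2 * (P.Λ * b) := by field_simp
      have h2 := hsim.setIntegral_ball (pt y (s * p 2)) (2 * (P.Λ * b) * s)
        (fun x => ⟪pr (M'.N x), θ⟫ ^ 2)
      rw [hp, hrad] at h2
      simp only [hsim.N] at h2
      have hm : Measurable fun x => ⟪pr (M'.N x), θ⟫ ^ 2 :=
        ((measurable_pr.comp M'.N_meas).inner measurable_const).pow_const 2
      have h4 : ∫ x in cyl (ball (s⁻¹ • y) (P.Λ * b)) 1, ⟪pr (M'.N x), θ⟫ ^ 2 ∂M'.μ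
          ≤ ∫ x in ball p (2 * (P.Λ * b)), ⟪pr (M'.N x), θ⟫ ^ 2 ∂M'.μ := by
        refine setIntegral_mono_set ?_ (Eventually.of_forall fun x => sq_nonneg _) ?_
        · refine (hsim.mem hM).bd.integrableOn (C := 1) isBounded_ball hm (fun x hx => ?_)
            measurableSet_ball
          have a1 := abs_real_inner_le_norm (pr (M'.N x)) θ
          have a2 := norm_pr_le (M'.N x)
          rw [M'.N_unit x hx.2] at a2
          rw [hθ, mul_one] at a1
          rw [abs_pow]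
          exact pow_le_one₀ (abs_nonneg _) (a1.trans a2)
        · filter_upwards [M'.ae_mem] with x hx hxc
          have hxc' : x ∈ cyl (ball (s⁻¹ • y) (P.Λ * b)) 1 := hxc
          have a1 : P.Λ₀ * b ≤ P.Λ * b := mul_le_mul_of_nonneg_right hP.le hb.le
          have a2 : P.Λ * b ≤ 10 := by nlinarith
          exact mem_ball_iff_norm.2
            (hcl.height hP a1 a2 hx hxc'.2 (mem_ball_iff_norm.1 hxc'.1).le).2
      have h5 := (h1.trans h4).trans_eq h2
      have h6 : P.c / (4 * P.Λ ^ 2) * (2 * (P.Λ * b) * s) ^ 2 = s ^ 2 * (P.c * b ^ 2) := by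
        field_simp; ring
      rw [h6]
      refine (mul_le_mul_of_nonneg_left h5 (sq_nonneg s)).trans_eq ?_
      rw [← mul_assoc, ← mul_pow, mul_inv_cancel₀ hs.ne', one_pow, one_mul]
      rfl

end MW
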