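import Pool.Agent.P.MP_064970_gt.D.API

/-! D5. W = √(1+‖g‖^2) ≥ 1, l z = c₀ + ⟪g,z⟫. For x ∈ S ∩ ovL ∩ top: |x 2| ≤ k, ‖vp g x - pr x‖ ≤ k‖g‖, ‖pr x‖ ≤ 1, so `cover` applies; alpha_dir, m = (x 2 + x* 2)/2, |m| ≤ k.
Case pr x ∈ Ro (CHORD part 1, Mid.reg, Mid.lip): W|alpha - c₀/W| ≤ |a - l|(vp g x) + 5Λ₀ k‖g‖; such points are determined by vp g x (x 2 = hi (pr x), Mid.hi, 4Λ₀‖g‖ < 1), OBL with
F = indicator onL (ofReal (2 (a-l)^2 + 50Λ₀^2 k^2‖g‖^2)), volume (Sq (2θ)) ≤ 1. Case ‖pr x - y‖ ≤ 5Λ b y: y ∈ w (else the hypothesis fails at z = vp g x); CHORD part 2, Mid.bad, Mid.lip: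
W|alpha - c₀/W| ≤ S₁ + 35Λ₀Λ bs + 5Λ₀ k‖g‖; mass ≤ ∑ 26 (5Λ b)^2 (Cell.mass), 0 < ⟪N, dir g⟫ ≤ 1. If onL is empty or w is empty the terms are trivial (B ≥ 0). -/

open MeasureTheory Set Filter Topology Metric
open scoped RealInnerProductSpace ENNReal NNReal ComplexConjugate Real

noncomputable section

namespace MW

namespace DEST

variable {M : Surf} {P : Par} {k β θ : ℝ} {u w : Finset ℂ} {b : ℂ → ℝ} {p : ℂ → E} {Ro : Set ℂ}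
  {a : ℂ → ℝ} {V H : Set ℝ} {g : ℂ} {x : E}

theorem g_le (hP : P.Ok) (hg : 10 * P.Λ₀ * ‖g‖ ≤ 1) : ‖g‖ ≤ 1 / 10 := by
  have := mul_le_mul_of_nonneg_right hP.one_le (norm_nonneg g)
  linarith

theorem basic (hk : 0 < k) (hk' : k ≤ 1 / 20) (hH : M.Hk k) (hg : ‖g‖ ≤ 1 / 10) (hθ : θ ≤ 1 / 4)
    (hx : x ∈ M.S) (ho : x ∈ ovL g θ V H) :
    ‖pr x‖ ≤ 3 ∧ |x 2| ≤ k ∧ ‖vp g x - pr x‖ ≤ k * ‖g‖ := by
  have h1 := norm_le_of_mem_Sq ho.1.1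
  have h2 := norm_vp_sub_pr g x
  have h3 : |x 2| * ‖g‖ ≤ 1 / 2 * (1 / 10) :=
    mul_le_mul ho.2.le hg (norm_nonneg g) (by norm_num)
  have h4 : ‖pr x‖ ≤ ‖vp g x‖ + ‖vp g x - pr x‖ := by
    have := norm_sub_le (vp g x) (vp g x - pr x)
    rwa [sub_sub_cancel] at this
  have h5 := norm_le_pr_add x
  have h6 := ho.2
  have h7 := hH.abs_le' hk hk' hx (by linarith)
  exact ⟨by linarith, h7, h2 ▸ mul_le_mul_of_nonneg_right h7 (norm_nonneg g)⟩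

theorem alpha_le (M : Surf) (hg : ‖g‖ ≤ 1 / 10) (c₀ : ℝ) (h1 : |x 2| ≤ k)
    (h2 : |M.partner (dir g) x 2| ≤ k) :
    |M.alpha (dir g) x - c₀ / √(1 + ‖g‖ ^ 2)|
      ≤ |(x 2 + M.partner (dir g) x 2) / 2 - c₀ - ⟪g, vp g x⟫| + k * ‖g‖ / 10 := by
  have hW : 1 ≤ √(1 + ‖g‖ ^ 2) := Real.one_le_sqrt.2 (by nlinarith [sq_nonneg ‖g‖])
  have h3 := congrArg abs (M.alpha_dir g x c₀)
  rw [abs_mul, abs_of_nonneg (Real.sqrt_nonneg _)] at h3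
  have h4 := le_mul_of_one_le_left (abs_nonneg (M.alpha (dir g) x - c₀ / √(1 + ‖g‖ ^ 2))) hW
  have h5 : |(x 2 + M.partner (dir g) x 2) / 2| ≤ k := by
    rw [abs_le] at h1 h2 ⊢
    constructor <;> linarith
  have h6 : |(x 2 + M.partner (dir g) x 2) / 2 * ‖g‖ ^ 2| ≤ k * ‖g‖ / 10 := by
    rw [abs_mul, abs_of_nonneg (sq_nonneg ‖g‖)]
    have h7 := mul_le_mul_of_nonneg_right h5 (sq_nonneg ‖g‖)
    have h8 := mul_le_mul_of_nonneg_left hg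
      (mul_nonneg ((abs_nonneg _).trans h1) (norm_nonneg g))
    nlinarith
  have h9 := abs_add_le ((x 2 + M.partner (dir g) x 2) / 2 - c₀ - ⟪g, vp g x⟫)
    ((x 2 + M.partner (dir g) x 2) / 2 * ‖g‖ ^ 2)
  linarith

theorem reg (hC : S_CHORD) (hM : M.Mem) (hP : P.Ok) (hk : 0 < k) (hk' : k ≤ 1 / 20)
    (hβ : P.Λ * β ≤ 1 / 10) (hH : M.Hk k) (hc : M.Cover P k β u b p Ro) (hm : M.Mid P u p Ro a)
    (hg : 10 * P.Λ₀ * ‖g‖ ≤ 1) (hθ : θ ≤ 1 / 4) (c₀ : ℝ) (hx : x ∈ M.S) (ho : x ∈ ovL g θ V H)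
    (ht : x ∈ M.top (dir g)) (hR : pr x ∈ Ro) : x 2 = M.hi (pr x) ∧
      (M.alpha (dir g) x - c₀ / √(1 + ‖g‖ ^ 2)) ^ 2
        ≤ 2 * (a (vp g x) - c₀ - ⟪g, vp g x⟫) ^ 2 + 50 * P.Λ₀ ^ 2 * (k ^ 2 * ‖g‖ ^ 2) := by
  obtain ⟨-, h2, h3⟩ := basic hk hk' hH (g_le hP hg) hθ hx ho
  obtain ⟨y, b', p', c1, c2, c3⟩ := hc.reg _ hR
  obtain ⟨d1, d2, d3⟩ := (hC M P k β y b' p' g x hM hP hk hk' hβ hH c1 hg hx
    (by linarith) ht).1 c2 c3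
  refine ⟨d1, ?_⟩
  have e1 := alpha_le M (g_le hP hg) c₀ h2 d2
  have e2 := hm.reg _ hR
  have h0 : 0 ≤ 4 * P.Λ₀ := by linarith [hP.one_le]
  have e3 := (hm.lip (vp g x) (pr x)).trans (mul_le_mul_of_nonneg_left h3 h0)
  have e4 := mul_le_mul_of_nonneg_right hP.one_le (mul_nonneg hk.le (norm_nonneg g))
  have e5 := mul_nonneg hk.le (norm_nonneg g)
  have e6 : |(x 2 + M.partner (dir g) x 2) / 2 - c₀ - ⟪g, vp g x⟫|
      ≤ |a (vp g x) - c₀ - ⟪g, vp g x⟫| + (4 * P.Λ₀ * (k * ‖g‖) + k * ‖g‖ / 2) := by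
    have f1 := le_abs_self (a (vp g x) - c₀ - ⟪g, vp g x⟫)
    have f2 := neg_abs_le (a (vp g x) - c₀ - ⟪g, vp g x⟫)
    rw [abs_le] at d3 e3 ⊢
    constructor <;> linarith
  have e7 : |M.alpha (dir g) x - c₀ / √(1 + ‖g‖ ^ 2)|
      ≤ |a (vp g x) - c₀ - ⟪g, vp g x⟫| + 5 * P.Λ₀ * (k * ‖g‖) := by linarith
  have e8 := pow_le_pow_left₀ (abs_nonneg _) e7 2
  rw [sq_abs] at e8
  rw [← sq_abs (a (vp g x) - c₀ - ⟪g, vp g x⟫)]
  nlinarith [sq_nonneg (|a (vp g x) - c₀ - ⟪g, vp g x⟫| - 5 * P.Λ₀ * (k * ‖g‖))]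

theorem bad (hC : S_CHORD) (hM : M.Mem) (hP : P.Ok) (hk : 0 < k) (hk' : k ≤ 1 / 20)
    (hβ : P.Λ * β ≤ 1 / 10) (hH : M.Hk k) (hc : M.Cover P k β u b p Ro) (hm : M.Mid P u p Ro a)
    (hg : 10 * P.Λ₀ * ‖g‖ ≤ 1) (hθ : θ ≤ 1 / 4) {c₀ S₁ bs : ℝ} (hbs : ∀ y ∈ w, b y ≤ bs)
    (hw : ∀ y ∈ u, y ∉ w → ∀ z ∈ onL θ V H, 5 * P.Λ * b y + k * ‖g‖ < ‖z - y‖)
    (hS : ∀ z ∈ onL θ V H, |a z - c₀ - ⟪g, z⟫| ≤ S₁) (hx : x ∈ M.S) (ho : x ∈ ovL g θ V H)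
    (ht : x ∈ M.top (dir g)) (hR : pr x ∉ Ro) :
    (∃ y ∈ w, x ∈ cyl (closedBall y (5 * P.Λ * b y)) 1) ∧
      (M.alpha (dir g) x - c₀ / √(1 + ‖g‖ ^ 2)) ^ 2
        ≤ 3675 * P.Λ₀ ^ 2 * (S₁ ^ 2 + P.Λ ^ 2 * bs ^ 2 + k ^ 2 * ‖g‖ ^ 2) := by
  obtain ⟨h1, h2, h3⟩ := basic hk hk' hH (g_le hP hg) hθ hx ho
  obtain ⟨y, hy, c1⟩ := (hc.cover _ h1).resolve_left hR
  have c2 : ‖vp g x - y‖ ≤ 5 * P.Λ * b y + k * ‖g‖ := by
    have := norm_sub_le_norm_sub_add_norm_sub (vp g x) (pr x) y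
    linarith
  have hyw : y ∈ w := by
    by_contra h
    exact (hw y hy h _ ho.1).not_ge c2
  obtain ⟨d1, d2, d3⟩ := (hC M P k β y (b y) (p y) g x hM hP hk hk' hβ hH (hc.cell y hy) hg hx
    (by linarith) ht).2 c1
  refine ⟨⟨y, hyw, mem_closedBall_iff_norm.2 c1, by linarith⟩, ?_⟩
  have e1 := alpha_le M (g_le hP hg) c₀ h2 d2
  have e2 := hm.bad y hy
  have h0 : 0 ≤ 4 * P.Λ₀ := by linarith [hP.one_le]
  have e3 := (hm.lip (vp g x) y).trans (mul_le_mul_of_nonneg_left c2 h0)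
  have e4 := mul_le_mul_of_nonneg_right hP.one_le (mul_nonneg hk.le (norm_nonneg g))
  have e5 := mul_nonneg hk.le (norm_nonneg g)
  have hΛ : 0 ≤ P.Λ := by linarith [hP.four_le]
  have g1 := mul_le_mul_of_nonneg_left (hbs y hyw) hΛ
  have g2 := mul_nonneg hΛ (hc.cell y hy).pos.le
  have g3 := mul_le_mul_of_nonneg_right hP.one_le (g2.trans g1)
  have g4 := mul_le_mul_of_nonneg_left g1 h0
  have g5 := hS _ ho.1
  have g6 := mul_le_mul_of_nonneg_right hP.one_le ((abs_nonneg _).trans g5)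
  have e6 : |(x 2 + M.partner (dir g) x 2) / 2 - c₀ - ⟪g, vp g x⟫|
      ≤ S₁ + 35 * P.Λ₀ * (P.Λ * bs) + 4 * P.Λ₀ * (k * ‖g‖) := by
    rw [abs_le] at d1 d3 e3 g5 ⊢
    constructor <;> linarith
  have g7 := mul_nonneg h0 ((abs_nonneg _).trans g5)
  have g8 := mul_nonneg h0 e5
  have e7 : |M.alpha (dir g) x - c₀ / √(1 + ‖g‖ ^ 2)|
      ≤ 35 * P.Λ₀ * (S₁ + P.Λ * bs + k * ‖g‖) := by linarith
  have e8 := pow_le_pow_left₀ (abs_nonneg _) e7 2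
  rw [sq_abs, mul_pow, mul_pow] at e8
  have e9 : (S₁ + P.Λ * bs + k * ‖g‖) ^ 2 ≤ 3 * (S₁ ^ 2 + P.Λ ^ 2 * bs ^ 2 + k ^ 2 * ‖g‖ ^ 2) := by
    nlinarith [sq_nonneg (S₁ - P.Λ * bs), sq_nonneg (S₁ - k * ‖g‖),
      sq_nonneg (P.Λ * bs - k * ‖g‖)]
  have e10 := mul_le_mul_of_nonneg_left e9 (show 0 ≤ 35 ^ 2 * P.Λ₀ ^ 2 by positivity)
  linarith

theorem inj (hm : M.Mid P u p Ro a) (hg : 10 * P.Λ₀ * ‖g‖ ≤ 1) {x' : E}
    (hR : pr x ∈ Ro) (hR' : pr x' ∈ Ro) (h : x 2 = M.hi (pr x)) (h' : x' 2 = M.hi (pr x'))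
    (he : vp g x = vp g x') : x = x' := by
  have h1 : pr x - pr x' = (x' 2 - x 2) • g := by
    rw [sub_smul, sub_eq_sub_iff_add_eq_add, add_comm (x' 2 • g)]
    exact he
  have h2 := hm.hi _ hR _ hR'
  rw [← h, ← h', h1, norm_smul, Real.norm_eq_abs, abs_sub_comm (x' 2)] at h2
  have h3 := mul_le_mul_of_nonneg_right hg (abs_nonneg (x 2 - x' 2))
  have h4 : x 2 = x' 2 := sub_eq_zero.1 (abs_nonpos_iff.1 (by linarith))
  rw [h4, sub_self, zero_smul, sub_eq_zero] at h1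
  rw [← pt_pr x, ← pt_pr x', h1, h4]

theorem cont (hP : P.Ok) (hm : M.Mid P u p Ro a) : Continuous a :=
  (LipschitzWith.of_dist_le_mul (K := ⟨4 * P.Λ₀, by linarith [hP.one_le]⟩) fun z z' => by
    rw [Real.dist_eq, dist_eq_norm]
    exact hm.lip z z').continuous

theorem lint_le {f : ℂ → ℝ} (hf : Continuous f) (hθ0 : 0 < θ) (hθ : θ ≤ 1 / 4)
    (hV : MeasurableSet V) (hH : MeasurableSet H) {c : ℝ} (hc : 0 ≤ c) :
    ∫⁻ z, (onL θ V H).indicator (fun z => ENNReal.ofReal (2 * f z ^ 2 + c)) z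
      ≤ ENNReal.ofReal (2 * (∫ z in onL θ V H, f z ^ 2) + c) := by
  have hK : IsCompact (Sq (2 * θ)) :=
    Metric.isCompact_of_isClosed_isBounded (isClosed_Sq _) (isBounded_Sq _)
  have hs : onL θ V H ⊆ Sq (2 * θ) := fun z hz => hz.1
  have h1 : IntegrableOn (fun z => f z ^ 2) (onL θ V H) :=
    ((hf.pow 2).continuousOn.integrableOn_compact hK).mono_set hs
  have h2 : IntegrableOn (fun _ => c) (onL θ V H) :=
    (continuous_const.continuousOn.integrableOn_compact hK).mono_set hs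
  have h3 : volume.real (onL θ V H) ≤ 1 := by
    refine ENNReal.toReal_le_of_le_ofReal zero_le_one ((measure_mono hs).trans ?_)
    rw [volume_Sq (by linarith)]
    exact ENNReal.ofReal_le_ofReal (by nlinarith)
  rw [lintegral_indicator (measurableSet_onL θ hV hH),
    ← ofReal_integral_eq_lintegral_ofReal (f := fun z => 2 * f z ^ 2 + c)
      ((h1.const_mul 2).add h2)
      (Eventually.of_forall fun z => by positivity),
    integral_add (h1.const_mul 2) h2, integral_const_mul, setIntegral_const, smul_eq_mul]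
  exact ENNReal.ofReal_le_ofReal (by nlinarith)

theorem mass (hM : M.Mem) (hP : P.Ok) (hβ : P.Λ * β ≤ 1 / 10) (hc : M.Cover P k β u b p Ro)
    (hw : w ⊆ u) {B : ℝ} (hB : ∑ y ∈ w, b y ^ 2 ≤ B) :
    M.μ (⋃ y ∈ w, cyl (closedBall y (5 * P.Λ * b y)) 1) ≤ ENNReal.ofReal (650 * P.Λ ^ 2 * B) := by
  have h1 : ∀ y ∈ w, M.μ (cyl (closedBall y (5 * P.Λ * b y)) 1)
      ≤ ENNReal.ofReal (650 * P.Λ ^ 2 * b y ^ 2) := fun y hy => by
    have c1 := hc.cell y (hw hy)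
    obtain ⟨a1, a2, a3, -⟩ := c1.mul_le hP hβ
    have a4 := c1.pos
    have h2 := c1.mass hP hM (ρ := 5 * P.Λ * b y) (by linarith) (by linarith)
    rw [← ofReal_measureReal (hM.bd.lt_top (isBounded_cyl isBounded_closedBall 1)).ne]
    exact ENNReal.ofReal_le_ofReal (by linarith)
  refine (measure_biUnion_finset_le w _).trans ((Finset.sum_le_sum h1).trans ?_)
  rw [← ENNReal.ofReal_sum_of_nonneg fun y _ => by positivity, ← Finset.mul_sum]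
  exact ENNReal.ofReal_le_ofReal (mul_le_mul_of_nonneg_left hB (by positivity))

end DEST

theorem est_of (hC : S_CHORD) (hO : S_OBL) : S_EST := by
  refine ⟨3675 * 650, by norm_num, ?_⟩
  intro M P k β u w b p Ro a θ V H g c₀ S₁ bs B hM hP hk hk' hβ hH hc hm hg hθ0 hθ hV hH' hw hbs
    hB hfar hS
  have hA : MeasurableSet (ovL g θ V H ∩ M.top (dir g)) :=
    (measurableSet_ovL g θ hV hH').inter (M.measurableSet_top _)
  have hAS := hA.inter M.measurableSet_S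
  have hR : MeasurableSet (pr ⁻¹' Ro) := measurable_pr hc.isOpen.measurableSet
  have hB0 : 0 ≤ B := (Finset.sum_nonneg fun y _ => sq_nonneg (b y)).trans hB
  have hf : Continuous fun z => a z - c₀ - ⟪g, z⟫ := by
    have := DEST.cont hP hm
    fun_prop
  have hI : 0 ≤ ∫ z in onL θ V H, (a z - c₀ - ⟪g, z⟫) ^ 2 := integral_nonneg fun z => sq_nonneg _
  have hn : ∀ x ∈ M.S, ⟪M.N x, dir g⟫ ≤ 1 := fun x hx => by
    have := real_inner_le_norm (M.N x) (dir g)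
    rwa [M.N_unit x hx, norm_dir, one_mul] at this
  have hmeas : Measurable fun x =>
      (M.alpha (dir g) x - c₀ / √(1 + ‖g‖ ^ 2)) ^ 2 * ⟪M.N x, dir g⟫ :=
    (((hM.measurable_alpha _).sub_const _).pow_const 2).mul (M.N_meas.inner_const)
  rw [integral_eq_lintegral_of_nonneg_ae ((ae_restrict_mem hA).mono fun x hx =>
    mul_nonneg (sq_nonneg _) (le_of_lt hx.2)) hmeas.aestronglyMeasurable]
  refine ENNReal.toReal_le_of_le_ofReal (by positivity) ?_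
  rw [← setLIntegral_congr (inter_ae_eq_left_of_ae_eq_univ (ae_eq_univ.2 M.conc)),
    ← lintegral_inter_add_sdiff _ _ hR]
  have h1 := hO M g ((ovL g θ V H ∩ M.top (dir g) ∩ M.S) ∩ pr ⁻¹' Ro)
    ((onL θ V H).indicator fun z => ENNReal.ofReal (2 * (a z - c₀ - ⟪g, z⟫) ^ 2
      + 50 * P.Λ₀ ^ 2 * (k ^ 2 * ‖g‖ ^ 2))) (hAS.inter hR) (fun x hx => hx.1.2)
    (fun x hx x' hx' he => DEST.inj hm hg hx.2 hx'.2
      (DEST.reg hC hM hP hk hk' hβ hH hc hm hg hθ c₀ hx.1.2 hx.1.1.1 hx.1.1.2 hx.2).1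
      (DEST.reg hC hM hP hk hk' hβ hH hc hm hg hθ c₀ hx'.1.2 hx'.1.1.1 hx'.1.1.2 hx'.2).1 he)
    (Measurable.indicator (Continuous.measurable (ENNReal.continuous_ofReal.comp (by fun_prop)))
      (measurableSet_onL θ hV hH'))
  have h2 := (h1.trans (DEST.lint_le hf hθ0 hθ hV hH' (by positivity)))
  have h3 := (setLIntegral_mono' (hAS.inter hR) (μ := M.μ) (f := fun x => ENNReal.ofReal
      ((M.alpha (dir g) x - c₀ / √(1 + ‖g‖ ^ 2)) ^ 2 * ⟪M.N x, dir g⟫)) fun x hx => by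
    have ht : 0 < ⟪M.N x, dir g⟫ := hx.1.1.2
    rw [indicator_of_mem hx.1.1.1.1, abs_of_pos ht, ← ENNReal.ofReal_mul (by positivity)]
    exact ENNReal.ofReal_le_ofReal (mul_le_mul_of_nonneg_right
      (DEST.reg hC hM hP hk hk' hβ hH hc hm hg hθ c₀ hx.1.2 hx.1.1.1 hx.1.1.2 hx.2).2
      ht.le)).trans h2
  have h4 : ∫⁻ x in (ovL g θ V H ∩ M.top (dir g) ∩ M.S) \ pr ⁻¹' Ro, ENNReal.ofReal
      ((M.alpha (dir g) x - c₀ / √(1 + ‖g‖ ^ 2)) ^ 2 * ⟪M.N x, dir g⟫) ∂M.μ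
      ≤ ENNReal.ofReal (3675 * P.Λ₀ ^ 2 * (S₁ ^ 2 + P.Λ ^ 2 * bs ^ 2 + k ^ 2 * ‖g‖ ^ 2)
        * (650 * P.Λ ^ 2 * B)) := by
    refine (setLIntegral_mono' (hAS.diff hR) (g := fun _ => ENNReal.ofReal
      (3675 * P.Λ₀ ^ 2 * (S₁ ^ 2 + P.Λ ^ 2 * bs ^ 2 + k ^ 2 * ‖g‖ ^ 2))) fun x hx => ?_).trans ?_
    · exact ENNReal.ofReal_le_ofReal ((mul_le_of_le_one_right (sq_nonneg _) (hn x hx.1.2)).trans
        (DEST.bad hC hM hP hk hk' hβ hH hc hm hg hθ hbs hfar hS hx.1.2 hx.1.1.1 hx.1.1.2 hx.2).2)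
    · rw [setLIntegral_const, ENNReal.ofReal_mul (q := 650 * P.Λ ^ 2 * B) (by positivity)]
      refine mul_le_mul_right ((measure_mono fun x hx => ?_).trans
        (DEST.mass hM hP hβ hc hw hB)) _
      obtain ⟨y, hy, h⟩ :=
        (DEST.bad hC hM hP hk hk' hβ hH hc hm hg hθ hbs hfar hS hx.1.2 hx.1.1.1 hx.1.1.2 hx.2).1
      exact mem_biUnion hy h
  refine (add_le_add h3 h4).trans ?_
  rw [← ENNReal.ofReal_add (by positivity) (by positivity)]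
  refine ENNReal.ofReal_le_ofReal ?_
  have h5 : 0 ≤ P.Λ₀ ^ 2 * (k ^ 2 * ‖g‖ ^ 2) := by positivity
  nlinarith

end MW
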