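import Pool.Agent.P.MP_064970_gt.D.API

/-! D2, convergence of the flux. η = bmp 0 Λ. (1) FluxN_k → FluxN by Conv.meas with F (x,n) = fderiv η (pr x) (pr n) * max (-(n 2)) 0 * χ (x 2), χ continuous, 1 on
[-3Λ/2, 3Λ/2], 0 off (-7Λ/4, 7Λ/4) (Slab.abs_lt; fderiv_bmp_eq_zero off the disc). (2) On Bot over the closed disc N 2 ≤ 0 (bot_nonpos), so
Flux_k - FluxN_k = -∫ over lay \ Bot of the FluxN integrand, at most C d μ(cyl) in absolute value if every x ∈ S_k ∩ cyl (closedBall 0 Λ) (2Λ) with N x 2 ≤ -d is in Bot.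
(3) That holds eventually: else (ultrafilter) choose x_k and a lower point pt (pr x_k) t_k ∈ S_k, -2Λ < t_k < x_k 2; x = limit (compact set, IsCompact.ultrafilter_le_nhds),
Conv.pts: x ∈ S, N x 2 ≤ -d, so x 2 < a (pos, zero). The vertical line meets S only in x and refl e3 a x (up, mid, sym, symW', refl_e3), N 2 ≠ 0 at both (symN).
PERSIST for a = pt (pr x) (-2Λ), e = (4Λ) • e3, ε ≤ ε₀: both parameters are ε-close to the parameter of x (the other one is more than 4ε₀ higher), so they are equal. -/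

open MeasureTheory Set Filter Topology Metric
open scoped RealInnerProductSpace ENNReal NNReal ComplexConjugate Real

noncomputable section

namespace MW

namespace DFLUXLIM

/-- The vertical cutoff. -/
def chi (Λ t : ℝ) : ℝ := max 0 (min 1 ((7 * Λ / 4 - |t|) / (Λ / 4)))

theorem continuous_chi (Λ : ℝ) : Continuous (chi Λ) := by
  unfold chi
  fun_prop

theorem chi_one {Λ t : ℝ} (hΛ : 0 < Λ) (h : |t| ≤ 3 / 2 * Λ) : chi Λ t = 1 := by
  have h1 : 1 ≤ (7 * Λ / 4 - |t|) / (Λ / 4) := by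
    rw [le_div_iff₀ (by positivity)]
    linarith
  rw [chi, min_eq_left h1, max_eq_right zero_le_one]

theorem chi_zero {Λ t : ℝ} (hΛ : 0 < Λ) (h : 2 * Λ ≤ |t|) : chi Λ t = 0 := by
  have h1 : (7 * Λ / 4 - |t|) / (Λ / 4) ≤ 0 :=
    div_nonpos_of_nonpos_of_nonneg (by linarith) (by positivity)
  rw [chi, max_eq_left ((min_le_right _ _).trans h1)]

/-- The derivative of the bump along the horizontal part of the normal. -/
def dd (Λ : ℝ) (q : E × E) : ℝ := fderiv ℝ (bmp 0 Λ) (pr q.1) (pr q.2)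

theorem continuous_dd (Λ : ℝ) : Continuous (dd Λ) := by
  have h1 : Continuous (fderiv ℝ (bmp 0 Λ)) :=
    (contDiff_one_bmp 0 Λ).continuous_fderiv one_ne_zero
  exact (h1.comp (continuous_pr.comp continuous_fst)).clm_apply
    (continuous_pr.comp continuous_snd)

theorem dd_zero {Λ : ℝ} (hΛ : 0 < Λ) {x : E} (n : E) (h : Λ ≤ ‖pr x‖) : dd Λ (x, n) = 0 := by
  have h1 : fderiv ℝ (bmp 0 Λ) (pr x) = 0 := fderiv_bmp_eq_zero hΛ (by simpa using h)
  simp [dd, h1]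

theorem exists_dd_bound {Λ : ℝ} (hΛ : 0 < Λ) :
    ∃ C : ℝ, 0 < C ∧ ∀ x n : E, ‖n‖ = 1 → |dd Λ (x, n)| ≤ C := by
  obtain ⟨C, hC, hb⟩ := exists_bmp_bound
  refine ⟨C / Λ, by positivity, fun x n hn => ?_⟩
  have h1 := (fderiv ℝ (bmp 0 Λ) (pr x)).le_opNorm (pr n)
  have h2 := hb 0 (pr x) Λ hΛ
  have h3 : ‖pr n‖ ≤ 1 := hn ▸ norm_pr_le n
  have h4 : ‖fderiv ℝ (bmp 0 Λ) (pr x)‖ * ‖pr n‖ ≤ C / Λ * 1 :=
    mul_le_mul h2 h3 (norm_nonneg _) (by positivity)
  rw [mul_one] at h4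
  exact h1.trans h4

theorem continuous_two : Continuous fun x : E => x 2 := by fun_prop

/-- The test function. -/
def FF (Λ : ℝ) (q : E × E) : ℝ := dd Λ q * max (-(q.2 2)) 0 * chi Λ (q.1 2)

theorem continuous_FF (Λ : ℝ) : Continuous (FF Λ) :=
  ((continuous_dd Λ).mul (((continuous_two.comp continuous_snd).neg).max continuous_const)).mul
    ((continuous_chi Λ).comp (continuous_two.comp continuous_fst))

theorem FF_zero {Λ : ℝ} (hΛ : 0 < Λ) (x n : E) (h : x ∉ closedBall (0 : E) (3 * Λ)) :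
    FF Λ (x, n) = 0 := by
  rw [mem_closedBall_zero_iff, not_le] at h
  have h1 := norm_le_pr_add x
  by_cases h2 : Λ ≤ ‖pr x‖
  · simp [FF, dd_zero hΛ n h2]
  · have h3 : 2 * Λ ≤ |x 2| := by linarith [not_le.1 h2]
    simp [FF, chi_zero hΛ h3]

theorem fluxN_eq {M : Surf} {Λ T₀ : ℝ} (hΛ : 0 < Λ) (hT : T₀ ≤ 3 / 2 * Λ)
    (hs : M.Slab (closedBall 0 Λ) T₀ (2 * Λ)) :
    M.FluxN (2 * Λ) (bmp 0 Λ) = ∫ x, FF Λ (x, M.N x) ∂M.μ := by
  rw [Surf.FluxN, ← integral_indicator (measurableSet_lay _)]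
  refine integral_congr_ae ?_
  filter_upwards [M.ae_mem] with x hx
  by_cases hl : x ∈ lay (2 * Λ)
  · rw [indicator_of_mem hl]
    change dd Λ (x, M.N x) * max (-(M.N x 2)) 0 = _
    by_cases h2 : Λ ≤ ‖pr x‖
    · simp [FF, dd_zero hΛ _ h2]
    · have h3 : pr x ∈ closedBall (0 : ℂ) Λ := mem_closedBall_zero_iff.2 (not_le.1 h2).le
      have h4 := hs.abs_lt hx h3 (le_of_lt hl)
      simp [FF, chi_one hΛ (h4.le.trans hT)]
  · rw [indicator_of_notMem hl]
    have h3 : 2 * Λ ≤ |x 2| := not_lt.1 hl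
    simp [FF, chi_zero hΛ h3]

theorem flux_sub_le {M : Surf} (hM : M.Mem) {Λ C d : ℝ} (hΛ : 0 < Λ) (hC : 0 < C) (hd : 0 < d)
    (hb : ∀ x n : E, ‖n‖ = 1 → |dd Λ (x, n)| ≤ C) (hs : M.Slab (closedBall 0 Λ) Λ (2 * Λ))
    (hB : ∀ x ∈ M.S, pr x ∈ closedBall (0 : ℂ) Λ → |x 2| < 2 * Λ → M.N x 2 ≤ -d →
      x ∈ M.Bot (2 * Λ)) :
    |M.Flux (2 * Λ) (bmp 0 Λ) - M.FluxN (2 * Λ) (bmp 0 Λ)|
      ≤ C * d * (2 * π * (3 * Λ) ^ 2) := by
  have hmd : Measurable fun x => dd Λ (x, M.N x) :=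
    (continuous_dd Λ).measurable.comp (measurable_id.prodMk M.N_meas)
  have hm2 : Measurable fun x => M.N x 2 := continuous_two.measurable.comp M.N_meas
  have hBm := hM.measurableSet_Bot (2 * Λ)
  have hLm := measurableSet_lay (2 * Λ)
  have hball : ∀ x : E, ¬ Λ ≤ ‖pr x‖ → |x 2| < 2 * Λ → x ∈ ball (0 : E) (3 * Λ) := by
    intro x h1 h2
    rw [mem_ball_zero_iff]
    linarith [norm_le_pr_add x, not_le.1 h1]
  have hN2 : ∀ x ∈ M.S, |M.N x 2| ≤ 1 := fun x hx => M.N_unit x hx ▸ abs_two_le (M.N x)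
  have hi1 : Integrable ((M.Bot (2 * Λ)).indicator
      fun x => dd Λ (x, M.N x) * |M.N x 2|) M.μ := by
    refine hM.bd.integrable (A := ball 0 (3 * Λ)) (C := C) isBounded_ball
      ((hmd.mul hm2.abs).indicator hBm) (fun x hx => ?_) (fun x hx hx' => ?_)
    · by_cases h : x ∈ M.Bot (2 * Λ)
      · rw [indicator_of_mem h, abs_mul, abs_abs]
        have := mul_le_mul (hb x _ (M.N_unit x hx)) (hN2 x hx) (abs_nonneg _) hC.le
        linarith
      · rw [indicator_of_notMem h, abs_zero]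
        exact hC.le
    · by_cases h : x ∈ M.Bot (2 * Λ)
      · rw [indicator_of_mem h]
        by_cases h2 : Λ ≤ ‖pr x‖
        · rw [dd_zero hΛ _ h2, zero_mul]
        · exact absurd (hball x h2 h.2.1) hx'
      · exact indicator_of_notMem h _
  have hi2 : Integrable ((lay (2 * Λ)).indicator
      fun x => dd Λ (x, M.N x) * max (-(M.N x 2)) 0) M.μ := by
    refine hM.bd.integrable (A := ball 0 (3 * Λ)) (C := C) isBounded_ball
      ((hmd.mul (hm2.neg.max measurable_const)).indicator hLm) (fun x hx => ?_)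
      (fun x hx hx' => ?_)
    · by_cases h : x ∈ lay (2 * Λ)
      · rw [indicator_of_mem h, abs_mul]
        have h1 : |max (-(M.N x 2)) 0| ≤ 1 := by
          rw [abs_of_nonneg (le_max_right _ _)]
          exact max_le ((neg_le_abs _).trans (hN2 x hx)) zero_le_one
        have := mul_le_mul (hb x _ (M.N_unit x hx)) h1 (abs_nonneg _) hC.le
        linarith
      · rw [indicator_of_notMem h, abs_zero]
        exact hC.le
    · by_cases h : x ∈ lay (2 * Λ)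
      · rw [indicator_of_mem h]
        by_cases h2 : Λ ≤ ‖pr x‖
        · rw [dd_zero hΛ _ h2, zero_mul]
        · exact absurd (hball x h2 h) hx'
      · exact indicator_of_notMem h _
  have e1 : M.Flux (2 * Λ) (bmp 0 Λ) = ∫ x, (M.Bot (2 * Λ)).indicator
      (fun x => dd Λ (x, M.N x) * |M.N x 2|) x ∂M.μ := by
    rw [integral_indicator hBm]
    rfl
  have e2 : M.FluxN (2 * Λ) (bmp 0 Λ) = ∫ x, (lay (2 * Λ)).indicator
      (fun x => dd Λ (x, M.N x) * max (-(M.N x 2)) 0) x ∂M.μ := by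
    rw [integral_indicator hLm]
    rfl
  have hfin : M.μ (ball (0 : E) (3 * Λ)) < ∞ := hM.bd.lt_top isBounded_ball
  have hi3 : Integrable ((ball (0 : E) (3 * Λ)).indicator fun _ => C * d) M.μ :=
    (integrable_indicator_iff measurableSet_ball).2 (integrableOn_const hfin.ne)
  rw [e1, e2, ← integral_sub hi1 hi2, ← Real.norm_eq_abs]
  refine (norm_integral_le_of_norm_le hi3 ?_).trans ?_
  · filter_upwards [M.ae_mem] with x hx
    have hnn : 0 ≤ (ball (0 : E) (3 * Λ)).indicator (fun _ => C * d) x :=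
      indicator_nonneg (fun _ _ => by positivity) x
    by_cases h2 : Λ ≤ ‖pr x‖
    · have z1 : (M.Bot (2 * Λ)).indicator (fun x => dd Λ (x, M.N x) * |M.N x 2|) x = 0 := by
        by_cases h : x ∈ M.Bot (2 * Λ)
        · rw [indicator_of_mem h, dd_zero hΛ _ h2, zero_mul]
        · exact indicator_of_notMem h _
      have z2 : (lay (2 * Λ)).indicator
          (fun x => dd Λ (x, M.N x) * max (-(M.N x 2)) 0) x = 0 := by
        by_cases h : x ∈ lay (2 * Λ)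
        · rw [indicator_of_mem h, dd_zero hΛ _ h2, zero_mul]
        · exact indicator_of_notMem h _
      rw [z1, z2, sub_zero, norm_zero]
      exact hnn
    · have h3 : pr x ∈ closedBall (0 : ℂ) Λ := mem_closedBall_zero_iff.2 (not_le.1 h2).le
      by_cases h : x ∈ M.Bot (2 * Λ)
      · have h4 : M.N x 2 ≤ 0 := hM.bot_nonpos hΛ (by linarith) hs h h3
        have h5 : x ∈ lay (2 * Λ) := h.2.1
        rw [indicator_of_mem h, indicator_of_mem h5, abs_of_nonpos h4,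
          max_eq_left (neg_nonneg.2 h4), sub_self, norm_zero]
        exact hnn
      · rw [indicator_of_notMem h, zero_sub, norm_neg]
        by_cases h5 : x ∈ lay (2 * Λ)
        · rw [indicator_of_mem h5, indicator_of_mem (hball x h2 h5), Real.norm_eq_abs, abs_mul]
          have h6 : -d < M.N x 2 := not_le.1 fun h7 => h (hB x hx h3 h5 h7)
          have h1 : |max (-(M.N x 2)) 0| ≤ d := by
            rw [abs_of_nonneg (le_max_right _ _)]
            exact max_le (by linarith) hd.le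
          exact mul_le_mul (hb x _ (M.N_unit x hx)) h1 (abs_nonneg _) hC.le
        · rw [indicator_of_notMem h5, norm_zero]
          exact hnn
  · rw [integral_indicator measurableSet_ball, setIntegral_const, smul_eq_mul, mul_comm]
    exact mul_le_mul_of_nonneg_left (hM.bd.real_ball 0 (by positivity)) (by positivity)

/-- The vertical line through a point below the plane of symmetry meets the bigraph twice. -/
theorem line_two {M : Surf} {a : ℝ} (h : M.Bigraph e3 a) {x : E} (hx : x ∈ M.S) (ha : x 2 < a)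
    {t : ℝ} (ht : pt (pr x) t ∈ M.S) : t = x 2 ∨ t = 2 * a - x 2 := by
  have hx' : pt (pr x) (2 * a - x 2) ∈ M.S := by
    rw [← refl_e3]
    exact (h.sym x).2 hx
  have hup : ∀ s : ℝ, 2 * a - x 2 < s → pt (pr x) s ∉ M.S := by
    intro s hs hS
    have h1 := h.up _ hx' (by rw [inner_e3, pt_two]; linarith) (s - (2 * a - x 2)) (by linarith)
    rw [pt_add_smul_e3, add_sub_cancel] at h1
    exact Surf.not_mem_W' hS h1
  rcases lt_trichotomy t (x 2) with h1 | h1 | h1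
  · have h2 := (h.sym _).2 ht
    rw [refl_e3, pr_pt, pt_two] at h2
    exact absurd h2 (hup _ (by linarith))
  · exact Or.inl h1
  · rcases lt_trichotomy t (2 * a - x 2) with h2 | h2 | h2
    · have h3 := h.mid _ hx' (2 * a - x 2 - t) (by linarith) (by rw [inner_e3, pt_two]; linarith)
      rw [pt_sub_smul_e3, sub_sub_cancel] at h3
      exact absurd ht (Set.disjoint_left.1 M.disjS h3)
    · exact Or.inr h2
    · exact absurd ht (hup _ h2)

theorem seg_eq (y : ℂ) (Λ s : ℝ) :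
    pt y (-(2 * Λ)) + s • ((4 * Λ) • e3) = pt y (-(2 * Λ) + s * (4 * Λ)) := by
  rw [smul_smul, pt_add_smul_e3]

theorem seg_par (y : ℂ) {Λ : ℝ} (hΛ : 0 < Λ) (t : ℝ) :
    pt y (-(2 * Λ)) + ((t + 2 * Λ) / (4 * Λ)) • ((4 * Λ) • e3) = pt y t := by
  rw [seg_eq, div_mul_cancel₀ _ (by positivity)]
  congr 1
  ring

theorem par_mem {Λ t : ℝ} (hΛ : 0 < Λ) (h : |t| ≤ 2 * Λ) :
    (t + 2 * Λ) / (4 * Λ) ∈ Icc (0 : ℝ) 1 := by
  obtain ⟨h1, h2⟩ := abs_le.1 h
  refine ⟨div_nonneg (by linarith) (by positivity), ?_⟩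
  rw [div_le_one (by positivity)]
  linarith

theorem eventually_bot (hP : S_PERSIST) {U : Ultrafilter ℕ} {Mk : ℕ → Surf} {M : Surf} {a Λ d : ℝ}
    (hk : ∀ k, (Mk k).Mem) (hM : M.Mem) (hc : Conv (U : Filter ℕ) Mk M) (hb : M.Bigraph e3 a)
    (hΛ : 0 < Λ) (hs : M.Slab (closedBall 0 Λ) (3 / 2 * Λ) (2 * Λ)) (hd : 0 < d) :
    ∀ᶠ k in (U : Filter ℕ), ∀ x ∈ (Mk k).S, pr x ∈ closedBall (0 : ℂ) Λ → |x 2| < 2 * Λ →
      (Mk k).N x 2 ≤ -d → x ∈ (Mk k).Bot (2 * Λ) := by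
  by_contra hcon
  have h1 : ∀ᶠ k in (U : Filter ℕ), ∃ q : E × ℝ, q.1 ∈ (Mk k).S ∧ pr q.1 ∈ closedBall (0 : ℂ) Λ ∧
      |q.1 2| < 2 * Λ ∧ (Mk k).N q.1 2 ≤ -d ∧ -(2 * Λ) < q.2 ∧ q.2 < q.1 2 ∧
      pt (pr q.1) q.2 ∈ (Mk k).S := by
    filter_upwards [Ultrafilter.eventually_not.2 hcon] with k hk'
    by_contra hno
    refine hk' fun x hx h2 h3 h4 => ⟨hx, h3, fun t h5 h6 h7 => hno ⟨(x, t), hx, h2, h3, h4, h5, h6, h7⟩⟩
  obtain ⟨q, hq⟩ := h1.choice
  have hK : ∀ᶠ k in (U : Filter ℕ), (q k).1 ∈ closedBall (0 : E) (3 * Λ) := by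
    filter_upwards [hq] with k hk'
    rw [mem_closedBall_zero_iff]
    linarith [norm_le_pr_add (q k).1, mem_closedBall_zero_iff.1 hk'.2.1, hk'.2.2.1]
  obtain ⟨x, -, hx⟩ := (isCompact_closedBall (0 : E) (3 * Λ)).ultrafilter_le_nhds
    (U.map fun k => (q k).1) (le_principal_iff.2 hK)
  have hxt : Tendsto (fun k => (q k).1) (U : Filter ℕ) (𝓝 x) := hx
  obtain ⟨hxS, hxN⟩ := hc.pts _ x (hq.mono fun k h => h.1) hxt (hM.sub {x} rfl)
  have hN : M.N x 2 ≤ -d :=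
    le_of_tendsto ((continuous_two.tendsto _).comp hxN) (hq.mono fun k h => h.2.2.2.1)
  have hprt : Tendsto (fun k => pr (q k).1) (U : Filter ℕ) (𝓝 (pr x)) :=
    (continuous_pr.tendsto _).comp hxt
  have h2t : Tendsto (fun k => (q k).1 2) (U : Filter ℕ) (𝓝 (x 2)) :=
    (continuous_two.tendsto _).comp hxt
  have hy : pr x ∈ closedBall (0 : ℂ) Λ :=
    isClosed_closedBall.mem_of_tendsto hprt (hq.mono fun k h => h.2.1)
  have hx2 : |x 2| ≤ 2 * Λ :=
    le_of_tendsto ((continuous_abs.tendsto _).comp h2t) (hq.mono fun k h => h.2.2.1.le)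
  have ha : x 2 < a := by
    by_contra h
    rcases (not_lt.1 h).lt_or_eq with h3 | h3
    · have := hb.pos x hxS (by rwa [inner_e3])
      rw [inner_e3] at this
      linarith
    · have := hb.zero x hxS (by rw [inner_e3, h3])
      rw [inner_e3] at this
      linarith
  have hW : ∀ t : ℝ, |t| = 2 * Λ → pt (pr x) t ∉ M.S := fun t ht hS =>
    Surf.not_mem_W' hS (hs _ hy t (by linarith) ht.le)
  have hA : pt (pr x) (-(2 * Λ)) ∉ M.S := hW _ (by rw [abs_neg, abs_of_pos (by positivity)])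
  have hA' : pt (pr x) (-(2 * Λ)) + (4 * Λ) • e3 ∉ M.S := by
    rw [pt_add_smul_e3]
    refine hW _ ?_
    rw [abs_of_pos (by linarith)]
    ring
  have htr : ∀ t ∈ Icc (0 : ℝ) 1, pt (pr x) (-(2 * Λ)) + t • ((4 * Λ) • e3) ∈ M.S →
      ⟪(4 * Λ) • e3, M.N (pt (pr x) (-(2 * Λ)) + t • ((4 * Λ) • e3))⟫ ≠ 0 := by
    intro t _ hS
    rw [real_inner_smul_left, e3_inner]
    refine mul_ne_zero (by positivity) ?_
    rw [seg_eq] at hS ⊢
    rcases line_two hb hxS ha hS with h3 | h3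
    · rw [h3, pt_pr]
      linarith
    · have := hb.pos _ hS (by rw [inner_e3, pt_two, h3]; linarith)
      rw [inner_e3] at this
      exact this.ne'
  obtain ⟨ε₀, hε₀, hsep, hper⟩ := hP U Mk M hk hc (pt (pr x) (-(2 * Λ))) ((4 * Λ) • e3)
    (fun t _ => hM.sub {_} rfl) hA hA' htr
  obtain ⟨δ, hδ, hev⟩ := hper ε₀ hε₀
  have hc1 : ∀ᶠ k in (U : Filter ℕ), dist (pr (q k).1) (pr x) < δ :=
    Metric.tendsto_nhds.1 hprt δ hδ
  have hc2 : ∀ᶠ k in (U : Filter ℕ), dist ((q k).1 2) (x 2) < ε₀ * (4 * Λ) :=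
    Metric.tendsto_nhds.1 h2t _ (by positivity)
  obtain ⟨k, ⟨⟨hk1, hk2⟩, hk3⟩, hk4⟩ := (((hq.and hev).and hc1).and hc2).exists
  obtain ⟨g1, -, g3, -, g5, g6, g7⟩ := hk1
  have hnear : ‖pt (pr (q k).1) (-(2 * Λ)) - pt (pr x) (-(2 * Λ))‖ < δ := by
    rw [← pt_sub, sub_self, norm_pt_zero, ← dist_eq_norm]
    exact hk3
  obtain ⟨-, -, -, -, -, p6, p7⟩ := hk2 _ ((4 * Λ) • e3) hnear (by rwa [sub_self, norm_zero])
  have hq2 : |(q k).2| ≤ 2 * Λ := abs_le.2 ⟨g5.le, by linarith [(abs_lt.1 g3).2]⟩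
  have m1 := par_mem hΛ hq2
  have m2 := par_mem hΛ g3.le
  have m3 := par_mem hΛ hx2
  have s1 : pt (pr (q k).1) (-(2 * Λ)) + (((q k).2 + 2 * Λ) / (4 * Λ)) • ((4 * Λ) • e3)
      ∈ (Mk k).S := by
    rw [seg_par _ hΛ]
    exact g7
  have s2 : pt (pr (q k).1) (-(2 * Λ)) + (((q k).1 2 + 2 * Λ) / (4 * Λ)) • ((4 * Λ) • e3)
      ∈ (Mk k).S := by
    rw [seg_par _ hΛ, pt_pr]
    exact g1
  have s3 : pt (pr x) (-(2 * Λ)) + ((x 2 + 2 * Λ) / (4 * Λ)) • ((4 * Λ) • e3) ∈ M.S := by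
    rw [seg_par _ hΛ, pt_pr]
    exact hxS
  have hlt : ((q k).2 + 2 * Λ) / (4 * Λ) < ((q k).1 2 + 2 * Λ) / (4 * Λ) :=
    div_lt_div_of_pos_right (by linarith) (by positivity)
  have hcl : |((q k).1 2 + 2 * Λ) / (4 * Λ) - (x 2 + 2 * Λ) / (4 * Λ)| < ε₀ := by
    rw [← sub_div, abs_div, abs_of_pos (by positivity : 0 < 4 * Λ), div_lt_iff₀ (by positivity),
      add_sub_add_right_eq_sub]
    rwa [Real.dist_eq] at hk4
  obtain ⟨s, hs1, hs2, hs3, -⟩ := p6 _ m1 s1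
  obtain ⟨c1, c2⟩ := abs_lt.1 hcl
  obtain ⟨c3, c4⟩ := abs_lt.1 hs3
  by_cases hse : s = (x 2 + 2 * Λ) / (4 * Λ)
  · rw [hse] at c3 c4
    exact hlt.ne (p7 _ m1 _ m2 s1 s2 (abs_le.2 ⟨by linarith, by linarith⟩))
  · have hgap := hsep s hs1 _ m3 hs2 s3 hse
    have hs4 := hs2
    rw [seg_eq] at hs4
    have hge : (x 2 + 2 * Λ) / (4 * Λ) ≤ s := by
      rw [div_le_iff₀ (by positivity)]
      rcases line_two hb hxS ha hs4 with h3 | h3 <;> linarith
    rw [abs_of_nonneg (sub_nonneg.2 hge)] at hgap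
    linarith

end DFLUXLIM

theorem fluxlim_of (hP : S_PERSIST) : S_FLUXLIM := by
  intro U Mk M a Λ hk hM hc hb hΛ hsk hs
  have h1 : Tendsto (fun k => (Mk k).FluxN (2 * Λ) (bmp 0 Λ)) U
      (𝓝 (M.FluxN (2 * Λ) (bmp 0 Λ))) := by
    have h2 := hc.meas (DFLUXLIM.FF Λ) (closedBall 0 (3 * Λ)) (DFLUXLIM.continuous_FF Λ)
      (isCompact_closedBall _ _) (hM.sub _) (DFLUXLIM.FF_zero hΛ)
    rw [DFLUXLIM.fluxN_eq hΛ le_rfl hs]
    refine h2.congr' ?_
    filter_upwards [hsk] with k hk'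
    exact (DFLUXLIM.fluxN_eq hΛ (by linarith) hk').symm
  have h3 : Tendsto (fun k => (Mk k).Flux (2 * Λ) (bmp 0 Λ) - (Mk k).FluxN (2 * Λ) (bmp 0 Λ)) U
      (𝓝 0) := by
    obtain ⟨C, hC, hbd⟩ := DFLUXLIM.exists_dd_bound hΛ
    refine Metric.tendsto_nhds.2 fun ε hε => ?_
    have hpi := Real.pi_pos
    have hQ : 0 < C * (2 * π * (3 * Λ) ^ 2) := by positivity
    have hd : 0 < ε / (2 * (C * (2 * π * (3 * Λ) ^ 2))) := by positivity
    filter_upwards [hsk, DFLUXLIM.eventually_bot hP hk hM hc hb hΛ hs hd] with k k1 k2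
    rw [Real.dist_eq, sub_zero]
    refine (DFLUXLIM.flux_sub_le (hk k) hΛ hC hd hbd k1 k2).trans_lt ?_
    have e : C * (ε / (2 * (C * (2 * π * (3 * Λ) ^ 2)))) * (2 * π * (3 * Λ) ^ 2) = ε / 2 := by
      field_simp
    rw [e]
    linarith
  have h4 := h3.add h1
  simpa only [sub_add_cancel, zero_add] using h4

end MW
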