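import Pool.Agent.P.MP_064970_gt.D.API

/-! D2, monotonicity. flux_layer moves both fluxes to the layer T. η = bmp 0 Λ - bmp 0 Λ' ≥ 0 (bmp_eq_one on the disc Λ/2 ≥ Λ', bmp_eq_zero), tsupport η ⊆ closedBall 0 Λ,
PI with T₀ = Λ, flux_sub. Points of S in lay T over the closed disc lie in ball 0 (2Λ) (Slab.abs_lt), mass ≤ 8πΛ^2; 0 ≤ η ≤ 1; ∫ η ≤ 4Λ^2; ‖fderiv η‖ ≤ 2 C_b. -/

open MeasureTheory Set Filter Topology Metric
open scoped RealInnerProductSpace ENNReal NNReal ComplexConjugate Real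

noncomputable section

namespace MW

namespace DFLUXMONO

/-- Integrals over the layer of a bounded function that vanishes off the disc. -/
theorem int_lay_le {M : Surf} (hM : M.Mem) {Λ T : ℝ} (hΛ : 0 < Λ)
    (hs : M.Slab (closedBall 0 Λ) Λ T) {g : ℂ → ℝ} {C : ℝ} (hC0 : 0 ≤ C) (hC : ∀ y, |g y| ≤ C)
    (h0 : ∀ y : ℂ, Λ ≤ ‖y‖ → g y = 0) :
    ∫ x in lay T, g (pr x) ∂M.μ ≤ C * (32 * Λ ^ 2) := by
  have e1 : ∫ x in lay T, g (pr x) ∂M.μ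
      = ∫ x, (lay T).indicator (fun x => g (pr x)) x ∂M.μ :=
    (integral_indicator (measurableSet_lay T)).symm
  have e2 : ∫ x in ball (0 : E) (2 * Λ), (lay T).indicator (fun x => g (pr x)) x ∂M.μ
      = ∫ x, (lay T).indicator (fun x => g (pr x)) x ∂M.μ := by
    refine setIntegral_eq_integral_of_ae_compl_eq_zero ?_
    filter_upwards [M.ae_mem] with x hx hb
    by_cases hl : x ∈ lay T
    · rw [indicator_of_mem hl]
      by_contra hne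
      have h1 : ‖pr x‖ < Λ := by
        by_contra hh
        exact hne (h0 _ (not_lt.1 hh))
      have h2 : |x 2| < Λ := hs.abs_lt hx (mem_closedBall_zero_iff.2 h1.le) (le_of_lt hl)
      have h3 := norm_le_pr_add x
      exact hb (mem_ball_zero_iff.2 (by linarith))
    · exact indicator_of_notMem hl _
  have e3 : |∫ x in ball (0 : E) (2 * Λ), (lay T).indicator (fun x => g (pr x)) x ∂M.μ|
      ≤ C * (2 * π * (2 * Λ) ^ 2) := by
    refine hM.bd.setIntegral_le (by linarith) hC0 fun x _ => ?_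
    by_cases hl : x ∈ lay T
    · rw [indicator_of_mem hl]
      exact hC _
    · rw [indicator_of_notMem hl, abs_zero]
      exact hC0
  have hπ := Real.pi_lt_four
  have h4 : 2 * π * (2 * Λ) ^ 2 ≤ 32 * Λ ^ 2 := by nlinarith [sq_nonneg Λ]
  rw [e1, ← e2]
  exact (le_abs_self _).trans (e3.trans (mul_le_mul_of_nonneg_left h4 hC0))

/-- The difference of the two bumps. -/
def eta (Λ' Λ : ℝ) (w : ℂ) : ℝ := bmp 0 Λ w - bmp 0 Λ' w

theorem eta_nonneg {Λ' Λ : ℝ} (h1 : 0 < Λ') (h2 : 2 * Λ' ≤ Λ) (w : ℂ) : 0 ≤ eta Λ' Λ w := by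
  unfold eta
  by_cases hw : Λ' ≤ ‖w - 0‖
  · rw [bmp_eq_zero h1 hw, sub_zero]
    exact bmp_nonneg _ _ _
  · rw [bmp_eq_one (r := Λ) (by linarith) (by linarith [not_le.1 hw])]
    linarith [bmp_le_one 0 Λ' w]

theorem eta_le (Λ' Λ : ℝ) (w : ℂ) : eta Λ' Λ w ≤ bmp 0 Λ w := by
  unfold eta
  linarith [bmp_nonneg 0 Λ' w]

theorem eta_zero {Λ' Λ : ℝ} (h1 : 0 < Λ') (h2 : 2 * Λ' ≤ Λ) {w : ℂ} (hw : Λ ≤ ‖w‖) :
    eta Λ' Λ w = 0 := by
  unfold eta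
  rw [bmp_eq_zero (r := Λ) (by linarith) (by simpa using hw),
    bmp_eq_zero h1 (by rw [sub_zero]; linarith), sub_zero]

theorem contDiff_eta (Λ' Λ : ℝ) : ContDiff ℝ 1 (eta Λ' Λ) :=
  (contDiff_one_bmp 0 Λ).sub (contDiff_one_bmp 0 Λ')

theorem tsupport_eta {Λ' Λ : ℝ} (h1 : 0 < Λ') (h2 : 2 * Λ' ≤ Λ) :
    tsupport (eta Λ' Λ) ⊆ closedBall 0 Λ := by
  refine closure_minimal (fun w hw => ?_) isClosed_closedBall
  rw [mem_closedBall_zero_iff]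
  by_contra hh
  exact hw (eta_zero h1 h2 (not_le.1 hh).le)

theorem hasCompactSupport_eta {Λ' Λ : ℝ} (h1 : 0 < Λ') (h2 : 2 * Λ' ≤ Λ) :
    HasCompactSupport (eta Λ' Λ) :=
  (isCompact_closedBall (0 : ℂ) Λ).of_isClosed_subset (isClosed_tsupport _) (tsupport_eta h1 h2)

theorem fderiv_eta (Λ' Λ : ℝ) (w : ℂ) :
    fderiv ℝ (eta Λ' Λ) w = fderiv ℝ (bmp 0 Λ) w - fderiv ℝ (bmp 0 Λ') w :=
  fderiv_fun_sub ((contDiff_one_bmp 0 Λ).differentiable one_ne_zero w)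
    ((contDiff_one_bmp 0 Λ').differentiable one_ne_zero w)

theorem integral_eta_le {Λ' Λ : ℝ} (h1 : 0 < Λ') (h2 : 2 * Λ' ≤ Λ) :
    ∫ w, eta Λ' Λ w ≤ 4 * Λ ^ 2 := by
  have hΛ : 0 < Λ := by linarith
  refine le_trans ?_ (integral_bmp_le 0 hΛ)
  exact integral_mono ((integrable_bmp 0 hΛ).sub (integrable_bmp 0 h1)) (integrable_bmp 0 hΛ)
    (eta_le Λ' Λ)

end DFLUXMONO

theorem fluxmono_of (hP : S_PI) : S_FLUXMONO := by
  obtain ⟨Cb, hCb, hb⟩ := exists_bmp_bound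
  refine ⟨36 + 256 * Cb, by positivity, fun M hM Λ' Λ T h1 h2 h3 hs' hs => ?_⟩
  have hΛ' : 0 < Λ' := by linarith
  have hΛ : 0 < Λ := by linarith
  have hΛ1 : 1 ≤ Λ := by linarith
  have hT : 0 < T := by linarith
  rw [hM.flux_layer hΛ' (T₀ := Λ') (T := T) (by linarith) (by linarith) hs',
    hM.flux_layer hΛ (T₀ := Λ) (T := T) (by linarith) h3 hs]
  have hsub := hM.flux_sub T (contDiff_one_bmp 0 Λ) (hasCompactSupport_bmp 0 hΛ)
    (contDiff_one_bmp 0 Λ') (hasCompactSupport_bmp 0 hΛ')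
  have hpi := hP M hM (DFLUXMONO.eta Λ' Λ) Λ T (DFLUXMONO.contDiff_eta Λ' Λ)
    (DFLUXMONO.hasCompactSupport_eta hΛ' h2) (DFLUXMONO.eta_nonneg hΛ' h2) hΛ (by linarith)
    (hs.mono (DFLUXMONO.tsupport_eta hΛ' h2) le_rfl le_rfl)
  have he : M.Flux T (DFLUXMONO.eta Λ' Λ) = M.Flux T (bmp 0 Λ) - M.Flux T (bmp 0 Λ') := hsub
  have i1 : ∫ x in lay T, DFLUXMONO.eta Λ' Λ (pr x) ∂M.μ ≤ 1 * (32 * Λ ^ 2) := by
    refine DFLUXMONO.int_lay_le hM hΛ hs zero_le_one (fun y => ?_)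
      fun y hy => DFLUXMONO.eta_zero hΛ' h2 hy
    rw [abs_of_nonneg (DFLUXMONO.eta_nonneg hΛ' h2 y)]
    exact (DFLUXMONO.eta_le Λ' Λ y).trans (bmp_le_one _ _ _)
  have i2 := DFLUXMONO.integral_eta_le hΛ' h2
  have i3 : ∫ x in lay T, ‖fderiv ℝ (DFLUXMONO.eta Λ' Λ) (pr x)‖ ∂M.μ
      ≤ (2 * Cb) * (32 * Λ ^ 2) := by
    refine DFLUXMONO.int_lay_le (g := fun y => ‖fderiv ℝ (DFLUXMONO.eta Λ' Λ) y‖) hM hΛ hs
      (by positivity) (fun y => ?_) fun y hy => ?_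
    · rw [abs_of_nonneg (norm_nonneg _), DFLUXMONO.fderiv_eta]
      have a1 := (hb 0 y Λ hΛ).trans (div_le_self hCb.le hΛ1)
      have a2 := (hb 0 y Λ' hΛ').trans (div_le_self hCb.le h1)
      exact (norm_sub_le _ _).trans (by linarith)
    · rw [DFLUXMONO.fderiv_eta, fderiv_bmp_eq_zero hΛ (by simpa using hy),
        fderiv_bmp_eq_zero hΛ' (by rw [sub_zero]; linarith), sub_zero, norm_zero]
  have i4 : Λ ^ 2 ≤ Λ ^ 3 := pow_le_pow_right₀ hΛ1 (by norm_num)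
  have i5 : 4 * Λ * ∫ x in lay T, ‖fderiv ℝ (DFLUXMONO.eta Λ' Λ) (pr x)‖ ∂M.μ
      ≤ 4 * Λ * ((2 * Cb) * (32 * Λ ^ 2)) := mul_le_mul_of_nonneg_left i3 (by positivity)
  have i6 : (∫ x in lay T, DFLUXMONO.eta Λ' Λ (pr x) ∂M.μ) + (∫ y, DFLUXMONO.eta Λ' Λ y)
      + 4 * Λ * ∫ x in lay T, ‖fderiv ℝ (DFLUXMONO.eta Λ' Λ) (pr x)‖ ∂M.μ
      ≤ (36 + 256 * Cb) * Λ ^ 3 := by nlinarith
  have i7 := div_le_div_of_nonneg_right i6 hT.le
  rw [neg_div] at hpi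
  linarith

end MW
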