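import Pool.Agent.P.MP_064970_gt.D.API

/-! D2, positivity. q ∈ S with q 2 = a (ne), N q 2 = 0 (zero). Λ₁ = 2‖q‖ + 2. β_e s = smoothTransition (s/e), χ smooth, 1 on [-3Λ/2,3Λ/2], 0 off (-7Λ/4,7Λ/4).
FV with ζ x = η (pr x) β_e (a - x 2) χ (x 2), v = e3 (on S over the closed disc χ is locally 1 or 0 by Slab.abs_lt):
∫_{lay} β_e(a - x 2) (-(N 2)) fderiv η (pr x) (pr N) = ∫_{lay} η β_e'(a - x 2) (1 - N 2 ^ 2). Left side → FluxN as e → 0 (dominated convergence along e = 1/(n+1);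
-(N 2) = max (-(N 2)) 0 for x 2 < a by Bigraph.neg, max = 0 for x 2 ≥ a by pos, zero). Right side ≥ c > 0 for small e: choose ρ ≤ 1 with ‖N x - N q‖ ≤ 1/4 on S ∩ ball q ρ;
there η = 1, 1 - N 2 ^ 2 ≥ 15/16; third clause of AREA with A e3 = N q, G = S ∩ ball q ρ, f y = ofReal (β_e' (a - A (pt y 0) 2)) (x 2 = A (pt (prA A x) 0) 2 since N q 2 = 0,
apply_pt_prA); prA '' G contains the disc of radius ρ/2 about prA q (cover_disc); A (pt y 0) 2 = ⟪y, ω⟫ with ω = pr (A.symm e3), ‖ω‖ = 1; rotate by ω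
(measure preserving) and integrate over a square of half side ρ/4: (ρ/2) ∫ β_e' = ρ/2 for e ≤ ρ/4. -/

open MeasureTheory Set Filter Topology Metric
open scoped RealInnerProductSpace ENNReal NNReal ComplexConjugate Real

noncomputable section

namespace MW

namespace DFLUXPOS

theorem meas_flux (M : Surf) {η : ℂ → ℝ} (hη : ContDiff ℝ 1 η) :
    Measurable fun x => fderiv ℝ η (pr x) (pr (M.N x)) := by
  have h1 : Continuous fun q : E × E => fderiv ℝ η (pr q.1) (pr q.2) :=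
    Continuous.clm_apply ((hη.continuous_fderiv one_ne_zero).comp (by fun_prop)) (by fun_prop)
  exact h1.measurable.comp (measurable_id.prodMk M.N_meas)

theorem meas_two (M : Surf) : Measurable fun x => M.N x 2 :=
  (by fun_prop : Continuous fun x : E => x 2).measurable.comp M.N_meas

theorem abs_N_two (M : Surf) {x : E} (hx : x ∈ M.S) : |M.N x 2| ≤ 1 :=
  (abs_two_le _).trans (M.N_unit x hx).le

theorem sq_N_two (M : Surf) {x : E} (hx : x ∈ M.S) : M.N x 2 ^ 2 ≤ 1 := by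
  have := abs_N_two M hx
  rw [← sq_abs]
  nlinarith [abs_nonneg (M.N x 2)]

/-- The derivative of a product of a horizontal and a vertical function. -/
theorem fderiv_prod {η : ℂ → ℝ} {h : ℝ → ℝ} (hη : ContDiff ℝ 1 η) (hh : ContDiff ℝ 1 h)
    (x v : E) : fderiv ℝ (fun z : E => η (pr z) * h (z 2)) x v
      = fderiv ℝ η (pr x) (pr v) * h (x 2) + η (pr x) * (deriv h (x 2) * v 2) := by
  have h1 : HasFDerivAt (fun z : E => η (pr z)) ((fderiv ℝ η (pr x)).comp prL) x :=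
    ((hη.differentiable one_ne_zero (pr x)).hasFDerivAt).comp x prL.hasFDerivAt
  have h2 : HasFDerivAt (fun z : E => z 2) (EuclideanSpace.proj (2 : Fin 3) : E →L[ℝ] ℝ) x :=
    (EuclideanSpace.proj (2 : Fin 3) : E →L[ℝ] ℝ).hasFDerivAt
  have h3 : HasFDerivAt (fun z : E => h (z 2))
      (deriv h (x 2) • (EuclideanSpace.proj (2 : Fin 3) : E →L[ℝ] ℝ)) x :=
    ((hh.differentiable one_ne_zero (x 2)).hasDerivAt).comp_hasFDerivAt x h2
  have h4 := h1.mul h3
  have h5 : fderiv ℝ (fun z : E => η (pr z) * h (z 2)) x = _ := h4.fderiv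
  rw [h5]
  simp
  ring

/-- The first variation in the vertical direction. -/
theorem fv (hFV : S_FV) {M : Surf} (hM : M.Mem) {Λ : ℝ} (hΛ : 0 < Λ)
    (hs : M.Slab (closedBall 0 Λ) (3 / 2 * Λ) (2 * Λ)) {g : ℝ → ℝ} (hg : ContDiff ℝ 1 g) :
    ∫ x in lay (2 * Λ), (bmp 0 Λ (pr x) * deriv g (x 2) * (1 - M.N x 2 ^ 2)
      + g (x 2) * (-(M.N x 2)) * fderiv ℝ (bmp 0 Λ) (pr x) (pr (M.N x))) ∂M.μ = 0 := by
  let χ : ContDiffBump (0 : ℝ) := ⟨3 / 2 * Λ, 2 * Λ, by positivity, by linarith⟩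
  have hχ : ContDiff ℝ 1 χ := χ.contDiff
  have hh : ContDiff ℝ 1 (fun t => g t * χ t) := hg.mul hχ
  have hη := contDiff_one_bmp 0 Λ
  have hζ : ContDiff ℝ 1 (fun z : E => bmp 0 Λ (pr z) * (g (z 2) * χ (z 2))) :=
    (hη.comp prL.contDiff).mul
      (hh.comp (EuclideanSpace.proj (2 : Fin 3) : E →L[ℝ] ℝ).contDiff)
  have hc : HasCompactSupport (fun z : E => bmp 0 Λ (pr z) * (g (z 2) * χ (z 2))) := by
    refine HasCompactSupport.intro (isCompact_closedBall (0 : E) (3 * Λ)) fun z hz => ?_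
    rw [mem_closedBall_zero_iff, not_le] at hz
    have h1 := norm_le_pr_add z
    by_cases h2 : Λ ≤ ‖pr z‖
    · rw [bmp_eq_zero hΛ (by simpa using h2), zero_mul]
    · have h3 : χ (z 2) = 0 := χ.zero_of_le_dist (by
        rw [Real.dist_eq, sub_zero]
        change 2 * Λ ≤ _
        linarith [not_le.1 h2])
      rw [h3, mul_zero, mul_zero]
  have h0 := (hFV M).1 _ hζ hc (hM.sub _) e3
  rw [← integral_indicator (measurableSet_lay _), ← h0]
  refine integral_congr_ae ?_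
  filter_upwards [M.ae_mem] with x hx
  rw [fderiv_prod hη hh, fderiv_prod hη hh, inner_e3]
  by_cases h1 : ‖pr x‖ ≤ Λ
  · have hK : pr x ∈ closedBall (0 : ℂ) Λ := mem_closedBall_zero_iff.2 h1
    by_cases h2 : |x 2| ≤ 2 * Λ
    · have h3 := hs.abs_lt hx hK h2
      have h4 : (χ : ℝ → ℝ) =ᶠ[𝓝 (x 2)] 1 := χ.eventuallyEq_one_of_mem_ball (by
        rw [mem_ball_zero_iff]; exact h3)
      have h5 : (fun t => g t * χ t) =ᶠ[𝓝 (x 2)] g := by
        filter_upwards [h4] with t ht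
        rw [ht]; simp
      have h6 : x ∈ lay (2 * Λ) := by
        change |x 2| < 2 * Λ
        linarith
      have h7 : g (x 2) * χ (x 2) = g (x 2) := h5.eq_of_nhds
      rw [indicator_of_mem h6, h5.deriv_eq, h7]
      simp
      ring
    · have h4 : ∀ᶠ t in 𝓝 (x 2), 2 * Λ < |t| :=
        continuous_abs.continuousAt.eventually (lt_mem_nhds (not_le.1 h2))
      have h5 : (fun t => g t * χ t) =ᶠ[𝓝 (x 2)] fun _ => 0 := by
        filter_upwards [h4] with t ht
        have h3 : χ t = 0 := χ.zero_of_le_dist (by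
          rw [Real.dist_eq, sub_zero]
          exact ht.le)
        rw [h3, mul_zero]
      have h6 : x ∉ lay (2 * Λ) := fun h => h2 (le_of_lt h)
      have h7 : g (x 2) * χ (x 2) = 0 := h5.eq_of_nhds
      rw [indicator_of_notMem h6, h5.deriv_eq, h7]
      simp
  · have h2 : Λ ≤ ‖pr x - 0‖ := by simpa using (not_le.1 h1).le
    by_cases h6 : x ∈ lay (2 * Λ)
    · rw [indicator_of_mem h6, bmp_eq_zero hΛ h2, fderiv_bmp_eq_zero hΛ h2]
      simp
    · rw [indicator_of_notMem h6, bmp_eq_zero hΛ h2, fderiv_bmp_eq_zero hΛ h2]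
      simp

theorem int_R {M : Surf} (hM : M.Mem) {Λ : ℝ} (hΛ : 0 < Λ) (T : ℝ) {g : ℝ → ℝ}
    (hg : ContDiff ℝ 1 g) :
    IntegrableOn (fun x => bmp 0 Λ (pr x) * deriv g (x 2) * (1 - M.N x 2 ^ 2)) (lay T) M.μ := by
  have hd : Continuous (deriv g) := hg.continuous_deriv le_rfl
  obtain ⟨C, hC⟩ := (isCompact_Icc (a := -T) (b := T)).exists_bound_of_continuousOn
    hd.continuousOn
  have hm : Measurable fun x => bmp 0 Λ (pr x) * deriv g (x 2) * (1 - M.N x 2 ^ 2) := by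
    refine Measurable.mul (Measurable.mul ?_ ?_) (measurable_const.sub ((meas_two M).pow_const 2))
    · exact (contDiff_one_bmp 0 Λ).continuous.measurable.comp measurable_pr
    · exact (hd.comp (by fun_prop : Continuous fun x : E => x 2)).measurable
  have h1 : IntegrableOn (fun x => bmp 0 Λ (pr x) * deriv g (x 2) * (1 - M.N x 2 ^ 2))
      (cyl (closedBall 0 Λ) T) M.μ := by
    refine hM.bd.integrableOn (isBounded_cyl isBounded_closedBall T) hm (C := C) ?_
      (measurableSet_cyl measurableSet_closedBall T)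
    rintro x ⟨⟨-, hx2⟩, hx⟩
    have h2 : |deriv g (x 2)| ≤ C := hC _ ⟨(abs_lt.1 hx2).1.le, (abs_lt.1 hx2).2.le⟩
    have h3 : |bmp 0 Λ (pr x)| ≤ 1 := by
      rw [abs_of_nonneg (bmp_nonneg _ _ _)]; exact bmp_le_one _ _ _
    have h4 : |1 - M.N x 2 ^ 2| ≤ 1 := by
      rw [abs_of_nonneg (by linarith [sq_N_two M hx])]
      nlinarith [sq_nonneg (M.N x 2)]
    rw [abs_mul, abs_mul]
    calc |bmp 0 Λ (pr x)| * |deriv g (x 2)| * |1 - M.N x 2 ^ 2| ≤ 1 * C * 1 := by
          gcongr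
          exact (mul_nonneg zero_le_one ((abs_nonneg _).trans h2))
      _ = C := by ring
  refine h1.of_forall_sdiff_eq_zero (measurableSet_lay T) ?_
  rintro x ⟨hx, hx'⟩
  have h2 : Λ ≤ ‖pr x - 0‖ := by
    by_contra h
    exact hx' ⟨by simpa using (not_le.1 h).le, hx⟩
  rw [bmp_eq_zero hΛ h2, zero_mul, zero_mul]

theorem meas_L (M : Surf) (Λ : ℝ) {g : ℝ → ℝ} (hg : Continuous g) :
    Measurable fun x => g (x 2) * (-(M.N x 2)) * fderiv ℝ (bmp 0 Λ) (pr x) (pr (M.N x)) :=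
  ((hg.comp (by fun_prop : Continuous fun x : E => x 2)).measurable.mul (meas_two M).neg).mul
    (meas_flux M (contDiff_one_bmp 0 Λ))

theorem norm_L (M : Surf) (Λ : ℝ) {g : ℝ → ℝ} (h1 : ∀ t, |g t| ≤ 1) (x : E) :
    ‖g (x 2) * (-(M.N x 2)) * fderiv ℝ (bmp 0 Λ) (pr x) (pr (M.N x))‖
      ≤ ‖fderiv ℝ (bmp 0 Λ) (pr x) (pr (M.N x)) * |M.N x 2|‖ := by
  rw [Real.norm_eq_abs, Real.norm_eq_abs, abs_mul, abs_mul, abs_mul, abs_neg, abs_abs]
  calc |g (x 2)| * |M.N x 2| * |fderiv ℝ (bmp 0 Λ) (pr x) (pr (M.N x))|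
      ≤ 1 * |M.N x 2| * |fderiv ℝ (bmp 0 Λ) (pr x) (pr (M.N x))| := by
        gcongr
        exact h1 _
    _ = _ := by ring

theorem int_L {M : Surf} (hM : M.Mem) {Λ : ℝ} (hΛ : 0 < Λ) (T : ℝ) {g : ℝ → ℝ}
    (hg : Continuous g) (h1 : ∀ t, |g t| ≤ 1) :
    IntegrableOn (fun x => g (x 2) * (-(M.N x 2)) * fderiv ℝ (bmp 0 Λ) (pr x) (pr (M.N x)))
      (lay T) M.μ :=
  Integrable.mono (hM.integrableOn_flux T (contDiff_one_bmp 0 Λ) (hasCompactSupport_bmp 0 hΛ))
    (meas_L M Λ hg).aestronglyMeasurable (Eventually.of_forall (norm_L M Λ h1))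

/-- The cutoff in the height. -/
def gg (a e t : ℝ) : ℝ := Real.smoothTransition ((a - t) / e)

theorem contDiff_gg (a e : ℝ) : ContDiff ℝ 1 (gg a e) :=
  Real.smoothTransition.contDiff.comp ((contDiff_const.sub contDiff_id).div_const e)

theorem abs_gg (a e t : ℝ) : |gg a e t| ≤ 1 := by
  rw [gg, abs_of_nonneg (Real.smoothTransition.nonneg _)]
  exact Real.smoothTransition.le_one _

theorem gg_zero {a e t : ℝ} (he : 0 < e) (h : a ≤ t) : gg a e t = 0 :=
  Real.smoothTransition.zero_of_nonpos (div_nonpos_of_nonpos_of_nonneg (by linarith) he.le)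

theorem gg_one {a e t : ℝ} (he : 0 < e) (h : e ≤ a - t) : gg a e t = 1 :=
  Real.smoothTransition.one_of_one_le ((one_le_div he).2 h)

theorem deriv_gg {a e : ℝ} (he : 0 < e) (t : ℝ) : deriv (gg a e) t ≤ 0 := by
  have h : Antitone (gg a e) := fun s t hst =>
    Real.smoothTransition.monotone (div_le_div_of_nonneg_right (by linarith) he.le)
  exact h.deriv_nonpos

theorem tendsto_L {M : Surf} {a : ℝ} (hM : M.Mem) (hb : M.Bigraph e3 a) {Λ : ℝ} (hΛ : 0 < Λ)
    (T : ℝ) : Tendsto (fun n : ℕ => ∫ x in lay T, gg a (1 / ((n : ℝ) + 1)) (x 2) * (-(M.N x 2))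
      * fderiv ℝ (bmp 0 Λ) (pr x) (pr (M.N x)) ∂M.μ) atTop (𝓝 (M.FluxN T (bmp 0 Λ))) := by
  refine tendsto_integral_of_dominated_convergence
    (fun x => ‖fderiv ℝ (bmp 0 Λ) (pr x) (pr (M.N x)) * |M.N x 2|‖)
    (fun n => (meas_L M Λ (contDiff_gg _ _).continuous).aestronglyMeasurable)
    (hM.integrableOn_flux T (contDiff_one_bmp 0 Λ) (hasCompactSupport_bmp 0 hΛ)).norm
    (fun n => Eventually.of_forall (norm_L M Λ (abs_gg _ _))) ?_
  filter_upwards [ae_restrict_of_ae M.ae_mem] with x hx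
  refine tendsto_const_nhds.congr' ?_
  by_cases h : x 2 < a
  · have h1 : M.N x 2 < 0 := by
      have := hb.neg hx (by rwa [inner_e3])
      rwa [inner_e3] at this
    have h2 : ∀ᶠ n : ℕ in atTop, 1 / ((n : ℝ) + 1) < a - x 2 :=
      tendsto_one_div_add_atTop_nhds_zero_nat.eventually (gt_mem_nhds (by linarith))
    filter_upwards [h2] with n hn
    rw [gg_one (by positivity) hn.le, max_eq_left (by linarith)]
    ring
  · have h1 : 0 ≤ M.N x 2 := by
      rcases (not_lt.1 h).eq_or_lt with h2 | h2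
      · have := hb.zero x hx (by rw [inner_e3, h2])
        rw [inner_e3] at this
        exact this.ge
      · have := hb.pos x hx (by rwa [inner_e3])
        rw [inner_e3] at this
        exact this.le
    refine Eventually.of_forall fun n => ?_
    simp only
    rw [gg_zero (by positivity) (not_lt.1 h), max_eq_right (by linarith)]
    ring

/-- A frame with prescribed third vector whose first vector is vertical. -/
theorem exists_frame {ν : E} (hν : ‖ν‖ = 1) (h0 : ν 2 = 0) :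
    ∃ A : E ≃ₗᵢ[ℝ] E, A e3 = ν ∧ ∀ x, (prA A x).re = x 2 := by
  obtain ⟨A, hA1, hA2⟩ := exists_iso_pair norm_e3 hν (by rw [e3_inner, h0])
  obtain ⟨B, hB1, hB2⟩ := exists_iso_pair norm_ex norm_e3 (by rw [inner_e3]; rfl)
  refine ⟨B.symm.trans A, ?_, fun x => ?_⟩
  · rw [LinearIsometryEquiv.trans_apply, ← hB2, B.symm_apply_apply, hA2]
  · have h1 : (B.symm.trans A) ex = e3 := by
      rw [LinearIsometryEquiv.trans_apply]
      nth_rewrite 1 [← hB1]
      rw [B.symm_apply_apply, hA1]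
    change ((B.symm.trans A).symm x) 0 = x 2
    rw [← inner_ex, ← inner_e3, ← h1, ← (B.symm.trans A).inner_map_map,
      LinearIsometryEquiv.apply_symm_apply]

theorem rect {g : ℝ → ℝ} (hg : ContDiff ℝ 1 g) (hd : ∀ t, deriv g t ≤ 0) {a r : ℝ} (c : ℝ)
    (hr : 0 < r) (h0 : g a = 0) (h1 : g (a - r) = 1) :
    ∫⁻ y in {y : ℂ | y.re ∈ Ioc (a - r) a ∧ y.im ∈ Ioc (c - r) (c + r)},
      ENNReal.ofReal (-deriv g y.re) = ENNReal.ofReal (2 * r) := by
  have hc : Continuous (deriv g) := hg.continuous_deriv le_rfl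
  have hm : Measurable fun t => ENNReal.ofReal (-deriv g t) := hc.neg.measurable.ennreal_ofReal
  have h2 := Complex.volume_preserving_equiv_real_prod.setLIntegral_comp_preimage_emb
    Complex.measurableEquivRealProd.measurableEmbedding
    (fun q : ℝ × ℝ => ENNReal.ofReal (-deriv g q.1)) (Ioc (a - r) a ×ˢ Ioc (c - r) (c + r))
  have h3 : ∫⁻ t in Ioc (a - r) a, ENNReal.ofReal (-deriv g t) = 1 := by
    have hi : IntegrableOn (fun t => -deriv g t) (Ioc (a - r) a) :=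
      hc.neg.integrableOn_Icc.mono_set Ioc_subset_Icc_self
    rw [← ofReal_integral_eq_lintegral_ofReal hi
      (Eventually.of_forall fun t => neg_nonneg.2 (hd t)),
      ← intervalIntegral.integral_of_le (by linarith), intervalIntegral.integral_neg,
      intervalIntegral.integral_deriv_eq_sub (fun t _ => hg.differentiable one_ne_zero t)
        (hc.intervalIntegrable _ _), h0, h1]
    simp
  refine Eq.trans h2 ?_
  have hm2 : Measurable fun q : ℝ × ℝ => ENNReal.ofReal (-deriv g q.1) := hm.comp measurable_fst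
  rw [Measure.volume_eq_prod, ← Measure.prod_restrict, lintegral_prod _ hm2.aemeasurable]
  simp only [lintegral_const, Measure.restrict_apply MeasurableSet.univ, univ_inter,
    Real.volume_Ioc]
  rw [lintegral_mul_const _ hm, h3, one_mul]
  congr 1
  ring

theorem lower (hA : S_AREA) {M : Surf} (hM : M.Mem) {q : E} (hq : q ∈ M.S) (hN : M.N q 2 = 0) :
    ∃ r : ℝ, 0 < r ∧ ∀ Λ : ℝ, 2 * ‖q‖ + 2 ≤ Λ → ∀ g : ℝ → ℝ, ContDiff ℝ 1 g →
      (∀ t, deriv g t ≤ 0) → g (q 2) = 0 → g (q 2 - r) = 1 →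
      r ≤ -∫ x in lay (2 * Λ), bmp 0 Λ (pr x) * deriv g (x 2) * (1 - M.N x 2 ^ 2) ∂M.μ := by
  obtain ⟨ρ₀, hρ₀, -, hρN⟩ := M.basic_ball hq (by norm_num : (0 : ℝ) < 1 / 4)
  obtain ⟨ρ, hρ, hρ1, hρN⟩ : ∃ ρ : ℝ, 0 < ρ ∧ ρ ≤ 1 ∧
      ∀ z ∈ M.S ∩ ball q ρ, ‖M.N z - M.N q‖ ≤ 1 / 4 :=
    ⟨min ρ₀ 1, lt_min hρ₀ one_pos, min_le_right _ _, fun z hz =>
      hρN z ⟨hz.1, ball_subset_ball (min_le_left _ _) hz.2⟩⟩
  have hν := M.N_unit q hq
  obtain ⟨A, hA3, hAre⟩ := exists_frame hν hN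
  refine ⟨ρ / 4, by positivity, fun Λ hΛq g hg hd h0 h1 => ?_⟩
  have hq0 := norm_nonneg q
  have hΛ : 0 < Λ := by linarith
  have hc : Continuous (deriv g) := hg.continuous_deriv le_rfl
  have hGm : MeasurableSet (M.S ∩ ball q ρ) := M.measurableSet_S.inter measurableSet_ball
  have hfm : Measurable fun y : ℂ => ENNReal.ofReal (-deriv g y.re) :=
    (hc.neg.comp Complex.continuous_re).measurable.ennreal_ofReal
  have harea := ((hA M A).2.2 _ hGm inter_subset_left).2 _ hfm |>.1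
  have hsub : {y : ℂ | y.re ∈ Ioc (q 2 - ρ / 4) (q 2) ∧
      y.im ∈ Ioc ((prA A q).im - ρ / 4) ((prA A q).im + ρ / 4)} ⊆ prA A '' (M.S ∩ ball q ρ) := by
    rintro y ⟨⟨hy1, hy2⟩, hy3, hy4⟩
    have hn : ‖y - prA A q‖ < ρ / 2 := by
      refine (Complex.norm_le_abs_re_add_abs_im _).trans_lt ?_
      rw [Complex.sub_re, Complex.sub_im, hAre]
      have e1 : |y.re - q 2| < ρ / 4 := abs_lt.2 ⟨by linarith, by linarith⟩
      have e2 : |y.im - (prA A q).im| ≤ ρ / 4 := abs_le.2 ⟨by linarith, by linarith⟩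
      linarith
    have hw : ‖A (pt (y - prA A q) 0)‖ < ρ / 2 := by rwa [A.norm_map, norm_pt_zero]
    have hw0 : ⟪A (pt (y - prA A q) 0), M.N q⟫ = 0 := by
      rw [← hA3, A.inner_map_map, inner_e3, pt_two]
    obtain ⟨t, ht, hmem⟩ := M.cover_disc hq hν (by norm_num) (by norm_num) (hM.sub _) hρN hw0 hw
    refine ⟨_, ⟨hmem, ?_⟩, ?_⟩
    · rw [mem_ball_iff_norm, add_assoc, add_sub_cancel_left]
      refine (norm_add_le _ _).trans_lt ?_
      rw [norm_smul, hν, Real.norm_eq_abs]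
      linarith
    · rw [← hA3]
      simp only [prA, map_add, map_smul, LinearIsometryEquiv.symm_apply_apply, pr_add, pr_smul,
        pr_pt, pr_e3, smul_zero]
      ring
  have hI := int_R hM hΛ (2 * Λ) hg
  have hI2 : IntegrableOn
      (fun x => 2 * -(bmp 0 Λ (pr x) * deriv g (x 2) * (1 - M.N x 2 ^ 2))) (lay (2 * Λ)) M.μ :=
    hI.neg.const_mul 2
  have hpos : 0 ≤ᵐ[M.μ.restrict (lay (2 * Λ))]
      fun x => 2 * -(bmp 0 Λ (pr x) * deriv g (x 2) * (1 - M.N x 2 ^ 2)) := by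
    filter_upwards [ae_restrict_of_ae M.ae_mem] with x hx
    have e1 := bmp_nonneg 0 Λ (pr x)
    have e2 := neg_nonneg.2 (hd (x 2))
    have e3 := sub_nonneg.2 (sq_N_two M hx)
    have := mul_nonneg (mul_nonneg e1 e2) e3
    simp only [Pi.zero_apply]
    linarith
  have hGn : ∀ x ∈ M.S ∩ ball q ρ, ‖x‖ ≤ Λ / 2 := fun x hx => by
    have e1 : ‖x - q‖ < ρ := mem_ball_iff_norm.1 hx.2
    have e2 := norm_sub_norm_le x q
    linarith
  have hGl : M.S ∩ ball q ρ ⊆ lay (2 * Λ) := fun x hx => by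
    have e1 := hGn x hx
    have e2 := abs_two_le x
    change |x 2| < 2 * Λ
    linarith
  have key : ENNReal.ofReal (2 * (ρ / 4)) ≤ ENNReal.ofReal (∫ x in lay (2 * Λ),
      2 * -(bmp 0 Λ (pr x) * deriv g (x 2) * (1 - M.N x 2 ^ 2)) ∂M.μ) := by
    rw [← rect hg hd (prA A q).im (by positivity : 0 < ρ / 4) h0 h1,
      ofReal_integral_eq_lintegral_ofReal hI2 hpos]
    refine (lintegral_mono_set hsub).trans (harea.trans ?_)
    refine le_trans ?_ (lintegral_mono_set hGl)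
    refine setLIntegral_mono' hGm fun x hx => ?_
    have e2 := neg_nonneg.2 (hd (x 2))
    rw [hAre, ← ENNReal.ofReal_mul e2]
    refine ENNReal.ofReal_le_ofReal ?_
    have e1 : bmp 0 Λ (pr x) = 1 := bmp_eq_one hΛ (by
      rw [sub_zero]; exact (norm_pr_le x).trans (hGn x hx))
    have e4 : |⟪M.N x, A e3⟫| ≤ 1 := by
      refine (abs_real_inner_le_norm _ _).trans ?_
      rw [M.N_unit x hx.1, A.norm_map, norm_e3, one_mul]
    have e5 : |M.N x 2| ≤ 1 / 4 := by
      have := (abs_two_le (M.N x - M.N q)).trans (hρN x hx)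
      rwa [PiLp.sub_apply, hN, sub_zero] at this
    have e6 : M.N x 2 ^ 2 ≤ 1 / 2 := by
      rw [← sq_abs]
      nlinarith [abs_nonneg (M.N x 2)]
    rw [e1]
    nlinarith [mul_nonneg e2 (sub_nonneg.2 e4), mul_nonneg e2 (sub_nonneg.2 e6)]
  rw [ENNReal.ofReal_le_ofReal_iff (integral_nonneg_of_ae hpos), integral_const_mul,
    integral_neg] at key
  linarith

end DFLUXPOS

open DFLUXPOS in
theorem fluxpos_of (hFV : S_FV) (hA : S_AREA) : S_FLUXPOS := by
  intro M a hM hb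
  obtain ⟨q, hq, hqa⟩ := hb.ne
  have hN : M.N q 2 = 0 := by
    have := hb.zero q hq hqa
    rwa [inner_e3] at this
  rw [inner_e3] at hqa
  obtain ⟨r, hr, hlow⟩ := lower hA hM hq hN
  refine ⟨2 * ‖q‖ + 2, fun Λ hΛq hΛ hs => hr.trans_le ?_⟩
  refine ge_of_tendsto (tendsto_L hM hb hΛ (2 * Λ)) ?_
  have h2 : ∀ᶠ n : ℕ in atTop, 1 / ((n : ℝ) + 1) < r :=
    tendsto_one_div_add_atTop_nhds_zero_nat.eventually (gt_mem_nhds hr)
  filter_upwards [h2] with n hn
  have he : (0 : ℝ) < 1 / ((n : ℝ) + 1) := by positivity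
  have h3 := hlow Λ hΛq _ (contDiff_gg a _) (deriv_gg he) (gg_zero he hqa.ge)
    (gg_one he (by linarith))
  have h4 := fv hFV hM hΛ hs (contDiff_gg a (1 / ((n : ℝ) + 1)))
  rw [integral_add (int_R hM hΛ _ (contDiff_gg _ _))
    (int_L hM hΛ _ (contDiff_gg _ _).continuous (abs_gg _ _))] at h4
  linarith

end MW
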