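import Pool.Agent.P.MP_064970_gt.SDP

/-! D4, base point, size and weak equation of the cut off function. -/

open MeasureTheory Set Filter Topology Metric
open scoped RealInnerProductSpace ENNReal NNReal ComplexConjugate Real

noncomputable section

namespace MW

namespace GB

lemma mI2 : MeasurableSet I2 := measurableSet_Icc

lemma vol_I2 : volume.real I2 = 4 := by
  unfold I2
  rw [Real.volume_real_Icc_of_le (by norm_num)]
  norm_num

lemma vol_I2_ne : volume I2 ≠ ∞ := by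
  unfold I2
  simp

lemma real_diff_le {V : Set ℝ} {κ : ℝ} (hκ : 0 ≤ κ) (cV : volume (I2 \ V) ≤ ENNReal.ofReal κ) :
    volume.real (I2 \ V) ≤ κ :=
  ENNReal.toReal_le_of_le_ofReal hκ cV

/-- Chebyshev: a point of `V ∩ I2` where `e` is at most one. -/
lemma cheb {V : Set ℝ} {e : ℝ → ℝ} {κ : ℝ} (mV : MeasurableSet V) (hκ : 0 ≤ κ) (hκ1 : κ ≤ 1)
    (cV : volume (I2 \ V) ≤ ENNReal.ofReal κ) (e0 : ∀ s, 0 ≤ e s) (ei : IntegrableOn e I2)
    (ele : ∫ s in I2, e s ≤ 1) : ∃ s ∈ V ∩ I2, e s ≤ 1 := by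
  by_contra hcon
  push Not at hcon
  have hm : MeasurableSet (I2 ∩ V) := mI2.inter mV
  have hfin : volume (I2 ∩ V) ≠ ∞ := measure_ne_top_of_subset inter_subset_left vol_I2_ne
  have h1 : volume.real (I2 ∩ V) + volume.real (I2 \ V) = volume.real I2 :=
    measureReal_inter_add_sdiff mV vol_I2_ne
  have h2 := real_diff_le hκ cV
  have h3 : ∫ s in I2 ∩ V, (1 : ℝ) ≤ ∫ s in I2 ∩ V, e s := by
    refine setIntegral_mono_on (integrableOn_const hfin) (ei.mono_set inter_subset_left) hm ?_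
    intro s hs
    exact (hcon s ⟨hs.2, hs.1⟩).le
  have h4 : ∫ s in I2 ∩ V, e s ≤ ∫ s in I2, e s :=
    setIntegral_mono_set ei (Eventually.of_forall fun s => e0 s)
      (LE.le.eventuallyLE inter_subset_left)
  rw [setIntegral_const, smul_eq_mul, mul_one] at h3
  rw [vol_I2] at h1
  linarith

lemma abs_sub_le_four {s s' : ℝ} (hs : s ∈ I2) (hs' : s' ∈ I2) : |s - s'| ≤ 4 := by
  obtain ⟨h1, h2⟩ := hs
  obtain ⟨h3, h4⟩ := hs'
  rw [abs_le]
  constructor <;> linarith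

lemma exists_base {a : ℂ → ℝ} {V H : Set ℝ} {ev eh : ℝ → ℝ} {κ : ℝ}
    (G : GridData a V H ev eh κ) (hκ1 : κ ≤ 1) : ∃ c : ℝ, GridBase a V H ev eh c := by
  obtain ⟨s₀, hs₀, es₀⟩ := cheb G.mV G.κ_nonneg hκ1 G.cV G.ev_nonneg G.ev_int G.ev_le
  obtain ⟨t₀, ht₀, et₀⟩ := cheb G.mH G.κ_nonneg hκ1 G.cH G.eh_nonneg G.eh_int G.eh_le
  refine ⟨a ⟨s₀, t₀⟩, ?_, ?_⟩
  · intro t ht s hs
    have h1 := G.hor t ht s hs s₀ hs₀.2
    have h2 := G.ver s₀ hs₀ t ht.2 t₀ ht₀.2
    have h3 : |s - s₀| * eh t ≤ 4 * eh t :=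
      mul_le_mul_of_nonneg_right (abs_sub_le_four hs hs₀.2) (G.eh_nonneg t)
    have h4 : |t - t₀| * ev s₀ ≤ 4 * ev s₀ :=
      mul_le_mul_of_nonneg_right (abs_sub_le_four ht.2 ht₀.2) (G.ev_nonneg s₀)
    nlinarith [sq_nonneg ((a ⟨s, t⟩ - a ⟨s₀, t⟩) - (a ⟨s₀, t⟩ - a ⟨s₀, t₀⟩))]
  · intro s hs t ht
    have h1 := G.ver s hs t ht t₀ ht₀.2
    have h2 := G.hor t₀ ht₀ s hs.2 s₀ hs₀.2
    have h3 : |t - t₀| * ev s ≤ 4 * ev s :=
      mul_le_mul_of_nonneg_right (abs_sub_le_four ht ht₀.2) (G.ev_nonneg s)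
    have h4 : |s - s₀| * eh t₀ ≤ 4 * eh t₀ :=
      mul_le_mul_of_nonneg_right (abs_sub_le_four hs.2 hs₀.2) (G.eh_nonneg t₀)
    nlinarith [sq_nonneg ((a ⟨s, t⟩ - a ⟨s, t₀⟩) - (a ⟨s, t₀⟩ - a ⟨s₀, t₀⟩))]

/-- Transport of the integral to the product of two lines. -/
lemma integral_eq_prod (g : ℂ → ℝ) :
    ∫ y, g y = ∫ p : ℝ × ℝ, g ⟨p.1, p.2⟩ ∂(volume.prod volume) := by
  have h := Complex.volume_preserving_equiv_real_prod.symm
  have := h.integral_comp (Complex.measurableEquivRealProd.symm.measurableEmbedding) g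
  rw [← this]
  rfl

lemma integrable_prod {g : ℂ → ℝ} (hg : Integrable g) :
    Integrable (fun p : ℝ × ℝ => g ⟨p.1, p.2⟩) (volume.prod volume) := by
  have h := Complex.volume_preserving_equiv_real_prod.symm
  exact (h.integrable_comp_emb (Complex.measurableEquivRealProd.symm.measurableEmbedding)).2 hg

/-- A bound by a product function. -/
lemma prodBound {g : ℂ → ℝ} {u w : ℝ → ℝ} (hu : Integrable u) (hw : Integrable w)
    (hg : ∀ y, |g y| ≤ u y.re * w y.im) : |∫ y, g y| ≤ (∫ s, u s) * ∫ t, w t := by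
  rw [integral_eq_prod, ← integral_prod_mul, ← Real.norm_eq_abs]
  refine norm_integral_le_of_norm_le (hu.mul_prod hw) (Eventually.of_forall fun p => ?_)
  rw [Real.norm_eq_abs]
  exact hg ⟨p.1, p.2⟩

/-- The majorant on a line. -/
def maj (e : ℝ → ℝ) : ℝ → ℝ := I2.indicator fun t => 4 * e t + 13 / 2

lemma maj_int {e : ℝ → ℝ} (ei : IntegrableOn e I2) : Integrable (maj e) := by
  unfold maj
  rw [integrable_indicator_iff mI2]
  exact (ei.const_mul 4).add (integrableOn_const vol_I2_ne)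

lemma maj_nonneg {e : ℝ → ℝ} (e0 : ∀ s, 0 ≤ e s) (t : ℝ) : 0 ≤ maj e t := by
  unfold maj
  refine indicator_nonneg (fun s _ => ?_) t
  have := e0 s
  linarith

lemma maj_le {e : ℝ → ℝ} (ei : IntegrableOn e I2) (ele : ∫ s in I2, e s ≤ 1) :
    ∫ t, maj e t ≤ 30 := by
  unfold maj
  rw [integral_indicator mI2, integral_add (ei.const_mul 4) (integrableOn_const vol_I2_ne),
    integral_const_mul, setIntegral_const, vol_I2, smul_eq_mul]
  linarith

lemma abs_le_maj {x : ℝ} {e : ℝ → ℝ} {t : ℝ} (ht : t ∈ I2) (h : x ^ 2 ≤ 8 * e t + 12) :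
    |x| ≤ maj e t := by
  unfold maj
  rw [indicator_of_mem ht]
  have h1 : |x| ^ 2 = x ^ 2 := sq_abs x
  nlinarith [sq_nonneg (|x| - 1)]

lemma mem_I2_re {y : ℂ} (hy : y ∈ Sq 2) : y.re ∈ I2 := abs_le.1 hy.1

lemma mem_I2_im {y : ℂ} (hy : y ∈ Sq 2) : y.im ∈ I2 := abs_le.1 hy.2

lemma ind_int {S : Set ℝ} (hS : MeasurableSet S) (hfin : volume S ≠ ∞) (m : ℝ) :
    Integrable (S.indicator fun _ => m) := by
  rw [integrable_indicator_iff hS]
  exact integrableOn_const hfin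

lemma ind_integral {S : Set ℝ} (hS : MeasurableSet S) (m : ℝ) :
    ∫ s, (S.indicator fun _ => m) s = volume.real S * m := by
  rw [integral_indicator hS, setIntegral_const, smul_eq_mul]

lemma size {a : ℂ → ℝ} {V H : Set ℝ} {ev eh : ℝ → ℝ} {κ c : ℝ}
    (G : GridData a V H ev eh κ) (B : GridBase a V H ev eh c) :
    ∫ y, |gA a V H c y| ≤ 120 := by
  have h := prodBound (g := fun y => |gA a V H c y|) (ind_int mI2 vol_I2_ne 1)
    (maj_int G.eh_int) (fun y => by
      rw [abs_abs]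
      unfold gA
      by_cases hy : y ∈ {y : ℂ | y ∈ Sq 2 ∧ y.re ∈ V ∧ y.im ∈ H}
      · rw [indicator_of_mem hy, indicator_of_mem (mem_I2_re hy.1), one_mul]
        exact abs_le_maj (mem_I2_im hy.1)
          (B.hor y.im ⟨hy.2.2, mem_I2_im hy.1⟩ y.re (mem_I2_re hy.1))
      · rw [indicator_of_notMem hy, abs_zero]
        exact mul_nonneg (indicator_nonneg (fun _ _ => zero_le_one) _) (maj_nonneg G.eh_nonneg _))
  rw [ind_integral mI2, vol_I2] at h
  have h2 := maj_le G.eh_int G.eh_le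
  have h3 := le_abs_self (∫ y, |gA a V H c y|)
  linarith

/-- Vanishing outside the closed disc of radius two. -/
def Van (w : ℂ → ℝ) : Prop := ∀ y, 2 < ‖y‖ → w y = 0

lemma Van.deriv {w : ℂ → ℝ} (hw : Van w) (v : ℂ) : Van fun y => fderiv ℝ w y v := by
  intro y hy
  have hop : IsOpen {y : ℂ | 2 < ‖y‖} := isOpen_lt continuous_const continuous_norm
  have hev : w =ᶠ[𝓝 y] fun _ => 0 := by
    filter_upwards [hop.mem_nhds hy] with x hx using hw x hx
  show fderiv ℝ w y v = 0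
  rw [hev.fderiv_eq]
  simp

lemma Van.compact {w : ℂ → ℝ} (hw : Van w) : HasCompactSupport w := by
  refine HasCompactSupport.intro (isCompact_closedBall (0 : ℂ) 2) fun y hy => hw y ?_
  simpa using hy

lemma Van.mul {w : ℂ → ℝ} (hw : Van w) (f : ℂ → ℝ) : Van fun y => f y * w y := by
  intro y hy
  show f y * w y = 0
  rw [hw y hy, mul_zero]

lemma Van.int {w : ℂ → ℝ} (hw : Van w) (hc : Continuous w) : Integrable w :=
  hc.integrable_of_hasCompactSupport hw.compact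

lemma Van.zero_of_not_mem {w : ℂ → ℝ} (hw : Van w) {y : ℂ} (hy : y ∉ Sq 2) : w y = 0 := by
  apply hw
  by_contra hcon
  push Not at hcon
  exact hy ⟨(Complex.abs_re_le_norm y).trans hcon, (Complex.abs_im_le_norm y).trans hcon⟩

lemma line_int {w : ℂ → ℝ} (hw : Van w) (hc : Continuous w) {l : ℝ → ℂ} (hl : Continuous l)
    (hn : ∀ s, |s| ≤ ‖l s‖) : Integrable fun s => w (l s) := by
  refine (hc.comp hl).integrable_of_hasCompactSupport ?_
  refine HasCompactSupport.intro (isCompact_closedBall (0 : ℝ) 2) fun s hs => hw _ ?_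
  have : 2 < |s| := by simpa using hs
  exact this.trans_le (hn s)

/-- The fundamental theorem of calculus on a line. -/
lemma line_zero {w : ℂ → ℝ} (hw : Van w) (hd : ContDiff ℝ 1 w) (b v : ℂ)
    (hn : ∀ s : ℝ, |s| ≤ ‖b + s • v‖) : ∫ s : ℝ, fderiv ℝ w (b + s • v) v = 0 := by
  have hl : Continuous fun s : ℝ => b + s • v := by fun_prop
  have hc : Continuous fun y => fderiv ℝ w y v :=
    (hd.continuous_fderiv (by norm_num)).clm_apply continuous_const
  refine integral_eq_zero_of_hasDerivAt_of_integrable (f := fun s : ℝ => w (b + s • v))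
    (fun s => ?_) (line_int (hw.deriv v) hc hl hn) (line_int hw hd.continuous hl hn)
  have h1 : HasDerivAt (fun s : ℝ => b + s • v) v s := by
    simpa using ((hasDerivAt_id s).smul_const v).const_add b
  exact ((hd.differentiable (by norm_num) _).hasFDerivAt).comp_hasDerivAt s h1

lemma mk_eq_hor (s t : ℝ) : (⟨s, t⟩ : ℂ) = (⟨0, t⟩ : ℂ) + s • (1 : ℂ) := by
  apply Complex.ext <;> simp

lemma mk_eq_ver (s t : ℝ) : (⟨s, t⟩ : ℂ) = (⟨s, 0⟩ : ℂ) + t • Complex.I := by
  apply Complex.ext <;> simp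

lemma mH_set {H : Set ℝ} (mH : MeasurableSet H) : MeasurableSet {y : ℂ | y.im ∈ H} :=
  Complex.measurable_im mH

lemma mV_set {V : Set ℝ} (mV : MeasurableSet V) : MeasurableSet {y : ℂ | y.re ∈ V} :=
  Complex.measurable_re mV

lemma hor_zero {w : ℂ → ℝ} (hw : Van w) (hd : ContDiff ℝ 1 w) {H : Set ℝ} (mH : MeasurableSet H) :
    ∫ y in {y : ℂ | y.im ∈ H}, p1 w y = 0 := by
  have hc : Continuous (p1 w) := (hd.continuous_fderiv (by norm_num)).clm_apply continuous_const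
  have hi : Integrable (p1 w) := (hw.deriv 1).int hc
  rw [← integral_indicator (mH_set mH), integral_eq_prod,
    integral_prod_symm _ (integrable_prod (hi.indicator (mH_set mH)))]
  refine integral_eq_zero_of_ae (Eventually.of_forall fun t => ?_)
  show ∫ s : ℝ, ({y : ℂ | y.im ∈ H}.indicator (p1 w)) ⟨s, t⟩ = 0
  by_cases ht : t ∈ H
  · have h := line_zero hw hd ⟨0, t⟩ 1 (fun s => by
      rw [← mk_eq_hor]
      exact Complex.abs_re_le_norm ⟨s, t⟩)
    rw [← h]
    refine integral_congr_ae (Eventually.of_forall fun s => ?_)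
    have hm : (⟨s, t⟩ : ℂ) ∈ {y : ℂ | y.im ∈ H} := ht
    show ({y : ℂ | y.im ∈ H}.indicator (p1 w)) ⟨s, t⟩ = fderiv ℝ w ((⟨0, t⟩ : ℂ) + s • (1 : ℂ)) 1
    rw [indicator_of_mem hm, ← mk_eq_hor]
    rfl
  · refine integral_eq_zero_of_ae (Eventually.of_forall fun s => ?_)
    have hm : (⟨s, t⟩ : ℂ) ∉ {y : ℂ | y.im ∈ H} := ht
    exact indicator_of_notMem hm _

lemma ver_zero {w : ℂ → ℝ} (hw : Van w) (hd : ContDiff ℝ 1 w) {V : Set ℝ} (mV : MeasurableSet V) :
    ∫ y in {y : ℂ | y.re ∈ V}, p2 w y = 0 := by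
  have hc : Continuous (p2 w) := (hd.continuous_fderiv (by norm_num)).clm_apply continuous_const
  have hi : Integrable (p2 w) := (hw.deriv Complex.I).int hc
  rw [← integral_indicator (mV_set mV), integral_eq_prod,
    integral_prod _ (integrable_prod (hi.indicator (mV_set mV)))]
  refine integral_eq_zero_of_ae (Eventually.of_forall fun s => ?_)
  show ∫ t : ℝ, ({y : ℂ | y.re ∈ V}.indicator (p2 w)) ⟨s, t⟩ = 0
  by_cases hs : s ∈ V
  · have h := line_zero hw hd ⟨s, 0⟩ Complex.I (fun t => by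
      rw [← mk_eq_ver]
      exact Complex.abs_im_le_norm ⟨s, t⟩)
    rw [← h]
    refine integral_congr_ae (Eventually.of_forall fun t => ?_)
    have hm : (⟨s, t⟩ : ℂ) ∈ {y : ℂ | y.re ∈ V} := hs
    show ({y : ℂ | y.re ∈ V}.indicator (p2 w)) ⟨s, t⟩ =
      fderiv ℝ w ((⟨s, 0⟩ : ℂ) + t • Complex.I) Complex.I
    rw [indicator_of_mem hm, ← mk_eq_ver]
    rfl
  · refine integral_eq_zero_of_ae (Eventually.of_forall fun t => ?_)
    have hm : (⟨s, t⟩ : ℂ) ∉ {y : ℂ | y.re ∈ V} := hs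
    exact indicator_of_notMem hm _

lemma mSq : MeasurableSet (Sq 2) := by
  have h1 : IsClosed {y : ℂ | |y.re| ≤ 2} := isClosed_le (by fun_prop) continuous_const
  have h2 : IsClosed {y : ℂ | |y.im| ≤ 2} := isClosed_le (by fun_prop) continuous_const
  exact (h1.inter h2).measurableSet

lemma mGrid {V H : Set ℝ} (mV : MeasurableSet V) (mH : MeasurableSet H) :
    MeasurableSet {y : ℂ | y ∈ Sq 2 ∧ y.re ∈ V ∧ y.im ∈ H} :=
  mSq.inter ((mV_set mV).inter (mH_set mH))

lemma gA_mul (a : ℂ → ℝ) (V H : Set ℝ) (c : ℝ) (q : ℂ → ℝ) :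
    (fun y => gA a V H c y * q y) =
      {y : ℂ | y ∈ Sq 2 ∧ y.re ∈ V ∧ y.im ∈ H}.indicator fun y => (a y - c) * q y := by
  funext y
  unfold gA
  by_cases hy : y ∈ {y : ℂ | y ∈ Sq 2 ∧ y.re ∈ V ∧ y.im ∈ H}
  · rw [indicator_of_mem hy, indicator_of_mem hy]
  · rw [indicator_of_notMem hy, indicator_of_notMem hy, zero_mul]

lemma gA_mul_int {a : ℂ → ℝ} {V H : Set ℝ} (c : ℝ) {q : ℂ → ℝ} (ha : Continuous a)
    (mV : MeasurableSet V) (mH : MeasurableSet H) (hq : Van q) (hc : Continuous q) :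
    Integrable fun y => gA a V H c y * q y := by
  rw [gA_mul]
  exact ((hq.mul _).int ((ha.sub continuous_const).mul hc)).indicator (mGrid mV mH)

/-- Removing the constant from an integral over a set on which `q` has mean zero. -/
lemma shift {a q : ℂ → ℝ} {S : Set ℂ} (mS : MeasurableSet S) (c : ℝ) (ha : Continuous a)
    (hq : Van q) (hc : Continuous q) (h0 : ∫ y in S, q y = 0) :
    ∫ y in S, a y * q y = ∫ y, S.indicator (fun y => (a y - c) * q y) y := by
  rw [integral_indicator mS]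
  have h1 : IntegrableOn (fun y => a y * q y) S := ((hq.mul _).int (ha.mul hc)).integrableOn
  have h2 : IntegrableOn (fun y => c * q y) S :=
    ((hq.mul _).int (continuous_const.mul hc)).integrableOn
  have h3 : (fun y => (a y - c) * q y) = fun y => a y * q y - c * q y := by
    funext y
    ring
  rw [h3, integral_sub h1 h2, integral_const_mul, h0]
  ring

lemma hor_part {a : ℂ → ℝ} {V H : Set ℝ} {ev eh : ℝ → ℝ} {κ c m : ℝ} {q : ℂ → ℝ}
    (G : GridData a V H ev eh κ) (B : GridBase a V H ev eh c) (hq : Van q) (hc : Continuous q)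
    (hm : ∀ y, |q y| ≤ m) (h0 : ∫ y in {y : ℂ | y.im ∈ H}, q y = 0) :
    |(∫ y in {y : ℂ | y.im ∈ H}, a y * q y) - ∫ y, gA a V H c y * q y| ≤ 30 * κ * m := by
  have hm0 : 0 ≤ m := (abs_nonneg _).trans (hm 0)
  have hF : Integrable fun y => (a y - c) * q y :=
    (hq.mul _).int ((G.cont.sub continuous_const).mul hc)
  have mD : MeasurableSet (I2 \ V) := mI2.diff G.mV
  have fD : volume (I2 \ V) ≠ ∞ := measure_ne_top_of_subset sdiff_subset vol_I2_ne
  rw [shift (mH_set G.mH) c G.cont hq hc h0, gA_mul,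
    ← integral_sub (hF.indicator (mH_set G.mH)) (hF.indicator (mGrid G.mV G.mH))]
  refine (prodBound (ind_int mD fD m) (maj_int G.eh_int) (fun y => ?_)).trans ?_
  · have hpos : 0 ≤ ((I2 \ V).indicator fun _ => m) y.re * maj eh y.im :=
      mul_nonneg (indicator_nonneg (fun _ _ => hm0) _) (maj_nonneg G.eh_nonneg _)
    by_cases hH : y ∈ {y : ℂ | y.im ∈ H}
    · rw [indicator_of_mem hH]
      by_cases hG : y ∈ {y : ℂ | y ∈ Sq 2 ∧ y.re ∈ V ∧ y.im ∈ H}
      · rw [indicator_of_mem hG, sub_self, abs_zero]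
        exact hpos
      · rw [indicator_of_notMem hG, sub_zero]
        by_cases hS : y ∈ Sq 2
        · have hV : y.re ∈ I2 \ V := ⟨mem_I2_re hS, fun h => hG ⟨hS, h, hH⟩⟩
          rw [indicator_of_mem hV, abs_mul, mul_comm]
          exact mul_le_mul (hm y) (abs_le_maj (mem_I2_im hS)
            (B.hor y.im ⟨hH, mem_I2_im hS⟩ y.re (mem_I2_re hS))) (abs_nonneg _) hm0
        · rw [hq.zero_of_not_mem hS, mul_zero, abs_zero]
          exact hpos
    · have hG : y ∉ {y : ℂ | y ∈ Sq 2 ∧ y.re ∈ V ∧ y.im ∈ H} := fun h => hH h.2.2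
      rw [indicator_of_notMem hH, indicator_of_notMem hG, sub_self, abs_zero]
      exact hpos
  · rw [ind_integral mD]
    have h1 := real_diff_le G.κ_nonneg G.cV
    have h2 := maj_le G.eh_int G.eh_le
    have h3 : volume.real (I2 \ V) * m ≤ κ * m := mul_le_mul_of_nonneg_right h1 hm0
    have h4 : 0 ≤ ∫ t, maj eh t := integral_nonneg (maj_nonneg G.eh_nonneg)
    have h5 : 0 ≤ κ * m := mul_nonneg G.κ_nonneg hm0
    calc volume.real (I2 \ V) * m * ∫ t, maj eh t ≤ κ * m * 30 := mul_le_mul h3 h2 h4 h5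
      _ = 30 * κ * m := by ring

lemma ver_part {a : ℂ → ℝ} {V H : Set ℝ} {ev eh : ℝ → ℝ} {κ c m : ℝ} {q : ℂ → ℝ}
    (G : GridData a V H ev eh κ) (B : GridBase a V H ev eh c) (hq : Van q) (hc : Continuous q)
    (hm : ∀ y, |q y| ≤ m) (h0 : ∫ y in {y : ℂ | y.re ∈ V}, q y = 0) :
    |(∫ y in {y : ℂ | y.re ∈ V}, a y * q y) - ∫ y, gA a V H c y * q y| ≤ 30 * κ * m := by
  have hm0 : 0 ≤ m := (abs_nonneg _).trans (hm 0)
  have hF : Integrable fun y => (a y - c) * q y :=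
    (hq.mul _).int ((G.cont.sub continuous_const).mul hc)
  have mD : MeasurableSet (I2 \ H) := mI2.diff G.mH
  have fD : volume (I2 \ H) ≠ ∞ := measure_ne_top_of_subset sdiff_subset vol_I2_ne
  rw [shift (mV_set G.mV) c G.cont hq hc h0, gA_mul,
    ← integral_sub (hF.indicator (mV_set G.mV)) (hF.indicator (mGrid G.mV G.mH))]
  refine (prodBound (maj_int G.ev_int) (ind_int mD fD m) (fun y => ?_)).trans ?_
  · have hpos : 0 ≤ maj ev y.re * ((I2 \ H).indicator fun _ => m) y.im :=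
      mul_nonneg (maj_nonneg G.ev_nonneg _) (indicator_nonneg (fun _ _ => hm0) _)
    by_cases hV : y ∈ {y : ℂ | y.re ∈ V}
    · rw [indicator_of_mem hV]
      by_cases hG : y ∈ {y : ℂ | y ∈ Sq 2 ∧ y.re ∈ V ∧ y.im ∈ H}
      · rw [indicator_of_mem hG, sub_self, abs_zero]
        exact hpos
      · rw [indicator_of_notMem hG, sub_zero]
        by_cases hS : y ∈ Sq 2
        · have hH : y.im ∈ I2 \ H := ⟨mem_I2_im hS, fun h => hG ⟨hS, hV, h⟩⟩
          rw [indicator_of_mem hH, abs_mul]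
          exact mul_le_mul (abs_le_maj (mem_I2_re hS)
            (B.ver y.re ⟨hV, mem_I2_re hS⟩ y.im (mem_I2_im hS))) (hm y) (abs_nonneg _)
            (maj_nonneg G.ev_nonneg _)
        · rw [hq.zero_of_not_mem hS, mul_zero, abs_zero]
          exact hpos
    · have hG : y ∉ {y : ℂ | y ∈ Sq 2 ∧ y.re ∈ V ∧ y.im ∈ H} := fun h => hV h.2.1
      rw [indicator_of_notMem hV, indicator_of_notMem hG, sub_self, abs_zero]
      exact hpos
  · rw [ind_integral mD]
    have h1 := real_diff_le G.κ_nonneg G.cH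
    have h2 := maj_le G.ev_int G.ev_le
    have h3 : volume.real (I2 \ H) * m ≤ κ * m := mul_le_mul_of_nonneg_right h1 hm0
    have h4 : 0 ≤ volume.real (I2 \ H) * m := mul_nonneg measureReal_nonneg hm0
    calc (∫ t, maj ev t) * (volume.real (I2 \ H) * m) ≤ 30 * (κ * m) :=
          mul_le_mul h2 h3 h4 (by norm_num)
      _ = 30 * κ * m := by ring

lemma weak_eq {a : ℂ → ℝ} {V H : Set ℝ} {ev eh : ℝ → ℝ} {κ c : ℝ}
    (G : GridData a V H ev eh κ) (B : GridBase a V H ev eh c) (z : ℂ → ℝ) (m : ℝ)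
    (T : Test z m) :
    |∫ y, gA a V H c y * (p1 (p1 z) y + p2 (p2 z) y)| ≤ 120 * κ * m := by
  have hm0 : 0 ≤ m := (abs_nonneg _).trans (T.b1 0)
  have hz : Van z := fun y hy => T.supp y hy.le
  have hD : ContDiff ℝ 1 (fderiv ℝ z) := T.diff.fderiv_right (by norm_num)
  have d1 : ContDiff ℝ 1 (p1 z) := hD.clm_apply contDiff_const
  have d2 : ContDiff ℝ 1 (p2 z) := hD.clm_apply contDiff_const
  have v1 : Van (p1 z) := hz.deriv 1
  have v2 : Van (p2 z) := hz.deriv Complex.I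
  have v11 : Van (p1 (p1 z)) := v1.deriv 1
  have v22 : Van (p2 (p2 z)) := v2.deriv Complex.I
  have c11 : Continuous (p1 (p1 z)) :=
    (d1.continuous_fderiv (by norm_num)).clm_apply continuous_const
  have c22 : Continuous (p2 (p2 z)) :=
    (d2.continuous_fderiv (by norm_num)).clm_apply continuous_const
  have h1 := hor_part G B v11 c11 T.b11 (hor_zero v1 d1 G.mH)
  have h2 := ver_part G B v22 c22 T.b22 (ver_zero v2 d2 G.mV)
  have h3 := G.weak z m T
  have h4 : ∫ y, gA a V H c y * (p1 (p1 z) y + p2 (p2 z) y) =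
      (∫ y, gA a V H c y * p1 (p1 z) y) + ∫ y, gA a V H c y * p2 (p2 z) y := by
    rw [← integral_add (gA_mul_int c G.cont G.mV G.mH v11 c11)
      (gA_mul_int c G.cont G.mV G.mH v22 c22)]
    refine integral_congr_ae (Eventually.of_forall fun y => ?_)
    ring
  have h5 : 0 ≤ κ * m := mul_nonneg G.κ_nonneg hm0
  rw [h4]
  rw [abs_le] at h1 h2 h3 ⊢
  constructor <;> nlinarith [h1.1, h1.2, h2.1, h2.2, h3.1, h3.2]

end GB

theorem gb : S_GB := by
  refine ⟨120, by norm_num, fun a V H ev eh κ G hκ => ?_⟩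
  obtain ⟨c, B⟩ := GB.exists_base G hκ
  exact ⟨c, B, GB.size G B, GB.weak_eq G B⟩

end MW
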