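import Pool.Agent.P.MP_064970_gt.SDP

/-! D4, Jensen.
Hint: ρ h = lam (‖h‖^2/s^2)/s^2 has integral one (integral_lam), vanishes for ‖h‖ ≥ s;
A y - mean = ∫ ρ h (A y - A (y+h)) (integral_add_left_eq_self), its square is at most
∫ ρ h (A (y+h) - A y)^2 (Cauchy-Schwarz, or expand ∫ ρ (f - ∫ ρ f)^2 ≥ 0), then Fubini on B × ℂ. -/

open MeasureTheory Set Filter Topology Metric
open scoped RealInnerProductSpace ENNReal NNReal ComplexConjugate Real

noncomputable section

namespace MW

namespace GJ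

/-- The weight at scale `s`. -/
def rho (s : ℝ) (h : ℂ) : ℝ := lam (‖h‖ ^ 2 / s ^ 2) / s ^ 2

theorem rho_nonneg (s : ℝ) (h : ℂ) : 0 ≤ rho s h := div_nonneg (lam_nonneg _) (sq_nonneg _)

theorem rho_zero {s : ℝ} (hs : 0 < s) {h : ℂ} (hh : s ≤ ‖h‖) : rho s h = 0 := by
  rw [rho, dens_lam_zero hs hh, zero_div]

theorem rho_int {s : ℝ} (hs : 0 < s) : Integrable (rho s) := by
  have h := (integrable_lam 0 hs).div_const (s ^ 2)
  simp only [sub_zero] at h
  exact h

theorem rho_integral {s : ℝ} (hs : 0 < s) : ∫ h, rho s h = 1 := by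
  have h := integral_lam 0 hs
  simp only [sub_zero] at h
  unfold rho
  rw [integral_div, h, div_self (pow_ne_zero 2 hs.ne')]

theorem rho_meas (s : ℝ) : Measurable (rho s) :=
  (contDiff_lam.continuous.measurable.comp (by fun_prop)).div_const _

theorem int_mul {s D : ℝ} (hs : 0 < s) {f : ℂ → ℝ} (hf : Measurable f) (hD : ∀ h, |f h| ≤ D) :
    Integrable fun h => rho s h * f h :=
  (rho_int hs).mul_bdd hf.aestronglyMeasurable (c := D) (ae_of_all _ hD)

theorem jensen {s D : ℝ} (hs : 0 < s) {f : ℂ → ℝ} (hf : Measurable f) (hD : ∀ h, |f h| ≤ D) :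
    (∫ h, rho s h * f h) ^ 2 ≤ ∫ h, rho s h * f h ^ 2 := by
  obtain ⟨m, hm⟩ : ∃ m, m = ∫ h, rho s h * f h := ⟨_, rfl⟩
  have i1 := int_mul hs hf hD
  have i2 : Integrable fun h => rho s h * f h ^ 2 :=
    int_mul (D := D ^ 2) hs (hf.pow_const 2) fun h => by
      rw [abs_pow]
      exact pow_le_pow_left₀ (abs_nonneg _) (hD h) 2
  have i3 : Integrable fun h => rho s h * f h ^ 2 - 2 * m * (rho s h * f h) :=
    i2.sub (i1.const_mul _)
  have h0 : 0 ≤ ∫ h, (rho s h * f h ^ 2 - 2 * m * (rho s h * f h) + m ^ 2 * rho s h) := by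
    refine integral_nonneg fun h => ?_
    have h1 := mul_nonneg (rho_nonneg s h) (sq_nonneg (f h - m))
    simp only [Pi.zero_apply]
    linarith
  rw [integral_add i3 ((rho_int hs).const_mul _), integral_sub i2 (i1.const_mul _),
    integral_const_mul, integral_const_mul, rho_integral hs, ← hm] at h0
  rw [← hm]
  linarith

theorem mean_eq {s C : ℝ} (hs : 0 < s) {A : ℂ → ℝ} (hA : Measurable A) (hC : ∀ y, |A y| ≤ C)
    (y : ℂ) : A y - (∫ w, A w * lam (‖w - y‖ ^ 2 / s ^ 2)) / s ^ 2 =
      -∫ h, rho s h * (A (y + h) - A y) := by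
  have i1 : Integrable fun h => rho s h * A (y + h) :=
    int_mul hs (hA.comp (measurable_const_add y)) fun h => hC _
  have e1 : (∫ w, A w * lam (‖w - y‖ ^ 2 / s ^ 2)) / s ^ 2 = ∫ h, rho s h * A (y + h) := by
    rw [← integral_add_left_eq_self (fun w => A w * lam (‖w - y‖ ^ 2 / s ^ 2)) y, ← integral_div]
    refine integral_congr_ae (ae_of_all _ fun h => ?_)
    simp only [rho, add_sub_cancel_left]
    ring
  simp only [mul_sub]
  rw [e1, integral_sub i1 ((rho_int hs).mul_const _), integral_mul_const, rho_integral hs]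
  ring

end GJ

theorem gj : S_GJ := by
  intro A B s β C hA hC hB hBv hs hβ
  have : IsFiniteMeasure (volume.restrict B) := isFiniteMeasure_restrict.2 hBv.ne
  have hD : ∀ y h : ℂ, |A (y + h) - A y| ≤ C + C := fun y h =>
    (abs_sub _ _).trans (add_le_add (hC _) (hC _))
  have hG : Integrable (Function.uncurry fun y h : ℂ => GJ.rho s h * (A (y + h) - A y) ^ 2)
      ((volume.restrict B).prod volume) := by
    have h1 : Integrable (fun z : ℂ × ℂ => (C + C) ^ 2 * GJ.rho s z.2)
        ((volume.restrict B).prod volume) :=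
      (integrable_const ((C + C) ^ 2)).mul_prod (GJ.rho_int hs)
    refine h1.mono' ?_ (ae_of_all _ fun z => ?_)
    · exact (((GJ.rho_meas s).comp measurable_snd).mul
        (((hA.comp measurable_add).sub (hA.comp measurable_fst)).pow_const 2)).aestronglyMeasurable
    · have h2 : (A (z.1 + z.2) - A z.1) ^ 2 ≤ (C + C) ^ 2 := by
        rw [← sq_abs]
        exact pow_le_pow_left₀ (abs_nonneg _) (hD _ _) 2
      change ‖GJ.rho s z.2 * (A (z.1 + z.2) - A z.1) ^ 2‖ ≤ _
      rw [Real.norm_of_nonneg (mul_nonneg (GJ.rho_nonneg _ _) (sq_nonneg _)), mul_comm]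
      exact mul_le_mul_of_nonneg_right h2 (GJ.rho_nonneg _ _)
  calc ∫ y in B, (A y - (∫ w, A w * lam (‖w - y‖ ^ 2 / s ^ 2)) / s ^ 2) ^ 2
      ≤ ∫ y in B, ∫ h, GJ.rho s h * (A (y + h) - A y) ^ 2 := by
        refine integral_mono_of_nonneg (ae_of_all _ fun y => sq_nonneg _) hG.integral_prod_left
          (ae_of_all _ fun y => ?_)
        beta_reduce
        rw [GJ.mean_eq hs hA hC, neg_sq]
        exact GJ.jensen hs ((hA.comp (measurable_const_add y)).sub_const _) (hD y)
    _ = ∫ h, ∫ y in B, GJ.rho s h * (A (y + h) - A y) ^ 2 := integral_integral_swap hG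
    _ ≤ ∫ h, GJ.rho s h * β := by
        refine integral_mono hG.integral_prod_right ((GJ.rho_int hs).mul_const β) fun h => ?_
        beta_reduce
        rw [integral_const_mul]
        rcases le_total ‖h‖ s with h1 | h1
        · exact mul_le_mul_of_nonneg_left (hβ h h1) (GJ.rho_nonneg _ _)
        · rw [GJ.rho_zero hs h1, zero_mul, zero_mul]
    _ = β := by rw [integral_mul_const, GJ.rho_integral hs, one_mul]

end MW
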