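import Pool.Agent.P.MP_064970_gt.SDP

/-! From a Lipschitz function to grid data.
Hint: eh t = 2/σ^2 * ∫ s in I2, indicator Ro (fun y => p1 a y ^ 2) ⟨s,t⟩ (measurable: measurable_fderiv,
StronglyMeasurable.integral_prod_right; bounded since ‖fderiv a y‖ ≤ K everywhere, norm_fderiv_le_of_lipschitz).
On a line, f s = a ⟨s,t⟩ is K-Lipschitz, hence absolutely continuous
(LipschitzOnWith.absolutelyContinuousOnInterval, AbsolutelyContinuousOnInterval.integral_deriv_eq_sub and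
.integral_mul_deriv_eq_deriv_mul), |deriv f| ≤ K, and deriv f s = p1 a ⟨s,t⟩ when ⟨s,t⟩ ∈ Ro. So
|f s - f s'| ≤ ∫_{Ro} |p1 a| + K τ, square it with Cauchy-Schwarz and (x+y)^2 ≤ 2x^2 + 2y^2; 2 K^2 τ^2 ≤ κ σ^2.
Weak equation: on each line t ∈ H ∩ I2, ∫ f * p1 (p1 z) = -∫ deriv f * p1 z over I2 (p1 z vanishes for ‖y‖ ≥ 2), the part
off Ro is at most K τ m; Fubini (Complex.volume_preserving_equiv_real_prod). Prove the horizontal half as a lemma
and get the vertical half in the same way (or by the swap y ↦ ⟨y.im, y.re⟩). -/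

open MeasureTheory Set Filter Topology Metric
open scoped RealInnerProductSpace ENNReal NNReal ComplexConjugate Real

noncomputable section

namespace MW

namespace GLINE

lemma vol_I2 : volume I2 = ENNReal.ofReal 4 := by
  rw [I2, Real.volume_Icc]; norm_num

lemma meas_I2 : MeasurableSet I2 := measurableSet_Icc

lemma fin_sub {S : Set ℝ} (hS : S ⊆ I2) : volume S < ∞ :=
  lt_of_le_of_lt (measure_mono hS) (by rw [vol_I2]; exact ENNReal.ofReal_lt_top)

lemma bint {α : Type*} [MeasurableSpace α] {μ : Measure α} {S : Set α} (hS : μ S < ∞)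
    {u : α → ℝ} (hu : Measurable u) {C : ℝ} (hb : ∀ x, |u x| ≤ C) : IntegrableOn u S μ :=
  Measure.integrableOn_of_bounded hS.ne hu.aestronglyMeasurable (M := C)
    (Eventually.of_forall hb)

lemma ind_bd {α : Type*} {O : Set α} {u : α → ℝ} {C : ℝ} (hb : ∀ x, |u x| ≤ C) (x : α) :
    |O.indicator u x| ≤ C := by
  by_cases hx : x ∈ O
  · rw [indicator_of_mem hx]; exact hb x
  · rw [indicator_of_notMem hx, abs_zero]; exact (abs_nonneg _).trans (hb x)

/-- The part of an integral off `O`. -/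
lemma off {S O : Set ℝ} (hS : S ⊆ I2) (hO : MeasurableSet O) {w : ℝ → ℝ} {M τ : ℝ}
    (hw : ∀ x, |w x| ≤ M) (hτ : 0 ≤ τ)
    (hv : volume {s : ℝ | s ∈ I2 ∧ s ∉ O} ≤ ENNReal.ofReal τ) :
    |∫ x in S, Oᶜ.indicator w x| ≤ M * τ := by
  rw [setIntegral_indicator hO.compl]
  have h1 := norm_setIntegral_le_of_norm_le_const (μ := volume) (s := S ∩ Oᶜ) (f := w) (C := M)
    (fin_sub (inter_subset_left.trans hS)) fun x _ => hw x
  have h2 : volume.real (S ∩ Oᶜ) ≤ τ :=
    ENNReal.toReal_le_of_le_ofReal hτ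
      ((measure_mono fun x hx => (⟨hS hx.1, hx.2⟩ : x ∈ {s : ℝ | s ∈ I2 ∧ s ∉ O})).trans hv)
  exact h1.trans (mul_le_mul_of_nonneg_left h2 ((abs_nonneg _).trans (hw 0)))

/-- Cauchy-Schwarz on an interval. -/
lemma cs {u : ℝ → ℝ} (hu : Measurable u) {C : ℝ} (hb : ∀ x, |u x| ≤ C) {p q : ℝ} (hpq : p < q) :
    (∫ x in Ioc p q, u x) ^ 2 ≤ (q - p) * ∫ x in Ioc p q, u x ^ 2 := by
  have hfin : volume (Ioc p q) < ∞ := measure_Ioc_lt_top
  have hl : 0 < q - p := by linarith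
  have i1 := bint hfin hu hb
  have i2 : IntegrableOn (fun x => u x ^ 2) (Ioc p q) :=
    bint hfin (hu.pow_const 2) (C := C ^ 2) fun x => by
      rw [abs_pow]; exact pow_le_pow_left₀ (abs_nonneg _) (hb x) 2
  set X := ∫ x in Ioc p q, u x with hX
  have i3 : IntegrableOn (fun _ : ℝ => X ^ 2) (Ioc p q) := integrableOn_const hfin.ne
  have h1 : ∫ x in Ioc p q, 2 * X * (q - p) * u x
      ≤ ∫ x in Ioc p q, (X ^ 2 + (q - p) ^ 2 * u x ^ 2) :=
    integral_mono (i1.const_mul _) (i3.add (i2.const_mul _)) fun x => by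
      have := sq_nonneg (X - (q - p) * u x)
      simp only
      nlinarith
  rw [integral_const_mul, integral_add i3 (i2.const_mul _), integral_const_mul,
    setIntegral_const, Real.volume_real_Ioc_of_le hpq.le, ← hX, smul_eq_mul] at h1
  refine le_of_mul_le_mul_left ?_ hl
  nlinarith

lemma deriv_bd {f : ℝ → ℝ} {K : ℝ≥0} (hf : LipschitzWith K f) (x : ℝ) : |deriv f x| ≤ K := by
  have := norm_fderiv_le_of_lipschitz ℝ (x₀ := x) hf
  rwa [← norm_deriv_eq_norm_fderiv] at this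

/-- Oscillation on a line. -/
lemma osc {f g : ℝ → ℝ} {K : ℝ≥0} {O : Set ℝ} {τ : ℝ} (hf : LipschitzWith K f)
    (hO : MeasurableSet O) (hg : Measurable g) (hgb : ∀ x, |g x| ≤ K)
    (hd : ∀ x ∈ O, deriv f x = g x) (hτ : 0 ≤ τ)
    (hv : volume {s : ℝ | s ∈ I2 ∧ s ∉ O} ≤ ENNReal.ofReal τ) {p q : ℝ} (hp : p ∈ I2)
    (hq : q ∈ I2) :
    (f q - f p) ^ 2 ≤ |q - p| * (2 * ∫ x in I2, O.indicator (fun x => g x ^ 2) x)
      + 2 * (K * τ) ^ 2 := by
  wlog hpq : p < q generalizing p q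
  · rcases (not_lt.1 hpq).eq_or_lt with h | h
    · subst h; simp only [sub_self, abs_zero, zero_mul]; nlinarith [sq_nonneg ((K : ℝ) * τ)]
    · have := this hq hp h
      rw [abs_sub_comm]
      linarith [show (f q - f p) ^ 2 = (f p - f q) ^ 2 by ring]
  have hsub : Ioc p q ⊆ I2 := fun x hx => ⟨hp.1.trans hx.1.le, hx.2.trans hq.2⟩
  have hfin := fin_sub hsub
  have h1 := (hf.lipschitzOnWith (s := uIcc p q)).absolutelyContinuousOnInterval.integral_deriv_eq_sub
  rw [intervalIntegral.integral_of_le hpq.le] at h1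
  have e1 : deriv f = fun x => O.indicator g x + Oᶜ.indicator (deriv f) x := by
    funext x
    by_cases hx : x ∈ O
    · rw [indicator_of_mem hx, indicator_of_notMem (by simpa using hx), hd x hx, add_zero]
    · rw [indicator_of_notMem hx, indicator_of_mem (by simpa using hx), zero_add]
  have h2 : f q - f p = (∫ x in Ioc p q, O.indicator g x)
      + ∫ x in Ioc p q, Oᶜ.indicator (deriv f) x := by
    rw [← h1, ← integral_add (bint hfin (hg.indicator hO) (ind_bd hgb))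
      (bint hfin ((measurable_deriv f).indicator hO.compl) (ind_bd (deriv_bd hf))), ← e1]
  have h3 := off hsub hO (deriv_bd hf) hτ hv
  have h4 := cs (hg.indicator hO) (ind_bd (O := O) hgb) hpq
  have e2 : (fun x => O.indicator g x ^ 2) = O.indicator fun x => g x ^ 2 := by
    funext x
    by_cases hx : x ∈ O <;> simp [hx]
  have hb2 : ∀ x, |g x ^ 2| ≤ (K : ℝ) ^ 2 := fun x => by
    rw [abs_pow]; exact pow_le_pow_left₀ (abs_nonneg _) (hgb x) 2
  have h5 : ∫ x in Ioc p q, O.indicator g x ^ 2 ≤ ∫ x in I2, O.indicator (fun x => g x ^ 2) x := by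
    rw [e2]
    exact setIntegral_mono_set
      (bint (fin_sub subset_rfl) ((hg.pow_const 2).indicator hO) (ind_bd hb2))
      (Eventually.of_forall fun x => indicator_nonneg (fun y _ => sq_nonneg (g y)) x)
      hsub.eventuallyLE
  have h6 := mul_le_mul_of_nonneg_left h5 (show 0 ≤ q - p by linarith)
  have h7 := pow_le_pow_left₀ (abs_nonneg _) h3 2
  rw [sq_abs] at h7
  rw [h2, abs_of_pos (show 0 < q - p by linarith)]
  nlinarith [sq_nonneg ((∫ x in Ioc p q, O.indicator g x)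
    - ∫ x in Ioc p q, Oᶜ.indicator (deriv f) x)]

/-- Integration by parts on a line. -/
lemma ibp {f g φ : ℝ → ℝ} {K : ℝ≥0} {O : Set ℝ} {τ m : ℝ} (hf : LipschitzWith K f)
    (hO : MeasurableSet O) (hd : ∀ x ∈ O, deriv f x = g x) (hτ : 0 ≤ τ)
    (hv : volume {s : ℝ | s ∈ I2 ∧ s ∉ O} ≤ ENNReal.ofReal τ) (hφ : ContDiff ℝ 1 φ)
    (h2 : φ 2 = 0) (h2' : φ (-2) = 0) (hm : ∀ x, |φ x| ≤ m) :
    |∫ x in I2, (f x * deriv φ x + O.indicator (fun x => g x * φ x) x)| ≤ K * m * τ := by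
  have af := (hf.lipschitzOnWith (s := uIcc (-2) 2)).absolutelyContinuousOnInterval
  have aφ := (hφ.contDiffOn (s := uIcc (-2) 2)).absolutelyContinuousOnInterval
  have h1 := af.integral_deriv_mul_eq_sub aφ
  have i1 := (af.intervalIntegrable_deriv.mul_continuousOn aφ.continuousOn).add
    (aφ.intervalIntegrable_deriv.continuousOn_mul af.continuousOn)
  rw [intervalIntegrable_iff_integrableOn_Icc_of_le (by norm_num)] at i1
  rw [intervalIntegral.integral_of_le (by norm_num), ← integral_Icc_eq_integral_Ioc, h2, h2',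
    mul_zero, mul_zero, sub_zero] at h1
  have hb : ∀ x, |deriv f x * φ x| ≤ K * m := fun x => by
    rw [abs_mul]; exact mul_le_mul (deriv_bd hf x) (hm x) (abs_nonneg _) K.2
  have i2 : IntegrableOn (Oᶜ.indicator fun x => deriv f x * φ x) I2 :=
    bint (fin_sub subset_rfl)
      (((measurable_deriv f).mul hφ.continuous.measurable).indicator hO.compl) (ind_bd hb)
  have e1 : (fun x => f x * deriv φ x + O.indicator (fun x => g x * φ x) x)
      = fun x => (deriv f x * φ x + f x * deriv φ x)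
        - Oᶜ.indicator (fun x => deriv f x * φ x) x := by
    funext x
    by_cases hx : x ∈ O
    · rw [indicator_of_mem hx, indicator_of_notMem (by simpa using hx), hd x hx]; ring
    · rw [indicator_of_notMem hx, indicator_of_mem (by simpa using hx)]; ring
  have e2 : ∫ x in I2, (deriv f x * φ x + f x * deriv φ x) = 0 := h1
  have i1' : IntegrableOn (fun x => deriv f x * φ x + f x * deriv φ x) I2 := i1
  rw [e1, integral_sub i1' i2, e2, zero_sub, abs_neg]
  exact off subset_rfl hO hb hτ hv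

/-- A family of parallel lines `L t` of direction `v`, `c` is the transverse coordinate. -/
structure Dir (L : ℝ → ℝ → ℂ) (v : ℂ) (c : ℂ → ℝ) : Prop where
  der : ∀ t s, HasDerivAt (L t) v s
  cd : ∀ t, ContDiff ℝ 1 (L t)
  nv : ‖v‖ = 1
  iso : ∀ t, LipschitzWith 1 (L t)
  mp : MeasurePreserving (fun p : ℝ × ℝ => L p.1 p.2) (volume.prod volume) volume
  emb : MeasurableEmbedding fun p : ℝ × ℝ => L p.1 p.2
  sq : ∀ t s, L t s ∈ Sq 2 ↔ t ∈ I2 ∧ s ∈ I2
  co : ∀ t s, c (L t s) = t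
  cm : Measurable c
  csq : ∀ y ∈ Sq 2, c y ∈ I2
  nrm : ∀ t s, |s| ≤ ‖L t s‖

lemma dir_ver : Dir (fun s t => (⟨s, t⟩ : ℂ)) Complex.I Complex.re := by
  have e : ∀ s : ℝ, (fun t : ℝ => (⟨s, t⟩ : ℂ)) = fun t : ℝ => (s : ℂ) + (t : ℂ) * Complex.I := by
    intro s; funext t; apply Complex.ext <;> simp
  refine ⟨fun s t => ?_, fun s => ?_, Complex.norm_I, fun s => ?_,
    Complex.volume_preserving_equiv_real_prod.symm,
    Complex.measurableEquivRealProd.symm.measurableEmbedding, fun s t => ?_, fun _ _ => rfl,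
    Complex.measurable_re, fun y hy => abs_le.1 hy.1, fun s t => Complex.abs_im_le_norm ⟨s, t⟩⟩
  · rw [e]
    simpa using ((Complex.ofRealCLM.hasDerivAt (x := t)).mul_const Complex.I).const_add (s : ℂ)
  · rw [e]
    exact contDiff_const.add (Complex.ofRealCLM.contDiff.mul contDiff_const)
  · rw [e]
    refine LipschitzWith.of_dist_le_mul fun x y => ?_
    rw [dist_add_left, dist_eq_norm, ← sub_mul, ← Complex.ofReal_sub]
    simp [Real.dist_eq, ← Complex.ofReal_sub]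
  · simp only [Sq, I2, mem_setOf_eq, mem_Icc, abs_le]

lemma dir_hor : Dir (fun t s => (⟨s, t⟩ : ℂ)) 1 Complex.im := by
  have e : ∀ t : ℝ, (fun s : ℝ => (⟨s, t⟩ : ℂ)) = fun s : ℝ => (s : ℂ) + (t : ℂ) * Complex.I := by
    intro t; funext s; apply Complex.ext <;> simp
  refine ⟨fun t s => ?_, fun t => ?_, norm_one, fun t => ?_,
    dir_ver.mp.comp Measure.measurePreserving_swap,
    dir_ver.emb.comp MeasurableEquiv.prodComm.measurableEmbedding, fun t s => ?_, fun _ _ => rfl,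
    Complex.measurable_im, fun y hy => abs_le.1 hy.2, fun t s => Complex.abs_re_le_norm ⟨s, t⟩⟩
  · rw [e]
    simpa using (Complex.ofRealCLM.hasDerivAt (x := s)).add_const ((t : ℂ) * Complex.I)
  · rw [e]
    exact Complex.ofRealCLM.contDiff.add contDiff_const
  · rw [e]
    refine LipschitzWith.of_dist_le_mul fun x y => ?_
    rw [dist_add_right, dist_eq_norm, ← Complex.ofReal_sub]
    simp [Real.dist_eq, ← Complex.ofReal_sub]
  · simp only [Sq, I2, mem_setOf_eq, mem_Icc, abs_le]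
    tauto

lemma sq_sub : Sq 2 ⊆ closedBall (0 : ℂ) 4 := fun y hy => by
  rw [mem_closedBall_zero_iff]
  linarith [Complex.norm_le_abs_re_add_abs_im y, hy.1, hy.2]

lemma sq_fin : volume (Sq 2) < ∞ := lt_of_le_of_lt (measure_mono sq_sub) measure_closedBall_lt_top

lemma sq_meas : MeasurableSet (Sq 2) :=
  (measurableSet_le Complex.measurable_re.abs measurable_const).inter
    (measurableSet_le Complex.measurable_im.abs measurable_const)

lemma not_sq {y : ℂ} (hy : y ∉ Sq 2) : 2 ≤ ‖y‖ := by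
  by_contra h
  exact hy ⟨by linarith [Complex.abs_re_le_norm y], by linarith [Complex.abs_im_le_norm y]⟩

variable {L : ℝ → ℝ → ℂ} {v : ℂ} {c : ℂ → ℝ}

lemma Dir.fub (D : Dir L v c) {T : Set ℝ} (hT : T ⊆ I2) {u : ℂ → ℝ}
    (hu : IntegrableOn u (Sq 2)) :
    ∫ y in {y | c y ∈ T} ∩ Sq 2, u y = ∫ t in T, ∫ s in I2, u (L t s) := by
  have e : (fun p : ℝ × ℝ => L p.1 p.2) ⁻¹' ({y | c y ∈ T} ∩ Sq 2) = T ×ˢ I2 := by
    ext p
    simp only [mem_preimage, mem_inter_iff, mem_setOf_eq, D.co, D.sq, mem_prod]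
    exact ⟨fun h => ⟨h.1, h.2.2⟩, fun h => ⟨h.1, hT h.1, h.2⟩⟩
  have i := (D.mp.integrableOn_comp_preimage D.emb).2
    (hu.mono_set (inter_subset_right (s := {y | c y ∈ T})))
  rw [← D.mp.setIntegral_preimage_emb D.emb u, e]
  rw [e] at i
  exact setIntegral_prod _ i

/-- The derivative in the direction `v`. -/
def P (v : ℂ) (z : ℂ → ℝ) (y : ℂ) : ℝ := fderiv ℝ z y v

lemma P_meas (v : ℂ) (z : ℂ → ℝ) : Measurable (P v z) := measurable_fderiv_apply_const ℝ z v

lemma P_le (hv : ‖v‖ = 1) (z : ℂ → ℝ) (y : ℂ) : |P v z y| ≤ ‖fderiv ℝ z y‖ := by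
  have := (fderiv ℝ z y).le_opNorm v
  rwa [hv, mul_one] at this

lemma P_cd {z : ℂ → ℝ} (hz : ContDiff ℝ 2 z) : ContDiff ℝ 1 (P v z) :=
  (hz.fderiv_right (m := 1) (by norm_num)).clm_apply contDiff_const

lemma P_cont {z : ℂ → ℝ} (hz : ContDiff ℝ 1 z) : Continuous (P v z) :=
  (hz.continuous_fderiv (by norm_num)).clm_apply continuous_const

lemma P_zero {z : ℂ → ℝ} (hz : ContDiff ℝ 1 z) (h0 : ∀ y, 2 ≤ ‖y‖ → z y = 0) (y : ℂ)
    (hy : 2 ≤ ‖y‖) : P v z y = 0 := by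
  have h1 : (closedBall (0 : ℂ) 2)ᶜ ⊆ {y | P v z y = 0} := by
    intro w hw
    have : z =ᶠ[𝓝 w] fun _ => 0 := by
      filter_upwards [isClosed_closedBall.isOpen_compl.mem_nhds hw] with x hx
      refine h0 x (le_of_lt ?_)
      simpa using hx
    simp [P, this.fderiv_eq]
  have h2 := closure_minimal h1 (isClosed_eq (P_cont hz) continuous_const)
  rw [closure_compl, interior_closedBall _ (by norm_num)] at h2
  exact h2 (by simpa using hy)

lemma Dir.deriv_eq (D : Dir L v c) {z : ℂ → ℝ} {t s : ℝ} (hz : DifferentiableAt ℝ z (L t s)) :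
    deriv (fun s => z (L t s)) s = P v z (L t s) :=
  (hz.hasFDerivAt.comp_hasDerivAt s (D.der t s)).deriv

lemma Dir.weak (D : Dir L v c) {a : ℂ → ℝ} {K : ℝ≥0} {Ro : Set ℂ} {H : Set ℝ} {τ : ℝ}
    (ha : LipschitzWith K a) (hRo : IsOpen Ro) (hd : ∀ y ∈ Ro, DifferentiableAt ℝ a y)
    (hH : MeasurableSet H) (hτ : 0 ≤ τ)
    (hv : ∀ t ∈ H ∩ I2, volume {s : ℝ | s ∈ I2 ∧ L t s ∉ Ro} ≤ ENNReal.ofReal τ)
    {z : ℂ → ℝ} {m : ℝ} (hz : ContDiff ℝ 2 z) (h0 : ∀ y, 2 ≤ ‖y‖ → z y = 0)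
    (hm : ∀ y, |P v z y| ≤ m) :
    |(∫ y in {y | c y ∈ H}, a y * P v (P v z) y)
      + ∫ y in Ro ∩ {y | c y ∈ H}, P v a y * P v z y| ≤ K * m * τ * 4 := by
  have hz1 : ContDiff ℝ 1 z := hz.of_le (by norm_num)
  have z1 := P_zero (v := v) hz1 h0
  have z2 := P_zero (v := v) (P_cd hz) z1
  have hS : MeasurableSet {y | c y ∈ H} := D.cm hH
  have hsub : {y | c y ∈ H ∩ I2} ∩ Sq 2 ⊆ {y | c y ∈ H} := fun y hy => hy.1.1
  have hout : ∀ y ∈ {y | c y ∈ H} \ ({y | c y ∈ H ∩ I2} ∩ Sq 2), 2 ≤ ‖y‖ := fun y hy =>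
    not_sq fun h => hy.2 ⟨⟨hy.1, D.csq y h⟩, h⟩
  have haK : ∀ y, |P v a y| ≤ K := fun y =>
    (P_le D.nv a y).trans (norm_fderiv_le_of_lipschitz ℝ ha)
  have i1 : IntegrableOn (fun y => a y * P v (P v z) y) (Sq 2) :=
    ((ha.continuous.mul (P_cont (P_cd hz))).continuousOn.integrableOn_compact
      (isCompact_closedBall 0 4)).mono_set sq_sub
  have i2 : IntegrableOn (Ro.indicator fun y => P v a y * P v z y) (Sq 2) :=
    bint sq_fin (((P_meas v a).mul (P_meas v z)).indicator hRo.measurableSet) (C := K * m)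
      (ind_bd fun y => by rw [abs_mul]; exact mul_le_mul (haK y) (hm y) (abs_nonneg _) K.2)
  have e1 : ∫ y in {y | c y ∈ H}, a y * P v (P v z) y
      = ∫ y in {y | c y ∈ H ∩ I2} ∩ Sq 2, a y * P v (P v z) y :=
    setIntegral_eq_of_subset_of_forall_diff_eq_zero hS hsub fun y hy => by
      rw [z2 y (hout y hy), mul_zero]
  have e2 : ∫ y in Ro ∩ {y | c y ∈ H}, P v a y * P v z y
      = ∫ y in {y | c y ∈ H ∩ I2} ∩ Sq 2, Ro.indicator (fun y => P v a y * P v z y) y := by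
    rw [inter_comm, ← setIntegral_indicator hRo.measurableSet]
    refine setIntegral_eq_of_subset_of_forall_diff_eq_zero hS hsub fun y hy => ?_
    by_cases hyR : y ∈ Ro
    · rw [indicator_of_mem hyR, z1 y (hout y hy), mul_zero]
    · rw [indicator_of_notMem hyR]
  rw [e1, e2, ← integral_add (i1.mono_set inter_subset_right) (i2.mono_set inter_subset_right),
    D.fub (u := fun y => a y * P v (P v z) y + Ro.indicator (fun y => P v a y * P v z y) y)
      inter_subset_right (i1.add i2)]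
  have hm0 : 0 ≤ m := (abs_nonneg _).trans (hm 0)
  have h4 : volume.real (H ∩ I2) ≤ 4 :=
    ENNReal.toReal_le_of_le_ofReal (by norm_num)
      ((measure_mono inter_subset_right).trans vol_I2.le)
  rw [← Real.norm_eq_abs]
  refine (norm_setIntegral_le_of_norm_le_const (C := K * m * τ) (fin_sub inter_subset_right)
    fun t ht => ?_).trans (mul_le_mul_of_nonneg_left h4 (by positivity))
  have hf : LipschitzWith K fun s => a (L t s) := by
      simpa [Function.comp_def] using ha.comp (D.iso t)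
  have hO : MeasurableSet (L t ⁻¹' Ro) := (hRo.preimage (D.iso t).continuous).measurableSet
  have h1 := ibp (g := fun s => P v a (L t s)) (φ := fun s => P v z (L t s)) hf hO
    (fun s hs => D.deriv_eq (hd _ hs)) hτ (hv t ht) ((P_cd hz).comp (D.cd t))
    (z1 _ (by simpa using D.nrm t 2)) (z1 _ (by simpa using D.nrm t (-2))) fun s => hm _
  refine le_trans (le_of_eq ?_) h1
  rw [Real.norm_eq_abs]
  congr 2
  funext s
  rw [D.deriv_eq (((P_cd hz).differentiable (by norm_num)) _)]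
  rfl

lemma Dir.half (D : Dir L v c) {a : ℂ → ℝ} {K : ℝ≥0} {Ro : Set ℂ} {H : Set ℝ} {σ τ κ : ℝ}
    (ha : LipschitzWith K a) (hRo : IsOpen Ro) (hd : ∀ y ∈ Ro, DifferentiableAt ℝ a y)
    (hσ : 0 < σ) (hτ : 0 ≤ τ) (hκ : 0 ≤ κ) (hκ1 : κ ≤ 1) (hK : 16 * K * τ ≤ κ * σ)
    (hv : ∀ t ∈ H ∩ I2, volume {s : ℝ | s ∈ I2 ∧ L t s ∉ Ro} ≤ ENNReal.ofReal τ)
    (hE : ∫ y in Ro ∩ Sq 2, ‖fderiv ℝ a y‖ ^ 2 ≤ σ ^ 2 / 2) :
    ∃ e : ℝ → ℝ, Measurable e ∧ (∀ t, 0 ≤ e t) ∧ IntegrableOn e I2 ∧ ∫ t in I2, e t ≤ 1 ∧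
      ∀ t ∈ H ∩ I2, ∀ s ∈ I2, ∀ s' ∈ I2,
        (a (L t s) / σ - a (L t s') / σ) ^ 2 ≤ |s - s'| * e t + κ := by
  have haK' : ∀ y, ‖fderiv ℝ a y‖ ≤ K := fun y => norm_fderiv_le_of_lipschitz ℝ ha
  have haK : ∀ y, |P v a y| ≤ K := fun y => (P_le D.nv a y).trans (haK' y)
  set G : ℂ → ℝ := Ro.indicator fun y => P v a y ^ 2 with hG
  have Gm : Measurable G := ((P_meas v a).pow_const 2).indicator hRo.measurableSet
  have hb2 : ∀ y, |P v a y ^ 2| ≤ (K : ℝ) ^ 2 := fun y => by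
    rw [abs_pow]; exact pow_le_pow_left₀ (abs_nonneg _) (haK y) 2
  have Gb : ∀ y, |G y| ≤ (K : ℝ) ^ 2 := ind_bd hb2
  have G0 : ∀ y, 0 ≤ G y := indicator_nonneg fun y _ => sq_nonneg _
  have em : Measurable fun t => ∫ s in I2, G (L t s) :=
    (StronglyMeasurable.integral_prod_right (f := fun t s => G (L t s))
      (Gm.comp D.emb.measurable).stronglyMeasurable).measurable
  have eb : ∀ t, |∫ s in I2, G (L t s)| ≤ (K : ℝ) ^ 2 * volume.real I2 := fun t =>
    norm_setIntegral_le_of_norm_le_const (f := fun s => G (L t s)) (fin_sub subset_rfl)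
      fun s _ => Gb _
  refine ⟨fun t => 2 / σ ^ 2 * ∫ s in I2, G (L t s), em.const_mul _,
    fun t => mul_nonneg (by positivity) (integral_nonneg fun s => G0 _),
    (bint (fin_sub subset_rfl) em eb).const_mul _, ?_, fun t ht s hs s' hs' => ?_⟩
  · rw [integral_const_mul, ← D.fub subset_rfl (bint sq_fin Gm Gb)]
    have e1 : {y | c y ∈ I2} ∩ Sq 2 = Sq 2 := inter_eq_right.2 fun y hy => D.csq y hy
    rw [e1, hG, setIntegral_indicator hRo.measurableSet, inter_comm]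
    have hfin : volume (Ro ∩ Sq 2) < ∞ := lt_of_le_of_lt (measure_mono inter_subset_right) sq_fin
    have h1 : ∫ y in Ro ∩ Sq 2, P v a y ^ 2 ≤ ∫ y in Ro ∩ Sq 2, ‖fderiv ℝ a y‖ ^ 2 := by
      refine integral_mono (bint hfin ((P_meas v a).pow_const 2) hb2)
        (bint hfin ((measurable_fderiv ℝ a).norm.pow_const 2) (C := (K : ℝ) ^ 2) fun y => ?_)
        fun y => ?_
      · rw [abs_pow, abs_norm]; exact pow_le_pow_left₀ (norm_nonneg _) (haK' y) 2
      · have := pow_le_pow_left₀ (abs_nonneg _) (P_le D.nv a y) 2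
        rwa [sq_abs] at this
    calc 2 / σ ^ 2 * ∫ y in Ro ∩ Sq 2, P v a y ^ 2 ≤ 2 / σ ^ 2 * (σ ^ 2 / 2) :=
          mul_le_mul_of_nonneg_left (h1.trans hE) (by positivity)
      _ = 1 := by field_simp
  · have hf : LipschitzWith K fun s => a (L t s) := by
      simpa [Function.comp_def] using ha.comp (D.iso t)
    have hO : MeasurableSet (L t ⁻¹' Ro) := (hRo.preimage (D.iso t).continuous).measurableSet
    have h1 := osc (g := fun s => P v a (L t s)) hf hO
      ((P_meas v a).comp (D.iso t).continuous.measurable) (fun s => haK _)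
      (fun s hs => D.deriv_eq (hd _ hs)) hτ (hv t ht) hs' hs
    have e1 : ∫ x in I2, (L t ⁻¹' Ro).indicator (fun x => P v a (L t x) ^ 2) x
        = ∫ x in I2, G (L t x) := rfl
    rw [e1] at h1
    have h2 : 2 * ((K : ℝ) * τ) ^ 2 ≤ κ * σ ^ 2 := by
      have a1 : (16 * K * τ) ^ 2 ≤ (κ * σ) ^ 2 := pow_le_pow_left₀ (by positivity) hK 2
      have a2 : κ ^ 2 * σ ^ 2 ≤ κ * σ ^ 2 :=
        mul_le_mul_of_nonneg_right (by nlinarith) (sq_nonneg σ)
      nlinarith [sq_nonneg ((K : ℝ) * τ)]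
    rw [← sub_div, div_pow, div_le_iff₀ (by positivity)]
    have e2 : (|s - s'| * (2 / σ ^ 2 * ∫ x in I2, G (L t x)) + κ) * σ ^ 2
        = |s - s'| * (2 * ∫ x in I2, G (L t x)) + κ * σ ^ 2 := by field_simp
    rw [e2]
    linarith

end GLINE

theorem gline : S_GLINE := by
  intro a K Ro V H σ τ κ ha hRo hd hV hH hσ hτ hκ hκ1 hK cV cH lV lH hE hW
  obtain ⟨ev, v1, v2, v3, v4, v5⟩ := GLINE.dir_ver.half ha hRo hd hσ hτ hκ hκ1 hK lV hE
  obtain ⟨eh, h1, h2, h3, h4, h5⟩ := GLINE.dir_hor.half ha hRo hd hσ hτ hκ hκ1 hK lH hE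
  refine ⟨ev, eh, ha.continuous.div_const σ, hV, hH, hκ, cV, cH, v1, h1, v2, h2, v3, h3, v4, h4,
    h5, v5, fun z m hz => ?_⟩
  have w1 : |(∫ y in {y : ℂ | y.im ∈ H}, a y * p1 (p1 z) y)
      + ∫ y in Ro ∩ {y : ℂ | y.im ∈ H}, p1 a y * p1 z y| ≤ K * m * τ * 4 :=
    GLINE.dir_hor.weak ha hRo hd hH hτ lH hz.diff hz.supp hz.b1
  have w2 : |(∫ y in {y : ℂ | y.re ∈ V}, a y * p2 (p2 z) y)
      + ∫ y in Ro ∩ {y : ℂ | y.re ∈ V}, p2 a y * p2 z y| ≤ K * m * τ * 4 :=
    GLINE.dir_ver.weak ha hRo hd hV hτ lV hz.diff hz.supp hz.b2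
  have w3 := hW z m hz
  have hm0 : 0 ≤ m := (abs_nonneg _).trans (hz.b1 0)
  have w4 := mul_le_mul_of_nonneg_right hK hm0
  have e1 : ∀ (S : Set ℂ) (u : ℂ → ℝ), ∫ y in S, a y / σ * u y = (∫ y in S, a y * u y) / σ := by
    intro S u
    rw [← integral_div]
    exact integral_congr_ae (Eventually.of_forall fun y => by ring)
  rw [e1, e1, ← add_div, abs_div, abs_of_pos hσ, div_le_iff₀ hσ]
  rw [abs_le] at w1 w2 w3 ⊢
  constructor <;> nlinarith [w1.1, w1.2, w2.1, w2.2, w3.1, w3.2]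

end MW
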