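import Pool.Agent.P.MP_064970_gt.SDP

/-! D4, assembly.
Hint: s = θ^6, κ₀ = θ^14. A = gA a V H c is measurable, bounded (a continuous on the compact square), integrable.
For y ∈ Sq (2θ) (‖y‖ ≤ 1): the kernel z of S_GK at y is a Test function with m = C/s^2, so
|A*ρ_s y - A*ρ_1 y| ≤ C κ/s^2; S_GT: |A*ρ_1 y - c₁ - ⟪g,y⟫| ≤ C ‖y‖^2 ≤ 8 C θ^2; S_GJ + S_GTR on B = Sq (1/2):
∫_B (A - A*ρ_s)^2 ≤ C (s + κ). c₀ = c + c₁. V' = V ∩ {ev ≤ 4/θ}, H' likewise (Chebyshev: the complement in an interval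
inside I2 has measure ≤ κ + θ/4 ≤ θ/2). Pointwise bound from GridBase. The set of the conclusion is contained in
(grid ∩ Sq (2θ)) ∪ (V' × (I2 \\ H)) ∪ ((I2 \\ V) × H') inside Sq (2θ); the last two have measure ≤ 4θκ and the
integrand is ≤ C₁^2 ≤ C/θ there. |Sq (2θ)| = 16 θ^2. -/

open MeasureTheory Set Filter Topology Metric
open scoped RealInnerProductSpace ENNReal NNReal ComplexConjugate Real

noncomputable section

namespace MW

namespace GRID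

theorem vol_prod (A B : Set ℝ) :
    volume {y : ℂ | y.re ∈ A ∧ y.im ∈ B} = volume A * volume B := by
  have h := Complex.volume_preserving_equiv_real_prod.measure_preimage_equiv (A ×ˢ B)
  rw [Measure.volume_eq_prod, Measure.prod_prod] at h
  rw [← h]
  rfl

theorem Sq_eq (r : ℝ) : Sq r = {y : ℂ | y.re ∈ Icc (-r) r ∧ y.im ∈ Icc (-r) r} := by
  ext y
  simp only [Sq, mem_ofPred_eq, mem_Icc, abs_le]

theorem isClosed_Sq (r : ℝ) : IsClosed (Sq r) :=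
  (isClosed_le (f := fun y : ℂ => |y.re|) (by fun_prop) continuous_const).inter
    (isClosed_le (f := fun y : ℂ => |y.im|) (by fun_prop) continuous_const)

theorem norm_le_of_Sq {r : ℝ} {y : ℂ} (hy : y ∈ Sq r) : ‖y‖ ≤ 2 * r := by
  have h := Complex.norm_le_abs_re_add_abs_im y
  have h1 := hy.1
  have h2 := hy.2
  linarith

theorem isCompact_Sq (r : ℝ) : IsCompact (Sq r) :=
  (isCompact_closedBall (0 : ℂ) (2 * r)).of_isClosed_subset (isClosed_Sq r) fun y hy => by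
    simpa using norm_le_of_Sq hy

theorem Sq_mono {r r' : ℝ} (h : r ≤ r') : Sq r ⊆ Sq r' := fun _ hy =>
  ⟨hy.1.trans h, hy.2.trans h⟩

theorem real_Sq {r : ℝ} (hr : 0 ≤ r) : volume.real (Sq r) = 4 * r ^ 2 := by
  rw [measureReal_def, Sq_eq, vol_prod, Real.volume_Icc, ← ENNReal.ofReal_mul (by linarith),
    ENNReal.toReal_ofReal (by nlinarith)]
  ring

theorem mem_I2 {r x : ℝ} (hr : r ≤ 2) (hx : |x| ≤ r) : x ∈ I2 := by
  have := abs_le.1 (hx.trans hr)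
  exact ⟨this.1, this.2⟩

theorem vol_I2 : volume I2 = ENNReal.ofReal 4 := by
  rw [I2, Real.volume_Icc]; norm_num

/-- Chebyshev on an interval. -/
theorem cheb {V : Set ℝ} {ev : ℝ → ℝ} {κ θ u v : ℝ} (hθ : 0 < θ) (hκ0 : 0 ≤ κ) (hκ : κ ≤ θ / 4)
    (hc : volume (I2 \ V) ≤ ENNReal.ofReal κ) (hm : Measurable ev) (h0 : ∀ s, 0 ≤ ev s)
    (hi : IntegrableOn ev I2) (h1 : ∫ s in I2, ev s ≤ 1) (huv : v - u = θ)
    (hJ : Icc u v ⊆ I2) : θ / 2 ≤ volume.real ((V ∩ {s | ev s < 4 / θ}) ∩ Icc u v) := by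
  have hI : volume I2 ≠ ∞ := by rw [vol_I2]; exact ENNReal.ofReal_ne_top
  have h2 := mul_meas_ge_le_integral_of_nonneg (μ := volume.restrict I2)
    (Eventually.of_forall h0) hi (4 / θ)
  rw [measureReal_restrict_apply (measurableSet_le measurable_const hm)] at h2
  have h3 : volume.real ({x | 4 / θ ≤ ev x} ∩ I2) ≤ θ / 4 := by
    have h4 := h2.trans h1
    rw [div_mul_eq_mul_div, div_le_iff₀ hθ] at h4
    linarith
  have h4 : volume.real (I2 \ V) ≤ κ := ENNReal.toReal_le_of_le_ofReal hκ0 hc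
  have h5 : Icc u v ⊆ ((V ∩ {s | ev s < 4 / θ}) ∩ Icc u v) ∪
      ((I2 \ V) ∪ ({x | 4 / θ ≤ ev x} ∩ I2)) := by
    intro x hx
    by_cases hV : x ∈ V
    · by_cases he : ev x < 4 / θ
      · exact Or.inl ⟨⟨hV, he⟩, hx⟩
      · exact Or.inr (Or.inr ⟨not_lt.1 he, hJ hx⟩)
    · exact Or.inr (Or.inl ⟨hJ hx, hV⟩)
  have h6 : volume.real (Icc u v) = θ := by
    rw [Real.volume_real_Icc, huv, max_eq_left hθ.le]
  have h7 : volume (((V ∩ {s | ev s < 4 / θ}) ∩ Icc u v) ∪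
      ((I2 \ V) ∪ ({x | 4 / θ ≤ ev x} ∩ I2))) ≠ ∞ :=
    measure_ne_top_of_subset (union_subset (inter_subset_right.trans hJ)
      (union_subset sdiff_subset inter_subset_right)) hI
  have h8 := measureReal_mono h5 h7
  have h9 := measureReal_union_le (μ := volume) ((V ∩ {s | ev s < 4 / θ}) ∩ Icc u v)
    ((I2 \ V) ∪ ({x | 4 / θ ≤ ev x} ∩ I2))
  have h10 := measureReal_union_le (μ := volume) (I2 \ V) ({x | 4 / θ ≤ ev x} ∩ I2)
  linarith

variable {a : ℂ → ℝ} {V H : Set ℝ} {c : ℝ}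

theorem ms_grid (hV : MeasurableSet V) (hH : MeasurableSet H) (r : ℝ) :
    MeasurableSet {y : ℂ | y ∈ Sq r ∧ y.re ∈ V ∧ y.im ∈ H} :=
  (isClosed_Sq r).measurableSet.inter
    ((Complex.measurable_re hV).inter (Complex.measurable_im hH))

theorem gA_meas (ha : Continuous a) (hV : MeasurableSet V) (hH : MeasurableSet H) :
    Measurable (gA a V H c) :=
  (ha.sub continuous_const).measurable.indicator (ms_grid hV hH 2)

theorem gA_bdd (ha : Continuous a) : ∃ M : ℝ, ∀ y, |gA a V H c y| ≤ M := by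
  obtain ⟨M, hM⟩ := (isCompact_Sq 2).exists_bound_of_continuousOn
    (f := fun y => a y - c) (ha.sub continuous_const).continuousOn
  refine ⟨max M 0, fun y => ?_⟩
  unfold gA
  by_cases hy : y ∈ {y : ℂ | y ∈ Sq 2 ∧ y.re ∈ V ∧ y.im ∈ H}
  · rw [indicator_of_mem hy]
    exact (hM y hy.1).trans (le_max_left _ _)
  · rw [indicator_of_notMem hy, abs_zero]
    exact le_max_right _ _

theorem gA_int (ha : Continuous a) (hV : MeasurableSet V) (hH : MeasurableSet H) :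
    Integrable (gA a V H c) :=
  (integrable_indicator_iff (ms_grid hV hH 2)).2
    (((ha.sub continuous_const).continuousOn.integrableOn_compact (isCompact_Sq 2)).mono_set
      fun _ hy => hy.1)

theorem int_mul_lam {A : ℂ → ℝ} (hA : Integrable A) (y : ℂ) (t : ℝ) :
    Integrable fun w => A w * lam (‖w - y‖ ^ 2 / t ^ 2) := by
  refine hA.mul_bdd (c := 4 / π)
    (contDiff_lam.continuous.comp (by fun_prop)).aestronglyMeasurable
    (Eventually.of_forall fun w => ?_)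
  rw [Real.norm_eq_abs, abs_of_nonneg (lam_nonneg _)]
  exact lam_le (by positivity)

/-- The means at scale `s` and at scale one are close. -/
theorem mean_sub {A : ℂ → ℝ} (hA : Integrable A) {s m D : ℝ} {y : ℂ} (hy : ‖y‖ ≤ 1) {z : ℂ → ℝ}
    (hz : ContDiff ℝ 2 z) (h0 : ∀ w, 1 ≤ ‖w - y‖ → z w = 0)
    (he : ∀ w, p1 (p1 z) w + p2 (p2 z) w
      = lam (‖w - y‖ ^ 2 / s ^ 2) / s ^ 2 - lam (‖w - y‖ ^ 2))
    (hb : ∀ w, |p1 z w| ≤ m ∧ |p2 z w| ≤ m ∧ |p1 (p1 z) w| ≤ m ∧ |p2 (p2 z) w| ≤ m)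
    (hw : ∀ (z : ℂ → ℝ) (m : ℝ), Test z m → |∫ y, A y * (p1 (p1 z) y + p2 (p2 z) y)| ≤ D * m) :
    |(∫ w, A w * lam (‖w - y‖ ^ 2 / s ^ 2)) / s ^ 2 - ∫ w, A w * lam (‖w - y‖ ^ 2)| ≤ D * m := by
  have ht : Test z m := ⟨hz, fun w hw => h0 w (by linarith [norm_sub_norm_le w y]),
    fun w => (hb w).1, fun w => (hb w).2.1, fun w => (hb w).2.2.1, fun w => (hb w).2.2.2⟩
  have h1 := hw z m ht
  have h2 := int_mul_lam hA y 1
  simp only [one_pow, div_one] at h2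
  have h3 : ∫ w, A w * (p1 (p1 z) w + p2 (p2 z) w)
      = (∫ w, A w * lam (‖w - y‖ ^ 2 / s ^ 2)) / s ^ 2 - ∫ w, A w * lam (‖w - y‖ ^ 2) := by
    rw [← integral_div, ← integral_sub ((int_mul_lam hA y s).div_const _) h2]
    refine integral_congr_ae (Eventually.of_forall fun w => ?_)
    simp only [he]
    ring
  rwa [h3] at h1

theorem meas_mean {A : ℂ → ℝ} (hA : Measurable A) (s : ℝ) :
    Measurable fun y : ℂ => (∫ w, A w * lam (‖w - y‖ ^ 2 / s ^ 2)) / s ^ 2 := by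
  refine Measurable.div_const (StronglyMeasurable.measurable ?_) _
  refine StronglyMeasurable.integral_prod_right
    (f := fun (y w : ℂ) => A w * lam (‖w - y‖ ^ 2 / s ^ 2)) (Measurable.stronglyMeasurable ?_)
  exact (hA.comp measurable_snd).mul
    (contDiff_lam.continuous.comp (by fun_prop : Continuous
      fun q : ℂ × ℂ => ‖q.2 - q.1‖ ^ 2 / s ^ 2)).measurable

theorem intOn_sq {f : ℂ → ℝ} {B : Set ℂ} {M : ℝ} (hf : Measurable f) (hB : MeasurableSet B)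
    (hv : volume B ≠ ∞) (hM : ∀ y ∈ B, |f y| ≤ M) : IntegrableOn (fun y => f y ^ 2) B := by
  refine Measure.integrableOn_of_bounded (M := M ^ 2) hv (hf.pow_const 2).aestronglyMeasurable ?_
  refine (ae_restrict_iff' hB).2 (Eventually.of_forall fun y hy => ?_)
  rw [Real.norm_eq_abs, abs_pow]
  exact pow_le_pow_left₀ (abs_nonneg _) (hM y hy) 2

/-- The integral on the grid. -/
theorem on_grid {A m f : ℂ → ℝ} {G : Set ℂ} {M L δ β : ℝ} (hA : Measurable A) (hm : Measurable m)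
    (hf : Measurable f) (hG : MeasurableSet G) (hv : volume G ≠ ∞) (hM : ∀ y, |A y| ≤ M)
    (hL : ∀ y ∈ G, |f y| ≤ L) (hδ : ∀ y ∈ G, |m y - f y| ≤ δ)
    (hβ : ∫ y in G, (A y - m y) ^ 2 ≤ β) :
    ∫ y in G, (A y - f y) ^ 2 ≤ 2 * β + 2 * δ ^ 2 * volume.real G := by
  have h1 : IntegrableOn (fun y => (A y - m y) ^ 2) G :=
    intOn_sq (M := M + δ + L) (hA.sub hm) hG hv fun y hy => by
      have h2 := abs_le.1 (hM y)
      have h3 := abs_le.1 (hL y hy)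
      have h4 := abs_le.1 (hδ y hy)
      exact abs_le.2 ⟨by linarith, by linarith⟩
  have h2 : IntegrableOn (fun y => (A y - f y) ^ 2) G :=
    intOn_sq (M := M + L) (hA.sub hf) hG hv fun y hy => by
      have h2 := abs_le.1 (hM y)
      have h3 := abs_le.1 (hL y hy)
      exact abs_le.2 ⟨by linarith, by linarith⟩
  have h3 : IntegrableOn (fun _ : ℂ => 2 * δ ^ 2) G := integrableOn_const hv
  have h4 : ∫ y in G, (A y - f y) ^ 2 ≤ ∫ y in G, (2 * (A y - m y) ^ 2 + 2 * δ ^ 2) := by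
    refine setIntegral_mono_on h2 ((h1.const_mul 2).add h3) hG fun y hy => ?_
    have h5 : (m y - f y) ^ 2 ≤ δ ^ 2 := by
      rw [← sq_abs]
      exact pow_le_pow_left₀ (abs_nonneg _) (hδ y hy) 2
    nlinarith [sq_nonneg ((A y - m y) - (m y - f y))]
  rw [integral_add (h1.const_mul 2) h3, integral_const_mul, setIntegral_const, smul_eq_mul] at h4
  linarith

/-- The part of the square off the grid is small. -/
theorem off_grid {κ : ℝ} (hκ : 0 ≤ κ) (cV : volume (I2 \ V) ≤ ENNReal.ofReal κ)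
    (cH : volume (I2 \ H) ≤ ENNReal.ofReal κ) {N : Set ℂ} (hN : N ⊆ Sq 2)
    (hN' : ∀ y ∈ N, ¬ (y.re ∈ V ∧ y.im ∈ H)) : volume.real N ≤ 8 * κ := by
  have h1 : N ⊆ {y : ℂ | y.re ∈ I2 \ V ∧ y.im ∈ I2} ∪ {y : ℂ | y.re ∈ I2 ∧ y.im ∈ I2 \ H} := by
    intro y hy
    have h2 := mem_I2 le_rfl (hN hy).1
    have h3 := mem_I2 le_rfl (hN hy).2
    by_cases hV : y.re ∈ V
    · exact Or.inr ⟨h2, h3, fun hH => hN' y hy ⟨hV, hH⟩⟩
    · exact Or.inl ⟨⟨h2, hV⟩, h3⟩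
  refine ENNReal.toReal_le_of_le_ofReal (by positivity) ?_
  calc volume N ≤ _ := measure_mono h1
    _ ≤ _ := measure_union_le _ _
    _ = volume (I2 \ V) * ENNReal.ofReal 4 + ENNReal.ofReal 4 * volume (I2 \ H) := by
      rw [vol_prod, vol_prod, vol_I2]
    _ ≤ ENNReal.ofReal κ * ENNReal.ofReal 4 + ENNReal.ofReal 4 * ENNReal.ofReal κ := by gcongr
    _ = ENNReal.ofReal (8 * κ) := by
      rw [← ENNReal.ofReal_mul hκ, ← ENNReal.ofReal_mul (by norm_num),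
        ← ENNReal.ofReal_add (by positivity) (by positivity)]
      congr 1; ring

theorem abs_le_of_base {x e θ : ℝ} (hθ : 0 < θ) (hθ1 : θ ≤ 1) (he : e < 4 / θ)
    (hx : x ^ 2 ≤ 8 * e + 12) : |x| ≤ 7 / θ := by
  have h1 : 1 ≤ 1 / θ := by rw [le_div_iff₀ hθ]; linarith
  have h2 : 4 / θ = 4 * (1 / θ) := by ring
  have h3 : 7 / θ = 7 * (1 / θ) := by ring
  rw [h2] at he
  rw [h3]
  exact abs_le_of_sq_le_sq (by nlinarith) (by positivity)

end GRID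

open GRID in
theorem grid_of (hK : S_GK) (hT : S_GT) (hJ : S_GJ) (hB : S_GB) (hR : S_GTR) : S_GRID := by
  obtain ⟨CK, hCK, hK⟩ := hK
  obtain ⟨CT, hCT, hT⟩ := hT
  obtain ⟨CB, hCB, hB⟩ := hB
  obtain ⟨CR, hCR, hR⟩ := hR
  set D : ℝ := CB * CK + 16 * CT * CB with hD
  set Eb : ℝ := 7 + 2 * (CT * CB) with hE
  have hD0 : 0 < D := by positivity
  have hE0 : 0 < Eb := by positivity
  refine ⟨CT * CB + 4 * CR + 32 * D ^ 2 + 8 * Eb ^ 2, by positivity, fun θ hθ hθ4 => ?_⟩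
  have hθ1 : θ ≤ 1 := by linarith
  have hpow : ∀ {i j : ℕ}, i ≤ j → θ ^ j ≤ θ ^ i := fun hij => pow_le_pow_of_le_one hθ.le hθ1 hij
  refine ⟨θ ^ 14, Eb / θ, by positivity, pow_le_one₀ hθ.le hθ1, by positivity, ?_⟩
  intro a V H ev eh κ hG hκ
  have hκ0 := hG.κ_nonneg
  obtain ⟨c, hbase, hL1, hweak⟩ := hB a V H ev eh κ hG (hκ.trans (pow_le_one₀ hθ.le hθ1))
  have hAm : Measurable (gA a V H c) := gA_meas hG.cont hG.mV hG.mH
  have hAi : Integrable (gA a V H c) := gA_int hG.cont hG.mV hG.mH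
  obtain ⟨M, hM⟩ : ∃ M : ℝ, ∀ y, |gA a V H c y| ≤ M := gA_bdd hG.cont
  have hTR := hR a V H ev eh κ c hG hbase
  set A := gA a V H c with hA
  obtain ⟨c₁, g, hc₁, hg, hTay⟩ := hT A hAi
  have hI : CT * ∫ w, |A w| ≤ CT * CB := mul_le_mul_of_nonneg_left hL1 hCT.le
  have hκθ : κ ≤ θ / 4 := by
    have h1 : θ ^ 14 ≤ θ ^ 2 := hpow (by norm_num)
    nlinarith
  have hmV' : MeasurableSet (V ∩ {s | ev s < 4 / θ}) :=
    hG.mV.inter (measurableSet_lt hG.ev_meas measurable_const)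
  have hmH' : MeasurableSet (H ∩ {s | eh s < 4 / θ}) :=
    hG.mH.inter (measurableSet_lt hG.eh_meas measurable_const)
  have hJ1 : Icc θ (2 * θ) ⊆ I2 := Icc_subset_Icc (by linarith) (by linarith)
  have hJ2 : Icc (-(2 * θ)) (-θ) ⊆ I2 := Icc_subset_Icc (by linarith) (by linarith)
  have hn1 : ∀ y ∈ Sq (2 * θ), ‖y‖ ≤ 1 := fun y hy => by linarith [norm_le_of_Sq hy]
  have haff : ∀ y ∈ Sq (2 * θ), |c₁ + ⟪g, y⟫| ≤ 2 * (CT * CB) := by
    intro y hy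
    have h1 := abs_real_inner_le_norm g y
    have h2 : ‖g‖ * ‖y‖ ≤ ‖g‖ * 1 := mul_le_mul_of_nonneg_left (hn1 y hy) (norm_nonneg g)
    have h3 := abs_add_le c₁ ⟪g, y⟫
    linarith
  have hpt : ∀ y ∈ Sq (2 * θ), y.re ∈ V ∩ {s | ev s < 4 / θ} ∨ y.im ∈ H ∩ {s | eh s < 4 / θ} →
      |a y - (c + c₁) - ⟪g, y⟫| ≤ Eb / θ := by
    intro y hy hy'
    have hre : y.re ∈ I2 := mem_I2 (by linarith) hy.1
    have him : y.im ∈ I2 := mem_I2 (by linarith) hy.2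
    have h1 : |a y - c| ≤ 7 / θ := by
      rcases hy' with h | h
      · exact abs_le_of_base hθ hθ1 h.2 (hbase.ver y.re ⟨h.1, hre⟩ y.im him)
      · exact abs_le_of_base hθ hθ1 h.2 (hbase.hor y.im ⟨h.1, him⟩ y.re hre)
    have h2 : 2 * (CT * CB) ≤ 2 * (CT * CB) / θ := by
      rw [le_div_iff₀ hθ]
      exact mul_le_of_le_one_right (by positivity) hθ1
    have h3 : Eb / θ = 7 / θ + 2 * (CT * CB) / θ := by rw [hE, add_div]
    have h4 := abs_le.1 h1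
    have h5 := abs_le.1 (haff y hy)
    rw [h3]
    exact abs_le.2 ⟨by linarith, by linarith⟩
  refine ⟨c + c₁, g, V ∩ {s | ev s < 4 / θ}, H ∩ {s | eh s < 4 / θ}, hmV', hmH',
    inter_subset_left, inter_subset_left, ?_,
    cheb hθ hκ0 hκθ hG.cV hG.ev_meas hG.ev_nonneg hG.ev_int hG.ev_le (by ring) hJ1,
    cheb hθ hκ0 hκθ hG.cV hG.ev_meas hG.ev_nonneg hG.ev_int hG.ev_le (by ring) hJ2,
    cheb hθ hκ0 hκθ hG.cH hG.eh_meas hG.eh_nonneg hG.eh_int hG.eh_le (by ring) hJ1,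
    cheb hθ hκ0 hκθ hG.cH hG.eh_meas hG.eh_nonneg hG.eh_int hG.eh_le (by ring) hJ2, ?_, hpt⟩
  · have h1 : 0 ≤ 4 * CR + 32 * D ^ 2 + 8 * Eb ^ 2 := by positivity
    linarith
  -- the integral bound
  set G : Set ℂ := {y : ℂ | y ∈ Sq (2 * θ) ∧ y.re ∈ V ∧ y.im ∈ H} with hGd
  set S : Set ℂ := {y : ℂ | y ∈ Sq (2 * θ) ∧
    (y.re ∈ V ∩ {s | ev s < 4 / θ} ∨ y.im ∈ H ∩ {s | eh s < 4 / θ})} with hSd
  have hGm : MeasurableSet G := ms_grid hG.mV hG.mH _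
  have hfin : ∀ {r : ℝ} {X : Set ℂ}, X ⊆ Sq r → volume X ≠ ∞ := fun hX =>
    measure_ne_top_of_subset hX (isCompact_Sq _).measure_lt_top.ne
  have hGs : G ⊆ Sq (2 * θ) := fun y hy => hy.1
  have hSs : S ⊆ Sq (2 * θ) := fun y hy => hy.1
  have hs0 : 0 < θ ^ 6 := by positivity
  have hs1 : θ ^ 6 ≤ 1 := pow_le_one₀ hθ.le hθ1
  have hβ := hJ A G (θ ^ 6) (2 * CR * θ ^ 6) M hAm hM hGm (hfin hGs).lt_top hs0 (by
    intro h hh
    have h1 := hTR h (hh.trans hs1)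
    have h2 : IntegrableOn (fun y => (A (y + h) - A y) ^ 2) (Sq (1 / 2)) :=
      intOn_sq (M := M + M) ((hAm.comp (measurable_add_const h)).sub hAm)
        (isClosed_Sq _).measurableSet (hfin subset_rfl) fun y _ => by
          have h3 := abs_le.1 (hM (y + h))
          have h4 := abs_le.1 (hM y)
          exact abs_le.2 ⟨by linarith, by linarith⟩
    have h3 := setIntegral_mono_set h2 (Eventually.of_forall fun y => sq_nonneg _)
      (hGs.trans (Sq_mono (by linarith : 2 * θ ≤ 1 / 2))).eventuallyLE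
    have h4 : θ ^ 14 ≤ θ ^ 6 := hpow (by norm_num)
    have h5 : CR * (‖h‖ + κ) ≤ CR * (2 * θ ^ 6) :=
      mul_le_mul_of_nonneg_left (by linarith) hCR.le
    linarith)
  have hδ : ∀ y ∈ G, |(∫ w, A w * lam (‖w - y‖ ^ 2 / (θ ^ 6) ^ 2)) / (θ ^ 6) ^ 2 -
      (c₁ + ⟪g, y⟫)| ≤ D * θ ^ 2 := by
    intro y hy
    obtain ⟨z, hz, h0, he, hb⟩ := hK (θ ^ 6) y hs0 hs1
    have h1 := mean_sub hAi (hn1 y hy.1) hz h0 he hb hweak
    have h2 := hTay y (hn1 y hy.1)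
    have h3 : CB * κ * (CK / (θ ^ 6) ^ 2) ≤ CB * CK * θ ^ 2 := by
      have h4 : CB * κ * (CK / (θ ^ 6) ^ 2) ≤ CB * θ ^ 14 * (CK / (θ ^ 6) ^ 2) := by gcongr
      have h5 : CB * θ ^ 14 * (CK / (θ ^ 6) ^ 2) = CB * CK * θ ^ 2 := by field_simp
      linarith
    have h4 : ‖y‖ ^ 2 ≤ (2 * (2 * θ)) ^ 2 :=
      pow_le_pow_left₀ (norm_nonneg _) (norm_le_of_Sq hy.1) 2
    have h5 : CT * ‖y‖ ^ 2 * ∫ w, |A w| ≤ CT * (2 * (2 * θ)) ^ 2 * CB :=
      mul_le_mul (mul_le_mul_of_nonneg_left h4 hCT.le) hL1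
        (integral_nonneg fun w => abs_nonneg _) (by positivity)
    have h6 := abs_le.1 (h1.trans h3)
    have h7 := abs_le.1 (h2.trans h5)
    have h8 : D * θ ^ 2 = CB * CK * θ ^ 2 + CT * (2 * (2 * θ)) ^ 2 * CB := by rw [hD]; ring
    rw [h8]
    exact abs_le.2 ⟨by linarith, by linarith⟩
  have hfc : Continuous fun y : ℂ => c₁ + ⟪g, y⟫ := by fun_prop
  have h1 := on_grid hAm (meas_mean hAm (θ ^ 6)) hfc.measurable hGm (hfin hGs) hM
    (fun y hy => haff y hy.1) hδ hβ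
  have hFc : Continuous fun y : ℂ => (a y - (c + c₁) - ⟪g, y⟫) ^ 2 := by
    have := hG.cont
    fun_prop
  have hFi : IntegrableOn (fun y : ℂ => (a y - (c + c₁) - ⟪g, y⟫) ^ 2) (Sq (2 * θ)) :=
    hFc.continuousOn.integrableOn_compact (isCompact_Sq _)
  have h2 : ∫ y in G, (a y - (c + c₁) - ⟪g, y⟫) ^ 2 = ∫ y in G, (A y - (c₁ + ⟪g, y⟫)) ^ 2 := by
    refine setIntegral_congr_fun hGm fun y hy => ?_
    have h3 : A y = a y - c :=
      indicator_of_mem (s := {y : ℂ | y ∈ Sq 2 ∧ y.re ∈ V ∧ y.im ∈ H})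
        ⟨Sq_mono (by linarith) hy.1, hy.2⟩ _
    simp only [h3]
    ring
  have h3 := integral_inter_add_sdiff (μ := volume) (s := S) hGm (hFi.mono_set hSs)
  have h4 : ∫ y in S ∩ G, (a y - (c + c₁) - ⟪g, y⟫) ^ 2
      ≤ ∫ y in G, (a y - (c + c₁) - ⟪g, y⟫) ^ 2 :=
    setIntegral_mono_set (hFi.mono_set hGs) (Eventually.of_forall fun y => sq_nonneg _)
      inter_subset_right.eventuallyLE
  have h5 : ‖∫ y in S \ G, (a y - (c + c₁) - ⟪g, y⟫) ^ 2‖ ≤ (Eb / θ) ^ 2 * volume.real (S \ G) :=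
    norm_setIntegral_le_of_norm_le_const (hfin (sdiff_subset.trans hSs)).lt_top fun y hy => by
      rw [Real.norm_eq_abs, abs_pow]
      exact pow_le_pow_left₀ (abs_nonneg _) (hpt y hy.1.1 hy.1.2) 2
  have h6 : volume.real (S \ G) ≤ 8 * κ :=
    off_grid hκ0 hG.cV hG.cH ((sdiff_subset.trans hSs).trans (Sq_mono (by linarith)))
      fun y hy hy' => hy.2 ⟨hy.1.1, hy'⟩
  have h7 : volume.real G ≤ 16 * θ ^ 2 := by
    have h8 := measureReal_mono hGs (hfin subset_rfl)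
    rw [real_Sq (by linarith)] at h8
    linarith
  have h8 : (Eb / θ) ^ 2 * volume.real (S \ G) ≤ 8 * Eb ^ 2 * θ ^ 6 := by
    have h9 : θ ^ 14 ≤ θ ^ 8 := hpow (by norm_num)
    have h10 : (Eb / θ) ^ 2 * volume.real (S \ G) ≤ (Eb / θ) ^ 2 * (8 * θ ^ 8) :=
      mul_le_mul_of_nonneg_left (by linarith) (sq_nonneg _)
    have h11 : (Eb / θ) ^ 2 * (8 * θ ^ 8) = 8 * Eb ^ 2 * θ ^ 6 := by field_simp
    linarith
  have h9 : 2 * (D * θ ^ 2) ^ 2 * volume.real G ≤ 32 * D ^ 2 * θ ^ 6 := by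
    have h10 := mul_le_mul_of_nonneg_left h7 (by positivity : 0 ≤ 2 * (D * θ ^ 2) ^ 2)
    linarith
  have h10 := (le_abs_self _).trans h5
  have h11 : 0 ≤ CT * CB * θ ^ 6 := by positivity
  linarith

end MW
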