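import Pool.Agent.P.MP_064970_gt.SDP

/-! D4, Taylor expansion of the mean at scale one.
Hint: c₀ = ∫ A w * lam (‖w‖^2), g = ∫ A w • (-(2 * lam' (‖w‖^2)) • w), lam' s = -(12/π) (1-s)₊^2 (hasDerivAt_lam).
Pointwise, for ‖y‖ ≤ 1 and all w: |lam (‖w-y‖^2) - lam (‖w‖^2) + 2 lam'(‖w‖^2) ⟪w,y⟫| ≤ C ‖y‖^2
(for ‖w‖ ≥ 2 all three terms vanish; else b - a = -2⟪w,y⟫ + ‖y‖^2, |b - a| ≤ 5‖y‖,
|lam b - lam a - lam' a (b-a)| ≤ C (b-a)^2 for a, b ≥ 0). No differentiation under the integral is needed. -/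

open MeasureTheory Set Filter Topology Metric
open scoped RealInnerProductSpace ENNReal NNReal ComplexConjugate Real

noncomputable section

namespace MW

namespace GT

theorem cube {u v : ℝ} (hu : u ≤ 1) (hv : v ≤ 1) :
    |max v 0 ^ 3 - max u 0 ^ 3 - 3 * max u 0 ^ 2 * (v - u)| ≤ 3 * (v - u) ^ 2 := by
  have h0 := sq_nonneg (v - u)
  rcases le_total 0 u with h1 | h1 <;> rcases le_total 0 v with h2 | h2
  · rw [max_eq_left h1, max_eq_left h2,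
      show v ^ 3 - u ^ 3 - 3 * u ^ 2 * (v - u) = (v + 2 * u) * (v - u) ^ 2 by ring,
      abs_of_nonneg (by positivity)]
    exact mul_le_mul_of_nonneg_right (by linarith) h0
  · rw [max_eq_left h1, max_eq_right h2,
      show (0 : ℝ) ^ 3 - u ^ 3 - 3 * u ^ 2 * (v - u) = u * (u * (2 * u - 3 * v)) by ring,
      abs_of_nonneg (mul_nonneg h1 (mul_nonneg h1 (by linarith)))]
    have h3 : u * (2 * u - 3 * v) ≤ 3 * (v - u) ^ 2 := by nlinarith
    have h4 : 0 ≤ u * (2 * u - 3 * v) := mul_nonneg h1 (by linarith)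
    nlinarith
  · rw [max_eq_right h1, max_eq_left h2,
      show v ^ 3 - (0 : ℝ) ^ 3 - 3 * 0 ^ 2 * (v - u) = v * v ^ 2 by ring,
      abs_of_nonneg (by positivity)]
    have h3 : v ^ 2 ≤ (v - u) ^ 2 := by nlinarith
    nlinarith [sq_nonneg v]
  · rw [max_eq_right h1, max_eq_right h2]
    simp only [ne_eq, OfNat.ofNat_ne_zero, not_false_eq_true, zero_pow, sub_self, mul_zero,
      zero_mul, abs_zero]
    positivity

/-- The derivative of `lam`. -/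
def L (s : ℝ) : ℝ := -(12 / π) * max (1 - s) 0 ^ 2

/-- The gradient in `y` of `lam (‖w - y‖ ^ 2)` at `y = 0`. -/
def G (w : ℂ) : ℂ := (-(2 * L (‖w‖ ^ 2))) • w

theorem pi_le : 12 / π ≤ 4 := by
  rw [div_le_iff₀ Real.pi_pos]
  linarith [Real.pi_gt_three]

theorem L_zero {s : ℝ} (hs : 1 ≤ s) : L s = 0 := by
  rw [L, max_eq_right (by linarith)]
  simp

theorem abs_L {s : ℝ} (hs : 0 ≤ s) : |L s| ≤ 4 := by
  have h1 : max (1 - s) 0 ^ 2 ≤ 1 :=
    pow_le_one₀ (le_max_right _ _) (max_le (by linarith) zero_le_one)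
  have h2 : 0 < 12 / π := by positivity
  rw [L, neg_mul, abs_neg, abs_of_nonneg (by positivity)]
  nlinarith [pi_le]

theorem taylor {a b : ℝ} (ha : 0 ≤ a) (hb : 0 ≤ b) :
    |lam b - lam a - L a * (b - a)| ≤ 4 * (b - a) ^ 2 := by
  have h1 := cube (u := 1 - a) (v := 1 - b) (by linarith) (by linarith)
  have e : lam b - lam a - L a * (b - a) = 4 / π *
      (max (1 - b) 0 ^ 3 - max (1 - a) 0 ^ 3 - 3 * max (1 - a) 0 ^ 2 * (1 - b - (1 - a))) := by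
    rw [lam, lam, L]
    ring
  have h2 : 0 < 4 / π := by positivity
  rw [e, abs_mul, abs_of_pos h2]
  calc _ ≤ 4 / π * (3 * (1 - b - (1 - a)) ^ 2) := mul_le_mul_of_nonneg_left h1 h2.le
    _ = 12 / π * (b - a) ^ 2 := by ring
    _ ≤ 4 * (b - a) ^ 2 := mul_le_mul_of_nonneg_right pi_le (sq_nonneg _)

theorem norm_G (w : ℂ) : ‖G w‖ ≤ 104 := by
  rcases le_total 1 ‖w‖ with h | h
  · rw [G, L_zero (one_le_pow₀ h)]
    simp
  · have h1 := abs_L (sq_nonneg ‖w‖)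
    rw [G, norm_smul, Real.norm_eq_abs, abs_neg, abs_mul, abs_two]
    nlinarith [norm_nonneg w, abs_nonneg (L (‖w‖ ^ 2))]

theorem continuous_G : Continuous G := by
  unfold G L
  fun_prop

theorem point (w : ℂ) {y : ℂ} (hy : ‖y‖ ≤ 1) :
    |lam (‖w - y‖ ^ 2) - (lam (‖w‖ ^ 2) + ⟪y, G w⟫)| ≤ 104 * ‖y‖ ^ 2 := by
  rcases le_total 2 ‖w‖ with h | h
  · have h1 : 1 ≤ ‖w - y‖ := by linarith [norm_sub_norm_le w y]
    have h2 : 1 ≤ ‖w‖ ^ 2 := one_le_pow₀ (by linarith)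
    rw [G, L_zero h2, lam_eq_zero h2, lam_eq_zero (one_le_pow₀ h1)]
    simp
  · have h1 := taylor (sq_nonneg ‖w‖) (sq_nonneg ‖w - y‖)
    have h2 := abs_L (sq_nonneg ‖w‖)
    have h3 : ‖w - y‖ ^ 2 - ‖w‖ ^ 2 = ‖y‖ ^ 2 - 2 * ⟪w, y⟫ := by
      rw [norm_sub_sq_real]
      ring
    have h4 := abs_le.1 (abs_real_inner_le_norm w y)
    have h5 := norm_nonneg y
    have h6 : ‖w‖ * ‖y‖ ≤ 2 * ‖y‖ := mul_le_mul_of_nonneg_right h h5
    have h7 : ‖y‖ ^ 2 ≤ ‖y‖ := by nlinarith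
    have h8 : (‖y‖ ^ 2 - 2 * ⟪w, y⟫) ^ 2 ≤ (5 * ‖y‖) ^ 2 :=
      sq_le_sq' (by nlinarith [sq_nonneg ‖y‖]) (by linarith)
    have e : lam (‖w - y‖ ^ 2) - (lam (‖w‖ ^ 2) + ⟪y, G w⟫) =
        lam (‖w - y‖ ^ 2) - lam (‖w‖ ^ 2) - L (‖w‖ ^ 2) * (‖w - y‖ ^ 2 - ‖w‖ ^ 2) +
          L (‖w‖ ^ 2) * ‖y‖ ^ 2 := by
      rw [h3, G, real_inner_smul_right, real_inner_comm]
      ring
    rw [e]
    refine (abs_add_le _ _).trans ?_
    rw [abs_mul, abs_of_nonneg (sq_nonneg ‖y‖)]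
    rw [h3] at h1
    rw [h3]
    nlinarith [sq_nonneg ‖y‖]

theorem abs_lam (w : ℂ) : ‖lam (‖w‖ ^ 2)‖ ≤ 104 := by
  rw [Real.norm_eq_abs, abs_of_nonneg (lam_nonneg _)]
  have h1 := lam_le (sq_nonneg ‖w‖)
  have h2 : 4 / π = 12 / π / 3 := by ring
  linarith [pi_le]

theorem bound {F : Type*} [NormedAddCommGroup F] [NormedSpace ℝ F] {A : ℂ → ℝ} (hA : Integrable A)
    {f : ℂ → F} {c : ℝ} (h : ∀ w, ‖f w‖ ≤ c) : ‖∫ w, A w • f w‖ ≤ c * ∫ w, |A w| := by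
  rw [← integral_const_mul]
  refine norm_integral_le_of_norm_le (hA.abs.const_mul c) (ae_of_all _ fun w => ?_)
  rw [norm_smul, Real.norm_eq_abs, mul_comm]
  exact mul_le_mul_of_nonneg_right (h w) (abs_nonneg _)

end GT

open MW.GT in
theorem gt : S_GT := by
  refine ⟨104, by norm_num, fun A hA => ⟨∫ w, A w * lam (‖w‖ ^ 2), ∫ w, A w • G w,
    bound hA abs_lam, bound hA norm_G, fun y hy => ?_⟩⟩
  have i1 : ∀ y : ℂ, Integrable fun w => A w * lam (‖w - y‖ ^ 2) := fun y =>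
    hA.mul_bdd (contDiff_lam.continuous.comp (by fun_prop)).aestronglyMeasurable
      (ae_of_all _ fun w => abs_lam (w - y))
  have i0 : Integrable fun w => A w * lam (‖w‖ ^ 2) := by simpa using i1 0
  have i2 : Integrable fun w => A w • G w :=
    hA.smul_bdd 104 continuous_G.aestronglyMeasurable (ae_of_all _ norm_G)
  have i3 : Integrable fun w => A w * lam (‖w‖ ^ 2) + ⟪y, A w • G w⟫ :=
    i0.add (i2.const_inner y)
  rw [real_inner_comm, ← integral_inner i2, ← integral_add i0 (i2.const_inner y),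
    ← integral_sub (i1 y) i3]
  refine le_trans (le_of_eq ?_) (bound hA (f := fun w =>
    lam (‖w - y‖ ^ 2) - (lam (‖w‖ ^ 2) + ⟪y, G w⟫)) fun w => point w hy)
  rw [Real.norm_eq_abs]
  congr 2
  funext w
  rw [real_inner_smul_right, smul_eq_mul]
  ring

end MW
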