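import Pool.Agent.P.MP_064970_gt.SDP

/-! D4, translation estimate.
Hint: for y ∈ Sq (1/2), ‖h‖ ≤ 1 both y and y + h lie in Sq 2 and pointwise (y = (s,t), h = (h1,h2), 1_X indicator)
(A (y+h) - A y)^2 ≤ 2‖h‖ ev (s+h1) + 2‖h‖ eh t + 4κ + 1_{I2\\V}(s+h1) (8 eh t + 12) + 1_{I2\\H}(t+h2) (8 ev s + 12)
 + 1_{I2\\V}(s) (8 eh (t+h2) + 12) + 1_{I2\\H}(t) (8 ev (s+h1) + 12)
(both points in the grid: corner ⟨s+h1, t⟩; one point in the grid: GridBase). Every term is a product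
f s * g t; integrate over [-1/2,1/2]^2 (Complex.volume_preserving_equiv_real_prod, integral_prod_mul,
translation invariance on ℝ). -/

open MeasureTheory Set Filter Topology Metric
open scoped RealInnerProductSpace ENNReal NNReal ComplexConjugate Real

noncomputable section

namespace MW

namespace GTR

/-- A product of translates. -/
def pr (f g : ℝ → ℝ) (u v : ℝ) (y : ℂ) : ℝ := f (y.re + u) * g (y.im + v)

theorem pr_int {f g : ℝ → ℝ} (hf : Integrable f) (hg : Integrable g) (u v : ℝ) :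
    Integrable (pr f g u v) := by
  have h1 : Integrable (fun z : ℝ × ℝ => f (z.1 + u) * g (z.2 + v)) :=
    (hf.comp_add_right u).mul_prod (hg.comp_add_right v)
  exact (Complex.volume_preserving_equiv_real_prod.integrable_comp_emb
    Complex.measurableEquivRealProd.measurableEmbedding).2 h1

theorem pr_eq (f g : ℝ → ℝ) (u v : ℝ) : ∫ y, pr f g u v y = (∫ s, f s) * ∫ t, g t := by
  have h1 := Complex.volume_preserving_equiv_real_prod.integral_comp'
    (fun z : ℝ × ℝ => f (z.1 + u) * g (z.2 + v))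
  have h2 := integral_prod_mul (μ := (volume : Measure ℝ)) (ν := (volume : Measure ℝ))
    (fun s => f (s + u)) (fun t => g (t + v))
  rw [integral_add_right_eq_self, integral_add_right_eq_self] at h2
  rw [← h2]
  exact h1

/-- A nonnegative integrable function with a bound for the integral. -/
structure Nice (f : ℝ → ℝ) (b : ℝ) : Prop where
  nonneg : ∀ s, 0 ≤ f s
  int : Integrable f
  le : ∫ s, f s ≤ b

theorem pr_nonneg {f g : ℝ → ℝ} {b c : ℝ} (hf : Nice f b) (hg : Nice g c) (u v : ℝ) (y : ℂ) :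
    0 ≤ pr f g u v y := mul_nonneg (hf.nonneg _) (hg.nonneg _)

theorem pr_le {f g : ℝ → ℝ} {b c : ℝ} (hf : Nice f b) (hg : Nice g c) (u v : ℝ) :
    ∫ y, pr f g u v y ≤ b * c := by
  rw [pr_eq]
  exact mul_le_mul hf.le hg.le (integral_nonneg hg.nonneg)
    ((integral_nonneg hf.nonneg).trans hf.le)

theorem mI2 : MeasurableSet I2 := measurableSet_Icc

theorem nice_ind {S : Set ℝ} (hS : MeasurableSet S) {b : ℝ} (hb : 0 ≤ b)
    (h : volume S ≤ ENNReal.ofReal b) : Nice (S.indicator 1) b := by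
  have hf : volume S ≠ ∞ := ne_top_of_le_ne_top ENNReal.ofReal_ne_top h
  refine ⟨fun s => indicator_nonneg (fun _ _ => zero_le_one) s,
    (integrable_indicator_iff hS).2 (integrableOn_const hf), ?_⟩
  rw [integral_indicator_one hS]
  exact ENNReal.toReal_le_of_le_ofReal hb h

theorem nice_I2 : Nice (I2.indicator 1) 4 :=
  nice_ind mI2 (by norm_num) (by rw [I2, Real.volume_Icc]; norm_num)

theorem nice_e {e : ℝ → ℝ} (h0 : ∀ s, 0 ≤ e s) (hi : IntegrableOn e I2) (hl : ∫ s in I2, e s ≤ 1) :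
    Nice (I2.indicator e) 1 :=
  ⟨fun s => indicator_nonneg (fun s _ => h0 s) s, (integrable_indicator_iff mI2).2 hi, by
    rwa [integral_indicator mI2]⟩

theorem nice_g {e : ℝ → ℝ} (h0 : ∀ s, 0 ≤ e s) (hi : IntegrableOn e I2) (hl : ∫ s in I2, e s ≤ 1) :
    Nice (fun s => 8 * I2.indicator e s + 12 * I2.indicator 1 s) 56 := by
  have h1 := nice_e h0 hi hl
  refine ⟨fun s => add_nonneg (mul_nonneg (by norm_num) (h1.nonneg s))
    (mul_nonneg (by norm_num) (nice_I2.nonneg s)),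
    (h1.int.const_mul 8).add (nice_I2.int.const_mul 12), ?_⟩
  rw [integral_add (h1.int.const_mul 8) (nice_I2.int.const_mul 12), integral_const_mul,
    integral_const_mul]
  linarith [h1.le, nice_I2.le]

theorem two_sq {x y z b c : ℝ} (h1 : (x - y) ^ 2 ≤ b) (h2 : (y - z) ^ 2 ≤ c) :
    (x - z) ^ 2 ≤ 2 * b + 2 * c := by
  nlinarith [sq_nonneg (x - y - (y - z))]

theorem gA_pos {a : ℂ → ℝ} {V H : Set ℝ} {c s t : ℝ} (hs : s ∈ I2) (ht : t ∈ I2) (h1 : s ∈ V)
    (h2 : t ∈ H) : gA a V H c ⟨s, t⟩ = a ⟨s, t⟩ - c := by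
  refine indicator_of_mem ?_ _
  exact ⟨⟨abs_le.2 hs, abs_le.2 ht⟩, h1, h2⟩

theorem gA_neg {a : ℂ → ℝ} {V H : Set ℝ} {c s t : ℝ} (h : ¬ (s ∈ V ∧ t ∈ H)) :
    gA a V H c ⟨s, t⟩ = 0 :=
  indicator_of_notMem (fun h1 => h h1.2) _

open Classical in
theorem point {a : ℂ → ℝ} {V H : Set ℝ} {ev eh : ℝ → ℝ} {κ c : ℝ} (hG : GridData a V H ev eh κ)
    (hB : GridBase a V H ev eh c) {s t s' t' n : ℝ} (hs : s ∈ I2) (ht : t ∈ I2) (hs' : s' ∈ I2)
    (ht' : t' ∈ I2) (h1 : |s' - s| ≤ n) (h2 : |t' - t| ≤ n) :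
    (gA a V H c ⟨s', t'⟩ - gA a V H c ⟨s, t⟩) ^ 2 ≤
      2 * n * ev s' + 2 * n * eh t + 4 * κ + (if s' ∈ V then 0 else 1) * (8 * eh t + 12) +
      (8 * ev s + 12) * (if t' ∈ H then 0 else 1) + (if s ∈ V then 0 else 1) * (8 * eh t' + 12) +
      (8 * ev s' + 12) * (if t ∈ H then 0 else 1) := by
  have n0 : 0 ≤ n := (abs_nonneg _).trans h1
  have e1 := hG.ev_nonneg s
  have e2 := hG.ev_nonneg s'
  have e3 := hG.eh_nonneg t
  have e4 := hG.eh_nonneg t'
  have e5 := mul_nonneg n0 e2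
  have e6 := mul_nonneg n0 e3
  have e7 := hG.κ_nonneg
  by_cases g : s ∈ V ∧ t ∈ H <;> by_cases g' : s' ∈ V ∧ t' ∈ H
  · rw [gA_pos hs ht g.1 g.2, gA_pos hs' ht' g'.1 g'.2, sub_sub_sub_cancel_right, if_pos g.1,
      if_pos g.2, if_pos g'.1, if_pos g'.2]
    have k1 := two_sq (hG.ver s' ⟨g'.1, hs'⟩ t' ht' t ht) (hG.hor t ⟨g.2, ht⟩ s' hs' s hs)
    have k2 := mul_le_mul_of_nonneg_right h2 e2
    have k3 := mul_le_mul_of_nonneg_right h1 e3
    linarith
  · rw [gA_pos hs ht g.1 g.2, gA_neg g', zero_sub, neg_sq, if_pos g.1, if_pos g.2]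
    have k1 := hB.hor t ⟨g.2, ht⟩ s hs
    have k2 := hB.ver s ⟨g.1, hs⟩ t ht
    split_ifs with j1 j2
    · exact absurd ⟨j1, j2⟩ g'
    all_goals linarith
  · rw [gA_pos hs' ht' g'.1 g'.2, gA_neg g, sub_zero, if_pos g'.1, if_pos g'.2]
    have k1 := hB.hor t' ⟨g'.2, ht'⟩ s' hs'
    have k2 := hB.ver s' ⟨g'.1, hs'⟩ t' ht'
    split_ifs with j1 j2
    · exact absurd ⟨j1, j2⟩ g
    all_goals linarith
  · rw [gA_neg g, gA_neg g']
    split_ifs <;> linarith

open Classical in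
theorem ind_diff {V : Set ℝ} {s : ℝ} (hs : s ∈ I2) :
    (I2 \ V).indicator (1 : ℝ → ℝ) s = if s ∈ V then 0 else 1 := by
  split_ifs with h
  · exact indicator_of_notMem (fun h1 => h1.2 h) _
  · exact indicator_of_mem (mem_sdiff_of_mem hs h) 1

theorem mSq (r : ℝ) : MeasurableSet (Sq r) :=
  (measurableSet_le (Complex.measurable_re.abs) measurable_const).inter
    (measurableSet_le (Complex.measurable_im.abs) measurable_const)

theorem mem_I2 {s u : ℝ} (hs : |s| ≤ 1 / 2) (hu : |u| ≤ 1) : s + u ∈ I2 := by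
  have h1 := abs_le.1 hs
  have h2 := abs_le.1 hu
  constructor <;> linarith [h1.1, h1.2, h2.1, h2.2]

end GTR

theorem gtr : S_GTR := by
  refine ⟨288, by norm_num, fun a V H ev eh κ c hG hB h hh => ?_⟩
  have n1 := GTR.nice_e hG.ev_nonneg hG.ev_int hG.ev_le
  have n2 := GTR.nice_e hG.eh_nonneg hG.eh_int hG.eh_le
  have n3 := GTR.nice_g hG.ev_nonneg hG.ev_int hG.ev_le
  have n4 := GTR.nice_g hG.eh_nonneg hG.eh_int hG.eh_le
  have n5 := GTR.nice_ind (GTR.mI2.diff hG.mV) hG.κ_nonneg hG.cV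
  have n6 := GTR.nice_ind (GTR.mI2.diff hG.mH) hG.κ_nonneg hG.cH
  have n7 := GTR.nice_I2
  have n0 : 0 ≤ 2 * ‖h‖ := by positivity
  have k0 : 0 ≤ 4 * κ := mul_nonneg (by norm_num) hG.κ_nonneg
  have i1 := (GTR.pr_int n1.int n7.int h.re 0).const_mul (2 * ‖h‖)
  have i2 := (GTR.pr_int n7.int n2.int 0 0).const_mul (2 * ‖h‖)
  have i3 := (GTR.pr_int n7.int n7.int 0 0).const_mul (4 * κ)
  have i4 := GTR.pr_int n5.int n4.int h.re 0
  have i5 := GTR.pr_int n3.int n6.int 0 h.im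
  have i6 := GTR.pr_int n5.int n4.int 0 h.im
  have i7 := GTR.pr_int n3.int n6.int h.re 0
  have i8 := (((((i1.add i2).add i3).add i4).add i5).add i6).add i7
  refine (integral_mono_of_nonneg (Eventually.of_forall fun y => sq_nonneg _) i8.integrableOn
    ((ae_restrict_iff' (GTR.mSq _)).2 (Eventually.of_forall fun y hy => ?_))).trans
    ((setIntegral_le_integral i8 (Eventually.of_forall fun y => ?_)).trans ?_)
  · have r1 := (Complex.abs_re_le_norm h)
    have r2 := (Complex.abs_im_le_norm h)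
    have hs := GTR.mem_I2 (u := 0) hy.1 (by simp)
    have ht := GTR.mem_I2 (u := 0) hy.2 (by simp)
    have hs' := GTR.mem_I2 hy.1 (r1.trans hh)
    have ht' := GTR.mem_I2 hy.2 (r2.trans hh)
    rw [add_zero] at hs ht
    have h1 := GTR.point hG hB hs ht hs' ht' (n := ‖h‖) (by simpa using r1) (by simpa using r2)
    simp only [Pi.add_apply, GTR.pr, add_zero, indicator_of_mem hs, indicator_of_mem ht,
      indicator_of_mem hs', indicator_of_mem ht', GTR.ind_diff hs, GTR.ind_diff ht,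
      GTR.ind_diff hs', GTR.ind_diff ht', Pi.one_apply, mul_one, one_mul]
    exact h1
  · exact add_nonneg (add_nonneg (add_nonneg (add_nonneg (add_nonneg (add_nonneg
      (mul_nonneg n0 (GTR.pr_nonneg n1 n7 _ _ _)) (mul_nonneg n0 (GTR.pr_nonneg n7 n2 _ _ _)))
      (mul_nonneg k0 (GTR.pr_nonneg n7 n7 _ _ _))) (GTR.pr_nonneg n5 n4 _ _ _))
      (GTR.pr_nonneg n3 n6 _ _ _)) (GTR.pr_nonneg n5 n4 _ _ _)) (GTR.pr_nonneg n3 n6 _ _ _)
  · rw [integral_add' (((((i1.add i2).add i3).add i4).add i5).add i6) i7,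
      integral_add' ((((i1.add i2).add i3).add i4).add i5) i6,
      integral_add' (((i1.add i2).add i3).add i4) i5, integral_add' ((i1.add i2).add i3) i4,
      integral_add' (i1.add i2) i3, integral_add' i1 i2, integral_const_mul, integral_const_mul,
      integral_const_mul]
    have j1 := mul_le_mul_of_nonneg_left (GTR.pr_le n1 n7 h.re 0) n0
    have j2 := mul_le_mul_of_nonneg_left (GTR.pr_le n7 n2 0 0) n0
    have j3 := mul_le_mul_of_nonneg_left (GTR.pr_le n7 n7 0 0) k0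
    have j4 := GTR.pr_le n5 n4 h.re 0
    have j5 := GTR.pr_le n3 n6 0 h.im
    have j6 := GTR.pr_le n5 n4 0 h.im
    have j7 := GTR.pr_le n3 n6 h.re 0
    linarith

end MW
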