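import Pool.Agent.P.MP_064970_gt.D.API

/-! D3, planar. D = ⋃ y ∈ u₂, closedBall y (ρ y), volume D ≤ ∑ π ρ^2 (Complex.volume_closedBall). V = {s | ∀ y ∈ u₁, ρ y < |s - y.re|} ∩ {s | volume (slice of D at s) ≤ τ};
measurable_measure_prodMk_left, Measure.prod_apply, Complex.volume_preserving_equiv_real_prod, Markov (meas_ge_le_lintegral_div). |z.re - y.re| ≤ ‖z - y‖. H in the same way. -/

open MeasureTheory Set Filter Topology Metric
open scoped RealInnerProductSpace ENNReal NNReal ComplexConjugate Real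

noncomputable section

namespace MW

namespace DLINES

/-- The statement for one coordinate direction, with squares instead of discs. -/
theorem one (u₁ u₂ : Finset ℂ) (ρ : ℂ → ℝ) {τ : ℝ} (h₁ : ∀ y ∈ u₁, 0 ≤ ρ y)
    (h₂ : ∀ y ∈ u₂, 0 ≤ ρ y) (hτ : 0 < τ) (a b : ℂ → ℝ) : ∃ V : Set ℝ, MeasurableSet V ∧
    volume Vᶜ ≤ ENNReal.ofReal (2 * ∑ y ∈ u₁, ρ y + 4 * (∑ y ∈ u₂, ρ y ^ 2) / τ) ∧
    (∀ s ∈ V, ∀ y ∈ u₁, ρ y < |s - a y|) ∧
    ∀ s ∈ V, volume {t : ℝ | ∃ y ∈ u₂, |s - a y| ≤ ρ y ∧ |t - b y| ≤ ρ y} ≤ ENNReal.ofReal τ := by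
  classical
  set g : ℝ → ℝ≥0∞ := fun s => ∑ y ∈ u₂,
    (closedBall (a y) (ρ y)).indicator (fun _ => ENNReal.ofReal (2 * ρ y)) s with hg
  have hgm : Measurable g :=
    Finset.measurable_sum _ fun y _ => measurable_const.indicator measurableSet_closedBall
  have hgi : ∫⁻ s, g s = ENNReal.ofReal (4 * ∑ y ∈ u₂, ρ y ^ 2) := by
    rw [hg, lintegral_finsetSum _ fun y _ => measurable_const.indicator measurableSet_closedBall,
      Finset.mul_sum, ENNReal.ofReal_sum_of_nonneg fun y _ => by positivity]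
    refine Finset.sum_congr rfl fun y hy => ?_
    have := h₂ y hy
    rw [lintegral_indicator_const measurableSet_closedBall, Real.volume_closedBall,
      ← ENNReal.ofReal_mul (by positivity)]
    congr 1
    ring
  set B₁ : Set ℝ := ⋃ y ∈ u₁, closedBall (a y) (ρ y) with hB₁
  set B₂ : Set ℝ := {s | ENNReal.ofReal τ ≤ g s} with hB₂
  have hm₁ : MeasurableSet B₁ := Finset.measurableSet_biUnion _ fun y _ => measurableSet_closedBall
  have hm₂ : MeasurableSet B₂ := measurableSet_le measurable_const hgm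
  have hv₁ : volume B₁ ≤ ENNReal.ofReal (2 * ∑ y ∈ u₁, ρ y) := by
    refine (measure_biUnion_finset_le _ _).trans (le_of_eq ?_)
    rw [Finset.mul_sum, ENNReal.ofReal_sum_of_nonneg fun y hy => by have := h₁ y hy; positivity]
    exact Finset.sum_congr rfl fun y _ => Real.volume_closedBall _ _
  have hv₂ : volume B₂ ≤ ENNReal.ofReal (4 * (∑ y ∈ u₂, ρ y ^ 2) / τ) := by
    refine (meas_ge_le_lintegral_div hgm.aemeasurable (ENNReal.ofReal_pos.2 hτ).ne'
      ENNReal.ofReal_ne_top).trans (le_of_eq ?_)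
    rw [hgi, ENNReal.ofReal_div_of_pos hτ]
  refine ⟨(B₁ ∪ B₂)ᶜ, (hm₁.union hm₂).compl, ?_, ?_, ?_⟩
  · have e₁ : 0 ≤ 2 * ∑ y ∈ u₁, ρ y := mul_nonneg zero_le_two (Finset.sum_nonneg h₁)
    have e₂ : 0 ≤ 4 * (∑ y ∈ u₂, ρ y ^ 2) / τ := by positivity
    rw [compl_compl, ENNReal.ofReal_add e₁ e₂]
    exact (measure_union_le _ _).trans (add_le_add hv₁ hv₂)
  · intro s hs y hy
    by_contra h
    refine hs (Or.inl (mem_iUnion₂.2 ⟨y, hy, ?_⟩))
    rw [mem_closedBall, Real.dist_eq]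
    exact not_lt.1 h
  · intro s hs
    have h3 : g s ≤ ENNReal.ofReal τ := le_of_not_ge fun h => hs (Or.inr h)
    refine le_trans ?_ h3
    have h4 : {t : ℝ | ∃ y ∈ u₂, |s - a y| ≤ ρ y ∧ |t - b y| ≤ ρ y}
        ⊆ ⋃ y ∈ u₂, {t : ℝ | |s - a y| ≤ ρ y ∧ |t - b y| ≤ ρ y} := by
      rintro t ⟨y, hy, ht⟩
      exact mem_iUnion₂.2 ⟨y, hy, ht⟩
    refine (measure_mono h4).trans ((measure_biUnion_finset_le _ _).trans
      (Finset.sum_le_sum fun y _ => ?_))
    by_cases h : |s - a y| ≤ ρ y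
    · rw [indicator_of_mem (by rw [mem_closedBall, Real.dist_eq]; exact h),
        ← Real.volume_closedBall (b y)]
      refine measure_mono fun t ht => ?_
      rw [mem_closedBall, Real.dist_eq]
      exact ht.2
    · have : {t : ℝ | |s - a y| ≤ ρ y ∧ |t - b y| ≤ ρ y} = ∅ :=
        eq_empty_of_forall_notMem fun t ht => h ht.1
      rw [this, measure_empty]
      exact zero_le

theorem re_le (z y : ℂ) : |z.re - y.re| ≤ ‖z - y‖ := by
  rw [← Complex.sub_re]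
  exact Complex.abs_re_le_norm _

theorem im_le (z y : ℂ) : |z.im - y.im| ≤ ‖z - y‖ := by
  rw [← Complex.sub_im]
  exact Complex.abs_im_le_norm _

end DLINES

theorem lines : S_LINES := by
  intro u₁ u₂ ρ τ h₁ h₂ hτ
  obtain ⟨V, hV, hV1, hV2, hV3⟩ := DLINES.one u₁ u₂ ρ h₁ h₂ hτ Complex.re Complex.im
  obtain ⟨H, hH, hH1, hH2, hH3⟩ := DLINES.one u₁ u₂ ρ h₁ h₂ hτ Complex.im Complex.re
  refine ⟨V, H, hV, hH, hV1, hH1, ?_, fun s hs => ?_, fun t ht => ?_⟩
  · rintro z (hz | hz) y hy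
    · exact (hV2 _ hz y hy).trans_le (DLINES.re_le z y)
    · exact (hH2 _ hz y hy).trans_le (DLINES.im_le z y)
  · refine le_trans (measure_mono ?_) (hV3 s hs)
    rintro t ⟨y, hy, h⟩
    exact ⟨y, hy, (DLINES.re_le ⟨s, t⟩ y).trans h, (DLINES.im_le ⟨s, t⟩ y).trans h⟩
  · refine le_trans (measure_mono ?_) (hH3 t ht)
    rintro s ⟨y, hy, h⟩
    exact ⟨y, hy, (DLINES.im_le ⟨s, t⟩ y).trans h, (DLINES.re_le ⟨s, t⟩ y).trans h⟩

end MW
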