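import Pool.Agent.P.MP_064970_gt.D.API

/-! D3, LIP. f z = (hi z + lo z)/2 on Ro and p z 2 on u (u misses Ro by `off`). K = 4Λ₀. (i) z, w ∈ Ro in cells (y,b₁), (y',b₂), b₂ ≤ b₁: if ‖z - w‖ < 3 b₁ both are in ball y (4 b₁), RCELL;
else Cell.height at (y,b₁) with ρ = Λ₀ b₁ for the points over z and with ρ = Λ₀ b₁ + ‖z - w‖ + b₁ for the points over w: difference ≤ 2Λ₀ b₁ + b₁ + ‖z-w‖ ≤ 2Λ₀‖z-w‖ (norms ≤ 3 + β ≤ 4, β ≤ 1/40).
(ii) z ∈ Ro, y ∈ u: Cell.height with ρ = ‖z - y‖ > 5Λ b. (iii) y ≠ y' in u, b y' ≤ b y: ‖y - y'‖ > Λ (b y + b y') (disjoint closed balls, disjoint_closedBall_closedBall_iff);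
x ∈ S ∩ ball (p y') (2 b y') (exists_mem_of_Θ_pos), |x 2| < 1, Cell.height at y with ρ = ‖y - y'‖ + 2 b y'. Extend with LipschitzOnWith.extend_real. -/

open MeasureTheory Set Filter Topology Metric
open scoped RealInnerProductSpace ENNReal NNReal ComplexConjugate Real

noncomputable section

namespace MW

namespace DMID

variable {M : Surf} {P : Par} {k β : ℝ} {u : Finset ℂ} {b : ℂ → ℝ} {p : ℂ → E} {Ro : Set ℂ}

theorem ht {y : ℂ} {b' : ℝ} {q : E} (h : M.Cell P β y b' q) (hP : P.Ok) {ρ : ℝ}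
    (h1 : P.Λ₀ * b' ≤ ρ) {x : E} (hx : x ∈ M.S) (hl : |x 2| < 1) (hy : ‖pr x - y‖ ≤ ρ) :
    |x 2 - q 2| ≤ ρ := by
  rcases le_total ρ 10 with h2 | h2
  · exact (h.height hP h1 h2 hx hl hy).1
  · have h3 := abs_sub (x 2) (q 2)
    have h4 := h.low
    linarith

theorem ht2 {y z : ℂ} {b' : ℝ} {q : E} (h : M.Cell P β y b' q) (hP : P.Ok) {ρ : ℝ}
    (h1 : P.Λ₀ * b' ≤ ρ) (hs : M.Sheet P.om z) (hy : ‖z - y‖ ≤ ρ) :
    |M.hi z - q 2| ≤ ρ ∧ |M.lo z - q 2| ≤ ρ :=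
  ⟨ht h hP h1 hs.hi_mem hs.hi_lt hy, ht h hP h1 hs.lo_mem hs.lo_lt hy⟩

theorem sheet (hR : S_RCELL) (hM : M.Mem) (hP : P.Ok) (hC : M.Cover P k β u b p Ro) {z : ℂ}
    (hz : z ∈ Ro) : M.Sheet P.om z := by
  obtain ⟨y, b', q, h1, h2, h3⟩ := hC.reg z hz
  exact (hR M P.om y _ hM hP.om_pos hP.om_le h2).1 z
    (ball_subset_ball (by linarith [h1.pos]) h3)

theorem reg_reg (hR : S_RCELL) (hM : M.Mem) (hP : P.Ok) (hC : M.Cover P k β u b p Ro) {z w : ℂ}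
    (hz : z ∈ Ro) (hw : w ∈ Ro) :
    |M.hi z - M.hi w| ≤ 4 * P.Λ₀ * ‖z - w‖ ∧ |M.lo z - M.lo w| ≤ 4 * P.Λ₀ * ‖z - w‖ := by
  obtain ⟨y, b', q, h1, h2, h3⟩ := hC.reg z hz
  have hb := h1.pos
  have hΛ := hP.one_le
  have hd := norm_nonneg (z - w)
  have h4 : ‖w - y‖ ≤ ‖z - w‖ + ‖z - y‖ := by
    rw [norm_sub_rev z w]
    exact norm_sub_le_norm_sub_add_norm_sub w z y
  rw [mem_ball_iff_norm] at h3
  rcases lt_or_ge ‖z - w‖ (3 * b') with h5 | h5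
  · obtain ⟨h6, h7⟩ := (hR M P.om y _ hM hP.om_pos hP.om_le h2).2 z
      (mem_ball_iff_norm.2 (by linarith)) w (mem_ball_iff_norm.2 (by linarith))
    have h8 : 2 * P.om * ‖z - w‖ ≤ 4 * P.Λ₀ * ‖z - w‖ :=
      mul_le_mul_of_nonneg_right (by linarith [hP.om_le]) hd
    exact ⟨h6.trans h8, h7.trans h8⟩
  · have h6 : b' ≤ P.Λ₀ * b' := le_mul_of_one_le_left hb.le hΛ
    obtain ⟨h7, h8⟩ := ht2 h1 hP le_rfl (sheet hR hM hP hC hz) (by linarith)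
    obtain ⟨h9, h10⟩ := ht2 h1 hP (ρ := P.Λ₀ * b' + ‖z - w‖) (by linarith)
      (sheet hR hM hP hC hw) (by linarith)
    have h11 : P.Λ₀ * (3 * b') ≤ P.Λ₀ * ‖z - w‖ := mul_le_mul_of_nonneg_left h5 (by linarith)
    have h12 : ‖z - w‖ ≤ P.Λ₀ * ‖z - w‖ := le_mul_of_one_le_left hd hΛ
    rw [abs_le] at h7 h8 h9 h10
    constructor <;> rw [abs_le] <;> constructor <;> linarith [h7.1, h7.2, h8.1, h8.2]

theorem reg_bad (hR : S_RCELL) (hM : M.Mem) (hP : P.Ok) (hβ : P.Λ * β ≤ 1 / 10)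
    (hC : M.Cover P k β u b p Ro) {z y : ℂ} (hz : z ∈ Ro) (hy : y ∈ u) :
    |(M.hi z + M.lo z) / 2 - p y 2| ≤ 4 * P.Λ₀ * ‖z - y‖ := by
  have h1 := hC.cell y hy
  obtain ⟨-, h2, h3, -⟩ := h1.mul_le hP hβ
  have h4 := hC.off z hz y hy
  have hb := h1.pos
  obtain ⟨h5, h6⟩ := ht2 h1 hP (ρ := ‖z - y‖) (by linarith) (sheet hR hM hP hC hz) le_rfl
  have h7 : ‖z - y‖ ≤ P.Λ₀ * ‖z - y‖ := le_mul_of_one_le_left (norm_nonneg _) hP.one_le
  have h8 := norm_nonneg (z - y)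
  rw [abs_le] at h5 h6 ⊢
  constructor <;> linarith [h5.1, h5.2, h6.1, h6.2]

theorem bad_bad (hP : P.Ok) (hβ : P.Λ * β ≤ 1 / 10) (hC : M.Cover P k β u b p Ro) {y w : ℂ}
    (hy : y ∈ u) (hw : w ∈ u) : |p y 2 - p w 2| ≤ 4 * P.Λ₀ * ‖y - w‖ := by
  rcases eq_or_ne y w with rfl | hne
  · simp
  have h1 := hC.cell y hy
  have h2 := hC.cell w hw
  obtain ⟨-, h3, h4, -⟩ := h1.mul_le hP hβ
  obtain ⟨h5, -, h6, -⟩ := h2.mul_le hP hβ
  have hb := h1.pos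
  have hb' := h2.pos
  have h7 := (disjoint_closedBall_closedBall_iff (by linarith) (by linarith)).1
    (hC.disj y hy w hw hne)
  rw [dist_eq_norm] at h7
  obtain ⟨x, hx, hx'⟩ := Surf.exists_mem_of_Θ_pos (M := M) (p := p w) (r := 2 * b w) (by linarith)
    (by linarith [h2.dens])
  rw [mem_ball_iff_norm] at hx'
  have h8 : |x 2 - p w 2| ≤ ‖x - p w‖ := abs_two_le (x - p w)
  have h9 : ‖pr x - w‖ ≤ ‖x - p w‖ := by
    have h := norm_pr_le (x - p w)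
    rwa [pr_sub, h2.base] at h
  have h10 : ‖pr x - y‖ ≤ ‖pr x - w‖ + ‖y - w‖ := by
    rw [norm_sub_rev y w]
    exact norm_sub_le_norm_sub_add_norm_sub _ _ _
  have h11 := abs_le.1 h2.low
  have h12 := abs_le.1 h8
  have h13 := abs_le.1 (ht h1 hP (ρ := ‖y - w‖ + 2 * b w) (by linarith) hx
    (abs_lt.2 ⟨by linarith [h11.1, h12.1], by linarith [h11.2, h12.2]⟩) (by linarith))
  have h14 : ‖y - w‖ ≤ P.Λ₀ * ‖y - w‖ := le_mul_of_one_le_left (norm_nonneg _) hP.one_le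
  rw [abs_le]
  constructor <;> linarith [h12.1, h12.2, h13.1, h13.2]

theorem not_mem (hP : P.Ok) (hC : M.Cover P k β u b p Ro) {y : ℂ} (hy : y ∈ u) : y ∉ Ro := by
  intro h
  have h1 := hC.off y h y hy
  have h2 := (hC.cell y hy).pos
  have h3 := hP.four_le
  rw [sub_self, norm_zero] at h1
  have h4 : 0 < 5 * P.Λ * b y := by positivity
  linarith

end DMID

theorem mid_of (hR : S_RCELL) : S_MID := by
  intro M P k β u b p Ro hM hP hβ hC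
  classical
  have hK : 0 ≤ 4 * P.Λ₀ := by linarith [hP.one_le]
  have hL : LipschitzOnWith ⟨4 * P.Λ₀, hK⟩
      (fun z => if z ∈ Ro then (M.hi z + M.lo z) / 2 else p z 2) (Ro ∪ u) := by
    refine LipschitzOnWith.of_dist_le_mul fun z hz w hw => ?_
    rw [dist_eq_norm z w, Real.dist_eq]
    change _ ≤ 4 * P.Λ₀ * ‖z - w‖
    rcases hz with hz | hz <;> rcases hw with hw | hw
    · obtain ⟨h1, h2⟩ := DMID.reg_reg hR hM hP hC hz hw
      rw [if_pos hz, if_pos hw]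
      rw [abs_le] at h1 h2 ⊢
      constructor <;> linarith [h1.1, h1.2, h2.1, h2.2]
    · rw [if_pos hz, if_neg (DMID.not_mem hP hC hw)]
      exact DMID.reg_bad hR hM hP hβ hC hz hw
    · rw [if_pos hw, if_neg (DMID.not_mem hP hC hz), abs_sub_comm, norm_sub_rev]
      exact DMID.reg_bad hR hM hP hβ hC hw hz
    · rw [if_neg (DMID.not_mem hP hC hz), if_neg (DMID.not_mem hP hC hw)]
      exact DMID.bad_bad hP hβ hC hz hw
  obtain ⟨a, ha, he⟩ := hL.extend_real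
  refine ⟨a, fun z w => ?_, fun z hz => ?_, fun y hy => ?_,
    fun z hz w hw => (DMID.reg_reg hR hM hP hC hz hw).1⟩
  · have h := ha.dist_le_mul z w
    rwa [dist_eq_norm z w, Real.dist_eq] at h
  · rw [← he (.inl hz)]
    exact if_pos hz
  · rw [← he (.inr hy)]
    exact if_neg (DMID.not_mem hP hC hy)

end MW
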