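import Pool.Agent.P.MP_064970_gt.D.API

/-! D6. C = 12800. exists_frame reduces to e = e3, r = 1 (IsSim.hkF, flatW_zero, E0_ball, Θ_zero, inner_simMap). δ ≤ k^4 ≤ k/2. w = wedge ν e3 ≤ 1/2: q = (9/10) v (exists_steepest), FlatW.exists_mem gives x ∈ S, ‖x - q‖ < δ,
|x 2| ≤ 1/10. Slab (ball 0 1) 1 2; Z = cyl (ball 0 1) 2 ⊆ ball 0 3 ⊆ ball 0 (1/δ), μ(Z) ≥ μ(ball 0 1) ≥ π/4 Θ 0 1 ≥ 1 (MONO, Θ_le_mass). ELB: w^2 ≤ 8β + 800δ ≤ k^4/16.
abs_inner_le_add_wedge and FlatW.side. -/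

open MeasureTheory Set Filter Topology Metric
open scoped RealInnerProductSpace ENNReal NNReal ComplexConjugate Real

noncomputable section

namespace MW

namespace DNEXT

theorem num {k δ β : ℝ} (hk : 0 < k) (hk1 : k ≤ 1 / 10) (hβ : 0 ≤ β)
    (h : 12800 * (β + δ) ≤ k ^ 4) : δ ≤ k / 2 ∧ δ ≤ 1 / 20 := by
  have h1 : k ^ 3 ≤ 1 := pow_le_one₀ hk.le (by linarith)
  have h2 : k ^ 4 ≤ k := by nlinarith
  constructor <;> linarith

theorem wedge_half {M : Surf} {ν : E} {δ : ℝ} (hδ : 0 < δ) (hδ1 : δ ≤ 1 / 20)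
    (hs : ∀ x ∈ ball (0 : E) 3, 1 / 10 < |x 2| → x ∈ M.W') (hF : M.FlatW 0 1 δ ν) :
    wedge ν e3 ≤ 1 / 2 := by
  obtain ⟨v, h1, h2, h3⟩ := exists_steepest norm_e3 hF.unit
  have h4 : ‖(9 / 10 : ℝ) • v‖ = 9 / 10 := by
    rw [norm_smul, h1, mul_one, Real.norm_of_nonneg (by norm_num)]
  obtain ⟨x, hx, h5⟩ := hF.exists_mem one_pos hδ (by linarith) (q := (9 / 10 : ℝ) • v)
    (by
      rw [mem_ball_zero_iff, h4, lt_div_iff₀ hδ]
      linarith) (by rw [sub_zero, real_inner_smul_left, h2, mul_zero])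
  rw [mem_ball_iff_norm, mul_one] at h5
  have h6 : ‖x‖ < 3 := by
    have := norm_le_norm_sub_add x ((9 / 10 : ℝ) • v)
    linarith
  have h7 : |x 2| ≤ 1 / 10 := not_lt.1 fun h => Surf.not_mem_W' hx (hs x (mem_ball_zero_iff.2 h6) h)
  have h8 := (abs_two_le _).trans h5.le
  rw [← inner_e3, inner_sub_left, real_inner_smul_left, h3, inner_e3] at h8
  linarith [(abs_le.1 h7).2, (abs_le.1 h8).1]

theorem wedge_small (hE : S_ELB) (hM : S_MONO) {M : Surf} (hm : M.Mem) {ν : E} {k δ β : ℝ}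
    (hk : 0 < k) (hk1 : k ≤ 1 / 10) (hδ : 0 < δ) (hδ1 : δ ≤ 1 / 20)
    (hs : ∀ x ∈ ball (0 : E) 3, 1 / 10 < |x 2| → x ∈ M.W') (hF : M.FlatW 0 1 δ ν)
    (hd : 2 - M.Θ 0 k ≤ k) (h0 : M.E0 e3 (ball 0 3) ≤ β) : wedge ν e3 ^ 2 ≤ 8 * β + 800 * δ := by
  have h1 : cyl (ball 0 1) 2 ⊆ ball (0 : E) 3 := cyl_subset_ball (ρ := 1)
    (fun z hz => (mem_ball_zero_iff.1 hz).le) (by norm_num) (by norm_num) (by norm_num)
  have h2 : M.Slab (ball 0 1) 1 2 := fun y hy t h3 h4 => by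
    refine hs _ (mem_ball_zero_iff.2 ((norm_le_pr_add _).trans_lt ?_)) ?_
    · rw [pr_pt, pt_two]
      linarith [mem_ball_zero_iff.1 hy]
    · rw [pt_two]
      linarith
  have h3 := hE M hm (ball 0 1) 1 2 ν measurableSet_ball isBounded_ball one_pos one_lt_two h2
    hF.unit (wedge_half hδ hδ1 hs hF)
  have h4 : M.E0 e3 (cyl (ball 0 1) 2) ≤ M.E0 e3 (ball 0 3) :=
    hm.E0_mono norm_e3 (inter_subset_left.trans h1) isBounded_ball
  have hi : IntegrableOn (fun x => wedge (M.N x) ν ^ 2) (ball 0 (1 / δ)) M.μ := by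
    refine hm.bd.integrableOn (C := 1) isBounded_ball ?_ (fun x hx => ?_) measurableSet_ball
    · exact (continuous_wedge.measurable.comp (M.N_meas.prodMk measurable_const)).pow_const 2
    · rw [abs_of_nonneg (sq_nonneg _)]
      exact pow_le_one₀ (wedge_nonneg _ _) (wedge_le_one (M.N_unit x hx.2) hF.unit)
  have h5 : cyl (ball 0 1) 2 ⊆ ball (0 : E) (1 / δ) := h1.trans (ball_subset_ball (by
    rw [le_div_iff₀ hδ]
    linarith))
  have h6 := (setIntegral_mono_set hi (Eventually.of_forall fun x => sq_nonneg _)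
    h5.eventuallyLE).trans hF.tilt
  have h7 := hm.bd.Θ_le_mass 0 one_pos
  have h8 := (hM M 0 k 1 hk (by linarith) (hm.sub _)).1
  have h9 : M.μ.real (ball 0 1) ≤ M.μ.real (cyl (ball 0 1) 2) :=
    measureReal_mono (ball_subset_cyl le_rfl one_le_two)
      (hm.bd.lt_top (isBounded_ball.subset h1)).ne
  have h10 : 1 ≤ M.μ.real (cyl (ball 0 1) 2) := by nlinarith [Real.pi_gt_three]
  nlinarith [sq_nonneg (wedge ν e3)]

theorem unit (hE : S_ELB) (hM : S_MONO) {M : Surf} (hm : M.Mem) {ν : E} {k δ β : ℝ}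
    (hk : 0 < k) (hk1 : k ≤ 1 / 10) (hδ : 0 < δ) (hβ : 0 ≤ β) (h : 12800 * (β + δ) ≤ k ^ 4)
    (hs : ∀ x ∈ ball (0 : E) 3, 1 / 10 < |x 2| → x ∈ M.W') (hF : M.FlatW 0 1 δ ν)
    (hd : 2 - M.Θ 0 k ≤ k) (h0 : M.E0 e3 (ball 0 3) ≤ β) : M.HkF e3 1 k := by
  obtain ⟨h1, h2⟩ := num hk hk1 hβ h
  have h3 := wedge_small hE hM hm hk hk1 hδ h2 hs hF hd h0
  have h4 : wedge ν e3 ≤ k ^ 2 / 4 :=
    (sq_le_sq₀ (wedge_nonneg _ _) (by positivity)).1 (by nlinarith)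
  refine ⟨by rwa [mul_one], fun x hx hl => hF.side x ?_ ?_⟩
  · refine ball_subset_ball ?_ hx
    rw [div_le_div_iff₀ hk hδ]
    linarith
  · rw [mem_ball_zero_iff, lt_div_iff₀ hk] at hx
    have h5 := abs_inner_le_add_wedge norm_e3 hF.unit x
    have h6 := mul_le_mul_of_nonneg_right h4 (norm_nonneg x)
    rw [sub_zero]
    nlinarith

end DNEXT

theorem next_of (hE : S_ELB) (hM : S_MONO) : S_NEXT := by
  refine ⟨12800, by norm_num, fun M e ν r k δ β hm he hr hk hk1 hδ hβ h hs hF hd h0 => ?_⟩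
  obtain ⟨M', A, rfl, hS⟩ := M.exists_frame he hr
  have h1 := hS.hkF e3 1 k
  have h2 := hS.flatW_zero 1 δ (A.symm ν)
  have h3 := hS.E0_ball e3 3
  rw [mul_one] at h1 h2
  rw [A.apply_symm_apply] at h2
  refine h1.2 (DNEXT.unit hE hM (hS.symm.mem hm) hk hk1 hδ hβ h (fun x hx hl => ?_) (h2.1 hF) ?_ ?_)
  · refine (hS.W' x).1 (hs _ ?_ ?_)
    · rw [← hS.preimage_ball, mul_comm] at hx
      exact hx
    · rw [IsSim.inner_simMap, abs_mul, abs_of_pos hr, inner_e3]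
      nlinarith
  · rwa [← hS.Θ_zero, mul_comm]
  · rw [mul_comm 3 r, h3, mul_comm β] at h0
    exact le_of_mul_le_mul_left h0 (by positivity)

end MW
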