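import Pool.Agent.P.MP_064970_gt.D.API

/-! D5. A e3 = dir g (exists_iso_e3). T y = vp g (A (pt y 0)) is real linear on ℂ, vp g x = T (prA A x) (apply_pt_prA, vp_dir), with inverse w ↦ prA A (pt w 0) (eq_pt_vp), which is 1-Lipschitz,
so |det| ≤ 1 (a 2 x 2 determinant is at most the product of the norms of the images of 1 and I). Last clause of AREA with n = 1, f = F ∘ T, then ∫⁻ F ∘ T = |det T⁻¹| ∫⁻ F
(Measure.map_linearMap_addHaar_eq_smul_addHaar, lintegral_map). -/

open MeasureTheory Set Filter Topology Metric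
open scoped RealInnerProductSpace ENNReal NNReal ComplexConjugate Real

noncomputable section

namespace MW

namespace DOBL

theorem abs_det_le (S : ℂ →ₗ[ℝ] ℂ) (h : ∀ w, ‖S w‖ ≤ ‖w‖) : |LinearMap.det S| ≤ 1 := by
  have h1 := h 1
  have h2 := h Complex.I
  rw [norm_one] at h1
  rw [Complex.norm_I] at h2
  have h3 : (S 1).re ^ 2 + (S 1).im ^ 2 ≤ 1 := by
    have := pow_le_one₀ (n := 2) (norm_nonneg _) h1
    rw [Complex.sq_norm, Complex.normSq_apply] at this
    linarith
  have h4 : (S Complex.I).re ^ 2 + (S Complex.I).im ^ 2 ≤ 1 := by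
    have := pow_le_one₀ (n := 2) (norm_nonneg _) h2
    rw [Complex.sq_norm, Complex.normSq_apply] at this
    linarith
  rw [← LinearMap.det_toMatrix Complex.basisOneI, Matrix.det_fin_two]
  simp only [LinearMap.toMatrix_apply, Complex.coe_basisOneI_repr, Complex.coe_basisOneI,
    Matrix.cons_val_zero, Matrix.cons_val_one]
  rw [abs_le]
  constructor
  · nlinarith [sq_nonneg ((S 1).re + (S Complex.I).im), sq_nonneg ((S 1).im - (S Complex.I).re)]
  · nlinarith [sq_nonneg ((S 1).re - (S Complex.I).im), sq_nonneg ((S 1).im + (S Complex.I).re)]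

/-- The embedding of the horizontal plane. -/
def pt0 : ℂ →ₗ[ℝ] E where
  toFun y := pt y 0
  map_add' y z := by rw [← pt_add, add_zero]
  map_smul' c y := by rw [RingHom.id_apply, ← pt_smul, mul_zero]

/-- The oblique projection as a linear map. -/
def vpL (g : ℂ) : E →ₗ[ℝ] ℂ where
  toFun := vp g
  map_add' := vp_add g
  map_smul' := vp_smul g

end DOBL

theorem obl_of (hA : S_AREA) : S_OBL := by
  intro M g G F hG hGS hinj hF
  obtain ⟨A, hAe⟩ := exists_iso_e3 (norm_dir g)
  let T : ℂ →ₗ[ℝ] ℂ := DOBL.vpL g ∘ₗ A.toLinearEquiv.toLinearMap ∘ₗ DOBL.pt0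
  let S : ℂ →ₗ[ℝ] ℂ := prL.toLinearMap ∘ₗ A.symm.toLinearEquiv.toLinearMap ∘ₗ DOBL.pt0
  have hT : ∀ x, T (prA A x) = vp g x := fun x => by
    change vp g (A (pt (prA A x) 0)) = vp g x
    conv_rhs => rw [← apply_pt_prA A x, ← zero_add ⟪x, A e3⟫, ← pt_add_smul_e3, map_add, map_smul,
      hAe, vp_add, vp_smul, vp_dir, smul_zero, add_zero]
  have hTS : T ∘ₗ S = LinearMap.id := LinearMap.ext fun w =>
    (hT (pt w 0)).trans (vp_pt_zero g w)
  have hdet : LinearMap.det T * LinearMap.det S = 1 := by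
    rw [← LinearMap.det_comp, hTS, LinearMap.det_id]
  have hS : |LinearMap.det S| ≤ 1 := DOBL.abs_det_le S fun w =>
    (norm_pr_le _).trans ((A.symm.norm_map _).trans (norm_pt_zero w)).le
  have hTm : Measurable T := T.continuous_of_finiteDimensional.measurable
  have h1 := (((hA M A).2.2 G hG hGS).2 (fun y => F (T y)) (hF.comp hTm)).2 1 fun y => by
    rw [Nat.cast_one, encard_le_one_iff]
    intro x x' hx hx'
    refine hinj x hx.1 x' hx'.1 ?_
    rw [← hT, ← hT, show prA A x = y from hx.2, show prA A x' = y from hx'.2]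
  simp only [hT, hAe, Nat.cast_one, one_mul] at h1
  refine h1.trans ((setLIntegral_le_lintegral _ _).trans ?_)
  rw [← lintegral_map hF hTm,
    Measure.map_linearMap_addHaar_eq_smul_addHaar _ (left_ne_zero_of_mul_eq_one hdet),
    lintegral_smul_measure, inv_eq_of_mul_eq_one_right hdet, smul_eq_mul]
  exact mul_le_of_le_one_left' (ENNReal.ofReal_le_one.2 hS)

end MW
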