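import Pool.Agent.P.MP_064970_gt.D.API

/-! D3, sheets. The set of heights over z is {t₁, t₂}, so hi z = t₁, lo z = t₂ (csSup_pair, csInf_pair). partner by ell_eq. N 2 ≥ 9/10 above and ≤ -9/10 below.
LG at both points gives local graphs u, w; near z both values lie in (-1,1), u > w (continuity), both points are in S, so hi = u and lo = w near z
(HasFDerivAt.congr_of_eventuallyEq, slp_apply). Lipschitz bound: ‖slp N‖ ≤ 2 om (ALG) and Convex.norm_image_sub_le_of_norm_hasFDerivWithin_le on the ball. -/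

open MeasureTheory Set Filter Topology Metric
open scoped RealInnerProductSpace ENNReal NNReal ComplexConjugate Real

noncomputable section

namespace MW

namespace DRCELL

theorem slp_eq (n : E) (w : ℂ) : slp n w = -⟪pr n, w⟫ / n 2 := by
  simp only [slp, smul_apply, innerSL_apply_apply, smul_eq_mul]
  ring

/-- The highest and the lowest point when there are exactly two points. -/
theorem hi_lo {M : Surf} {z : ℂ} {t₁ t₂ : ℝ} (hlt : t₂ < t₁) (h1 : |t₁| < 1) (h2 : |t₂| < 1)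
    (m1 : pt z t₁ ∈ M.S) (m2 : pt z t₂ ∈ M.S)
    (hu : ∀ t, |t| < 1 → pt z t ∈ M.S → t = t₁ ∨ t = t₂) : M.hi z = t₁ ∧ M.lo z = t₂ := by
  constructor
  · refine IsGreatest.csSup_eq ⟨⟨h1, m1⟩, fun t ht => ?_⟩
    rcases hu t ht.1 ht.2 with h | h
    · exact h.le
    · rw [h]; exact hlt.le
  · refine IsLeast.csInf_eq ⟨⟨h2, m2⟩, fun t ht => ?_⟩
    rcases hu t ht.1 ht.2 with h | h
    · rw [h]; exact hlt.le
    · exact h.ge

theorem partner_eq {M : Surf} {z : ℂ} {t₁ t₂ : ℝ} (hlt : t₂ < t₁) (h1 : |t₁| < 1) (h2 : |t₂| < 1)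
    (m2 : pt z t₂ ∈ M.S) (hu : ∀ t, |t| < 1 → pt z t ∈ M.S → t = t₁ ∨ t = t₂) :
    M.partner e3 (pt z t₁) = pt z t₂ := by
  have h : M.ell e3 (pt z t₁) = t₁ - t₂ := by
    refine IsLeast.csInf_eq ⟨⟨sub_pos.2 hlt, ?_⟩, fun t ht => ?_⟩
    · rw [pt_sub_smul_e3, sub_sub_cancel]; exact m2
    · by_contra hc
      have h3 : t < t₁ - t₂ := not_le.1 hc
      have h4 := ht.2
      have h5 := ht.1
      rw [pt_sub_smul_e3] at h4
      have h6 := abs_lt.1 h1
      have h7 := abs_lt.1 h2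
      rcases hu _ (abs_lt.2 ⟨by linarith, by linarith⟩) h4 with h | h <;> linarith
  rw [Surf.partner, h, pt_sub_smul_e3, sub_sub_cancel]

theorem two_ne_of_sub {n : E} {om : ℝ} (hom : om ≤ 1 / 10) (h : ‖n - e3‖ ≤ om) : n 2 ≠ 0 := by
  intro h0
  have h1 := abs_two_le (n - e3)
  rw [PiLp.sub_apply, h0, e3_two] at h1
  norm_num at h1
  linarith

theorem two_ne_of_add {n : E} {om : ℝ} (hom : om ≤ 1 / 10) (h : ‖n + e3‖ ≤ om) : n 2 ≠ 0 := by
  intro h0
  have h1 := abs_two_le (n + e3)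
  rw [PiLp.add_apply, h0, e3_two] at h1
  norm_num at h1
  linarith

/-- A local graph through a point with a normal that is not horizontal. -/
theorem exists_graph (hL : S_LG) {M : Surf} {z : ℂ} {t : ℝ} (hm : pt z t ∈ M.S)
    (hn : M.N (pt z t) 2 ≠ 0) : ∃ u : ℂ → ℝ, u z = t ∧ HasFDerivAt u (slp (M.N (pt z t))) z ∧
      ∀ᶠ w in 𝓝 z, pt w (u w) ∈ M.S := by
  obtain ⟨ρ, δ, u, hρ, -, hu, h0, h⟩ := hL M _ hm hn
  rw [pr_pt] at hu h0 h
  rw [pt_two] at h0
  refine ⟨u, h0, ?_, ?_⟩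
  · have hd : DifferentiableAt ℝ u z :=
      (hu.contDiffAt (ball_mem_nhds z hρ)).differentiableAt (by simp)
    have he : fderiv ℝ u z = slp (M.N (pt z t)) := by
      refine ContinuousLinearMap.ext fun w => ?_
      rw [(h z (mem_ball_self hρ)).2.2.1 w, slp_eq, h0]
    rw [← he]
    exact hd.hasFDerivAt
  · filter_upwards [ball_mem_nhds z hρ] with w hw
    exact ((h w hw).2.2.2 _ (h w hw).1).2 rfl

theorem sheet (hL : S_LG) {M : Surf} {om : ℝ} {y : ℂ} {r : ℝ} (hom : om ≤ 1 / 10)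
    (h : M.TyR om y r 1) {z : ℂ} (hz : z ∈ ball y r) : M.Sheet om z := by
  obtain ⟨t₁, t₂, hlt, h1, h2, m1, m2, n1, n2, hu⟩ := h z hz
  obtain ⟨e1, e2⟩ := hi_lo hlt h1 h2 m1 m2 hu
  obtain ⟨u, hu0, hud, hum⟩ := exists_graph hL m1 (two_ne_of_sub hom n1)
  obtain ⟨v, hv0, hvd, hvm⟩ := exists_graph hL m2 (two_ne_of_add hom n2)
  have hev : ∀ᶠ w in 𝓝 z, M.hi w = u w ∧ M.lo w = v w := by
    have c1 : ∀ᶠ w in 𝓝 z, |u w| < 1 :=
      hud.continuousAt.abs.eventually_lt continuousAt_const (by rwa [hu0])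
    have c2 : ∀ᶠ w in 𝓝 z, |v w| < 1 :=
      hvd.continuousAt.abs.eventually_lt continuousAt_const (by rwa [hv0])
    have c3 : ∀ᶠ w in 𝓝 z, v w < u w :=
      hvd.continuousAt.eventually_lt hud.continuousAt (by rwa [hu0, hv0])
    filter_upwards [c1, c2, c3, hum, hvm, isOpen_ball.mem_nhds hz] with w a1 a2 a3 a4 a5 hw
    obtain ⟨s₁, s₂, slt, -, -, -, -, -, -, su⟩ := h w hw
    refine hi_lo a3 a1 a2 a4 a5 fun t ht hm => ?_
    rcases su _ a1 a4 with b1 | b1 <;> rcases su _ a2 a5 with b2 | b2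
    · linarith
    · rw [b1, b2]; exact su t ht hm
    · linarith
    · linarith
  refine ⟨by rwa [e1, e2], by rwa [e1], by rwa [e2], by rwa [e1], by rwa [e2], by rwa [e1],
    by rwa [e2], by rwa [e1, e2], ?_, ?_, ?_⟩
  · rw [e1, e2]; exact partner_eq hlt h1 h2 m2 hu
  · rw [e1]; exact hud.congr_of_eventuallyEq (hev.mono fun w hw => hw.1)
  · rw [e2]; exact hvd.congr_of_eventuallyEq (hev.mono fun w hw => hw.2)

end DRCELL

theorem rcell_of (hL : S_LG) (hA : S_ALG) : S_RCELL := by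
  intro M om y r _ _ hom h
  have hs : ∀ z ∈ ball y r, M.Sheet om z := fun z hz => DRCELL.sheet hL hom h hz
  have hb : ∀ z ∈ ball y r, ‖slp (M.N (pt z (M.hi z)))‖ ≤ 2 * om ∧
      ‖slp (M.N (pt z (M.lo z)))‖ ≤ 2 * om := fun z hz =>
    (hA _ _ om (M.N_unit _ (hs z hz).hi_mem) (M.N_unit _ (hs z hz).lo_mem) hom (hs z hz).hi_N
      (hs z hz).lo_N).2.2
  refine ⟨hs, fun z hz w hw => ⟨?_, ?_⟩⟩
  · exact (convex_ball y r).norm_image_sub_le_of_norm_hasFDerivWithin_le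
      (f' := fun z => slp (M.N (pt z (M.hi z)))) (fun x hx => (hs x hx).hi_der.hasFDerivWithinAt)
      (fun x hx => (hb x hx).1) hw hz
  · exact (convex_ball y r).norm_image_sub_le_of_norm_hasFDerivWithin_le
      (f' := fun z => slp (M.N (pt z (M.lo z)))) (fun x hx => (hs x hx).lo_der.hasFDerivWithinAt)
      (fun x hx => (hb x hx).2) hw hz

end MW
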