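import Pool.Agent.P.MP_064970_gt.D.API

/-! D3. Area formula on the upper sheet: AREAR applied to the indicator of the top points of the
cylinder that lie on the surface. -/

open MeasureTheory Set Filter Topology Metric
open scoped RealInnerProductSpace ENNReal NNReal ComplexConjugate Real

noncomputable section

namespace MW

namespace DROI

theorem meas_top (M : Surf) : MeasurableSet (M.top e3) :=
  measurableSet_lt measurable_const (M.N_meas.inner_const (𝕜 := ℝ) (c := e3))

theorem meas_cyl {K : Set ℂ} (hK : MeasurableSet K) (T : ℝ) : MeasurableSet (cyl K T) := by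
  have h2 : Measurable fun x : E => x 2 :=
    (EuclideanSpace.proj (2 : Fin 3) : E →L[ℝ] ℝ).continuous.measurable
  exact (measurable_pr hK).inter (measurableSet_lt h2.abs measurable_const)

theorem hi_top {M : Surf} {om : ℝ} (ho : om ≤ 1 / 10) {z : ℂ} (h : M.Sheet om z) :
    pt z (M.hi z) ∈ M.top e3 := by
  have h1 := (abs_two_le _).trans h.hi_N
  have h2 : (M.N (pt z (M.hi z)) - e3) 2 = M.N (pt z (M.hi z)) 2 - 1 := rfl
  rw [h2, abs_le] at h1
  show 0 < ⟪M.N (pt z (M.hi z)), e3⟫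
  rw [inner_e3]
  linarith [h1.1]

theorem lo_not_top {M : Surf} {om : ℝ} (ho : om ≤ 1 / 10) {z : ℂ} (h : M.Sheet om z) :
    pt z (M.lo z) ∉ M.top e3 := by
  have h1 := (abs_two_le _).trans h.lo_N
  have h2 : (M.N (pt z (M.lo z)) + e3) 2 = M.N (pt z (M.lo z)) 2 + 1 := rfl
  rw [h2, abs_le] at h1
  show ¬ 0 < ⟪M.N (pt z (M.lo z)), e3⟫
  rw [inner_e3]
  linarith [h1.2]

theorem fibre_sum {M : Surf} {om : ℝ} (ho : om ≤ 1 / 10) {A : Set ℂ}
    (hs : ∀ z ∈ A, M.Sheet om z) (f : E → ℝ) (z : ℂ) :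
    ∑ᶠ t ∈ {t : ℝ | pt z t ∈ M.S}, (cyl A 1 ∩ M.top e3 ∩ M.S).indicator f (pt z t)
      = A.indicator (fun z => f (pt z (M.hi z))) z := by
  by_cases hz : z ∈ A
  · have h := hs z hz
    have hm : pt z (M.hi z) ∈ cyl A 1 ∩ M.top e3 ∩ M.S :=
      ⟨⟨⟨hz, h.hi_lt⟩, hi_top ho h⟩, h.hi_mem⟩
    rw [indicator_of_mem hz, finsum_mem_def, finsum_eq_single _ (M.hi z)]
    · rw [indicator_of_mem (show M.hi z ∈ {t : ℝ | pt z t ∈ M.S} from h.hi_mem),
        indicator_of_mem hm]
    · intro t ht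
      refine indicator_apply_eq_zero.2 fun _ => indicator_of_notMem (fun hx => ?_) _
      rcases h.uniq t hx.1.1.2 hx.2 with e | e
      · exact ht e
      · exact lo_not_top ho h (e ▸ hx.1.2)
  · rw [indicator_of_notMem hz]
    exact finsum_mem_eq_zero_of_forall_eq_zero fun t _ =>
      indicator_of_notMem (fun hx => hz hx.1.1.1) _

end DROI

theorem roi_of (hA : S_AREAR) : S_ROI := by
  intro M om A f C hM ho hAm hAb hs hf hC
  obtain ⟨ρ, hρ⟩ := hAb.exists_norm_le
  have hD : MeasurableSet (cyl A 1 ∩ M.top e3) := (DROI.meas_cyl hAm 1).inter (DROI.meas_top M)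
  have hB : MeasurableSet (cyl A 1 ∩ M.top e3 ∩ M.S) := hD.inter M.measurableSet_S
  obtain ⟨-, h2, h3⟩ := hA M hM ((cyl A 1 ∩ M.top e3 ∩ M.S).indicator f) (ρ + 1) (max C 0)
    (hf.indicator hB) (fun x => by
      by_cases hx : x ∈ cyl A 1 ∩ M.top e3 ∩ M.S
      · rw [indicator_of_mem hx]
        exact (hC x hx.2).trans (le_max_left _ _)
      · rw [indicator_of_notMem hx, abs_zero]
        exact le_max_right _ _) (fun x hx => indicator_of_notMem (fun hm => by
      have h1 := norm_le_pr_add x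
      have h2 := hρ _ hm.1.1.1
      have h3 := hm.1.1.2
      linarith) _)
  simp only [DROI.fibre_sum ho hs f] at h2 h3
  refine ⟨(integrable_indicator_iff hAm).1 h2, ?_⟩
  rw [← integral_indicator hAm, ← h3, ← integral_indicator hD]
  refine integral_congr_ae ?_
  filter_upwards [M.ae_mem] with x hx
  by_cases hm : x ∈ cyl A 1 ∩ M.top e3
  · have h4 : 0 < ⟪M.N x, e3⟫ := hm.2
    rw [inner_e3] at h4
    rw [indicator_of_mem hm, indicator_of_mem (show x ∈ cyl A 1 ∩ M.top e3 ∩ M.S from ⟨hm, hx⟩),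
      abs_of_pos h4]
  · rw [indicator_of_notMem hm, indicator_of_notMem (fun h => hm h.1), zero_mul]

end MW
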