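import Pool.Agent.P.MP_064970_gt.D.API

/-! D6. HkF from FlatW.side (2r/k ≤ r/δ, δ r ≤ k r). exists_frame reduces the energy bound to ν = e3, r = 1. CAC with η = bmp 0 10, T₀ = 2δ, T = 6, c = 0, Slab (closedBall 0 10) (2δ) 6 from FlatW.side (δ ≤ 1/20);
η = 1 over ball 0 5 ⊆ lay 6; |alpha| < 2δ (chord_slab), ‖fderiv η‖ ≤ C_b/10 and 0 off the disc, mass ≤ μ(ball 0 12). -/

open MeasureTheory Set Filter Topology Metric
open scoped RealInnerProductSpace ENNReal NNReal ComplexConjugate Real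

noncomputable section

namespace MW

namespace DSTART

theorem mem_ball12 {x : E} (h1 : ‖pr x‖ ≤ 10) (h2 : |x 2| ≤ 6) : x ∈ ball (0 : E) 12 := by
  rw [mem_ball_zero_iff]
  have h3 := norm_sq_eq x
  have h4 : x 2 ^ 2 ≤ 36 := by
    rw [← sq_abs]
    nlinarith [abs_nonneg (x 2)]
  have h5 : ‖pr x‖ ^ 2 ≤ 100 := by nlinarith [norm_nonneg (pr x)]
  nlinarith [norm_nonneg x]

theorem slab {M : Surf} {δ : ℝ} (hδ : 0 < δ) (hδ1 : δ ≤ 1 / 20) (h : M.FlatW 0 1 δ e3) :
    M.Slab (closedBall 0 10) (2 * δ) 6 := by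
  intro y hy t h1 h2
  have hy' : ‖y‖ ≤ 10 := mem_closedBall_zero_iff.1 hy
  have hb : pt y t ∈ ball (0 : E) 12 := mem_ball12 (by simpa using hy') (by simpa using h2)
  have h12 : (12 : ℝ) ≤ 1 / δ := by
    rw [le_div_iff₀ hδ]
    linarith
  refine h.side _ (ball_subset_ball h12 hb) ?_
  rw [sub_zero, inner_e3]
  have : pt y t 2 = t := by simp
  rw [this]
  linarith

theorem abs_N_le (M : Surf) {x : E} (hx : x ∈ M.S) : |M.N x 2| ≤ 1 := by
  have := abs_two_le (M.N x)
  rwa [M.N_unit x hx] at this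

theorem measurable_N2 (M : Surf) : Measurable fun x => M.N x 2 := by
  have h : Continuous fun v : E => v 2 := by fun_prop
  exact h.measurable.comp M.N_meas

theorem norm_e3' : ‖e3‖ = 1 := by
  have h := norm_pt_sq 0 1
  have h0 := norm_nonneg e3
  unfold e3 at *
  simp only [norm_zero] at h
  nlinarith

/-- The energy over the ball of radius five is below the left side of the inequality. -/
theorem lower {M : Surf} (hM : M.Mem) :
    M.E0 e3 (ball 0 5)
      ≤ ∫ x in lay 6 ∩ M.top e3, bmp 0 10 (pr x) ^ 2 * M.edx e3 x * M.N x 2 ∂M.μ := by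
  have hmeas : Measurable fun x => bmp 0 10 (pr x) ^ 2 * M.edx e3 x * M.N x 2 :=
    ((((contDiff_bmp 0 10).continuous.measurable.comp measurable_pr).pow_const 2).mul
      (hM.measurable_edx e3)).mul (measurable_N2 M)
  have hset : MeasurableSet (lay 6 ∩ M.top e3) :=
    (measurableSet_lay 6).inter (M.measurableSet_top e3)
  have hint : IntegrableOn (fun x => bmp 0 10 (pr x) ^ 2 * M.edx e3 x * M.N x 2)
      (lay 6 ∩ M.top e3) M.μ := by
    rw [← integrable_indicator_iff hset]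
    refine hM.bd.integrable (A := ball 0 12) isBounded_ball (hmeas.indicator hset) (C := 2) ?_ ?_
    · intro x hx
      by_cases hxm : x ∈ lay 6 ∩ M.top e3
      · rw [indicator_of_mem hxm, abs_mul, abs_mul, abs_of_nonneg (M.edx_nonneg e3 x),
          abs_of_nonneg (sq_nonneg _)]
        have h1 : bmp 0 10 (pr x) ^ 2 ≤ 1 :=
          pow_le_one₀ (bmp_nonneg _ _ _) (bmp_le_one _ _ _)
        have h2 := hM.edx_le_two norm_e3' hx
        have h3 := abs_N_le M hx
        have h4 : bmp 0 10 (pr x) ^ 2 * M.edx e3 x ≤ 1 * 2 :=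
          mul_le_mul h1 h2 (M.edx_nonneg e3 x) zero_le_one
        calc bmp 0 10 (pr x) ^ 2 * M.edx e3 x * |M.N x 2| ≤ 1 * 2 * 1 :=
              mul_le_mul h4 h3 (abs_nonneg _) (by norm_num)
          _ = 2 := by norm_num
      · rw [indicator_of_notMem hxm]
        norm_num
    · intro x _ hb
      by_cases hxm : x ∈ lay 6 ∩ M.top e3
      · rw [indicator_of_mem hxm]
        have h1 : (10 : ℝ) ≤ ‖pr x - 0‖ := by
          rw [sub_zero]
          by_contra hlt
          exact hb (mem_ball12 (not_le.1 hlt).le (le_of_lt hxm.1))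
        rw [bmp_eq_zero (by norm_num) h1]
        ring
      · exact indicator_of_notMem hxm _
  have hsub : ball (0 : E) 5 ∩ M.top e3 ⊆ lay 6 ∩ M.top e3 := by
    refine inter_subset_inter_left _ fun x hx => ?_
    have h1 := abs_two_le x
    have h2 := mem_ball_zero_iff.1 hx
    show |x 2| < 6
    linarith
  have heq : M.E0 e3 (ball 0 5)
      = ∫ x in ball 0 5 ∩ M.top e3, bmp 0 10 (pr x) ^ 2 * M.edx e3 x * M.N x 2 ∂M.μ := by
    unfold Surf.E0
    refine setIntegral_congr_fun (measurableSet_ball.inter (M.measurableSet_top e3)) ?_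
    intro x hx
    have h1 := norm_pr_le x
    have h2 := mem_ball_zero_iff.1 hx.1
    have h3 : bmp 0 10 (pr x) = 1 := bmp_eq_one (by norm_num) (by rw [sub_zero]; linarith)
    simp only [h3, inner_e3]
    ring
  rw [heq]
  refine setIntegral_mono_set hint ?_ hsub.eventuallyLE
  filter_upwards [ae_restrict_mem hset] with x hx
  have h1 : 0 < M.N x 2 := by
    have := hx.2
    simp only [Surf.top, mem_ofPred_eq, inner_e3] at this
    exact this
  exact mul_nonneg (mul_nonneg (sq_nonneg _) (M.edx_nonneg e3 x)) h1.le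

/-- The right side of the inequality is of order `δ²`. -/
theorem upper {M : Surf} (hM : M.Mem) {δ Cb : ℝ} (hδ : 0 < δ) (hδ1 : δ ≤ 1 / 20)
    (hs : M.Slab (closedBall 0 10) (2 * δ) 6)
    (hb : ∀ w : ℂ, ‖fderiv ℝ (bmp 0 10) w‖ ≤ Cb) :
    ∫ x in lay 6 ∩ M.top e3,
        (M.alpha e3 x - 0) ^ 2 * ‖fderiv ℝ (bmp 0 10) (pr x)‖ ^ 2 * M.N x 2 ∂M.μ
      ≤ (2 * δ) ^ 2 * Cb ^ 2 * (2 * π * 12 ^ 2) := by
  have hset : MeasurableSet (lay 6 ∩ M.top e3) :=
    (measurableSet_lay 6).inter (M.measurableSet_top e3)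
  rw [← integral_indicator hset,
    ← setIntegral_eq_integral_of_forall_compl_eq_zero (s := ball (0 : E) 12)]
  · refine (le_abs_self _).trans (hM.bd.setIntegral_le (by norm_num) (by positivity) ?_)
    intro x hx
    by_cases hxm : x ∈ lay 6 ∩ M.top e3
    · rw [indicator_of_mem hxm]
      by_cases h10 : (10 : ℝ) ≤ ‖pr x - 0‖
      · rw [fderiv_bmp_eq_zero (by norm_num) h10]
        simp only [norm_zero, ne_eq, OfNat.ofNat_ne_zero, not_false_eq_true, zero_pow, mul_zero,
          zero_mul, abs_zero]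
        positivity
      · have hc : x ∈ cyl (closedBall 0 10) 6 := by
          refine ⟨?_, hxm.1⟩
          rw [sub_zero] at h10
          exact mem_closedBall_zero_iff.2 (not_le.1 h10).le
        have h1 : 0 < M.N x 2 := by
          have := hxm.2
          simp only [Surf.top, mem_ofPred_eq, inner_e3] at this
          exact this
        have hal : |M.alpha e3 x| < 2 * δ :=
          ((hM.chord_slab (by positivity) (by linarith) hs hx.1 hc).2 h1).2.2.2.2.1
        have h2 : (M.alpha e3 x - 0) ^ 2 ≤ (2 * δ) ^ 2 := by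
          rw [sub_zero, ← sq_abs]
          exact pow_le_pow_left₀ (abs_nonneg _) hal.le 2
        have h3 : ‖fderiv ℝ (bmp 0 10) (pr x)‖ ^ 2 ≤ Cb ^ 2 :=
          pow_le_pow_left₀ (norm_nonneg _) (hb _) 2
        have h4 := abs_N_le M hx.1
        rw [abs_mul, abs_mul, abs_of_nonneg (sq_nonneg _), abs_of_nonneg (sq_nonneg _)]
        calc (M.alpha e3 x - 0) ^ 2 * ‖fderiv ℝ (bmp 0 10) (pr x)‖ ^ 2 * |M.N x 2|
            ≤ (2 * δ) ^ 2 * Cb ^ 2 * 1 :=
              mul_le_mul (mul_le_mul h2 h3 (sq_nonneg _) (sq_nonneg _)) h4 (abs_nonneg _)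
                (by positivity)
          _ = (2 * δ) ^ 2 * Cb ^ 2 := mul_one _
    · rw [indicator_of_notMem hxm, abs_zero]
      positivity
  · intro x hx
    by_cases hxm : x ∈ lay 6 ∩ M.top e3
    · rw [indicator_of_mem hxm]
      have h1 : (10 : ℝ) ≤ ‖pr x - 0‖ := by
        rw [sub_zero]
        by_contra hlt
        exact hx (mem_ball12 (not_le.1 hlt).le (le_of_lt hxm.1))
      rw [fderiv_bmp_eq_zero (by norm_num) h1]
      simp
    · exact indicator_of_notMem hxm _

/-- The energy bound at unit scale in the vertical frame. -/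
theorem unit (hC : S_CAC) : ∃ C : ℝ, 0 < C ∧ ∀ (M : Surf) (δ : ℝ), M.Mem → 0 < δ → δ ≤ 1 / 20 →
    M.FlatW 0 1 δ e3 → M.E0 e3 (ball 0 5) ≤ C * δ ^ 2 := by
  obtain ⟨Cb, hCb, hb⟩ := exists_bmp_bound
  have hpi := Real.pi_pos
  refine ⟨8 * (4 * (Cb / 10) ^ 2 * (2 * π * 12 ^ 2)), by positivity, ?_⟩
  intro M δ hM hδ hδ1 h
  have hs := slab hδ hδ1 h
  have h1 := hC M hM (bmp 0 10) (2 * δ) 6 0 (contDiff_one_bmp 0 10)
    (hasCompactSupport_bmp 0 (by norm_num)) (by positivity) (by linarith)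
    (hs.mono (tsupport_bmp 0 (by norm_num)) le_rfl le_rfl)
  have h2 := upper hM hδ hδ1 hs (fun w => hb 0 w 10 (by norm_num))
  have h3 := lower hM
  calc M.E0 e3 (ball 0 5) ≤ 8 * ((2 * δ) ^ 2 * (Cb / 10) ^ 2 * (2 * π * 12 ^ 2)) := by linarith
    _ = 8 * (4 * (Cb / 10) ^ 2 * (2 * π * 12 ^ 2)) * δ ^ 2 := by ring

end DSTART

theorem start_of (hC : S_CAC) : S_START := by
  obtain ⟨C, hC0, hU⟩ := DSTART.unit hC
  refine ⟨C, hC0, ?_⟩
  intro M ν r k δ hM hr hk hk1 hδ hδk hF hd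
  refine ⟨⟨hd, fun x hx hlt => hF.side x ?_ ?_⟩, ?_⟩
  · refine ball_subset_ball ?_ hx
    rw [div_le_div_iff₀ hk hδ]
    nlinarith
  · rw [sub_zero]
    have : δ * r ≤ k * r := mul_le_mul_of_nonneg_right (by linarith) hr.le
    linarith
  · obtain ⟨M', A, hA, hS⟩ := M.exists_frame hF.unit hr
    have hM' : M'.Mem := hS.symm.mem hM
    have hF' : M'.FlatW 0 1 δ e3 := by
      rw [← hS.flatW_zero 1 δ e3, mul_one, hA]
      exact hF
    have h1 := hU M' δ hM' hδ (by linarith) hF'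
    have h2 := hS.E0_ball e3 5
    rw [hA, mul_comm r 5] at h2
    rw [h2]
    calc r ^ 2 * M'.E0 e3 (ball 0 5) ≤ r ^ 2 * (C * δ ^ 2) :=
          mul_le_mul_of_nonneg_left h1 (sq_nonneg r)
      _ = C * δ ^ 2 * r ^ 2 := by ring

end MW
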