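import Pool.Agent.P.MP_064970_gt.D.API

/-! D6. C from DECAY, θ₁ ≤ 1/4 with 200 C θ₁^2 ≤ 1, θ = θ₁/10; k₀ = min of k₀(θ₁), θ/20, 1/10; δ = min 1 (k^4/(2 C_n)), η = min k (ε δ), e₀ = min of k^2, k^4/C_n, (1/(120 C))^2.
exists_frame (M', A), hk_iff, IsSim.hkF, E0_ball, typeII; DECAY gives g; e' = A (dir g), ‖e' - e‖ ≤ 2‖g‖ ≤ 1/60. NEXT at r' = θ r with β = Eb/2: |⟪x,e⟫| ≥ |⟪x,e'⟫| - ‖e' - e‖ ‖x‖ > r'/20 ≥ k r;
FlatW 0 r' δ ν from TypeII and MONO; E0_mono for the ball 3r'. -/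

open MeasureTheory Set Filter Topology Metric
open scoped RealInnerProductSpace ENNReal NNReal ComplexConjugate Real

noncomputable section

namespace MW

namespace DSTEP

theorem exists_theta {C : ℝ} (hC : 0 < C) :
    ∃ θ₁ : ℝ, 0 < θ₁ ∧ θ₁ ≤ 1 / 4 ∧ 200 * C * θ₁ ^ 2 ≤ 1 := by
  have h1 : 0 < 1 / (200 * C) := by positivity
  refine ⟨min (1 / 4) (1 / (200 * C)), lt_min (by norm_num) h1, min_le_left _ _, ?_⟩
  set t := min (1 / 4 : ℝ) (1 / (200 * C)) with ht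
  have ht0 : 0 < t := lt_min (by norm_num) h1
  have ht1 : t ≤ 1 / 4 := min_le_left _ _
  have ht2 : t ≤ 1 / (200 * C) := min_le_right _ _
  rw [le_div_iff₀ (by positivity)] at ht2
  have : 200 * C * t ^ 2 = t * (200 * C) * t := by ring
  rw [this]
  nlinarith

theorem abs_inner_ge (x e e' : E) : |⟪x, e'⟫| - ‖e' - e‖ * ‖x‖ ≤ |⟪x, e⟫| := by
  have h1 : ⟪x, e'⟫ = ⟪x, e⟫ + ⟪x, e' - e⟫ := by rw [inner_sub_right]; ring
  have h2 : |⟪x, e' - e⟫| ≤ ‖x‖ * ‖e' - e‖ := abs_real_inner_le_norm _ _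
  have h3 : |⟪x, e'⟫| ≤ |⟪x, e⟫| + |⟪x, e' - e⟫| := by rw [h1]; exact abs_add_le _ _
  linarith [mul_comm ‖x‖ ‖e' - e‖]

/-- The decay estimate carried to the frame `e` and the scale `r`. -/
theorem decay_frame {C θ₁ k Eb r : ℝ} {ε : ℝ → ℝ} {M : Surf} {e : E}
    (H : ∀ M : Surf, M.Mem → M.TypeII ε → M.Hk k → ∀ Eb : ℝ, 0 < Eb → Eb ≤ k ^ 2 →
      M.E0 e3 (ball 0 5) ≤ Eb →
      ∃ g : ℂ, ‖g‖ ≤ C * √Eb ∧ M.E0 (dir g) (ball 0 (θ₁ / 2)) ≤ C * θ₁ ^ 4 * Eb)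
    (hM : M.Mem) (hT : M.TypeII ε) (he : ‖e‖ = 1) (hr : 0 < r) (hE : 0 < Eb) (hEk : Eb ≤ k ^ 2)
    (hH : M.HkF e r k) (h0 : M.E0 e (ball 0 (5 * r)) ≤ Eb * r ^ 2) :
    ∃ e' : E, ‖e'‖ = 1 ∧ ‖e' - e‖ ≤ 2 * C * √Eb ∧
      M.E0 e' (ball 0 (r * (θ₁ / 2))) ≤ r ^ 2 * (C * θ₁ ^ 4 * Eb) := by
  obtain ⟨M', A, hA, hS⟩ := M.exists_frame he hr
  have hM' : M'.Mem := hS.symm.mem hM
  have hT' : M'.TypeII ε := (hS.typeII ε).1 hT
  have hH' : M'.Hk k := by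
    rw [Surf.hk_iff, ← hS.hkF e3 1 k, hA, mul_one]
    exact hH
  have h0' : M'.E0 e3 (ball 0 5) ≤ Eb := by
    have h1 := hS.E0_ball e3 5
    rw [hA, mul_comm r 5] at h1
    rw [h1, mul_comm Eb] at h0
    exact le_of_mul_le_mul_left h0 (by positivity)
  obtain ⟨g, hg, hEg⟩ := H M' hM' hT' hH' Eb hE hEk h0'
  refine ⟨A (dir g), by rw [A.norm_map, norm_dir], ?_, ?_⟩
  · rw [← hA, ← map_sub, A.norm_map]
    have := norm_dir_sub_e3 g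
    linarith
  · rw [hS.E0_ball]
    exact mul_le_mul_of_nonneg_left hEg (by positivity)

end DSTEP

theorem step_of (hD : S_DECAY) (hN : S_NEXT) (hM : S_MONO) : S_STEP := by
  obtain ⟨C, hC, hD⟩ := hD
  obtain ⟨Cn, hCn, hN⟩ := hN
  obtain ⟨θ₁, hθ0, hθ1, hθ2⟩ := DSTEP.exists_theta hC
  refine ⟨θ₁ / 10, 2 * C, by positivity, by linarith, by positivity, fun ε hε => ?_⟩
  obtain ⟨k₁, hk₁, hD⟩ := hD ε hε θ₁ hθ0 hθ1
  refine ⟨min k₁ (min (θ₁ / 200) (1 / 10)), lt_min hk₁ (lt_min (by positivity) (by norm_num)),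
    fun k hk hk0 => ?_⟩
  have hk1 : k ≤ k₁ := hk0.trans (min_le_left _ _)
  have hk2 : k ≤ θ₁ / 200 := hk0.trans ((min_le_right _ _).trans (min_le_left _ _))
  have hk3 : k ≤ 1 / 10 := hk0.trans ((min_le_right _ _).trans (min_le_right _ _))
  obtain ⟨δ, hδ0, hδ1, hδ2⟩ : ∃ δ : ℝ, 0 < δ ∧ δ ≤ 1 ∧ Cn * δ ≤ k ^ 4 / 2 := by
    refine ⟨min 1 (k ^ 4 / (2 * Cn)), lt_min one_pos (by positivity), min_le_left _ _, ?_⟩
    have h1 : min 1 (k ^ 4 / (2 * Cn)) ≤ k ^ 4 / (2 * Cn) := min_le_right _ _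
    calc Cn * min 1 (k ^ 4 / (2 * Cn)) ≤ Cn * (k ^ 4 / (2 * Cn)) :=
          mul_le_mul_of_nonneg_left h1 hCn.le
      _ = k ^ 4 / 2 := by field_simp
  refine ⟨min k (ε δ), min (k ^ 2) (min (k ^ 4 / Cn) ((1 / (120 * C)) ^ 2)), lt_min hk (hε δ hδ0),
    lt_min (by positivity) (lt_min (by positivity) (by positivity)),
    fun M e r Eb hMem hT he hr hE hE0 hH h0 hη => ?_⟩
  have hE1 : Eb ≤ k ^ 2 := hE0.trans (min_le_left _ _)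
  have hE2 : Eb ≤ k ^ 4 / Cn := hE0.trans ((min_le_right _ _).trans (min_le_left _ _))
  have hE3 : Eb ≤ (1 / (120 * C)) ^ 2 := hE0.trans ((min_le_right _ _).trans (min_le_right _ _))
  obtain ⟨e', he', hee, hEe⟩ := DSTEP.decay_frame (hD k hk hk1) hMem hT he hr hE hE1 hH h0
  have hsq : √Eb ≤ 1 / (120 * C) := Real.sqrt_le_iff.2 ⟨by positivity, hE3⟩
  have hee' : ‖e' - e‖ ≤ 1 / 60 := by
    calc ‖e' - e‖ ≤ 2 * C * √Eb := hee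
      _ ≤ 2 * C * (1 / (120 * C)) := mul_le_mul_of_nonneg_left hsq (by positivity)
      _ = 1 / 60 := by field_simp; norm_num
  have hr' : 0 < θ₁ / 10 * r := by positivity
  have hE5 : M.E0 e' (ball 0 (5 * (θ₁ / 10 * r))) ≤ Eb / 2 * (θ₁ / 10 * r) ^ 2 := by
    have h1 : 5 * (θ₁ / 10 * r) = r * (θ₁ / 2) := by ring
    rw [h1]
    refine hEe.trans ?_
    have h2 : r ^ 2 * (C * θ₁ ^ 4 * Eb) = 200 * C * θ₁ ^ 2 * (Eb / 2 * (θ₁ / 10 * r) ^ 2) := by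
      ring
    rw [h2]
    exact mul_le_of_le_one_left (by positivity) hθ2
  refine ⟨e', he', hee, ?_, hE5⟩
  have hmono : M.Θ 0 (k * (θ₁ / 10 * r)) ≤ M.Θ 0 (θ₁ / 10 * r) :=
    (hM M 0 _ _ (by positivity) (mul_le_of_le_one_left hr'.le (by linarith)) (hMem.sub _)).1
  obtain ⟨ν, hν⟩ := hT δ hδ0 hδ1 0 (θ₁ / 10 * r) hr'
    (by linarith [hη.trans (min_le_right k (ε δ))])
  refine hN M e' ν (θ₁ / 10 * r) k δ (Eb / 2) hMem he' hr' hk hk3 hδ0 (by positivity) ?_ ?_ hν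
    (hη.trans (min_le_left _ _)) ?_
  · rw [le_div_iff₀ hCn] at hE2
    nlinarith
  · intro x hx hlt
    rw [mem_ball_zero_iff] at hx
    refine hH.side x ?_ ?_
    · rw [mem_ball_zero_iff]
      refine hx.trans_le ?_
      rw [le_div_iff₀ hk]
      have h1 : θ₁ * k ≤ 1 / 4 * (1 / 10) := mul_le_mul hθ1 hk3 hk.le (by norm_num)
      nlinarith
    · have h1 := DSTEP.abs_inner_ge x e e'
      have h2 : ‖e' - e‖ * ‖x‖ ≤ 1 / 60 * (3 * (θ₁ / 10 * r)) :=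
        mul_le_mul hee' hx.le (norm_nonneg _) (by norm_num)
      have h3 : k * r ≤ θ₁ / 200 * r := mul_le_mul_of_nonneg_right hk2 hr.le
      linarith
  · refine le_trans (hMem.E0_mono he' (inter_subset_left.trans (ball_subset_ball ?_))
      isBounded_ball) hE5
    linarith

end MW
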