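import Pool.Agent.P.MP_064970_gt.D.API

/-! D1, the stopping scale. alt r := first or second alternative of `Stop.stop`. b = sSup {r | 0 < r ∧ r ≤ 1 ∧ alt r}.
Small r: the segment {pt y t, |t| ≤ 1} is compact, every point has a Reg ball (exists_reg, O = univ), Lebesgue number (or finite subcover by
half balls, Reg.mono) gives r₁ with Reg (pt y t) r for all r ≤ r₁, UP gives Θ ≤ 5/4 < 3/2.
r ∈ [β₁, 1], β₁ = min β (1/4): alt r fails for k small: cyl (ball y r) 1 ⊆ ball 0 5, ∫_{ball 0 5} ‖pr N‖^2 ≤ C k^2 (CACC3 with e = e3, c = 0,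
wedge_e3, Hk.abs_le'); Θ 0 r ≥ Θ 0 k ≥ 2 - k (MONO), SHIFT with v = pt y 0: |⟪N,v⟫| ≤ 3‖pr N‖, |ψ 0 x| ≤ 4‖pr N‖ + k on S ∩ ball 0 4,
k ‖pr N‖ ≤ (k^2 + ‖pr N‖^2)/2, so the shift costs ≤ C k^2/β₁^4 ≤ 1/4. Hence b ≤ β₁. For r ∈ (b,1] alt r fails; r = 2b gives p = pt y t, |t| ≤ 1;
exists_mem_of_Θ_pos and Hk.abs_le' give |p 2| ≤ k + 2b. exists_lt_of_lt_csSup gives `stop`. -/

open MeasureTheory Set Filter Topology Metric
open scoped RealInnerProductSpace ENNReal NNReal ComplexConjugate Real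

noncomputable section

namespace MW

namespace DSTOP

variable {M : Surf}

/-- The tilt is integrable on bounded sets. -/
theorem tilt_int (hM : M.Mem) {A : Set E} (hA : Bornology.IsBounded A) (hAm : MeasurableSet A) :
    IntegrableOn (fun x => ‖pr (M.N x)‖ ^ 2) A M.μ := by
  refine hM.bd.integrableOn hA (((measurable_pr.comp M.N_meas).norm).pow_const 2) (C := 1) ?_ hAm
  intro x hx
  have h1 : ‖pr (M.N x)‖ ≤ 1 := (norm_pr_le _).trans (M.N_unit x hx.2).le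
  have h0 : 0 ≤ ‖pr (M.N x)‖ := norm_nonneg _
  rw [abs_of_nonneg (by positivity)]
  nlinarith

theorem tilt_mono (hM : M.Mem) {A : Set E} (hA : A ⊆ ball 0 5) :
    ∫ x in A, ‖pr (M.N x)‖ ^ 2 ∂M.μ ≤ ∫ x in ball (0 : E) 5, ‖pr (M.N x)‖ ^ 2 ∂M.μ :=
  setIntegral_mono_set (tilt_int hM isBounded_ball measurableSet_ball)
    (Eventually.of_forall fun _ => by positivity) hA.eventuallyLE

theorem cyl_sub {y : ℂ} (hy : ‖y‖ ≤ 3) {r : ℝ} (hr : r ≤ 1) : cyl (ball y r) 1 ⊆ ball 0 5 := by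
  intro x hx
  have h1 : ‖pr x - y‖ < r := mem_ball_iff_norm.1 hx.1
  have h2 : |x 2| < 1 := hx.2
  have h3 : ‖pr x‖ ≤ ‖pr x - y‖ + ‖y‖ := norm_le_norm_sub_add _ _
  have h4 := norm_le_pr_add x
  rw [mem_ball_zero_iff]
  linarith

/-- The total tilt is small under `H(k)`. -/
theorem tilt_small (hC : S_CACC3) : ∃ C : ℝ, 0 < C ∧ ∀ (M : Surf) (k : ℝ), M.Mem → 0 < k →
    k ≤ 1 / 20 → M.Hk k → ∫ x in ball (0 : E) 5, ‖pr (M.N x)‖ ^ 2 ∂M.μ ≤ C * k ^ 2 := by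
  obtain ⟨C, hC0, h⟩ := hC.1
  refine ⟨C, hC0, fun M k hM hk hk' hH => ?_⟩
  have h1 := h M hM 0 e3 5 k 0 norm_e3 (by norm_num) fun x hx => by
    have h2 : ‖x‖ < 2 * 5 := mem_ball_zero_iff.1 hx.2
    rw [inner_e3, sub_zero]
    exact hH.abs_le' hk hk' hx.1 (by linarith)
  simpa only [wedge_e3] using h1

/-- Small scales have small density along the vertical segment. -/
theorem exists_small (hU : S_UP) (hM : M.Mem) (y : ℂ) :
    ∃ r : ℝ, 0 < r ∧ r ≤ 1 ∧ ∀ t : ℝ, |t| ≤ 1 → M.Θ (pt y t) r < 3 / 2 := by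
  have h1 : ∀ p : E, ∃ r, 0 < r ∧ M.Reg p r := fun p => M.exists_reg (hM.sub univ (mem_univ p))
  choose ρ hρ hreg using h1
  have hc : Continuous fun t : ℝ => pt y t := by fun_prop
  have hK : IsCompact ((fun t : ℝ => pt y t) '' Icc (-1) 1) := isCompact_Icc.image hc
  obtain ⟨δ, hδ, h⟩ := lebesgue_number_lemma_of_metric (c := fun p : E => ball p (ρ p)) hK
    (fun _ => isOpen_ball) fun x _ => mem_iUnion.2 ⟨x, mem_ball_self (hρ x)⟩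
  refine ⟨min δ 1, lt_min hδ one_pos, min_le_right _ _, fun t ht => ?_⟩
  obtain ⟨q, hq⟩ := h (pt y t) ⟨t, abs_le.1 ht, rfl⟩
  have h2 : M.Reg (pt y t) (min δ 1) :=
    (hreg q).mono ((ball_subset_ball (min_le_left _ _)).trans hq)
  have := hU M hM _ _ (lt_min hδ one_pos) h2
  linarith

/-- The integrand of the shift estimate. -/
theorem shift_pt {k : ℝ} (hk : 0 < k) {y : ℂ} (hy : ‖y‖ ≤ 3) {x : E} (hx : x ∈ M.S)
    (hn : ‖x‖ ≤ 4) (h2 : |x 2| ≤ k) :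
    |⟪M.N x, pt y 0⟫| * (|M.ψ 0 x| + |⟪M.N x, pt y 0⟫|) ≤ 23 * ‖pr (M.N x)‖ ^ 2 + 2 * k ^ 2 := by
  have n0 : 0 ≤ ‖pr (M.N x)‖ := norm_nonneg _
  have h1 : |⟪M.N x, pt y 0⟫| ≤ 3 * ‖pr (M.N x)‖ := by
    rw [inner_pt, mul_zero, add_zero]
    refine (abs_real_inner_le_norm _ _).trans ?_
    nlinarith
  have h3 : |M.ψ 0 x| ≤ 4 * ‖pr (M.N x)‖ + k := by
    rw [Surf.ψ, sub_zero, inner_eq_pr]
    refine (abs_add_le _ _).trans (add_le_add ?_ ?_)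
    · refine (abs_real_inner_le_norm _ _).trans ?_
      exact mul_le_mul_of_nonneg_right ((norm_pr_le x).trans hn) n0
    · rw [abs_mul]
      have h4 : |M.N x 2| ≤ 1 := (abs_two_le _).trans (M.N_unit x hx).le
      calc |x 2| * |M.N x 2| ≤ k * 1 := mul_le_mul h2 h4 (abs_nonneg _) hk.le
        _ = k := mul_one k
  have h5 : |⟪M.N x, pt y 0⟫| * (|M.ψ 0 x| + |⟪M.N x, pt y 0⟫|)
      ≤ 3 * ‖pr (M.N x)‖ * (7 * ‖pr (M.N x)‖ + k) :=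
    mul_le_mul h1 (by linarith) (by positivity) (by positivity)
  nlinarith [sq_nonneg (‖pr (M.N x)‖ - k), sq_nonneg ‖pr (M.N x)‖, sq_nonneg k]

/-- The cost of the shift. -/
theorem shift_le (hM : M.Mem) {k : ℝ} (hk : 0 < k) (hk' : k ≤ 1 / 20) (hH : M.Hk k) {y : ℂ}
    (hy : ‖y‖ ≤ 3) {R : ℝ} (hR0 : 0 < R) (hR : R ≤ 4) :
    ∫ x in ball (0 : E) R, |⟪M.N x, pt y 0⟫| * (|M.ψ 0 x| + |⟪M.N x, pt y 0⟫|) ∂M.μ
      ≤ 23 * (∫ x in ball (0 : E) 5, ‖pr (M.N x)‖ ^ 2 ∂M.μ) + 400 * k ^ 2 := by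
  have hi := tilt_int hM (isBounded_ball (x := (0 : E)) (r := R)) measurableSet_ball
  have hc : IntegrableOn (fun _ : E => 2 * k ^ 2) (ball (0 : E) R) M.μ :=
    integrableOn_const (hM.bd.lt_top isBounded_ball).ne
  have h1 : ∫ x in ball (0 : E) R, |⟪M.N x, pt y 0⟫| * (|M.ψ 0 x| + |⟪M.N x, pt y 0⟫|) ∂M.μ
      ≤ ∫ x in ball (0 : E) R, (23 * ‖pr (M.N x)‖ ^ 2 + 2 * k ^ 2) ∂M.μ := by
    refine integral_mono_of_nonneg (Eventually.of_forall fun _ => by positivity)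
      ((hi.const_mul 23).add hc) ?_
    refine (ae_restrict_iff' measurableSet_ball).2 (M.ae_mem.mono fun x hx hb => ?_)
    have h2 : ‖x‖ < R := mem_ball_zero_iff.1 hb
    exact shift_pt hk hy hx (by linarith) (hH.abs_le' hk hk' hx (by linarith))
  rw [integral_add (hi.const_mul 23) hc, integral_const_mul, setIntegral_const, smul_eq_mul] at h1
  have h3 := tilt_mono hM (A := ball (0 : E) R) (ball_subset_ball (by linarith))
  have h4 := hM.bd.real_ball (0 : E) hR0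
  have h5 : 2 * π * R ^ 2 ≤ 200 := by
    have h6 : R ^ 2 ≤ 16 := by nlinarith
    have h7 := Real.pi_le_four
    have h8 := Real.pi_pos
    nlinarith
  have h9 : M.μ.real (ball (0 : E) R) * (2 * k ^ 2) ≤ 200 * (2 * k ^ 2) :=
    mul_le_mul_of_nonneg_right (h4.trans h5) (by positivity)
  linarith

/-- The density stays large over `y` at the scales between `β` and one. -/
theorem dens_large (hMo : S_MONO) (hS : S_SHIFT) (hM : M.Mem) {k C β r : ℝ} (hk : 0 < k)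
    (hk' : k ≤ 1 / 20) (hH : M.Hk k) (hC0 : 0 < C)
    (hC : ∫ x in ball (0 : E) 5, ‖pr (M.N x)‖ ^ 2 ∂M.μ ≤ C * k ^ 2) (hkβ : k ≤ β) (hβ : β ≤ r)
    (hr : r ≤ 1) (hs : 32 * (23 * C + 400) * k ≤ β ^ 4) {y : ℂ} (hy : ‖y‖ ≤ 3) :
    3 / 2 ≤ M.Θ (pt y 0) r := by
  have hβ0 : 0 < β := hk.trans_le hkβ
  have hr0 : 0 < r := hβ0.trans_le hβ
  have h1 := (hMo M 0 k r hk (hkβ.trans hβ) (hM.sub _)).1
  have h2 := hH.dens
  have h3 := hS M hM 0 (pt y 0) r hr0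
  have hn : 0 ≤ ‖y‖ := norm_nonneg _
  rw [zero_add, norm_pt_zero] at h3
  have h4 := shift_le hM hk hk' hH hy (R := r + ‖y‖) (by linarith) (by linarith)
  have h5 : β ^ 4 ≤ r ^ 4 := pow_le_pow_left₀ hβ0.le hβ 4
  have h6 : (23 * C + 400) * k ^ 2 ≤ (23 * C + 400) * k :=
    mul_le_mul_of_nonneg_left (by nlinarith) (by positivity)
  have h7 : ∫ x in ball (0 : E) (r + ‖y‖),
      |⟪M.N x, pt y 0⟫| * (|M.ψ 0 x| + |⟪M.N x, pt y 0⟫|) ∂M.μ ≤ r ^ 4 / 32 := by linarith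
  have h8 : 8 / r ^ 4 * (r ^ 4 / 32) = 1 / 4 := by
    field_simp
    norm_num
  have h9 := mul_le_mul_of_nonneg_left h7 (show 0 ≤ 8 / r ^ 4 by positivity)
  have h10 := (abs_le.1 (h3.trans (h9.trans h8.le))).1
  linarith

end DSTOP

theorem stop_of (hC : S_CACC3) (hM : S_MONO) (hS : S_SHIFT) (hU : S_UP) : S_STOP := by
  intro om₀ β hom hβ
  obtain ⟨C, hC0, hCk⟩ := DSTOP.tilt_small hC
  obtain ⟨β₁, hβ0, hβ1, hβ2⟩ : ∃ β₁ : ℝ, 0 < β₁ ∧ β₁ ≤ β ∧ β₁ ≤ 1 / 4 :=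
    ⟨min β (1 / 4), lt_min hβ (by norm_num), min_le_left _ _, min_le_right _ _⟩
  refine ⟨min (min (1 / 20) β₁) (min (om₀ ^ 2 * β₁ ^ 2 / (2 * C)) (β₁ ^ 4 / (32 * (23 * C + 400)))),
    by positivity, fun k hk hk0 M hMem hH y hy => ?_⟩
  have k1 : k ≤ 1 / 20 := hk0.trans ((min_le_left _ _).trans (min_le_left _ _))
  have k2 : k ≤ β₁ := hk0.trans ((min_le_left _ _).trans (min_le_right _ _))
  have k3 : k * (2 * C) ≤ om₀ ^ 2 * β₁ ^ 2 :=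
    (le_div_iff₀ (by positivity)).1 (hk0.trans ((min_le_right _ _).trans (min_le_left _ _)))
  have k4 : k * (32 * (23 * C + 400)) ≤ β₁ ^ 4 :=
    (le_div_iff₀ (by positivity)).1 (hk0.trans ((min_le_right _ _).trans (min_le_right _ _)))
  have hJ := hCk M k hMem hk k1 hH
  obtain ⟨A, hA⟩ : ∃ A : Set ℝ, A = {r | 0 < r ∧ r ≤ 1 ∧
      (om₀ ^ 2 * r ^ 2 ≤ ∫ x in cyl (ball y r) 1, ‖pr (M.N x)‖ ^ 2 ∂M.μ ∨
        ∀ t : ℝ, |t| ≤ 1 → M.Θ (pt y t) r < 3 / 2)} := ⟨_, rfl⟩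
  have mA : ∀ r, r ∈ A ↔ 0 < r ∧ r ≤ 1 ∧
      (om₀ ^ 2 * r ^ 2 ≤ ∫ x in cyl (ball y r) 1, ‖pr (M.N x)‖ ^ 2 ∂M.μ ∨
        ∀ t : ℝ, |t| ≤ 1 → M.Θ (pt y t) r < 3 / 2) := fun r => by rw [hA]; rfl
  have hlt : ∀ r ∈ A, r ≤ β₁ := by
    intro r hr
    obtain ⟨-, hr1, hr2⟩ := (mA r).1 hr
    by_contra hn
    have hn' : β₁ ≤ r := (not_le.1 hn).le
    rcases hr2 with h | h
    · have h1 := DSTOP.tilt_mono hMem (DSTOP.cyl_sub hy hr1)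
      have h2 : om₀ ^ 2 * β₁ ^ 2 ≤ om₀ ^ 2 * r ^ 2 :=
        mul_le_mul_of_nonneg_left (pow_le_pow_left₀ hβ0.le hn' 2) (sq_nonneg _)
      have h3 : C * k ^ 2 ≤ C * k := mul_le_mul_of_nonneg_left (by nlinarith) hC0.le
      have h4 : 0 < C * k := mul_pos hC0 hk
      linarith
    · have h1 := DSTOP.dens_large hM hS hMem hk k1 hH hC0 hJ k2 hn' hr1 (by linarith) hy
      have h2 := h 0 (by simp)
      linarith
  have hbdd : BddAbove A := ⟨β₁, hlt⟩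
  obtain ⟨r₁, hr0, hr1, hr2⟩ := DSTOP.exists_small hU hMem y
  have hr₁ : r₁ ∈ A := (mA r₁).2 ⟨hr0, hr1, Or.inr hr2⟩
  have hb0 : 0 < sSup A := hr0.trans_le (le_csSup hbdd hr₁)
  have hb1 : sSup A ≤ β₁ := csSup_le ⟨r₁, hr₁⟩ hlt
  have hnot : ∀ r, sSup A < r → r ≤ 1 →
      ¬ (om₀ ^ 2 * r ^ 2 ≤ ∫ x in cyl (ball y r) 1, ‖pr (M.N x)‖ ^ 2 ∂M.μ ∨
        ∀ t : ℝ, |t| ≤ 1 → M.Θ (pt y t) r < 3 / 2) := fun r h1 h2 h3 =>
    absurd (le_csSup hbdd ((mA r).2 ⟨hb0.trans h1, h2, h3⟩)) (not_le.2 h1)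
  have h2b := (not_or.1 (hnot (2 * sSup A) (by linarith) (by linarith))).2
  obtain ⟨t, ht⟩ := not_forall.1 h2b
  obtain ⟨ht1, ht2⟩ := Classical.not_imp.1 ht
  have hd : 3 / 2 ≤ M.Θ (pt y t) (2 * sSup A) := not_lt.1 ht2
  refine ⟨sSup A, pt y t, hb1.trans hβ1, hb0, by simp, ?_, hd,
    fun r h1 h2 => (not_le.1 (not_or.1 (hnot r h1 h2)).1).le, ?_⟩
  · obtain ⟨x, hxS, hx⟩ := M.exists_mem_of_Θ_pos (p := pt y t) (r := 2 * sSup A) (by linarith)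
      (by linarith)
    have h1 : ‖x - pt y t‖ < 2 * sSup A := mem_ball_iff_norm.1 hx
    have h2 : ‖pt y t‖ ≤ ‖y‖ + |t| := by simpa using norm_le_pr_add (pt y t)
    have h3 : ‖x‖ ≤ ‖x - pt y t‖ + ‖pt y t‖ := norm_le_norm_sub_add _ _
    have h4 : |x 2| ≤ k := hH.abs_le' hk k1 hxS (by linarith)
    have h5 : |x 2 - pt y t 2| ≤ ‖x - pt y t‖ := abs_two_le (x - pt y t)
    have h6 := abs_le.1 h4
    have h7 := abs_le.1 h5
    rw [abs_le]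
    constructor <;> linarith
  · obtain ⟨r, hr, hr'⟩ := exists_lt_of_lt_csSup ⟨r₁, hr₁⟩ (half_lt_self hb0)
    exact ⟨r, hr', le_csSup hbdd hr, ((mA r).1 hr).2.2⟩

end MW
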