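import Pool.Agent.P.MP_064970_gt.D.API

/-! D3, sums. Energy: the sets cyl (ball y (Λ b)) 1 are disjoint, lie in ball 0 5, the integrand of E0 is nonnegative on top (integral_biUnion_finset, integrableOn_E0, E0_mono).
Flux: η = bmp 0 8 - ∑ y ∈ w, bmp y (Λ b y) ≥ 0 (at most one term is nonzero at a point, and there ‖z‖ ≤ 4), η ≤ 1, tsupport η ⊆ closedBall 0 8, Hk.slab with T₀ = 2k, T = 1/k.
PI, flux_sub, flux_sum: c ∑ b ≤ Flux (bmp 0 8) + k (μ(ball 0 9) + 256 + 8k (C μ(ball 0 9) + ∑ C/(Λ b) * 26 (Λ b)^2)) (points of S in lay (1/k) over the disc have |x 2| ≤ k; Cell.mass; fderiv_bmp_eq_zero),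
absorb the last sum for k ≤ k₀(P). |Flux (bmp 0 8)| ≤ C ∫_{ball 0 9} ‖pr N‖ ≤ C (k μ + ∫‖pr N‖^2 / k) ≤ C k by CACC3 (r = 9, h = k). -/

open MeasureTheory Set Filter Topology Metric
open scoped RealInnerProductSpace ENNReal NNReal ComplexConjugate Real

noncomputable section

namespace MW

namespace DSUMS

theorem bound {M : Surf} {A : Set E} (hA : MeasurableSet A) {f G : E → ℝ}
    (hG : Integrable G M.μ) (hG0 : ∀ x, 0 ≤ G x) (h : ∀ x ∈ M.S, x ∈ A → |f x| ≤ G x) :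
    ∫ x in A, f x ∂M.μ ≤ ∫ x, G x ∂M.μ := by
  refine (le_abs_self _).trans ?_
  have h1 : ‖∫ x in A, f x ∂M.μ‖ ≤ ∫ x in A, G x ∂M.μ := by
    refine norm_integral_le_of_norm_le hG.integrableOn ?_
    filter_upwards [ae_restrict_mem hA, ae_restrict_of_ae M.ae_mem] with x h1 h2
    exact h x h2 h1
  exact h1.trans (setIntegral_le_integral hG (Eventually.of_forall hG0))

theorem int_ind {M : Surf} (hM : M.Mem) {A : Set E} (hA : MeasurableSet A)
    (hb : Bornology.IsBounded A) (c : ℝ) : Integrable (A.indicator fun _ => c) M.μ :=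
  (integrable_indicator_iff hA).2 (integrableOn_const (hM.bd.lt_top hb).ne)

theorem mass9 {M : Surf} (hM : M.Mem) : M.μ.real (ball 0 9) ≤ 648 := by
  have h := hM.bd.real_ball 0 (show (0 : ℝ) < 9 by norm_num)
  nlinarith [Real.pi_le_four]

theorem energy {M : Surf} (hM : M.Mem) {w : Finset ℂ} {r : ℂ → ℝ}
    (hn : ∀ y ∈ w, ‖y‖ ≤ 3) (hr : ∀ y ∈ w, r y ≤ 1 / 10)
    (hd : ∀ y ∈ w, ∀ z ∈ w, y ≠ z → Disjoint (closedBall y (r y)) (closedBall z (r z))) :
    ∑ y ∈ w, M.E0 e3 (cyl (ball y (r y)) 1) ≤ M.E0 e3 (ball 0 5) := by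
  have hsub : ∀ y ∈ w, cyl (ball y (r y)) 1 ⊆ ball (0 : E) 5 := by
    intro y hy
    refine cyl_subset_ball (ρ := 4) (fun z hz => ?_) zero_le_one (by norm_num) (by norm_num)
    rw [mem_ball, dist_eq_norm] at hz
    have := norm_add_le (z - y) y
    rw [sub_add_cancel] at this
    linarith [hn y hy, hr y hy]
  have h1 : ∑ y ∈ w, M.E0 e3 (cyl (ball y (r y)) 1) = M.E0 e3 (⋃ y ∈ w, cyl (ball y (r y)) 1) := by
    unfold Surf.E0
    rw [iUnion₂_inter, integral_biUnion_finset]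
    · exact fun y _ => (measurableSet_cyl measurableSet_ball 1).inter (M.measurableSet_top e3)
    · intro y hy z hz hyz
      refine Set.disjoint_left.2 fun x h1 h2 => ?_
      exact Set.disjoint_left.1 (hd y hy z hz hyz) (ball_subset_closedBall h1.1.1)
        (ball_subset_closedBall h2.1.1)
    · exact fun y hy => hM.integrableOn_E0 norm_e3
        (isBounded_ball.subset (inter_subset_left.trans (hsub y hy)))
  rw [h1]
  refine hM.E0_mono norm_e3 (inter_subset_left.trans ?_) isBounded_ball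
  exact iUnion₂_subset hsub

/-- The test function. -/
def eta (w : Finset ℂ) (r : ℂ → ℝ) (z : ℂ) : ℝ := bmp 0 8 z - ∑ y ∈ w, bmp y (r y) z

theorem contDiff_sum (w : Finset ℂ) (r : ℂ → ℝ) :
    ContDiff ℝ 1 fun z => ∑ y ∈ w, bmp y (r y) z :=
  ContDiff.sum fun y _ => contDiff_one_bmp y (r y)

theorem contDiff_eta (w : Finset ℂ) (r : ℂ → ℝ) : ContDiff ℝ 1 (eta w r) :=
  (contDiff_one_bmp 0 8).sub (contDiff_sum w r)

theorem sum_zero {w : Finset ℂ} {r : ℂ → ℝ} (hn : ∀ y ∈ w, ‖y‖ ≤ 3) (h0 : ∀ y ∈ w, 0 < r y)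
    (hr : ∀ y ∈ w, r y ≤ 1 / 10) {z : ℂ} (hz : 4 ≤ ‖z‖) : ∑ y ∈ w, bmp y (r y) z = 0 := by
  refine Finset.sum_eq_zero fun y hy => bmp_eq_zero (h0 y hy) ?_
  have := norm_add_le (z - y) y
  rw [sub_add_cancel] at this
  linarith [hn y hy, hr y hy]

theorem supp_sum {w : Finset ℂ} {r : ℂ → ℝ} (hn : ∀ y ∈ w, ‖y‖ ≤ 3) (h0 : ∀ y ∈ w, 0 < r y)
    (hr : ∀ y ∈ w, r y ≤ 1 / 10) : HasCompactSupport fun z => ∑ y ∈ w, bmp y (r y) z := by
  refine HasCompactSupport.intro (isCompact_closedBall (0 : ℂ) 4) fun z hz => ?_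
  rw [mem_closedBall_zero_iff, not_le] at hz
  exact sum_zero hn h0 hr hz.le

theorem tsupport_eta {w : Finset ℂ} {r : ℂ → ℝ} (hn : ∀ y ∈ w, ‖y‖ ≤ 3) (h0 : ∀ y ∈ w, 0 < r y)
    (hr : ∀ y ∈ w, r y ≤ 1 / 10) : tsupport (eta w r) ⊆ closedBall 0 8 := by
  refine closure_minimal (fun z hz => ?_) isClosed_closedBall
  rw [mem_closedBall_zero_iff]
  by_contra hc
  rw [not_le] at hc
  refine hz ?_
  unfold eta
  rw [sum_zero hn h0 hr (by linarith), bmp_eq_zero (by norm_num) (by simpa using hc.le), sub_zero]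

theorem eta_le (w : Finset ℂ) (r : ℂ → ℝ) (z : ℂ) : eta w r z ≤ bmp 0 8 z :=
  sub_le_self _ (Finset.sum_nonneg fun y _ => bmp_nonneg y (r y) z)

theorem eta_nonneg {w : Finset ℂ} {r : ℂ → ℝ} (hn : ∀ y ∈ w, ‖y‖ ≤ 3) (h0 : ∀ y ∈ w, 0 < r y)
    (hr : ∀ y ∈ w, r y ≤ 1 / 10)
    (hd : ∀ y ∈ w, ∀ z ∈ w, y ≠ z → Disjoint (closedBall y (r y)) (closedBall z (r z))) (z : ℂ) :
    0 ≤ eta w r z := by
  unfold eta
  by_cases hz : 4 ≤ ‖z‖
  · rw [sum_zero hn h0 hr hz, sub_zero]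
    exact bmp_nonneg _ _ _
  · rw [bmp_eq_one (by norm_num) (by rw [sub_zero]; linarith [not_le.1 hz]), sub_nonneg]
    have hmem : ∀ y ∈ w, bmp y (r y) z ≠ 0 → z ∈ closedBall y (r y) := fun y hy h =>
      tsupport_bmp y (h0 y hy) (subset_tsupport _ h)
    by_cases hex : ∃ y ∈ w, bmp y (r y) z ≠ 0
    · obtain ⟨y, hy, hne⟩ := hex
      rw [Finset.sum_eq_single_of_mem y hy fun v hv hvy => ?_]
      · exact bmp_le_one _ _ _
      · by_contra hc
        exact Set.disjoint_left.1 (hd v hv y hy hvy) (hmem v hv hc) (hmem y hy hne)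
    · push Not at hex
      rw [Finset.sum_eq_zero hex]
      exact zero_le_one

theorem thin {M : Surf} {k : ℝ} (hk : 0 < k) (hk' : k ≤ 1 / 20) (hH : M.Hk k) {x : E}
    (hx : x ∈ M.S) (hl : x ∈ lay (1 / k)) (hp : ‖pr x‖ ≤ 8) : |x 2| < 1 ∧ x ∈ ball (0 : E) 9 := by
  have hs : M.Slab (closedBall 0 8) (2 * k) (1 / k) :=
    hH.slab hk hk' (fun z hz => by rw [mem_closedBall_zero_iff] at hz; linarith) (by linarith)
      le_rfl
  have h1 := hs.abs_lt hx (mem_closedBall_zero_iff.2 hp) (le_of_lt hl)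
  refine ⟨by linarith, ?_⟩
  rw [mem_ball_zero_iff]
  linarith [norm_le_pr_add x]

theorem flux_big {Cb Cc : ℝ} (hCb : 0 < Cb)
    (hb : ∀ (y w : ℂ) (r : ℝ), 0 < r → ‖fderiv ℝ (bmp y r) w‖ ≤ Cb / r) {M : Surf} (hM : M.Mem)
    {k : ℝ} (hk : 0 < k) (hk' : k ≤ 1 / 20) (hH : M.Hk k)
    (hc : ∫ x in ball 0 9, ‖pr (M.N x)‖ ^ 2 ∂M.μ ≤ Cc * k ^ 2) :
    M.Flux (1 / k) (bmp 0 8) ≤ Cb / 8 * (648 + Cc) * k := by
  have hm : Measurable fun x => ‖pr (M.N x)‖ ^ 2 :=
    ((measurable_pr.comp M.N_meas).norm).pow_const 2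
  have hi : IntegrableOn (fun x => ‖pr (M.N x)‖ ^ 2) (ball 0 9) M.μ := by
    refine hM.bd.integrableOn isBounded_ball hm (C := 1) ?_ measurableSet_ball
    intro x hx
    have h1 := norm_pr_le (M.N x)
    rw [M.N_unit x hx.2] at h1
    rw [abs_of_nonneg (by positivity)]
    nlinarith [norm_nonneg (pr (M.N x))]
  have hconst : IntegrableOn (fun _ : E => k) (ball 0 9) M.μ :=
    integrableOn_const (hM.bd.lt_top isBounded_ball).ne
  have hi2 : IntegrableOn (fun x => Cb / 8 * (k + ‖pr (M.N x)‖ ^ 2 / k)) (ball 0 9) M.μ :=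
    (hconst.add (hi.div_const k)).const_mul _
  have h1 : M.Flux (1 / k) (bmp 0 8)
      ≤ ∫ x, (ball (0 : E) 9).indicator (fun x => Cb / 8 * (k + ‖pr (M.N x)‖ ^ 2 / k)) x ∂M.μ := by
    refine bound (hM.measurableSet_Bot _) ((integrable_indicator_iff measurableSet_ball).2 hi2)
      (fun x => indicator_nonneg (fun _ _ => by positivity) x) fun x hx hB => ?_
    by_cases hp : ‖pr x‖ ≤ 8
    · rw [indicator_of_mem (thin hk hk' hH hx hB.2.1 hp).2, abs_mul, abs_abs]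
      have h2 : |M.N x 2| ≤ 1 := (abs_two_le _).trans (M.N_unit x hx).le
      have h3 : |fderiv ℝ (bmp 0 8) (pr x) (pr (M.N x))| ≤ Cb / 8 * ‖pr (M.N x)‖ :=
        ((fderiv ℝ (bmp 0 8) (pr x)).le_opNorm _).trans
          (mul_le_mul_of_nonneg_right (hb 0 _ 8 (by norm_num)) (norm_nonneg _))
      have h4 : ‖pr (M.N x)‖ ≤ k + ‖pr (M.N x)‖ ^ 2 / k := by
        rw [← sub_le_iff_le_add', le_div_iff₀ hk]
        nlinarith [sq_nonneg (‖pr (M.N x)‖ - k), norm_nonneg (pr (M.N x))]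
      calc _ ≤ Cb / 8 * ‖pr (M.N x)‖ * 1 := mul_le_mul h3 h2 (abs_nonneg _) (by positivity)
        _ ≤ _ := by rw [mul_one]; gcongr
    · rw [fderiv_bmp_eq_zero (by norm_num) (by rw [sub_zero]; exact (not_le.1 hp).le)]
      simp only [_root_.zero_apply, zero_mul, abs_zero]
      exact indicator_nonneg (fun _ _ => by positivity) x
  rw [integral_indicator measurableSet_ball, integral_const_mul,
    integral_add hconst (hi.div_const k), integral_div, setIntegral_const, smul_eq_mul] at h1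
  refine h1.trans ?_
  rw [mul_assoc (Cb / 8)]
  refine mul_le_mul_of_nonneg_left ?_ (by positivity)
  have h5 : (∫ x in ball 0 9, ‖pr (M.N x)‖ ^ 2 ∂M.μ) / k ≤ Cc * k := by
    rw [div_le_iff₀ hk]
    linarith
  have h6 := mul_le_mul_of_nonneg_right (mass9 hM) hk.le
  linarith

theorem grad_bound {Cb : ℝ} (hCb : 0 < Cb)
    (hb : ∀ (y w : ℂ) (r : ℝ), 0 < r → ‖fderiv ℝ (bmp y r) w‖ ≤ Cb / r) {M : Surf} (hM : M.Mem)
    {k : ℝ} (hk : 0 < k) (hk' : k ≤ 1 / 20) (hH : M.Hk k) {w : Finset ℂ} {r : ℂ → ℝ}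
    (hn : ∀ y ∈ w, ‖y‖ ≤ 3) (h0 : ∀ y ∈ w, 0 < r y) (hr : ∀ y ∈ w, r y ≤ 1 / 10)
    (hmass : ∀ y ∈ w, M.μ.real (cyl (closedBall y (r y)) 1) ≤ 26 * r y ^ 2) :
    ∫ x in lay (1 / k), ‖fderiv ℝ (eta w r) (pr x)‖ ∂M.μ ≤ 81 * Cb + 26 * Cb * ∑ y ∈ w, r y := by
  have hmc : ∀ y, MeasurableSet (cyl (closedBall y (r y)) 1) := fun y =>
    measurableSet_cyl measurableSet_closedBall 1
  have i1 := int_ind hM (measurableSet_ball (x := (0 : E)) (ε := 9)) isBounded_ball (Cb / 8)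
  have i2 : ∀ y ∈ w, Integrable ((cyl (closedBall y (r y)) 1).indicator fun _ => Cb / r y) M.μ :=
    fun y _ => int_ind hM (hmc y) (isBounded_cyl isBounded_closedBall 1) _
  have n1 : ∀ x, 0 ≤ (ball (0 : E) 9).indicator (fun _ => Cb / 8) x := fun x =>
    indicator_nonneg (fun _ _ => by positivity) x
  have n2 : ∀ y ∈ w, ∀ x, 0 ≤ (cyl (closedBall y (r y)) 1).indicator (fun _ => Cb / r y) x :=
    fun y hy x => indicator_nonneg (fun _ _ => div_nonneg hCb.le (h0 y hy).le) x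
  have h1 : ∫ x in lay (1 / k), ‖fderiv ℝ (eta w r) (pr x)‖ ∂M.μ
      ≤ ∫ x, ((ball (0 : E) 9).indicator (fun _ => Cb / 8) x
        + ∑ y ∈ w, (cyl (closedBall y (r y)) 1).indicator (fun _ => Cb / r y) x) ∂M.μ := by
    refine bound (measurableSet_lay _) (i1.add (integrable_finsetSum w i2))
      (fun x => add_nonneg (n1 x) (Finset.sum_nonneg fun y hy => n2 y hy x)) fun x hx hl => ?_
    have hd : fderiv ℝ (eta w r) (pr x)
        = fderiv ℝ (bmp 0 8) (pr x) - ∑ y ∈ w, fderiv ℝ (bmp y (r y)) (pr x) := by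
      unfold eta
      rw [fderiv_fun_sub ((contDiff_one_bmp 0 8).differentiable one_ne_zero _)
        ((contDiff_sum w r).differentiable one_ne_zero _),
        fderiv_fun_sum fun y _ => (contDiff_one_bmp y (r y)).differentiable one_ne_zero _]
    rw [abs_norm, hd]
    refine (norm_sub_le _ _).trans (add_le_add ?_ ((norm_sum_le _ _).trans
      (Finset.sum_le_sum fun y hy => ?_)))
    · by_cases hp : ‖pr x‖ ≤ 8
      · rw [indicator_of_mem (thin hk hk' hH hx hl hp).2]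
        exact hb 0 _ 8 (by norm_num)
      · rw [fderiv_bmp_eq_zero (by norm_num) (by rw [sub_zero]; exact (not_le.1 hp).le), norm_zero]
        exact n1 x
    · by_cases hp : ‖pr x - y‖ ≤ r y
      · have hp8 : ‖pr x‖ ≤ 8 := by
          have := norm_add_le (pr x - y) y
          rw [sub_add_cancel] at this
          linarith [hn y hy, hr y hy]
        rw [indicator_of_mem (show x ∈ cyl (closedBall y (r y)) 1 from
          ⟨by rwa [mem_closedBall, dist_eq_norm], (thin hk hk' hH hx hl hp8).1⟩)]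
        exact hb y _ _ (h0 y hy)
      · rw [fderiv_bmp_eq_zero (h0 y hy) (not_le.1 hp).le, norm_zero]
        exact n2 y hy x
  rw [integral_add i1 (integrable_finsetSum w i2), integral_finsetSum w i2,
    integral_indicator_const _ measurableSet_ball, smul_eq_mul] at h1
  refine h1.trans (add_le_add ?_ ?_)
  · have := mul_le_mul_of_nonneg_right (mass9 hM) (show 0 ≤ Cb / 8 by positivity)
    linarith
  · rw [Finset.mul_sum]
    refine Finset.sum_le_sum fun y hy => ?_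
    rw [integral_indicator_const _ (hmc y), smul_eq_mul]
    have h2 := h0 y hy
    calc _ ≤ 26 * r y ^ 2 * (Cb / r y) :=
          mul_le_mul_of_nonneg_right (hmass y hy) (by positivity)
      _ = 26 * Cb * r y := by field_simp

theorem flux_sum_le (hP : S_PI) {Cb Cc : ℝ} (hCb : 0 < Cb)
    (hb : ∀ (y w : ℂ) (r : ℝ), 0 < r → ‖fderiv ℝ (bmp y r) w‖ ≤ Cb / r) {M : Surf} (hM : M.Mem)
    {k : ℝ} (hk : 0 < k) (hk' : k ≤ 1 / 20) (hH : M.Hk k)
    (hc : ∫ x in ball 0 9, ‖pr (M.N x)‖ ^ 2 ∂M.μ ≤ Cc * k ^ 2) {w : Finset ℂ} {r : ℂ → ℝ}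
    (hn : ∀ y ∈ w, ‖y‖ ≤ 3) (h0 : ∀ y ∈ w, 0 < r y) (hr : ∀ y ∈ w, r y ≤ 1 / 10)
    (hd : ∀ y ∈ w, ∀ z ∈ w, y ≠ z → Disjoint (closedBall y (r y)) (closedBall z (r z)))
    (hmass : ∀ y ∈ w, M.μ.real (cyl (closedBall y (r y)) 1) ≤ 26 * r y ^ 2) :
    ∑ y ∈ w, M.Flux (1 / k) (bmp y (r y)) ≤ Cb / 8 * (648 + Cc) * k
      + (648 + 256 + 8 * k * (81 * Cb + 26 * Cb * ∑ y ∈ w, r y)) * k := by
  have hts := tsupport_eta hn h0 hr
  have hcs : HasCompactSupport (eta w r) :=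
    (isCompact_closedBall 0 8).of_isClosed_subset (isClosed_tsupport _) hts
  have hs : M.Slab (tsupport (eta w r)) (2 * k) (1 / k) :=
    hH.slab hk hk' (fun z hz => by
      have := mem_closedBall_zero_iff.1 (hts hz)
      linarith) (by linarith) le_rfl
  have hlt : 2 * k < 1 / k := by
    rw [lt_div_iff₀ hk]
    nlinarith
  have h1 := hP M hM (eta w r) (2 * k) (1 / k) (contDiff_eta w r) hcs (eta_nonneg hn h0 hr hd)
    (by linarith) hlt hs
  have h2 : M.Flux (1 / k) (eta w r)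
      = M.Flux (1 / k) (bmp 0 8) - ∑ y ∈ w, M.Flux (1 / k) (bmp y (r y)) := by
    rw [← hM.flux_sum (1 / k) w (η := fun y => bmp y (r y)) (fun y _ => contDiff_one_bmp y (r y))
      (fun y hy => hasCompactSupport_bmp y (h0 y hy)),
      ← hM.flux_sub (1 / k) (contDiff_one_bmp 0 8) (hasCompactSupport_bmp 0 (by norm_num))
        (contDiff_sum w r) (supp_sum hn h0 hr)]
    rfl
  have hA : ∫ x in lay (1 / k), eta w r (pr x) ∂M.μ ≤ 648 := by
    have h3 : ∫ x in lay (1 / k), eta w r (pr x) ∂M.μ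
        ≤ ∫ x, (ball (0 : E) 9).indicator (fun _ => (1 : ℝ)) x ∂M.μ := by
      refine bound (measurableSet_lay _) (int_ind hM measurableSet_ball isBounded_ball 1)
        (fun x => indicator_nonneg (fun _ _ => zero_le_one) x) fun x hx hl => ?_
      rw [abs_of_nonneg (eta_nonneg hn h0 hr hd _)]
      refine (eta_le w r _).trans ?_
      by_cases hp : ‖pr x‖ ≤ 8
      · rw [indicator_of_mem (thin hk hk' hH hx hl hp).2]
        exact bmp_le_one _ _ _
      · rw [bmp_eq_zero (by norm_num) (by rw [sub_zero]; exact (not_le.1 hp).le)]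
        exact indicator_nonneg (fun _ _ => zero_le_one) x
    rw [integral_indicator_const _ measurableSet_ball, smul_eq_mul, mul_one] at h3
    exact h3.trans (mass9 hM)
  have hB : ∫ y, eta w r y ≤ 256 := by
    have h3 : ∫ y, eta w r y ≤ ∫ y, bmp 0 8 y :=
      integral_mono_of_nonneg (Eventually.of_forall (eta_nonneg hn h0 hr hd))
        (integrable_bmp 0 (by norm_num)) (Eventually.of_forall (eta_le w r))
    have h4 := integral_bmp_le 0 (show (0 : ℝ) < 8 by norm_num)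
    linarith
  have hD := grad_bound hCb hb hM hk hk' hH hn h0 hr hmass
  have hF := flux_big hCb hb hM hk hk' hH hc
  rw [h2, div_div_eq_mul_div, div_one] at h1
  have h5 : (∫ x in lay (1 / k), eta w r (pr x) ∂M.μ) + (∫ y, eta w r y)
      + 4 * (2 * k) * ∫ x in lay (1 / k), ‖fderiv ℝ (eta w r) (pr x)‖ ∂M.μ
      ≤ 648 + 256 + 8 * k * (81 * Cb + 26 * Cb * ∑ y ∈ w, r y) := by
    have := mul_le_mul_of_nonneg_left hD (show 0 ≤ 8 * k by positivity)
    linarith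
  have h6 := mul_le_mul_of_nonneg_right h5 hk.le
  linarith

end DSUMS

theorem sums_of (hP : S_PI) (hC : S_CACC3) : S_SUMS := by
  intro P hOk
  obtain ⟨Cb, hCb, hb⟩ := exists_bmp_bound
  obtain ⟨⟨Cc, hCc, hcc⟩, -⟩ := hC
  have hc := hOk.c_pos
  have hΛ : 0 < P.Λ := by linarith [hOk.four_le]
  refine ⟨2 / P.c * (Cb / 8 * (648 + Cc) + 904 + 648 * Cb), min (1 / 20) (P.c / (416 * Cb * P.Λ)),
    by positivity, by positivity, ?_⟩
  intro M k β u b p Ro hM hk hk0 hβ hH hcov w hw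
  have hk' : k ≤ 1 / 20 := hk0.trans (min_le_left _ _)
  have hk2 : k * (416 * Cb * P.Λ) ≤ P.c :=
    (le_div_iff₀ (by positivity)).1 (hk0.trans (min_le_right _ _))
  have hn : ∀ y ∈ w, ‖y‖ ≤ 3 := fun y hy => (hcov.cell y (hw hy)).near
  have hb0 : ∀ y ∈ w, 0 < b y := fun y hy => (hcov.cell y (hw hy)).pos
  have h0 : ∀ y ∈ w, 0 < P.Λ * b y := fun y hy => mul_pos hΛ (hb0 y hy)
  have hr : ∀ y ∈ w, P.Λ * b y ≤ 1 / 10 := fun y hy => ((hcov.cell y (hw hy)).mul_le hOk hβ).1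
  have hd : ∀ y ∈ w, ∀ z ∈ w, y ≠ z →
      Disjoint (closedBall y (P.Λ * b y)) (closedBall z (P.Λ * b z)) :=
    fun y hy z hz => hcov.disj y (hw hy) z (hw hz)
  constructor
  · intro hE
    refine le_trans ?_ (DSUMS.energy hM (r := fun y => P.Λ * b y) hn hr hd)
    rw [Finset.mul_sum]
    exact Finset.sum_le_sum hE
  · intro hF
    have hmass : ∀ y ∈ w, M.μ.real (cyl (closedBall y (P.Λ * b y)) 1) ≤ 26 * (P.Λ * b y) ^ 2 :=
      fun y hy => (hcov.cell y (hw hy)).mass hOk hM ((hcov.cell y (hw hy)).mul_le hOk hβ).2.1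
        (by linarith [hr y hy])
    have hcac : ∫ x in ball 0 9, ‖pr (M.N x)‖ ^ 2 ∂M.μ ≤ Cc * k ^ 2 := by
      have h1 := hcc M hM 0 e3 9 k 0 norm_e3 (by norm_num) fun x hx => by
        rw [sub_zero, inner_e3]
        have h2 := mem_ball_zero_iff.1 hx.2
        exact hH.abs_le' hk hk' hx.1 (by linarith)
      simpa only [wedge_e3] using h1
    have h1 := DSUMS.flux_sum_le hP hCb hb hM hk hk' hH hcac (r := fun y => P.Λ * b y) hn h0 hr hd
      hmass
    have h2 : P.c * ∑ y ∈ w, b y ≤ ∑ y ∈ w, M.Flux (1 / k) (bmp y (P.Λ * b y)) := by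
      rw [Finset.mul_sum]
      exact Finset.sum_le_sum fun y hy => (hF y hy).1
    rw [← Finset.mul_sum] at h1
    set B := ∑ y ∈ w, b y with hB
    have hB0 : 0 ≤ B := Finset.sum_nonneg fun y hy => (hb0 y hy).le
    have h3 : 8 * k * (26 * Cb * (P.Λ * B)) * k ≤ P.c / 2 * B := by
      have h4 : 8 * k * (26 * Cb * (P.Λ * B)) * k = k * (k * (416 * Cb * P.Λ)) / 2 * B := by ring
      rw [h4]
      refine mul_le_mul_of_nonneg_right ?_ hB0
      have h5 : k * (k * (416 * Cb * P.Λ)) ≤ 1 * P.c :=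
        mul_le_mul (by linarith) hk2 (by positivity) zero_le_one
      linarith
    have h6 : 8 * k * (81 * Cb) * k ≤ 648 * Cb * k := by
      have h7 : 8 * k * (81 * Cb) * k = k * (648 * Cb * k) := by ring
      rw [h7]
      exact mul_le_of_le_one_left (by positivity) (by linarith)
    have h8 : P.c / 2 * B ≤ (Cb / 8 * (648 + Cc) + 904 + 648 * Cb) * k := by
      nlinarith
    calc B = 2 / P.c * (P.c / 2 * B) := by field_simp
      _ ≤ 2 / P.c * ((Cb / 8 * (648 + Cc) + 904 + 648 * Cb) * k) := by gcongr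
      _ = _ := by ring

end MW
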