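import Pool.Agent.P.MP_064970_gt.D.API

/-! D3, weak equation. On the open set Ro every point is a Sheet (reg, RCELL), a = (hi + lo)/2 near z, fderiv a z = (slp N₁ + slp N₂)/2. X x = pr (N (partner e3 x)) - pr (N x), ‖X‖^2 ≤ 2 edx (norm_pr_sub_sq_le), ‖X‖ ≤ 2 on S.
Energy: ‖fderiv a z‖ ≤ ‖X (pt z (hi z))‖ (ALG), ROI with f = edx e3 on A = Ro ∩ Sq 2, E0_mono (cyl (Sq 2) 1 ⊆ ball 0 5).
Weak: p1 z, p2 z vanish off Sq 2. FVX and fderiv_eq_p: ∫_{top} X.re p1 z N₃ + ∫_{top} X.im p2 z N₃ = 0 over cyl (Sq 2) 1. Split the first at A₁ = Ro ∩ Sq 2 ∩ {im ∈ H}: ROI turns it into ∫_{A₁} X.re p1 z,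
and |2 p1 a - X.re| ≤ 3 om^2 ‖X‖ (ALG with w = 1; w = I for the second), ∫_{Ro ∩ Sq 2} ‖X‖ ≤ 4 √(2 Eb). The rest is at most m √(2 Eb) √(∫_{rest} N₃) (Cauchy-Schwarz; a lemma
∫ f ≤ √(∫ f^2 w) √(∫ w) or the pointwise bound f ≤ t f^2/2 + 1/(2t) optimised), rest ⊆ cyl (Ro ∩ Sq 2 ∩ {im ∉ H}) 1 ∪ ⋃ cyl (closedBall y (5Λ b)) 1 (cover),
∫ ≤ 4κ (ROI with f = 1, volume_Sq_im) + 26 (5Λ)^2 B (Cell.mass). Prove one lemma for a unit w ∈ {1, I} and a measurable set of lines. -/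

open MeasureTheory Set Filter Topology Metric
open scoped RealInnerProductSpace ENNReal NNReal ComplexConjugate Real

noncomputable section

namespace MW

namespace DWEAK

theorem le_sqrt_mul {I A B : ℝ} (hA : 0 ≤ A) (hB : 0 ≤ B)
    (h : ∀ t : ℝ, 0 < t → I ≤ (t * A + B / t) / 2) : I ≤ √A * √B := by
  refine le_of_forall_pos_le_add fun ε hε => ?_
  have hc : ContinuousAt (fun s : ℝ => √(A + s) * √(B + s)) 0 := by fun_prop
  have h0 : √(A + 0) * √(B + 0) < √A * √B + ε := by simpa using hε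
  have hev : ∀ᶠ s in 𝓝[>] (0 : ℝ), √(A + s) * √(B + s) < √A * √B + ε :=
    (hc.eventually_lt continuousAt_const h0).filter_mono nhdsWithin_le_nhds
  obtain ⟨s, hs, hs0⟩ := (hev.and self_mem_nhdsWithin).exists
  have hs0 : 0 < s := hs0
  have ha : 0 < √(A + s) := Real.sqrt_pos.2 (by linarith)
  have hb : 0 < √(B + s) := Real.sqrt_pos.2 (by linarith)
  have ha2 : √(A + s) ^ 2 = A + s := Real.sq_sqrt (by linarith)
  have hb2 : √(B + s) ^ 2 = B + s := Real.sq_sqrt (by linarith)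
  have h1 := h (√(B + s) / √(A + s)) (div_pos hb ha)
  have h2 : √(B + s) / √(A + s) * A ≤ √(A + s) * √(B + s) := by
    rw [div_mul_eq_mul_div, div_le_iff₀ ha]
    nlinarith
  have h3 : B / (√(B + s) / √(A + s)) ≤ √(A + s) * √(B + s) := by
    rw [div_div_eq_mul_div, div_le_iff₀ hb]
    nlinarith
  linarith

/-- Difference of the horizontal parts of the normals at the ends of a vertical chord. -/
def X (M : Surf) (x : E) : ℂ := pr (M.N (M.partner e3 x)) - pr (M.N x)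

variable {M : Surf}

theorem meas_X (h : M.Mem) : Measurable (X M) :=
  (measurable_pr.comp (M.N_meas.comp (h.measurable_partner e3))).sub (measurable_pr.comp M.N_meas)

theorem meas_N2 (M : Surf) : Measurable fun x => M.N x 2 :=
  (EuclideanSpace.proj (2 : Fin 3) : E →L[ℝ] ℝ).continuous.measurable.comp M.N_meas

theorem X_sq (x : E) : ‖X M x‖ ^ 2 ≤ 2 * M.edx e3 x := norm_pr_sub_sq_le _ _

theorem X_le (h : M.Mem) {x : E} (hx : x ∈ M.S) : ‖X M x‖ ≤ 2 := by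
  have h1 := X_sq (M := M) x
  have h2 := h.edx_le_two norm_e3 hx
  nlinarith [norm_nonneg (X M x)]

theorem N2_le {x : E} (hx : x ∈ M.S) : |M.N x 2| ≤ 1 := (abs_two_le _).trans (M.N_unit x hx).le

theorem top_pos {x : E} (hx : x ∈ M.top e3) : 0 < M.N x 2 := by
  have : 0 < ⟪M.N x, e3⟫ := hx
  rwa [inner_e3] at this

/-- The upper points over the square. -/
def D (M : Surf) : Set E := cyl (Sq 2) 1 ∩ M.top e3

theorem meas_D (M : Surf) : MeasurableSet (D M) :=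
  (measurableSet_cyl (measurableSet_Sq 2) 1).inter (M.measurableSet_top e3)

theorem bdd_D (M : Surf) : Bornology.IsBounded (D M) :=
  (isBounded_cyl (isBounded_Sq 2) 1).subset inter_subset_left

theorem cyl_ball : cyl (Sq 2) 1 ⊆ ball (0 : E) 5 :=
  cyl_subset_ball (ρ := 3) (fun z hz => by linarith [norm_le_of_mem_Sq hz]) (by norm_num)
    (by norm_num) (by norm_num)

theorem intOn (h : M.Mem) {G : Set E} (hG : MeasurableSet G) (hGD : G ⊆ D M) {f : E → ℝ}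
    (hf : Measurable f) {C : ℝ} (hC : ∀ x ∈ M.S, |f x| ≤ C) :
    IntegrableOn (fun x => f x * M.N x 2) G M.μ := by
  refine h.bd.integrableOn ((bdd_D M).subset hGD) (hf.mul (meas_N2 M)) (C := C) ?_ hG
  intro x hx
  rw [abs_mul]
  have h1 := hC x hx.2
  have h2 := N2_le hx.2
  nlinarith [abs_nonneg (f x), abs_nonneg (M.N x 2)]

theorem energy_le (h : M.Mem) {G : Set E} (hGD : G ⊆ D M) {Eb : ℝ}
    (hE : M.E0 e3 (ball 0 5) ≤ Eb) : ∫ x in G, M.edx e3 x * M.N x 2 ∂M.μ ≤ Eb := by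
  have h1 : M.E0 e3 G ≤ M.E0 e3 (ball 0 5) :=
    h.E0_mono norm_e3 (fun x hx => cyl_ball (hGD hx.1).1) isBounded_ball
  have h2 : G ∩ M.top e3 = G := inter_eq_left.2 fun x hx => (hGD hx).2
  have h3 : M.E0 e3 G = ∫ x in G, M.edx e3 x * M.N x 2 ∂M.μ := by
    unfold Surf.E0
    rw [h2]
    simp only [inner_e3]
  linarith

theorem abs_edx (h : M.Mem) {x : E} (hx : x ∈ M.S) : |M.edx e3 x| ≤ 2 := by
  rw [abs_of_nonneg (M.edx_nonneg e3 x)]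
  exact h.edx_le_two norm_e3 hx

theorem abs_normX (h : M.Mem) {x : E} (hx : x ∈ M.S) : |‖X M x‖| ≤ 2 := by
  rw [abs_of_nonneg (norm_nonneg _)]
  exact X_le h hx

/-- Cauchy-Schwarz on the upper points. -/
theorem cs (h : M.Mem) {G : Set E} (hG : MeasurableSet G) (hGD : G ⊆ D M) {Eb B : ℝ}
    (hE : M.E0 e3 (ball 0 5) ≤ Eb) (hB0 : 0 ≤ B) (hB : ∫ x in G, 1 * M.N x 2 ∂M.μ ≤ B) :
    ∫ x in G, ‖X M x‖ * M.N x 2 ∂M.μ ≤ √(2 * Eb) * √B := by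
  have hE0 : 0 ≤ Eb := (M.E0_nonneg _ _).trans hE
  refine le_sqrt_mul (by linarith) hB0 fun t ht => ?_
  have i1 := intOn h hG hGD (meas_X h).norm fun x hx => abs_normX h hx
  have i2 := intOn h hG hGD (h.measurable_edx e3) fun x hx => abs_edx h hx
  have i3 := intOn h hG hGD (f := fun _ => 1) measurable_const (C := 1) fun x _ => by simp
  have h1 : ∫ x in G, ‖X M x‖ * M.N x 2 ∂M.μ
      ≤ ∫ x in G, (t * (M.edx e3 x * M.N x 2) + (2 * t)⁻¹ * (1 * M.N x 2)) ∂M.μ := by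
    refine setIntegral_mono_on i1 ((i2.const_mul t).add (i3.const_mul _)) hG fun x hx => ?_
    have hp := top_pos (hGD hx).2
    have hs := X_sq (M := M) x
    have key : ‖X M x‖ ≤ t * M.edx e3 x + (2 * t)⁻¹ := by
      have e1 : (2 * t)⁻¹ * (2 * t) = 1 := inv_mul_cancel₀ (by positivity)
      have : ‖X M x‖ * (2 * t) ≤ (t * M.edx e3 x + (2 * t)⁻¹) * (2 * t) := by
        nlinarith [sq_nonneg (t * ‖X M x‖ - 1), mul_le_mul_of_nonneg_left hs (sq_nonneg t)]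
      exact le_of_mul_le_mul_right this (by positivity)
    nlinarith
  rw [integral_add (i2.const_mul t) (i3.const_mul _), integral_const_mul, integral_const_mul] at h1
  have h2 := energy_le h hGD hE
  have h3 : (2 * t)⁻¹ * ∫ x in G, 1 * M.N x 2 ∂M.μ ≤ (2 * t)⁻¹ * B :=
    mul_le_mul_of_nonneg_left hB (by positivity)
  have h4 : (2 * t)⁻¹ * B = B / t / 2 := by field_simp
  nlinarith

theorem cyl_sub {A : Set ℂ} (hA : A ⊆ Sq 2) : cyl A 1 ∩ M.top e3 ⊆ D M :=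
  fun _ hx => ⟨⟨hA hx.1.1, hx.1.2⟩, hx.2⟩

/-- The weighted mass of the upper sheet is the area of the base. -/
theorem mass_sheet (hI : S_ROI) (h : M.Mem) {om : ℝ} (hom : om ≤ 1 / 10) {A : Set ℂ}
    (hA : MeasurableSet A) (hAS : A ⊆ Sq 2) (hs : ∀ z ∈ A, M.Sheet om z) :
    ∫ x in cyl A 1 ∩ M.top e3, 1 * M.N x 2 ∂M.μ = volume.real A := by
  rw [(hI M om A (fun _ => 1) 1 h hom hA ((isBounded_Sq 2).subset hAS) hs measurable_const
    (fun x _ => by simp)).2]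
  simp

theorem real_le_of_le {A : Set ℂ} {c : ℝ} (hc : 0 ≤ c) (h : volume A ≤ ENNReal.ofReal c) :
    volume.real A ≤ c := ENNReal.toReal_le_of_le_ofReal hc h

variable {P : Par} {k β : ℝ} {u : Finset ℂ} {b : ℂ → ℝ} {p : ℂ → E} {Ro : Set ℂ} {a : ℂ → ℝ}

theorem sheet (hR : S_RCELL) (h : M.Mem) (hP : P.Ok) (hC : M.Cover P k β u b p Ro) {z : ℂ}
    (hz : z ∈ Ro) : M.Sheet P.om z := by
  obtain ⟨y, b', p', hc, hT, hzy⟩ := hC.reg z hz
  exact (hR M P.om y (4 * b') h hP.om_pos hP.om_le hT).1 z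
    (ball_subset_ball (by linarith [hc.pos]) hzy)

theorem hasD (hR : S_RCELL) (h : M.Mem) (hP : P.Ok) (hC : M.Cover P k β u b p Ro)
    (hm : M.Mid P u p Ro a) {z : ℂ} (hz : z ∈ Ro) :
    HasFDerivAt a ((2⁻¹ : ℝ) • (slp (M.N (pt z (M.hi z))) + slp (M.N (pt z (M.lo z))))) z := by
  have hs := sheet hR h hP hC hz
  refine ((hs.hi_der.add hs.lo_der).const_smul (2⁻¹ : ℝ)).congr_of_eventuallyEq ?_
  filter_upwards [hC.isOpen.mem_nhds hz] with y hy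
  rw [hm.reg y hy]
  simp only [Pi.smul_apply, Pi.add_apply, smul_eq_mul]
  ring

theorem der_bd (hR : S_RCELL) (hA : S_ALG) (h : M.Mem) (hP : P.Ok) (hC : M.Cover P k β u b p Ro)
    (hm : M.Mid P u p Ro a) {z : ℂ} (hz : z ∈ Ro) :
    ‖fderiv ℝ a z‖ ≤ ‖X M (pt z (M.hi z))‖ ∧ ∀ w : ℂ, ‖w‖ = 1 →
      |2 * fderiv ℝ a z w - ⟪X M (pt z (M.hi z)), w⟫| ≤ 3 * P.om ^ 2 * ‖X M (pt z (M.hi z))‖ := by
  have hs := sheet hR h hP hC hz
  obtain ⟨h1, h2, -, -⟩ := hA _ _ P.om (M.N_unit _ hs.hi_mem) (M.N_unit _ hs.lo_mem) hP.om_le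
    hs.hi_N hs.lo_N
  have hX : X M (pt z (M.hi z)) = pr (M.N (pt z (M.lo z))) - pr (M.N (pt z (M.hi z))) := by
    unfold X
    rw [hs.partner]
  rw [(hasD hR h hP hC hm hz).fderiv, hX]
  constructor
  · rw [norm_smul, Real.norm_eq_abs, abs_of_pos (by norm_num)]
    linarith
  · intro w hw
    have := h1 w
    rw [hw, mul_one] at this
    simp only [smul_apply, add_apply, smul_eq_mul]
    convert this using 2
    ring

theorem energy (hR : S_RCELL) (hI : S_ROI) (hA : S_ALG) (h : M.Mem) (hP : P.Ok)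
    (hC : M.Cover P k β u b p Ro) (hm : M.Mid P u p Ro a) {Eb : ℝ}
    (hE : M.E0 e3 (ball 0 5) ≤ Eb) : ∫ y in Ro ∩ Sq 2, ‖fderiv ℝ a y‖ ^ 2 ≤ 2 * Eb := by
  have hA1 : MeasurableSet (Ro ∩ Sq 2) := hC.isOpen.measurableSet.inter (measurableSet_Sq 2)
  obtain ⟨i1, e1⟩ := hI M P.om (Ro ∩ Sq 2) (M.edx e3) 2 h hP.om_le hA1
    ((isBounded_Sq 2).subset inter_subset_right) (fun z hz => sheet hR h hP hC hz.1)
    (h.measurable_edx e3) (fun x hx => abs_edx h hx)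
  have h1 : ∫ y in Ro ∩ Sq 2, ‖fderiv ℝ a y‖ ^ 2
      ≤ ∫ y in Ro ∩ Sq 2, 2 * M.edx e3 (pt y (M.hi y)) := by
    refine integral_mono_of_nonneg (Eventually.of_forall fun y => by positivity)
      (i1.const_mul 2) ?_
    filter_upwards [ae_restrict_mem hA1] with y hy
    have h2 := (der_bd hR hA h hP hC hm hy.1).1
    have h3 := X_sq (M := M) (pt y (M.hi y))
    nlinarith [norm_nonneg (fderiv ℝ a y)]
  rw [integral_const_mul, ← e1] at h1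
  have h2 := energy_le h (cyl_sub (M := M) (A := Ro ∩ Sq 2) inter_subset_right) hE
  linarith

/-- The weighted mass of the upper points that are not over the good set. -/
theorem rest_mass (hR : S_RCELL) (hI : S_ROI) (h : M.Mem) (hP : P.Ok) (hβ : P.Λ * β ≤ 1 / 10)
    (hC : M.Cover P k β u b p Ro) {B κ : ℝ} (hB : ∑ y ∈ u, b y ^ 2 ≤ B) (hκ : 0 ≤ κ)
    {L : Set ℂ} (hL : MeasurableSet L)
    (hLκ : volume {y : ℂ | y ∈ Sq 2 ∧ y ∉ L} ≤ ENNReal.ofReal (4 * κ)) :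
    ∫ x in D M \ cyl (Ro ∩ Sq 2 ∩ L) 1, 1 * M.N x 2 ∂M.μ ≤ 4 * κ + 650 * P.Λ ^ 2 * B := by
  have hRo := hC.isOpen.measurableSet
  have hA1 : MeasurableSet (Ro ∩ Sq 2 ∩ L) := (hRo.inter (measurableSet_Sq 2)).inter hL
  have hA2 : MeasurableSet (Ro ∩ Sq 2 ∩ Lᶜ) := (hRo.inter (measurableSet_Sq 2)).inter hL.compl
  have hG : MeasurableSet (D M \ cyl (Ro ∩ Sq 2 ∩ L) 1) :=
    (meas_D M).diff (measurableSet_cyl hA1 1)
  have i3 := intOn h hG sdiff_subset (f := fun _ => 1) measurable_const (C := 1) fun x _ => by simp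
  rw [← integral_inter_add_sdiff (measurableSet_cyl hA2 1) i3]
  have e1 : (D M \ cyl (Ro ∩ Sq 2 ∩ L) 1) ∩ cyl (Ro ∩ Sq 2 ∩ Lᶜ) 1
      = cyl (Ro ∩ Sq 2 ∩ Lᶜ) 1 ∩ M.top e3 := by
    ext x
    constructor
    · exact fun hx => ⟨hx.2, hx.1.1.2⟩
    · exact fun hx => ⟨⟨⟨⟨hx.1.1.1.2, hx.1.2⟩, hx.2⟩, fun h' => hx.1.1.2 h'.1.2⟩, hx.1⟩
  have h1 : ∫ x in (D M \ cyl (Ro ∩ Sq 2 ∩ L) 1) ∩ cyl (Ro ∩ Sq 2 ∩ Lᶜ) 1, 1 * M.N x 2 ∂M.μ
      ≤ 4 * κ := by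
    rw [e1, mass_sheet hI h hP.om_le hA2 (fun y hy => hy.1.2)
      (fun z hz => sheet hR h hP hC hz.1.1)]
    have hsb : Ro ∩ Sq 2 ∩ Lᶜ ⊆ {y : ℂ | y ∈ Sq 2 ∧ y ∉ L} := fun y hy => ⟨hy.1.2, hy.2⟩
    exact real_le_of_le (by linarith) ((measure_mono hsb).trans hLκ)
  set G := (D M \ cyl (Ro ∩ Sq 2 ∩ L) 1) \ cyl (Ro ∩ Sq 2 ∩ Lᶜ) 1 with hGdef
  have hGm : MeasurableSet G := hG.diff (measurableSet_cyl hA2 1)
  have hGb : Bornology.IsBounded G := (bdd_D M).subset fun x hx => hx.1.1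
  have h2 : ∫ x in G, 1 * M.N x 2 ∂M.μ ≤ M.μ.real G := by
    have h3 : ‖∫ x in G, 1 * M.N x 2 ∂M.μ‖ ≤ 1 * M.μ.real G := by
      refine norm_setIntegral_le_of_norm_le_const_ae (h.bd.lt_top hGb) ?_
      filter_upwards [ae_restrict_of_ae M.ae_mem] with x hS
      rw [one_mul]
      exact N2_le hS
    rw [one_mul] at h3
    exact (le_abs_self _).trans h3
  have hsub : G ⊆ ⋃ y ∈ u, cyl (closedBall y (5 * P.Λ * b y)) 1 := by
    intro x hx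
    have hq : pr x ∈ Sq 2 := hx.1.1.1.1
    have hl : |x 2| < 1 := hx.1.1.1.2
    rcases hC.cover (pr x) (by linarith [norm_le_of_mem_Sq hq]) with hr | ⟨y, hy, hd⟩
    · by_cases hxL : pr x ∈ L
      · exact absurd ⟨⟨⟨hr, hq⟩, hxL⟩, hl⟩ hx.1.2
      · exact absurd ⟨⟨⟨hr, hq⟩, hxL⟩, hl⟩ hx.2
    · exact mem_biUnion hy ⟨mem_closedBall_iff_norm.2 hd, hl⟩
  have hfin : M.μ (⋃ y ∈ u, cyl (closedBall y (5 * P.Λ * b y)) 1) ≠ ∞ :=
    (h.bd.lt_top ((Bornology.isBounded_biUnion_finset u).2 fun y _ =>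
      isBounded_cyl isBounded_closedBall 1)).ne
  have h4 : M.μ.real G ≤ ∑ y ∈ u, M.μ.real (cyl (closedBall y (5 * P.Λ * b y)) 1) :=
    (measureReal_mono hsub hfin).trans (measureReal_biUnion_finset_le u _)
  have h5 : ∑ y ∈ u, M.μ.real (cyl (closedBall y (5 * P.Λ * b y)) 1)
      ≤ ∑ y ∈ u, 650 * P.Λ ^ 2 * b y ^ 2 := by
    refine Finset.sum_le_sum fun y hy => ?_
    have hc := hC.cell y hy
    obtain ⟨m1, m2, m3, -⟩ := hc.mul_le hP hβ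
    have hb := hc.pos
    have := hc.mass hP h (ρ := 5 * P.Λ * b y) (by linarith) (by linarith)
    linarith
  rw [← Finset.mul_sum] at h5
  have h6 : 650 * P.Λ ^ 2 * ∑ y ∈ u, b y ^ 2 ≤ 650 * P.Λ ^ 2 * B :=
    mul_le_mul_of_nonneg_left hB (by positivity)
  linarith

theorem abs_inner_unit (v : ℂ) {w : ℂ} (hw : ‖w‖ = 1) : |⟪v, w⟫| ≤ ‖v‖ := by
  simpa [hw] using abs_real_inner_le_norm v w

theorem meas_f (h : M.Mem) (w : ℂ) {q : ℂ → ℝ} (hq : Measurable q) :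
    Measurable fun x => ⟪X M x, w⟫ * q (pr x) :=
  ((meas_X h).inner measurable_const).mul (hq.comp measurable_pr)

theorem f_le {w : ℂ} (hw : ‖w‖ = 1) {q : ℂ → ℝ} {m : ℝ} (hqm : ∀ y, |q y| ≤ m) (x : E) :
    |⟪X M x, w⟫ * q (pr x)| ≤ m * ‖X M x‖ := by
  rw [abs_mul, mul_comm]
  exact mul_le_mul (hqm _) (abs_inner_unit _ hw) (abs_nonneg _) ((abs_nonneg _).trans (hqm 0))

theorem f_le' (h : M.Mem) {w : ℂ} (hw : ‖w‖ = 1) {q : ℂ → ℝ} {m : ℝ} (hqm : ∀ y, |q y| ≤ m)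
    {x : E} (hx : x ∈ M.S) : |⟪X M x, w⟫ * q (pr x)| ≤ m * 2 :=
  (f_le hw hqm x).trans (mul_le_mul_of_nonneg_left (X_le h hx) ((abs_nonneg _).trans (hqm 0)))

/-- One direction of the weak equation. -/
theorem one_dir (hR : S_RCELL) (hI : S_ROI) (hA : S_ALG) (h : M.Mem) (hP : P.Ok)
    (hβ : P.Λ * β ≤ 1 / 10) (hC : M.Cover P k β u b p Ro) (hm : M.Mid P u p Ro a) {Eb B κ : ℝ}
    (hE : M.E0 e3 (ball 0 5) ≤ Eb) (hB : ∑ y ∈ u, b y ^ 2 ≤ B) (hκ : 0 ≤ κ)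
    {L : Set ℂ} (hL : MeasurableSet L)
    (hLκ : volume {y : ℂ | y ∈ Sq 2 ∧ y ∉ L} ≤ ENNReal.ofReal (4 * κ)) {w : ℂ} (hw : ‖w‖ = 1)
    {q : ℂ → ℝ} {m : ℝ} (hq : Measurable q) (hqm : ∀ y, |q y| ≤ m)
    (hq0 : ∀ y, 2 ≤ ‖y‖ → q y = 0) :
    |2 * (∫ y in Ro ∩ L, fderiv ℝ a y w * q y)
        - ∫ x in D M, ⟪X M x, w⟫ * q (pr x) * M.N x 2 ∂M.μ|
      ≤ m * (√(2 * Eb) * (12 * P.om ^ 2 + √(4 * κ + 650 * P.Λ ^ 2 * B))) := by
  have hm0 : 0 ≤ m := (abs_nonneg _).trans (hqm 0)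
  have hB0 : 0 ≤ B := (Finset.sum_nonneg fun y _ => sq_nonneg (b y)).trans hB
  have hRo := hC.isOpen.measurableSet
  have hA1 : MeasurableSet (Ro ∩ Sq 2 ∩ L) := (hRo.inter (measurableSet_Sq 2)).inter hL
  have hA1S : Ro ∩ Sq 2 ∩ L ⊆ Sq 2 := fun y hy => hy.1.2
  have hA1b := (isBounded_Sq 2).subset hA1S
  have hsh : ∀ z ∈ Ro ∩ Sq 2 ∩ L, M.Sheet P.om z := fun z hz => sheet hR h hP hC hz.1.1
  have hcm := measurableSet_cyl hA1 1
  have iD := intOn h (meas_D M) Subset.rfl (meas_f h w hq) fun x hx => f_le' h hw hqm hx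
  have e0 : ∫ y in Ro ∩ L, fderiv ℝ a y w * q y
      = ∫ y in Ro ∩ Sq 2 ∩ L, fderiv ℝ a y w * q y := by
    refine setIntegral_eq_of_subset_of_forall_sdiff_eq_zero (hRo.inter hL)
      (fun y hy => ⟨hy.1.1, hy.2⟩) fun y hy => ?_
    have : 2 ≤ ‖y‖ := by
      by_contra hlt
      exact hy.2 ⟨⟨hy.1.1, mem_Sq_of_norm_le (not_le.1 hlt).le⟩, hy.1.2⟩
    rw [hq0 y this, mul_zero]
  have e1 : D M ∩ cyl (Ro ∩ Sq 2 ∩ L) 1 = cyl (Ro ∩ Sq 2 ∩ L) 1 ∩ M.top e3 := by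
    ext x
    exact ⟨fun hx => ⟨hx.2, hx.1.2⟩, fun hx => ⟨cyl_sub hA1S hx, hx.1⟩⟩
  obtain ⟨i1, e2⟩ := hI M P.om _ (fun x => ⟪X M x, w⟫ * q (pr x)) (m * 2) h hP.om_le hA1 hA1b hsh
    (meas_f h w hq) fun x hx => f_le' h hw hqm hx
  obtain ⟨i2, e3'⟩ := hI M P.om _ (fun x => ‖X M x‖) 2 h hP.om_le hA1 hA1b hsh
    (meas_X h).norm fun x hx => abs_normX h hx
  simp only [pr_pt] at i1 e2
  have hv : volume (Ro ∩ Sq 2 ∩ L) ≤ ENNReal.ofReal 16 := by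
    refine (measure_mono hA1S).trans ?_
    rw [volume_Sq (by norm_num)]
    norm_num
  have c1 : ∫ z in Ro ∩ Sq 2 ∩ L, ‖X M (pt z (M.hi z))‖ ≤ √(2 * Eb) * 4 := by
    have := cs h (hcm.inter (M.measurableSet_top e3)) (cyl_sub hA1S) hE (B := 16) (by norm_num)
      (by rw [mass_sheet hI h hP.om_le hA1 hA1S hsh]; exact real_le_of_le (by norm_num) hv)
    rw [e3'] at this
    have h16 : √16 = 4 := by
      rw [show (16 : ℝ) = 4 ^ 2 by norm_num, Real.sqrt_sq (by norm_num)]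
    rwa [h16] at this
  have i0 : IntegrableOn (fun y => fderiv ℝ a y w * q y) (Ro ∩ Sq 2 ∩ L) := by
    refine Measure.integrableOn_of_bounded (M := 2 * m) (hv.trans_lt ENNReal.ofReal_lt_top).ne
      ((measurable_fderiv_apply_const ℝ a w).mul hq).aestronglyMeasurable ?_
    filter_upwards [ae_restrict_mem hA1] with y hy
    have h1 := (der_bd hR hA h hP hC hm hy.1.1).1
    have h2 := X_le h (hsh y hy).hi_mem
    have h3 := (fderiv ℝ a y).le_opNorm w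
    rw [hw, mul_one] at h3
    rw [norm_mul]
    exact mul_le_mul (by linarith) (hqm y) (norm_nonneg _) (by norm_num)
  have c2 : |2 * (∫ y in Ro ∩ Sq 2 ∩ L, fderiv ℝ a y w * q y)
      - ∫ z in Ro ∩ Sq 2 ∩ L, ⟪X M (pt z (M.hi z)), w⟫ * q z|
      ≤ m * (3 * P.om ^ 2) * (√(2 * Eb) * 4) := by
    rw [← integral_const_mul, ← integral_sub (i0.const_mul 2) i1]
    refine le_trans ?_ (mul_le_mul_of_nonneg_left c1 (by positivity))
    rw [← integral_const_mul, ← Real.norm_eq_abs]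
    refine norm_integral_le_of_norm_le (i2.const_mul _) ?_
    filter_upwards [ae_restrict_mem hA1] with y hy
    have h1 := (der_bd hR hA h hP hC hm hy.1.1).2 w hw
    have e : 2 * (fderiv ℝ a y w * q y) - ⟪X M (pt y (M.hi y)), w⟫ * q y
        = q y * (2 * fderiv ℝ a y w - ⟪X M (pt y (M.hi y)), w⟫) := by ring
    rw [e, norm_mul, mul_assoc]
    exact mul_le_mul (hqm y) h1 (norm_nonneg _) hm0
  have hG : MeasurableSet (D M \ cyl (Ro ∩ Sq 2 ∩ L) 1) := (meas_D M).diff hcm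
  have c3 : |∫ x in D M \ cyl (Ro ∩ Sq 2 ∩ L) 1, ⟪X M x, w⟫ * q (pr x) * M.N x 2 ∂M.μ|
      ≤ m * (√(2 * Eb) * √(4 * κ + 650 * P.Λ ^ 2 * B)) := by
    have h1 := cs h hG sdiff_subset hE (by positivity) (rest_mass hR hI h hP hβ hC hB hκ hL hLκ)
    refine le_trans ?_ (mul_le_mul_of_nonneg_left h1 hm0)
    rw [← integral_const_mul, ← Real.norm_eq_abs]
    refine norm_integral_le_of_norm_le
      ((intOn h hG sdiff_subset (meas_X h).norm fun x hx => abs_normX h hx).const_mul m) ?_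
    filter_upwards [ae_restrict_mem hG] with x hx
    have hp := top_pos hx.1.2
    rw [norm_mul, Real.norm_of_nonneg hp.le, ← mul_assoc]
    exact mul_le_mul_of_nonneg_right (f_le hw hqm x) hp.le
  rw [e0, ← integral_inter_add_sdiff hcm iD, e1, e2]
  have := abs_le.1 c2
  have := abs_le.1 c3
  refine abs_le.2 ⟨by nlinarith, by nlinarith⟩

theorem sqrt_bd {κ Λ B : ℝ} (hκ : 0 ≤ κ) (hΛ : 0 ≤ Λ) (hB : 0 ≤ B) :
    √(4 * κ + 650 * Λ ^ 2 * B) ≤ 2 * √κ + 26 * (Λ * √B) := by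
  have h1 := Real.sq_sqrt hκ
  have h2 := Real.sq_sqrt hB
  have h3 : 0 ≤ √κ * (Λ * √B) := by positivity
  have h4 : (Λ * √B) ^ 2 = Λ ^ 2 * B := by rw [mul_pow, h2]
  refine Real.sqrt_le_iff.2 ⟨by positivity, ?_⟩
  nlinarith [sq_nonneg (Λ * √B)]

theorem vol4 {X : Set ℝ} {κ : ℝ} (h : volume (I2 \ X) ≤ ENNReal.ofReal κ) :
    4 * volume (I2 \ X) ≤ ENNReal.ofReal (4 * κ) := by
  rw [ENNReal.ofReal_mul (by norm_num), ENNReal.ofReal_ofNat]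
  gcongr

end DWEAK

theorem weak_of (hR : S_RCELL) (hF : S_FVX) (hI : S_ROI) (hA : S_ALG) : S_WEAK := by
  refine ⟨40, by norm_num, ?_⟩
  intro M P k β u b p Ro a Eb B κ V H h hP hk hk' hβ hH hC hm hE hB hV hHm hκ cV cH
  refine ⟨fun z hz => (DWEAK.hasD hR h hP hC hm hz).differentiableAt,
    DWEAK.energy hR hI hA h hP hC hm hE, fun z m hz => ?_⟩
  have hm0 := hz.nonneg
  have hE0 : 0 ≤ Eb := (M.E0_nonneg _ _).trans hE
  have hB0 : 0 ≤ B := (Finset.sum_nonneg fun y _ => sq_nonneg (b y)).trans hB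
  have hΛ : 0 ≤ P.Λ := by linarith [hP.four_le]
  have d1 := DWEAK.one_dir hR hI hA h hP hβ hC hm hE hB hκ (L := {y : ℂ | y.im ∈ H})
    (Complex.measurable_im hHm) ((volume_Sq_im hHm).trans_le (DWEAK.vol4 cH)) (w := 1) norm_one
    (measurable_p1 z) hz.b1 fun y hy => (hz.p_eq_zero hy).1
  have d2 := DWEAK.one_dir hR hI hA h hP hβ hC hm hE hB hκ (L := {y : ℂ | y.re ∈ V})
    (Complex.measurable_re hV) ((volume_Sq_re hV).trans_le (DWEAK.vol4 cV)) (w := Complex.I)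
    Complex.norm_I (measurable_p2 z) hz.b2 fun y hy => (hz.p_eq_zero hy).2
  have i1 := DWEAK.intOn h (DWEAK.meas_D M) Subset.rfl (DWEAK.meas_f h 1 (measurable_p1 z))
    fun x hx => DWEAK.f_le' h norm_one hz.b1 hx
  have i2 := DWEAK.intOn h (DWEAK.meas_D M) Subset.rfl
    (DWEAK.meas_f h Complex.I (measurable_p2 z)) fun x hx => DWEAK.f_le' h Complex.norm_I hz.b2 hx
  have f0 := hF M k z h hk hk' hH (hz.diff.of_le (by norm_num)) hz.supp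
  have f1 : (∫ x in DWEAK.D M, ⟪DWEAK.X M x, (1 : ℂ)⟫ * p1 z (pr x) * M.N x 2 ∂M.μ)
      + ∫ x in DWEAK.D M, ⟪DWEAK.X M x, Complex.I⟫ * p2 z (pr x) * M.N x 2 ∂M.μ = 0 := by
    rw [← integral_add i1 i2, ← f0]
    refine integral_congr_ae (Eventually.of_forall fun x => ?_)
    have r1 : ⟪DWEAK.X M x, (1 : ℂ)⟫ = (DWEAK.X M x).re := by simp [Complex.inner]
    have r2 : ⟪DWEAK.X M x, Complex.I⟫ = (DWEAK.X M x).im := by simp [Complex.inner]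
    have r3 := fderiv_eq_p z (pr x) (DWEAK.X M x)
    simp only [r1, r2]
    unfold DWEAK.X at r3 ⊢
    rw [r3]
    ring
  have s1 := DWEAK.sqrt_bd hκ hΛ hB0
  have s2 : √(2 * Eb) ≤ 3 / 2 * √Eb := by
    refine Real.sqrt_le_iff.2 ⟨by positivity, ?_⟩
    nlinarith [Real.sq_sqrt hE0]
  have s3 : m * (√(2 * Eb) * (12 * P.om ^ 2 + √(4 * κ + 650 * P.Λ ^ 2 * B)))
      ≤ 40 * (P.om ^ 2 + √κ + P.Λ * √B) * √Eb * m := by
    have t1 : 12 * P.om ^ 2 + √(4 * κ + 650 * P.Λ ^ 2 * B)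
        ≤ 26 * (P.om ^ 2 + √κ + P.Λ * √B) := by
      nlinarith [sq_nonneg P.om, Real.sqrt_nonneg κ]
    have t2 : √(2 * Eb) * (12 * P.om ^ 2 + √(4 * κ + 650 * P.Λ ^ 2 * B))
        ≤ 3 / 2 * √Eb * (26 * (P.om ^ 2 + √κ + P.Λ * √B)) :=
      mul_le_mul s2 t1 (by positivity) (by positivity)
    have t3 : 0 ≤ (P.om ^ 2 + √κ + P.Λ * √B) * √Eb * m := by positivity
    nlinarith [mul_le_mul_of_nonneg_left t2 hm0]
  have e1 := abs_le.1 d1
  have e2 := abs_le.1 d2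
  unfold p1 p2 at *
  refine abs_le.2 ⟨by linarith [e1.1, e2.1], by linarith [e1.2, e2.2]⟩

end MW
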