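import Pool.Agent.P.MP_064970_gt.D.GK
import Pool.Agent.P.MP_064970_gt.D.GT
import Pool.Agent.P.MP_064970_gt.D.GJ
import Pool.Agent.P.MP_064970_gt.D.GB
import Pool.Agent.P.MP_064970_gt.D.GTR
import Pool.Agent.P.MP_064970_gt.D.GRID
import Pool.Agent.P.MP_064970_gt.D.GLINE
import Pool.Agent.P.MP_064970_gt.D.CACC3
import Pool.Agent.P.MP_064970_gt.D.STOP
import Pool.Agent.P.MP_064970_gt.D.CX
import Pool.Agent.P.MP_064970_gt.D.CELLB
import Pool.Agent.P.MP_064970_gt.D.CELLR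
import Pool.Agent.P.MP_064970_gt.D.FLUXLIM
import Pool.Agent.P.MP_064970_gt.D.FLUXPOS
import Pool.Agent.P.MP_064970_gt.D.FLUXMONO
import Pool.Agent.P.MP_064970_gt.D.CELLN
import Pool.Agent.P.MP_064970_gt.D.CELL
import Pool.Agent.P.MP_064970_gt.D.CELLS
import Pool.Agent.P.MP_064970_gt.D.COVER3
import Pool.Agent.P.MP_064970_gt.D.RCELL
import Pool.Agent.P.MP_064970_gt.D.MID
import Pool.Agent.P.MP_064970_gt.D.SUMS
import Pool.Agent.P.MP_064970_gt.D.LINES
import Pool.Agent.P.MP_064970_gt.D.FVX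
import Pool.Agent.P.MP_064970_gt.D.ROI
import Pool.Agent.P.MP_064970_gt.D.ALG
import Pool.Agent.P.MP_064970_gt.D.WEAK
import Pool.Agent.P.MP_064970_gt.D.CHORD
import Pool.Agent.P.MP_064970_gt.D.OBL
import Pool.Agent.P.MP_064970_gt.D.CUT
import Pool.Agent.P.MP_064970_gt.D.EST
import Pool.Agent.P.MP_064970_gt.D.DECAY
import Pool.Agent.P.MP_064970_gt.D.NEXT
import Pool.Agent.P.MP_064970_gt.D.START
import Pool.Agent.P.MP_064970_gt.D.STEP
import Pool.Agent.P.MP_064970_gt.D.SYMII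
import Pool.Agent.P.MP_064970_gt.D.ENDG
import Pool.Agent.P.MP_064970_gt.D.CASEII

/-! Case II (section 5) from the statements of sections 1, 2 and 3. -/

namespace MW

theorem d_caseII (hFV : S_FV) (hMONO : S_MONO) (hSHIFT : S_SHIFT) (hUP : S_UP) (hLG : S_LG)
    (hAREA : S_AREA) (hAREAR : S_AREAR) (hLIM : S_LIM) (hCONV : S_CONV) (hCONST : S_CONST)
    (hPERSIST : S_PERSIST) (hFLAT1 : S_FLAT1) (hFLAT2 : S_FLAT2) (hTWO : S_TWO) (hGAP : S_GAP)
    (hCOR : S_COR) (hDEC : S_DEC) (hBIJ : S_BIJ) (hCAC : S_CAC) (hCACO : S_CACO) (hPI : S_PI)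
    (hELB : S_ELB) (hEDZ : S_EDZ) (hSYM : S_SYM) : S_CASEII := by
  have hC3 := cacc3_of hFV
  have hCell := cell_of hLIM hCOR hCONV hUP hEDZ hSYM (cellb_of hELB hMONO)
    (cellr_of hTWO hPERSIST) (fluxlim_of hPERSIST) (fluxpos_of hFV hAREA) (fluxmono_of hPI)
    (celln_of hFLAT1 hFLAT2)
  have hCells := cells_of (stop_of hC3 hMONO hSHIFT hUP) (cx_of hDEC hMONO hC3) hCell
  have hR := rcell_of hLG alg
  have hDecay := decay_of hCells cover3 (mid_of hR) (sums_of hPI hC3) lines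
    (weak_of hR (fvx_of hFV hBIJ) (roi_of hAREAR) alg) gline (grid_of gk gt gj gb gtr)
    (est_of (chord_of hR) (obl_of hAREA)) (cut_of hCACO)
  have hNext := next_of hELB hMONO
  exact caseII_of (symII_of hGAP (start_of hCAC) (step_of hDecay hNext hMONO) hEDZ hCONST) hSYM
    hNext hGAP (endg_of hCells hC3)

end MW
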