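import Pool.Agent.P.MP_064970_gt.D.API

/-! D2, disconnected limit. TWO: S = two planes with normal ν; L = om/8, h = Λ₀ + 5. wedge ν e3 ≤ 2L (else far points of a plane in the direction of
exists_steepest lie in W'). Replace ν by -ν so that ν 2 > 0; ‖ν - e3‖ ≤ 4L = om/2 (norm_sub_le_wedge). For ‖z‖ ≤ 4 the vertical line meets S at two heights
t₂ < t₁, |t_i| ≤ Λ₀ < h; pt z (±h) ∈ W'; N = ν at the upper point and -ν at the lower one (`side` with v = ∓e3 and subset_W' on the segment to pt z (±h)).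
PERSIST for a = pt z (-h), e = (2h) • e3, ε = min (om/2) ε₀ gives δ_z and, eventually in k, the clause of TyR for all z' with ‖z' - z‖ < δ_z
(end points are in W'_k, so parameters are in (0,1); two points ε-close to the same parameter are equal). Finite subcover of closedBall 0 4
(IsCompact.elim_nhds_subcover), Filter.eventually_all_finset. -/

open MeasureTheory Set Filter Topology Metric
open scoped RealInnerProductSpace ENNReal NNReal ComplexConjugate Real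

noncomputable section

namespace MW

namespace DCELLR

/-- The clause of `TyR` over one point. -/
def Cl (M : Surf) (om h : ℝ) (z : ℂ) : Prop :=
  ∃ t₁ t₂ : ℝ, t₂ < t₁ ∧ |t₁| < h ∧ |t₂| < h ∧ pt z t₁ ∈ M.S ∧ pt z t₂ ∈ M.S ∧
    ‖M.N (pt z t₁) - e3‖ ≤ om ∧ ‖M.N (pt z t₂) + e3‖ ≤ om ∧
    ∀ t, |t| < h → pt z t ∈ M.S → t = t₁ ∨ t = t₂

theorem line (z : ℂ) (h t : ℝ) : pt z (-h) + t • (2 * h) • e3 = pt z (-h + t * (2 * h)) := by
  rw [smul_smul, pt_add_smul_e3]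

theorem line' (z : ℂ) (h : ℝ) : pt z (-h) + (2 * h) • e3 = pt z h := by
  rw [pt_add_smul_e3]
  congr 1
  ring

/-- Two transversal crossings of a vertical segment persist. -/
theorem loc (hP : S_PERSIST) {U : Ultrafilter ℕ} {Mk : ℕ → Surf} {M : Surf}
    (hk : ∀ k, (Mk k).Mem) (hM : M.Mem) (hc : Conv (U : Filter ℕ) Mk M) {om h t₁ t₂ : ℝ} {z : ℂ}
    {ν : E} (hom : 0 < om) (h21 : t₂ < t₁) (h1 : |t₁| < h) (h2 : |t₂| < h)
    (hS : ∀ t, pt z t ∈ M.S ↔ t = t₁ ∨ t = t₂) (hu : pt z h ∈ M.W') (hl : pt z (-h) ∈ M.W')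
    (hN1 : M.N (pt z t₁) = ν) (hN2 : M.N (pt z t₂) = -ν) (hν : ‖ν - e3‖ ≤ om / 2)
    (hν2 : ν 2 ≠ 0) :
    ∃ δ, 0 < δ ∧ ∀ᶠ k in (U : Filter ℕ), ∀ z', ‖z' - z‖ < δ → Cl (Mk k) om h z' := by
  have hh : 0 < h := (abs_nonneg _).trans_lt h1
  have hh2 : 0 < 2 * h := by linarith
  obtain ⟨a1, a1'⟩ := abs_lt.1 h1
  obtain ⟨a2, a2'⟩ := abs_lt.1 h2
  have par : ∀ t : ℝ, -h + (t + h) / (2 * h) * (2 * h) = t := fun t => by
    rw [div_mul_cancel₀ _ hh2.ne']
    ring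
  have parI : ∀ t : ℝ, |t| < h → (t + h) / (2 * h) ∈ Icc (0 : ℝ) 1 := fun t ht =>
    ⟨div_nonneg (by linarith [(abs_lt.1 ht).1]) hh2.le,
      (div_le_one hh2).2 (by linarith [(abs_lt.1 ht).2])⟩
  set τ₁ := (t₁ + h) / (2 * h) with hτ₁
  set τ₂ := (t₂ + h) / (2 * h) with hτ₂
  have hS' : ∀ τ : ℝ, pt z (-h) + τ • (2 * h) • e3 ∈ M.S ↔ τ = τ₁ ∨ τ = τ₂ := fun τ => by
    rw [line, hS, hτ₁, hτ₂, eq_div_iff hh2.ne', eq_div_iff hh2.ne']
    constructor <;> rintro (e | e)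
    · left; linarith
    · right; linarith
    · left; linarith
    · right; linarith
  have n1 : M.N (pt z (-h) + τ₁ • (2 * h) • e3) = ν := by rw [line, par, hN1]
  have n2 : M.N (pt z (-h) + τ₂ • (2 * h) • e3) = -ν := by rw [line, par, hN2]
  have h12 : τ₂ < τ₁ := div_lt_div_of_pos_right (by linarith) hh2
  obtain ⟨ε₀, hε₀, hsep, hper⟩ := hP U Mk M hk hc (pt z (-h)) ((2 * h) • e3)
    (fun t _ => hM.sub univ (mem_univ _)) (fun h' => disjoint_left.1 M.disjS' hl h')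
    (by rw [line']; exact fun h' => disjoint_left.1 M.disjS' hu h')
    (fun t _ ht => by
      rcases (hS' t).1 ht with e | e
      · rw [e, n1, inner_smul_left, e3_inner]
        exact mul_ne_zero (by simpa using hh.ne') hν2
      · rw [e, n2, inner_smul_left, inner_neg_right, e3_inner]
        exact mul_ne_zero (by simpa using hh.ne') (neg_ne_zero.2 hν2))
  have hs := hsep τ₁ (parI _ h1) τ₂ (parI _ h2) ((hS' _).2 (Or.inl rfl)) ((hS' _).2 (Or.inr rfl))
    h12.ne'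
  rw [abs_of_pos (sub_pos.2 h12)] at hs
  have e1 : min (om / 2) ε₀ ≤ om / 2 := min_le_left _ _
  have e2 : min (om / 2) ε₀ ≤ ε₀ := min_le_right _ _
  obtain ⟨δ, hδ, hev⟩ := hper (min (om / 2) ε₀) (lt_min (half_pos hom) hε₀)
  refine ⟨δ, hδ, hev.mono fun k hk' z' hz' => ?_⟩
  obtain ⟨-, b2, -, b4, b5, b6, b7⟩ := hk' (pt z' (-h)) ((2 * h) • e3)
    (by rw [← pt_sub, sub_self, norm_pt_zero]; exact hz') (by rw [sub_self, norm_zero]; exact hδ)
  have c2 := b2 hl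
  have c4 := b4 (by rw [line']; exact hu)
  obtain ⟨s₁, s1I, s1c, s1S⟩ := b5 τ₁ (parI _ h1) ((hS' _).2 (Or.inl rfl))
  obtain ⟨s₂, s2I, s2c, s2S⟩ := b5 τ₂ (parI _ h2) ((hS' _).2 (Or.inr rfl))
  have inn : ∀ s ∈ Icc (0 : ℝ) 1, pt z' (-h) + s • (2 * h) • e3 ∈ (Mk k).S →
      |-h + s * (2 * h)| < h := fun s hs hs' => by
    have d0 : s ≠ 0 := fun e => by
      rw [e, zero_smul, add_zero] at hs'
      exact disjoint_left.1 (Mk k).disjS' c2 hs'
    have d1 : s ≠ 1 := fun e => by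
      rw [e, one_smul] at hs'
      exact disjoint_left.1 (Mk k).disjS' c4 hs'
    have d2 := mul_pos (lt_of_le_of_ne hs.1 d0.symm) hh2
    have d3 := mul_pos (sub_pos.2 (lt_of_le_of_ne hs.2 d1)) hh2
    exact abs_lt.2 ⟨by linarith, by linarith⟩
  obtain ⟨f1, f1'⟩ := abs_lt.1 s1c
  obtain ⟨f2, f2'⟩ := abs_lt.1 s2c
  refine ⟨-h + s₁ * (2 * h), -h + s₂ * (2 * h), ?_, inn _ s1I s1S, inn _ s2I s2S,
    by rwa [← line], by rwa [← line], ?_, ?_, fun t ht htS => ?_⟩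
  · have := mul_pos (show 0 < s₁ - s₂ by linarith) hh2
    linarith
  · obtain ⟨t, -, tS, tc, tN⟩ := b6 s₁ s1I s1S
    rcases (hS' t).1 tS with e | e
    · rw [e, n1, line] at tN
      have := norm_sub_le_norm_sub_add_norm_sub ((Mk k).N (pt z' (-h + s₁ * (2 * h)))) ν e3
      linarith
    · rw [e] at tc
      linarith [(abs_lt.1 tc).2]
  · obtain ⟨t, -, tS, tc, tN⟩ := b6 s₂ s2I s2S
    rcases (hS' t).1 tS with e | e
    · rw [e] at tc
      linarith [(abs_lt.1 tc).1]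
    · rw [e, n2, line] at tN
      have := norm_sub_le ((Mk k).N (pt z' (-h + s₂ * (2 * h))) - -ν) (ν - e3)
      rw [show (Mk k).N (pt z' (-h + s₂ * (2 * h))) - -ν - (ν - e3)
        = (Mk k).N (pt z' (-h + s₂ * (2 * h))) + e3 by abel] at this
      linarith
  · have tS : pt z' (-h) + ((t + h) / (2 * h)) • (2 * h) • e3 ∈ (Mk k).S := by rwa [line, par]
    obtain ⟨u, -, uS, uc, -⟩ := b6 _ (parI t ht) tS
    obtain ⟨g1, g2⟩ := abs_lt.1 uc
    rcases (hS' u).1 uS with e | e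
    · left
      rw [← b7 _ (parI t ht) s₁ s1I tS s1S (abs_le.2 ⟨by linarith, by linarith⟩), par]
    · right
      rw [← b7 _ (parI t ht) s₂ s2I tS s2S (abs_le.2 ⟨by linarith, by linarith⟩), par]

/-- A plane that avoids a double cone is almost horizontal. -/
theorem tilt {M : Surf} {ν : E} {a L Λ₀ : ℝ} (hν : ‖ν‖ = 1) (hL : 0 < L) (hL1 : L ≤ 1)
    (hΛ : 0 ≤ Λ₀) (hS : ∀ x : E, ⟪x, ν⟫ = a → x ∈ M.S)
    (hW : ∀ z : E, Λ₀ < ‖z‖ → L * ‖pr z‖ < |z 2| → z ∈ M.W') : wedge ν e3 ≤ 2 * L := by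
  by_contra hw
  rw [not_le] at hw
  obtain ⟨v, hv, hvν, hve⟩ := exists_steepest norm_e3 hν
  rw [inner_e3] at hve
  have ha := abs_nonneg a
  obtain ⟨s, hs⟩ : ∃ s : ℝ, s = (2 * |a| + 1) / L + Λ₀ + |a| := ⟨_, rfl⟩
  have h0 : 0 < (2 * |a| + 1) / L := by positivity
  have hs0 : 0 < s := by linarith
  have hsL : 2 * |a| + 1 ≤ L * s := by
    have : L * ((2 * |a| + 1) / L) = 2 * |a| + 1 := mul_div_cancel₀ _ hL.ne'
    rw [hs, mul_add, mul_add, this]
    nlinarith [mul_nonneg hL.le hΛ, mul_nonneg hL.le ha]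
  have n1 : ‖a • ν‖ = |a| := by rw [norm_smul, hν, mul_one, Real.norm_eq_abs]
  have n2 : ‖s • v‖ = s := by rw [norm_smul, hv, mul_one, Real.norm_of_nonneg hs0.le]
  have hx : a • ν + s • v ∈ M.S := hS _ (by
    rw [inner_add_left, real_inner_smul_left, real_inner_smul_left, hvν, real_inner_self_eq_norm_sq,
      hν]
    ring)
  refine disjoint_left.1 M.disjS' (hW _ ?_ ?_) hx
  · have := norm_sub_le (a • ν + s • v) (a • ν)
    rw [add_sub_cancel_left, n1, n2] at this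
    linarith
  · have b1 : ‖pr (a • ν + s • v)‖ ≤ |a| + s :=
      (norm_pr_le _).trans ((norm_add_le _ _).trans (by rw [n1, n2]))
    have b2 : |(a • ν) 2| ≤ |a| := (abs_two_le _).trans n1.le
    have b3 : (a • ν + s • v) 2 = (a • ν) 2 + s * wedge ν e3 := by
      rw [← hve]
      rfl
    have b4 := mul_lt_mul_of_pos_left hw hs0
    have b5 := mul_le_mul_of_nonneg_left b1 hL.le
    have b6 := mul_le_mul_of_nonneg_right hL1 ha
    have b7 := le_abs_self ((a • ν + s • v) 2)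
    have b8 := (abs_le.1 b2).1
    nlinarith

theorem core (hP : S_PERSIST) {U : Ultrafilter ℕ} {Mk : ℕ → Surf} {M : Surf}
    (hk : ∀ k, (Mk k).Mem) (hM : M.Mem) (hc : Conv (U : Filter ℕ) Mk M) {om Λ₀ a b : ℝ} {ν : E}
    (hom : 0 < om) (hom' : om ≤ 1 / 10) (hΛ : 1 ≤ Λ₀)
    (hW : ∀ z : E, Λ₀ < ‖z‖ → om / 8 * ‖pr z‖ < |z 2| → z ∈ M.W') (hν : ‖ν‖ = 1) (hab : a < b)
    (hS : ∀ x : E, x ∈ M.S ↔ ⟪x, ν⟫ = a ∨ ⟪x, ν⟫ = b) (hN : ∀ x ∈ M.S, M.N x = ν ∨ M.N x = -ν)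
    (h0 : 0 ≤ ν 2) : ∀ᶠ k in (U : Filter ℕ), (Mk k).TyR om 0 4 (Λ₀ + 5) := by
  have hw := tilt (L := om / 8) hν (by linarith) (by linarith) (by linarith)
    (fun x hx => (hS x).2 (Or.inl hx)) hW
  have hne : ‖ν - e3‖ ≤ om / 2 := by
    have := norm_sub_le_wedge hν norm_e3 (by rwa [inner_e3])
    linarith
  have hpos : 0 < ν 2 := by
    have h1 := (abs_le.1 ((abs_two_le (ν - e3)).trans hne)).1
    have h2 : (ν - e3) 2 = ν 2 - 1 := rfl
    linarith
  have key : ∀ z ∈ closedBall (0 : ℂ) 4, ∃ δ, 0 < δ ∧ ∀ᶠ k in (U : Filter ℕ), ∀ z',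
      ‖z' - z‖ < δ → Cl (Mk k) om (Λ₀ + 5) z' := fun z hz => by
    have hz4 : ‖z‖ ≤ 4 := mem_closedBall_zero_iff.1 hz
    have far : ∀ t : ℝ, Λ₀ < |t| → pt z t ∈ M.W' := fun t ht => by
      refine hW _ (ht.trans_le (abs_two_le (pt z t))) ?_
      rw [pr_pt, pt_two]
      nlinarith [norm_nonneg z]
    have hS' : ∀ t, pt z t ∈ M.S ↔
        t = (b - ⟪pr ν, z⟫) / ν 2 ∨ t = (a - ⟪pr ν, z⟫) / ν 2 := fun t => by
      rw [hS, real_inner_comm, inner_pt, eq_div_iff hpos.ne', eq_div_iff hpos.ne']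
      constructor <;> rintro (e | e)
      · right; linarith
      · left; linarith
      · right; linarith
      · left; linarith
    generalize hq1 : (b - ⟪pr ν, z⟫) / ν 2 = t₁ at hS'
    generalize hq2 : (a - ⟪pr ν, z⟫) / ν 2 = t₂ at hS'
    have h21 : t₂ < t₁ := by
      rw [← hq1, ← hq2]
      exact div_lt_div_of_pos_right (by linarith) hpos
    have m1 := (hS' t₁).2 (Or.inl rfl)
    have m2 := (hS' t₂).2 (Or.inr rfl)
    have l1 : |t₁| ≤ Λ₀ := not_lt.1 fun h => disjoint_left.1 M.disjS' (far _ h) m1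
    have l2 : |t₂| ≤ Λ₀ := not_lt.1 fun h => disjoint_left.1 M.disjS' (far _ h) m2
    have hu : pt z (Λ₀ + 5) ∈ M.W' := far _ (by rw [abs_of_pos (by linarith)]; linarith)
    have hl : pt z (-(Λ₀ + 5)) ∈ M.W' :=
      far _ (by rw [abs_neg, abs_of_pos (by linarith)]; linarith)
    have up : ∀ t : ℝ, pt z 0 + t • e3 = pt z t := fun t => by rw [pt_add_smul_e3, zero_add]
    have dn : ∀ t : ℝ, pt z 0 + t • -e3 = pt z (-t) := fun t => by
      rw [smul_neg, ← neg_smul, up]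
    refine loc hP hk hM hc hom h21 (by linarith) (by linarith) hS' hu hl ?_ ?_ hne hpos.ne'
    · refine (hN _ m1).resolve_right fun e => ?_
      have := M.basic_before (a := pt z 0) (v := -e3) (p := -(Λ₀ + 5)) (s := -t₁)
        (by linarith [(abs_le.1 l1).2]) (fun t _ => hM.sub univ (mem_univ _))
        (fun t ht hm => by
          rw [dn, hS'] at hm
          rcases hm with e | e <;> linarith [ht.2])
        (by rwa [dn, neg_neg]) (by rwa [dn, neg_neg, e, inner_neg_neg, e3_inner])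
      rw [dn, neg_neg] at this
      exact disjoint_left.1 M.disj this hu
    · refine (hN _ m2).resolve_left fun e => ?_
      have := M.basic_before (a := pt z 0) (v := e3) (p := -(Λ₀ + 5)) (s := t₂)
        (by linarith [(abs_le.1 l2).1]) (fun t _ => hM.sub univ (mem_univ _))
        (fun t ht hm => by
          rw [up, hS'] at hm
          rcases hm with e | e <;> linarith [ht.2])
        (by rwa [up]) (by rwa [up, e, e3_inner])
      rw [up] at this
      exact disjoint_left.1 M.disj this hl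
  choose! δ hδ hev using key
  obtain ⟨u, hu, hcov⟩ := (isCompact_closedBall (0 : ℂ) 4).elim_nhds_subcover
    (fun z => ball z (δ z)) fun z hz => ball_mem_nhds z (hδ z hz)
  filter_upwards [(Filter.eventually_all_finset u).2 fun z hz => hev z (hu z hz)] with k hk' z hz
  obtain ⟨y, hy, hzy⟩ := mem_iUnion₂.1 (hcov (ball_subset_closedBall hz))
  exact hk' y hy z (mem_ball_iff_norm.1 hzy)

end DCELLR

theorem cellr_of (hT : S_TWO) (hP : S_PERSIST) : S_CELLR := by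
  intro U Mk M om Λ₀ hk hM hc hd hom hom' hΛ hW
  obtain ⟨ν, a, b, hν, hab, hS, hN⟩ := hT M hM hd
  have hS' : ∀ x : E, x ∈ M.S ↔ ⟪x, ν⟫ = a ∨ ⟪x, ν⟫ = b := fun x => by
    rw [hS]
    rfl
  rcases le_total 0 (ν 2) with h | h
  · exact DCELLR.core hP hk hM hc hom hom' hΛ hW hν hab hS' hN h
  · refine DCELLR.core (ν := -ν) hP hk hM hc hom hom' hΛ hW (by rwa [norm_neg]) (neg_lt_neg hab)
      (fun x => ?_) (fun x hx => ?_) (by simpa using h)
    · rw [hS', inner_neg_right, neg_inj, neg_inj, or_comm]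
    · rw [neg_neg]
      exact (hN x hx).symm

end MW
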