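import Pool.Agent.P.MP_064970_gt.D.API

/-! D3. FV with ζ x = z (pr x) χ (x 2), v = e3, χ smooth, 1 on [-1/2,1/2], 0 off (-3/4,3/4). For x ∈ S: if ‖pr x‖ ≥ 2 then z and fderiv z vanish (fderiv_eq_zero_of_supp); else either |x 2| ≤ k (Hk.abs_le')
or |x 2| ≥ 1. So 0 = ∫_{cyl (Sq 2) 1} fderiv z (pr x) (pr N) * N 2. Split into top e3, top (-e3) and N 2 = 0; BIJ with K = Sq 2, T₀ = 2k, T = 1 (Hk.slab),
H x = fderiv z (pr x) (pr (N x)); pr (partner e3 x) = pr x. -/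

open MeasureTheory Set Filter Topology Metric
open scoped RealInnerProductSpace ENNReal NNReal ComplexConjugate Real

noncomputable section

namespace MW

namespace DFVX

variable {M : Surf} {A : Set E} {f g : E → ℝ} {z : ℂ → ℝ}

theorem congr_S (hA : MeasurableSet A) (h : ∀ x ∈ M.S, x ∈ A → f x = g x) :
    ∫ x in A, f x ∂M.μ = ∫ x in A, g x ∂M.μ :=
  setIntegral_congr_ae hA (M.ae_mem.mono h)

theorem mem_top (x : E) : x ∈ M.top e3 ↔ 0 < M.N x 2 := by
  change 0 < ⟪M.N x, e3⟫ ↔ _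
  rw [inner_e3]

theorem mem_bot (x : E) : x ∈ M.top (-e3) ↔ M.N x 2 < 0 := by
  change 0 < ⟪M.N x, -e3⟫ ↔ _
  rw [inner_neg_right, inner_e3, neg_pos]

/-- Splitting into top and bottom points. -/
theorem split_top (hA : MeasurableSet A) (hf : IntegrableOn f A M.μ)
    (h : ∀ x, M.N x 2 = 0 → f x = 0) :
    ∫ x in A, f x ∂M.μ
      = ∫ x in A ∩ M.top e3, f x ∂M.μ + ∫ x in A ∩ M.top (-e3), f x ∂M.μ := by
  rw [← setIntegral_union _ (hA.inter (M.measurableSet_top _)) (hf.mono_set inter_subset_left)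
    (hf.mono_set inter_subset_left)]
  · refine setIntegral_eq_of_subset_of_forall_sdiff_eq_zero hA
      (union_subset inter_subset_left inter_subset_left) fun x hx => h x ?_
    by_contra h0
    rcases lt_or_gt_of_ne h0 with h1 | h1
    · exact hx.2 (Or.inr ⟨hx.1, (mem_bot x).2 h1⟩)
    · exact hx.2 (Or.inl ⟨hx.1, (mem_top x).2 h1⟩)
  · exact disjoint_left.2 fun x hx hx' => lt_asymm ((mem_top x).1 hx.2) ((mem_bot x).1 hx'.2)

theorem pr_partner (M : Surf) (x : E) : pr (M.partner e3 x) = pr x := by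
  rw [Surf.partner, pr_sub, pr_smul, pr_e3, smul_zero, sub_zero]

theorem off_Sq (h1 : ContDiff ℝ 1 z) (h0 : ∀ y, 2 ≤ ‖y‖ → z y = 0) {y : ℂ} (hy : y ∉ Sq 2) :
    z y = 0 ∧ fderiv ℝ z y = 0 := by
  have h2 : 2 ≤ ‖y‖ := not_lt.1 fun h => hy (mem_Sq_of_norm_le h.le)
  exact ⟨h0 y h2, fderiv_eq_zero_of_supp h1 (y₀ := 0) two_pos
    (fun w hw => h0 w (by rwa [sub_zero] at hw)) (by rwa [sub_zero])⟩

theorem compact_supp (h0 : ∀ y, 2 ≤ ‖y‖ → z y = 0) : HasCompactSupport z :=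
  HasCompactSupport.intro (isCompact_closedBall (0 : ℂ) 2) fun y hy =>
    h0 y (by rw [mem_closedBall_zero_iff, not_le] at hy; exact hy.le)

/-- The derivative of the test function on the normals is measurable and bounded. -/
theorem bound_D (h1 : ContDiff ℝ 1 z) (hs : HasCompactSupport z) : ∃ C : ℝ,
    ∀ P : E → E, Measurable P → (∀ x ∈ M.S, P x ∈ M.S) →
      (Measurable fun x => fderiv ℝ z (pr x) (pr (M.N (P x)))) ∧
      ∀ x ∈ M.S, |fderiv ℝ z (pr x) (pr (M.N (P x)))| ≤ C := by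
  have hc : Continuous (fderiv ℝ z) := h1.continuous_fderiv one_ne_zero
  obtain ⟨C, hC⟩ := hc.bounded_above_of_compact_support (hs.fderiv (𝕜 := ℝ))
  have h2 : Continuous fun q : ℂ × ℂ => fderiv ℝ z q.1 q.2 :=
    (hc.comp continuous_fst).clm_apply continuous_snd
  refine ⟨C, fun P hP hS =>
    ⟨h2.measurable.comp (measurable_pr.prodMk (measurable_pr.comp (M.N_meas.comp hP))),
    fun x hx => ?_⟩⟩
  have h3 := (fderiv ℝ z (pr x)).le_opNorm (pr (M.N (P x)))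
  have h4 : ‖pr (M.N (P x))‖ ≤ 1 := (norm_pr_le _).trans (M.N_unit _ (hS x hx)).le
  have h5 := mul_le_mul (hC (pr x)) h4 (norm_nonneg _) ((norm_nonneg _).trans (hC (pr x)))
  rw [mul_one] at h5
  exact h3.trans h5

theorem integrableOn_mul (hM : M.Mem) (hA : Bornology.IsBounded A) (hAm : MeasurableSet A)
    (hf : Measurable f) {C : ℝ} (hC : ∀ x ∈ M.S, |f x| ≤ C) :
    IntegrableOn (fun x => f x * M.N x 2) A M.μ := by
  have h2 : Measurable fun x : E => x 2 := by fun_prop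
  refine hM.bd.integrableOn hA (hf.mul (h2.comp M.N_meas)) (C := C) (fun x hx => ?_) hAm
  have h3 : |M.N x 2| ≤ 1 := (abs_two_le _).trans (M.N_unit _ hx.2).le
  have h4 := hC x hx.2
  rw [abs_mul]
  exact (mul_le_of_le_one_right (abs_nonneg _) h3).trans h4

/-- The first variation in the vertical direction. -/
theorem fv (hFV : S_FV) (hM : M.Mem) {T₀ T : ℝ} (h1 : ContDiff ℝ 1 z)
    (h0 : ∀ y, 2 ≤ ‖y‖ → z y = 0) (hT₀ : 0 < T₀) (hT : T₀ < T) (hS : M.Slab (Sq 2) T₀ T) :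
    ∫ x in cyl (Sq 2) T, fderiv ℝ z (pr x) (pr (M.N x)) * M.N x 2 ∂M.μ = 0 := by
  let χ : ContDiffBump (0 : ℝ) := ⟨T₀, (T₀ + T) / 2, hT₀, by linarith⟩
  let g : ℝ → ℝ := fun t => χ t
  have hg : ContDiff ℝ 1 g := χ.contDiff
  have hin : ∀ t, |t| < T₀ → g t = 1 ∧ deriv g t = 0 := fun t ht => by
    have h2 : (χ : ℝ → ℝ) =ᶠ[𝓝 t] 1 := χ.eventuallyEq_one_of_mem_ball (by simpa using ht)
    have h3 : g =ᶠ[𝓝 t] fun _ => 1 := h2
    exact ⟨h3.eq_of_nhds, by rw [h3.deriv_eq]; simp⟩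
  have hout : ∀ t, T ≤ |t| → g t = 0 ∧ deriv g t = 0 := fun t ht => by
    have h2 : ∀ᶠ s in 𝓝 t, (T₀ + T) / 2 < |s| :=
      continuous_abs.continuousAt.eventually (lt_mem_nhds (by linarith))
    have h3 : g =ᶠ[𝓝 t] fun _ => 0 := by
      filter_upwards [h2] with s hs
      exact χ.zero_of_le_dist (by simpa using hs.le)
    exact ⟨h3.eq_of_nhds, by rw [h3.deriv_eq]; simp⟩
  let q2 : E →L[ℝ] ℝ := EuclideanSpace.proj 2
  let ζ : E → ℝ := fun x => g (q2 x) * z (prL x)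
  have hζ : ContDiff ℝ 1 ζ := (hg.comp q2.contDiff).mul (h1.comp prL.contDiff)
  have hζs : HasCompactSupport ζ := by
    refine HasCompactSupport.intro (isBounded_cyl (isBounded_Sq 2) T).isCompact_closure
      fun x hx => ?_
    have hx' : x ∉ cyl (Sq 2) T := fun h => hx (subset_closure h)
    change g (x 2) * z (pr x) = 0
    by_cases h2 : pr x ∈ Sq 2
    · have h3 : T ≤ |x 2| := not_lt.1 fun h => hx' ⟨h2, h⟩
      rw [(hout _ h3).1, zero_mul]
    · rw [(off_Sq h1 h0 h2).1, mul_zero]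
  have hd : ∀ x w, fderiv ℝ ζ x w
      = g (x 2) * fderiv ℝ z (pr x) (pr w) + z (pr x) * (deriv g (x 2) * w 2) := fun x w => by
    have a1 : HasFDerivAt (fun x => g (q2 x)) (deriv g (q2 x) • q2) x :=
      ((hg.differentiable one_ne_zero) (q2 x)).hasDerivAt.comp_hasFDerivAt x q2.hasFDerivAt
    have a2 : HasFDerivAt (fun x => z (prL x)) ((fderiv ℝ z (prL x)).comp prL) x :=
      ((h1.differentiable one_ne_zero) (prL x)).hasFDerivAt.comp x prL.hasFDerivAt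
    rw [(a1.fun_mul a2).fderiv]
    rfl
  have h4 := (hFV M).1 ζ hζ hζs (hM.sub _) e3
  rw [← setIntegral_eq_integral_of_forall_compl_eq_zero (s := cyl (Sq 2) T)] at h4
  · rw [← neg_eq_zero, ← integral_neg, ← h4]
    refine congr_S (measurableSet_cyl (measurableSet_Sq 2) T) fun x hx hc => ?_
    have h5 := hin _ (hM.chord_slab hT₀ hT hS hx hc).1
    rw [hd, hd, h5.1, h5.2, inner_e3, pr_e3, map_zero, e3_two]
    ring
  · intro x hx
    rw [hd, hd]
    by_cases h2 : pr x ∈ Sq 2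
    · have h3 : T ≤ |x 2| := not_lt.1 fun h => hx ⟨h2, h⟩
      rw [(hout _ h3).1, (hout _ h3).2]
      ring
    · rw [(off_Sq h1 h0 h2).1, (off_Sq h1 h0 h2).2]
      simp

end DFVX

open DFVX in
theorem fvx_of (hFV : S_FV) (hB : S_BIJ) : S_FVX := by
  intro M k z hM hk hk' hH h1 h0
  have hT₀ : 0 < 2 * k := by linarith
  have hT : 2 * k < 1 := by linarith
  have hS : M.Slab (Sq 2) (2 * k) 1 :=
    hH.slab hk hk' (fun y hy => (norm_le_of_mem_Sq hy).trans (by norm_num)) (by linarith)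
      (by rw [le_div_iff₀ hk]; linarith)
  have hCm : MeasurableSet (cyl (Sq 2) 1) := measurableSet_cyl (measurableSet_Sq 2) 1
  have hCb : Bornology.IsBounded (cyl (Sq 2) 1) := isBounded_cyl (isBounded_Sq 2) 1
  have hTm : MeasurableSet (cyl (Sq 2) 1 ∩ M.top e3) := hCm.inter (M.measurableSet_top e3)
  have hBm : MeasurableSet (cyl (Sq 2) 1 ∩ M.top (-e3)) := hCm.inter (M.measurableSet_top _)
  have hTb : Bornology.IsBounded (cyl (Sq 2) 1 ∩ M.top e3) := hCb.subset inter_subset_left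
  obtain ⟨C, hC⟩ := bound_D (M := M) h1 (compact_supp h0)
  obtain ⟨m1, b1⟩ := hC id measurable_id fun x hx => hx
  obtain ⟨m2, b2⟩ := hC (M.partner e3) (hM.measurable_partner e3) fun x hx =>
    hM.partner_mem e3 hx
  simp only [id] at m1 b1
  have e1 := (hB M hM (Sq 2) (2 * k) 1 (measurableSet_Sq 2) (isBounded_Sq 2) hT₀ hT hS).1
    (fun x => fderiv ℝ z (pr x) (pr (M.N x))) C m1 fun x hx => b1 x hx.1
  simp only [pr_partner] at e1
  have e2 := fv hFV hM h1 h0 hT₀ hT hS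
  rw [split_top hCm (integrableOn_mul hM hCb hCm m1 b1) fun x hx => by rw [hx, mul_zero]] at e2
  have e3' : ∫ x in cyl (Sq 2) 1 ∩ M.top (-e3), fderiv ℝ z (pr x) (pr (M.N x)) * M.N x 2 ∂M.μ
      = -∫ x in cyl (Sq 2) 1 ∩ M.top (-e3),
          fderiv ℝ z (pr x) (pr (M.N x)) * |M.N x 2| ∂M.μ := by
    rw [← integral_neg]
    refine congr_S hBm fun x _ hx => ?_
    rw [abs_of_neg ((mem_bot x).1 hx.2)]
    ring
  have e4 : ∫ x in cyl (Sq 2) 1 ∩ M.top e3,
      fderiv ℝ z (pr x) (pr (M.N (M.partner e3 x)) - pr (M.N x)) * M.N x 2 ∂M.μ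
      = ∫ x in cyl (Sq 2) 1 ∩ M.top e3,
          fderiv ℝ z (pr x) (pr (M.N (M.partner e3 x))) * M.N x 2 ∂M.μ
        - ∫ x in cyl (Sq 2) 1 ∩ M.top e3,
          fderiv ℝ z (pr x) (pr (M.N x)) * M.N x 2 ∂M.μ := by
    rw [← integral_sub (integrableOn_mul hM hTb hTm m2 b2) (integrableOn_mul hM hTb hTm m1 b1)]
    refine congr_S hTm fun x _ _ => ?_
    rw [map_sub]
    ring
  rw [e4, ← e1]
  linarith

end MW
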