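import Pool.Agent.P.MP_064970_gt.D.All
import Pool.Agent.P.MP_064970_gt.G.All
import Pool.Agent.P.MP_064970_gt.T.All

/-! Case II without hypotheses. -/

namespace MW

theorem d_final : S_CASEII :=
  d_caseII i_fv i_mono i_shift i_up i_lg i_area i_arear i_lim i_conv i_const i_persist i_flat1
    i_flat2 i_two g_gap g_cor g_dec t_bij t_cac t_caco t_pi t_elb t_edz t_sym

end MW
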