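import Pool.Agent.P.MP_064970_gt.SDP

/-! D4, the kernel.
Hint: z w = Z (‖w - y₀‖ ^ 2), Z t = ∫ u in 1..t, F u, F u = (l (u / s^2) / s^2 - l u) / 4, where
l u = (4 - 6u + 4u^2 - u^3)/π for u ≤ 1 and 1/(π u) for u ≥ 1 (l is C¹: values and derivatives agree at 1;
u * l u = (1 - (1-u)₊^4)/π, its derivative is lam u, so l u + u * l' u = lam u; 0 ≤ l ≤ 4/π on [0,∞)).
F = 0 on [1,∞). With t = ‖w - y₀‖^2: p1 z = 2 F t (w-y₀).re, p1 (p1 z) = 4 F' t (w-y₀).re^2 + 2 F t, the sum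
of the second derivatives is 4 (t F' t + F t) = lam (t/s^2)/s^2 - lam t, and |t F' t| ≤ C/s^2 from this identity. -/

open MeasureTheory Set Filter Topology Metric
open scoped RealInnerProductSpace ENNReal NNReal ComplexConjugate Real

noncomputable section

namespace MW

namespace GK

/-- The mean of `lam` over `[0, u]`. -/
def l (u : ℝ) : ℝ := (4 - 6 * u + 4 * u ^ 2 - u ^ 3) / π + (u - 1) * lam (2 - u) / (4 * u)

theorem l_le {u : ℝ} (hu : u ≤ 1) : l u = (4 - 6 * u + 4 * u ^ 2 - u ^ 3) / π := by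
  rw [l, lam_eq_zero (by linarith), mul_zero, zero_div, add_zero]

theorem l_ge {u : ℝ} (hu : 1 ≤ u) : l u = 1 / (π * u) := by
  have h0 : u ≠ 0 := by positivity
  have h1 : max (1 - (2 - u)) 0 = u - 1 := by rw [max_eq_left (by linarith)]; ring
  rw [l, lam, h1]
  field_simp
  ring

theorem contDiff_l : ContDiff ℝ 1 l := by
  have hp : ContDiff ℝ 1 fun u : ℝ => (4 - 6 * u + 4 * u ^ 2 - u ^ 3) / π := by fun_prop
  have hl : ContDiff ℝ 1 lam := contDiff_lam.of_le (by norm_num)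
  refine contDiff_iff_contDiffAt.2 fun u => ?_
  rcases lt_or_ge u 1 with h | h
  · refine hp.contDiffAt.congr_of_eventuallyEq ?_
    filter_upwards [Iio_mem_nhds h] with v hv using l_le (le_of_lt hv)
  · refine hp.contDiffAt.add (ContDiffAt.div ?_ (by fun_prop) (by positivity))
    exact ((contDiff_id.sub contDiff_const).mul
      (hl.comp (contDiff_const.sub contDiff_id))).contDiffAt

theorem mul_l (u : ℝ) : u * l u = 1 / π - (1 - u) * lam u / 4 := by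
  rcases le_total u 1 with h | h
  · rw [l_le h, lam, max_eq_left (by linarith)]
    field_simp
    ring
  · have h0 : u ≠ 0 := by positivity
    rw [l_ge h, lam_eq_zero h]
    field_simp
    ring

theorem hasDerivAt_l (u : ℝ) : HasDerivAt l (deriv l u) u :=
  (contDiff_l.differentiable one_ne_zero u).hasDerivAt

theorem l_add (u : ℝ) : l u + u * deriv l u = lam u := by
  have h1 : HasDerivAt (fun u => u * l u) (1 * l u + u * deriv l u) u :=
    (hasDerivAt_id' u).mul (hasDerivAt_l u)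
  have h2 := ((((hasDerivAt_id' u).const_sub 1).mul (hasDerivAt_lam u)).div_const 4).const_sub
    (1 / π)
  have h3 : (fun u => u * l u) = fun u => 1 / π - (1 - u) * lam u / 4 := funext mul_l
  rw [h3] at h1
  have h4 := h1.unique h2
  rw [one_mul] at h4
  rw [h4, lam]
  rcases le_total u 1 with h | h
  · rw [max_eq_left (by linarith)]
    ring
  · rw [max_eq_right (by linarith)]
    ring

theorem four_div_pi : 4 / π ≤ 2 := by
  rw [div_le_iff₀ Real.pi_pos]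
  linarith [Real.pi_gt_three]

theorem abs_l {u : ℝ} (hu : 0 ≤ u) : |l u| ≤ 2 := by
  have hπ := Real.pi_gt_three
  rcases le_total u 1 with h | h
  · rw [l_le h, abs_div, abs_of_pos Real.pi_pos, div_le_iff₀ Real.pi_pos, abs_le]
    constructor
    · nlinarith [mul_nonneg (sub_nonneg.2 h) (sq_nonneg u), sq_nonneg u]
    · nlinarith [mul_nonneg hu (sq_nonneg (u - 2))]
  · rw [l_ge h, abs_of_pos (by positivity), div_le_iff₀ (by positivity)]
    nlinarith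

theorem abs_lam {u : ℝ} (hu : 0 ≤ u) : |lam u| ≤ 2 := by
  rw [abs_of_nonneg (lam_nonneg u)]
  exact (lam_le hu).trans four_div_pi

/-- The derivative of the radial profile. -/
def F (s t : ℝ) : ℝ := (l (t / s ^ 2) / s ^ 2 - l t) / 4

/-- The radial profile. -/
def Z (s t : ℝ) : ℝ := ∫ u in (1 : ℝ)..t, F s u

variable {s t : ℝ}

theorem contDiff_F (s : ℝ) : ContDiff ℝ 1 (F s) :=
  (((contDiff_l.comp (contDiff_id.div_const _)).div_const _).sub contDiff_l).div_const _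

theorem hasDerivAt_F (s t : ℝ) : HasDerivAt (F s) (deriv (F s) t) t :=
  ((contDiff_F s).differentiable one_ne_zero t).hasDerivAt

theorem F_add (hs : 0 < s) (t : ℝ) :
    4 * (F s t + t * deriv (F s) t) = lam (t / s ^ 2) / s ^ 2 - lam t := by
  have h1 : HasDerivAt (F s) ((deriv l (t / s ^ 2) * (1 / s ^ 2) / s ^ 2 - deriv l t) / 4) t :=
    (((((hasDerivAt_l (t / s ^ 2)).comp t ((hasDerivAt_id' t).div_const (s ^ 2))).div_const
      (s ^ 2))).sub (hasDerivAt_l t)).div_const 4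
  rw [h1.deriv, ← l_add, ← l_add, F]
  field_simp
  ring

theorem quarter_le (hs : 0 < s) (hs1 : s ≤ 1) {a b : ℝ} (ha : |a| ≤ 2) (hb : |b| ≤ 2) :
    |a / s ^ 2 - b| ≤ 4 / s ^ 2 := by
  have h2 : 0 < s ^ 2 := by positivity
  have h3 : s ^ 2 ≤ 1 := pow_le_one₀ hs.le hs1
  have h4 : |a / s ^ 2| ≤ 2 / s ^ 2 := by
    rw [abs_div, abs_of_pos h2]
    gcongr
  have h5 : (2 : ℝ) ≤ 2 / s ^ 2 := by
    rw [le_div_iff₀ h2]
    linarith
  have h6 := abs_sub (a / s ^ 2) b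
  have h7 : 4 / s ^ 2 = 2 / s ^ 2 + 2 / s ^ 2 := by ring
  linarith

theorem abs_F (hs : 0 < s) (hs1 : s ≤ 1) (ht : 0 ≤ t) : |F s t| ≤ 1 / s ^ 2 := by
  have h := quarter_le hs hs1 (abs_l (u := t / s ^ 2) (by positivity)) (abs_l ht)
  rw [F, abs_div, abs_of_pos (by norm_num : (0 : ℝ) < 4), div_le_iff₀ (by norm_num)]
  exact h.trans (le_of_eq (by ring))

theorem abs_F' (hs : 0 < s) (hs1 : s ≤ 1) (ht : 0 ≤ t) : |deriv (F s) t| * t ≤ 2 / s ^ 2 := by
  have h := quarter_le hs hs1 (abs_lam (u := t / s ^ 2) (by positivity)) (abs_lam ht)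
  rw [← F_add hs, abs_mul, abs_of_pos (by norm_num : (0 : ℝ) < 4)] at h
  have h2 := abs_F hs hs1 ht
  have h3 := abs_sub (F s t + t * deriv (F s) t) (F s t)
  rw [add_sub_cancel_left, abs_mul, abs_of_nonneg ht, mul_comm] at h3
  have h4 : 4 / s ^ 2 = 4 * (1 / s ^ 2) := by ring
  have h5 : 2 / s ^ 2 = 2 * (1 / s ^ 2) := by ring
  linarith

theorem F_zero (hs : 0 < s) (hs1 : s ≤ 1) (ht : 1 ≤ t) : F s t = 0 := by
  have h2 : 0 < s ^ 2 := by positivity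
  have h3 : s ^ 2 ≤ 1 := pow_le_one₀ hs.le hs1
  have h0 : t ≠ 0 := by positivity
  rw [F, l_ge ht, l_ge (by rw [le_div_iff₀ h2]; linarith)]
  field_simp
  ring

theorem hasDerivAt_Z (s t : ℝ) : HasDerivAt (Z s) (F s t) t :=
  ((contDiff_F s).continuous.integral_hasStrictDerivAt 1 t).hasDerivAt

theorem contDiff_Z (s : ℝ) : ContDiff ℝ 2 (Z s) := by
  have h : deriv (Z s) = F s := funext fun t => (hasDerivAt_Z s t).deriv
  rw [show (2 : WithTop ℕ∞) = 1 + 1 from rfl, contDiff_succ_iff_deriv, h]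
  exact ⟨fun t => (hasDerivAt_Z s t).differentiableAt, by simp, contDiff_F s⟩

theorem Z_zero (hs : 0 < s) (hs1 : s ≤ 1) (ht : 1 ≤ t) : Z s t = 0 := by
  rw [Z, intervalIntegral.integral_congr (g := fun _ => 0), intervalIntegral.integral_zero]
  intro u hu
  rw [uIcc_of_le ht] at hu
  exact F_zero hs hs1 hu.1

theorem radial {g : ℝ → ℝ} {g' : ℝ} {y w : ℂ} (h : HasDerivAt g g' (‖w - y‖ ^ 2)) :
    HasFDerivAt (fun w => g (‖w - y‖ ^ 2)) ((2 * g') • innerSL ℝ (w - y)) w := by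
  have h1 := h.comp_hasFDerivAt w ((hasFDerivAt_id w).sub_const y).norm_sq
  refine HasFDerivAt.congr_fderiv h1 (ContinuousLinearMap.ext fun v => ?_)
  show g' * ((2 : ℕ) • ⟪w - y, v⟫) = 2 * g' * ⟪w - y, v⟫
  rw [two_nsmul]
  ring

theorem d1 (s : ℝ) (y e w : ℂ) :
    fderiv ℝ (fun w => Z s (‖w - y‖ ^ 2)) w e = 2 * F s (‖w - y‖ ^ 2) * ⟪e, w - y⟫ := by
  rw [(radial (hasDerivAt_Z s _)).fderiv, real_inner_comm]
  rfl

theorem d2 (s : ℝ) (y e w : ℂ) (he : ‖e‖ = 1) :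
    fderiv ℝ (fun w => fderiv ℝ (fun w => Z s (‖w - y‖ ^ 2)) w e) w e =
      4 * deriv (F s) (‖w - y‖ ^ 2) * ⟪e, w - y⟫ ^ 2 + 2 * F s (‖w - y‖ ^ 2) := by
  have h1 := ((radial (hasDerivAt_F s (‖w - y‖ ^ 2))).const_mul 2).mul
    ((innerSL ℝ e).hasFDerivAt.comp w ((hasFDerivAt_id w).sub_const y))
  have h2 : (fun w => fderiv ℝ (fun w => Z s (‖w - y‖ ^ 2)) w e) =
      fun w => 2 * F s (‖w - y‖ ^ 2) * ⟪e, w - y⟫ := funext (d1 s y e)
  have h3 : ⟪e, e⟫ = (1 : ℝ) := by rw [real_inner_self_eq_norm_sq, he, one_pow]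
  rw [h2]
  refine (congrArg (fun L : ℂ →L[ℝ] ℝ => L e) h1.fderiv).trans ?_
  show 2 * F s (‖w - y‖ ^ 2) * ⟪e, e⟫ +
    ⟪e, w - y⟫ * (2 * (2 * deriv (F s) (‖w - y‖ ^ 2) * ⟪w - y, e⟫)) = _
  rw [h3, real_inner_comm e]
  ring

theorem inner_le {e v : ℂ} (he : ‖e‖ = 1) : |⟪e, v⟫| ≤ ‖v‖ := by
  simpa [he] using abs_real_inner_le_norm e v

theorem b1 (hs : 0 < s) (hs1 : s ≤ 1) (y e w : ℂ) (he : ‖e‖ = 1) :
    |fderiv ℝ (fun w => Z s (‖w - y‖ ^ 2)) w e| ≤ 10 / s ^ 2 := by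
  rw [d1]
  rcases le_total 1 ‖w - y‖ with h | h
  · rw [F_zero hs hs1 (one_le_pow₀ h), mul_zero, zero_mul, abs_zero]
    positivity
  · have h1 := abs_F hs hs1 (sq_nonneg ‖w - y‖)
    have h2 := (inner_le (v := w - y) he).trans h
    rw [abs_mul, abs_mul, abs_two]
    calc _ ≤ 2 * (1 / s ^ 2) * 1 := by gcongr
      _ = 2 / s ^ 2 := by ring
      _ ≤ _ := by gcongr; norm_num

theorem b2 (hs : 0 < s) (hs1 : s ≤ 1) (y e w : ℂ) (he : ‖e‖ = 1) :
    |fderiv ℝ (fun w => fderiv ℝ (fun w => Z s (‖w - y‖ ^ 2)) w e) w e| ≤ 10 / s ^ 2 := by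
  rw [d2 s y e w he]
  have h1 := abs_F hs hs1 (sq_nonneg ‖w - y‖)
  have h2 := abs_F' hs hs1 (sq_nonneg ‖w - y‖)
  have h3 : ⟪e, w - y⟫ ^ 2 ≤ ‖w - y‖ ^ 2 := by
    rw [← sq_abs]
    exact pow_le_pow_left₀ (abs_nonneg _) (inner_le he) 2
  have h4 := mul_le_mul_of_nonneg_left h3 (abs_nonneg (deriv (F s) (‖w - y‖ ^ 2)))
  refine (abs_add_le _ _).trans ?_
  rw [abs_mul, abs_mul, abs_mul, abs_two, abs_of_pos (by norm_num : (0 : ℝ) < 4),
    abs_of_nonneg (sq_nonneg ⟪e, w - y⟫)]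
  have h5 : 10 / s ^ 2 = 4 * (2 / s ^ 2) + 2 * (1 / s ^ 2) := by ring
  linarith

theorem inner_sq (v : ℂ) : ⟪(1 : ℂ), v⟫ ^ 2 + ⟪Complex.I, v⟫ ^ 2 = ‖v‖ ^ 2 := by
  rw [Complex.sq_norm, Complex.normSq_apply]
  simp [Complex.inner]
  ring

end GK

theorem gk : S_GK := by
  refine ⟨10, by norm_num, fun s y hs hs1 => ⟨fun w => GK.Z s (‖w - y‖ ^ 2),
    (GK.contDiff_Z s).comp ((contDiff_id.sub contDiff_const).norm_sq ℝ),
    fun w hw => GK.Z_zero hs hs1 (one_le_pow₀ hw), fun w => ?_, fun w =>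
      ⟨GK.b1 hs hs1 y 1 w norm_one, GK.b1 hs hs1 y _ w Complex.norm_I,
        GK.b2 hs hs1 y 1 w norm_one, GK.b2 hs hs1 y _ w Complex.norm_I⟩⟩⟩
  have h1 := GK.d2 s y 1 w norm_one
  have h2 := GK.d2 s y _ w Complex.norm_I
  rw [← GK.F_add hs]
  refine (congrArg₂ (· + ·) h1 h2).trans ?_
  have h3 := GK.inner_sq (w - y)
  linear_combination 4 * deriv (GK.F s) (‖w - y‖ ^ 2) * h3

end MW
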