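import Pool.Agent.P.MP_064970_gt.D.API

/-! D6. θ, C, k₀ from STEP; k = min of k₀, θ, 1/40; η, e₀; δ₀ ≤ k/2 with C_s δ₀^2 ≤ e₀. GAP gives r₀ with 2 - Θ 0 s ≤ min η (min k (ε δ₀)) for all s ≥ k θ r₀. R m = r₀/θ^m.
Lemma (induction on j ≤ n): from START at scale R n there are unit vectors e_j with HkF e_j (R (n-j)) k, E0 e_j (ball 0 (5 R (n-j))) ≤ e₀/2^j R(n-j)^2, ‖e_{j+1} - e_j‖ ≤ C √(e₀/2^j).
For each m choose j with e₀/2^j (R m)^2 ≤ 1/(m+1) and 4 C √(e₀/2^j) ≤ 1/(m+1), n = m + j, h_m = e_j: E0 h_m (ball 0 (5 R m)) ≤ 1/(m+1) and for m' ≤ m there is h' with ‖h' - h_m‖ ≤ 1/(m+1), HkF h' (R m') k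
(carry the invariant ‖e_i - e_j‖ ≤ 4C√(e₀/2^j) - 4C√(e₀/2^i); √(1/2) ≤ 3/4). e = limit of h_m along hyperfilter ℕ. The side clause of HkF e (R m') k passes to the limit pointwise. Cone: R m ≤ ‖x‖ < R (m+1) ≤ 2 R m/k.
Cone.cxg. EDZ with the constant sequence (CONST), E0_mono. -/

open MeasureTheory Set Filter Topology Metric
open scoped RealInnerProductSpace ENNReal NNReal ComplexConjugate Real

noncomputable section

namespace MW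

namespace DSYMII

theorem energy {P : ℕ → E → ℝ → Prop} {e₀ C : ℝ} (h0 : 0 < e₀) (start : ∀ n, ∃ e, P n e e₀)
    (step : ∀ m e Eb, 0 < Eb → Eb ≤ e₀ → P (m + 1) e Eb →
      ∃ e', P m e' (Eb / 2) ∧ ‖e' - e‖ ≤ C * √Eb) (j : ℕ) : ∀ m, ∃ e, P m e (e₀ / 2 ^ j) := by
  induction j with
  | zero => simpa using start
  | succ j ih =>
    intro m
    obtain ⟨e, he⟩ := ih (m + 1)
    obtain ⟨e', h1, -⟩ := step m e _ (by positivity)
      (div_le_self h0.le (one_le_pow₀ one_le_two)) he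
    exact ⟨e', by rwa [pow_succ, ← div_div]⟩

theorem close {P : ℕ → E → ℝ → Prop} {e₀ C : ℝ} (hC : 0 < C)
    (step : ∀ m e Eb, 0 < Eb → Eb ≤ e₀ → P (m + 1) e Eb →
      ∃ e', P m e' (Eb / 2) ∧ ‖e' - e‖ ≤ C * √Eb) (m i : ℕ) :
    ∀ e Eb, 0 < Eb → Eb ≤ e₀ → P (m + i) e Eb →
      ∃ e' Eb', P m e' Eb' ∧ ‖e' - e‖ ≤ 4 * C * √Eb := by
  induction i with
  | zero => exact fun e Eb _ _ h => ⟨e, Eb, h, by rw [sub_self, norm_zero]; positivity⟩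
  | succ i ih =>
    intro e Eb h1 h2 h
    obtain ⟨e₁, h3, h4⟩ := step (m + i) e Eb h1 h2 h
    obtain ⟨e', Eb', h5, h6⟩ := ih e₁ (Eb / 2) (by positivity) (by linarith) h3
    refine ⟨e', Eb', h5, ?_⟩
    have h7 : √(Eb / 2) ≤ 3 / 4 * √Eb := by
      refine Real.sqrt_le_iff.2 ⟨by positivity, ?_⟩
      rw [mul_pow, Real.sq_sqrt h1.le]
      linarith
    have h8 := norm_sub_le_norm_sub_add_norm_sub e' e₁ e
    nlinarith

theorem seq {P : ℕ → E → ℝ → Prop} {e₀ C : ℝ} (h0 : 0 < e₀) (hC : 0 < C)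
    (start : ∀ n, ∃ e, P n e e₀)
    (step : ∀ m e Eb, 0 < Eb → Eb ≤ e₀ → P (m + 1) e Eb →
      ∃ e', P m e' (Eb / 2) ∧ ‖e' - e‖ ≤ C * √Eb) (m : ℕ) (a : ℝ) {b : ℝ} (hb : 0 < b) :
    ∃ e Eb, P m e Eb ∧ Eb * a ≤ b ∧ ∀ m' ≤ m, ∃ e' Eb', P m' e' Eb' ∧ ‖e' - e‖ ≤ b := by
  have ht : Tendsto (fun j : ℕ => e₀ / 2 ^ j) atTop (𝓝 0) :=
    tendsto_const_nhds.div_atTop (tendsto_pow_atTop_atTop_of_one_lt one_lt_two)
  have h1 : ∀ᶠ j : ℕ in atTop, e₀ / 2 ^ j * a < b :=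
    (ht.mul_const a).eventually (gt_mem_nhds (by rwa [zero_mul]))
  have h2 : ∀ᶠ j : ℕ in atTop, 4 * C * √(e₀ / 2 ^ j) < b :=
    (ht.sqrt.const_mul (4 * C)).eventually (gt_mem_nhds (by rwa [Real.sqrt_zero, mul_zero]))
  obtain ⟨j, h3, h4⟩ := (h1.and h2).exists
  obtain ⟨e, he⟩ := energy h0 start step j m
  refine ⟨e, _, he, h3.le, fun m' hm => ?_⟩
  obtain ⟨i, rfl⟩ := Nat.exists_eq_add_of_le hm
  obtain ⟨e', Eb', h5, h6⟩ := close hC step m' i e _ (by positivity)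
    (div_le_self h0.le (one_le_pow₀ one_le_two)) he
  exact ⟨e', Eb', h5, h6.trans h4.le⟩

theorem limit {M : Surf} {h : ℕ → E} {e : E} {U : Ultrafilter ℕ} (hU : (U : Filter ℕ) ≤ atTop)
    (ht : Tendsto h U (𝓝 e)) {r k : ℝ} {m' : ℕ}
    (hh : ∀ m, m' ≤ m → ∃ e', M.HkF e' r k ∧ ‖e' - h m‖ ≤ 1 / ((m : ℝ) + 1)) {x : E}
    (hx : x ∈ ball (0 : E) (2 * r / k)) (hk : k * r < |⟪x, e⟫|) : x ∈ M.W' := by
  have h1 : Tendsto (fun m : ℕ => |⟪x, h m⟫| - ‖x‖ * (1 / ((m : ℝ) + 1))) U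
      (𝓝 (|⟪x, e⟫| - ‖x‖ * 0)) :=
    ((tendsto_const_nhds.inner ht).abs).sub
      ((tendsto_one_div_add_atTop_nhds_zero_nat.mono_left hU).const_mul _)
  rw [mul_zero, sub_zero] at h1
  obtain ⟨m, h2, h3⟩ :=
    ((h1.eventually (lt_mem_nhds hk)).and (hU (eventually_ge_atTop m'))).exists
  obtain ⟨e', h4, h5⟩ := hh m h3
  refine h4.side x hx ?_
  have h6 : |⟪x, e' - h m⟫| ≤ ‖x‖ * (1 / ((m : ℝ) + 1)) :=
    (abs_real_inner_le_norm _ _).trans (mul_le_mul_of_nonneg_left h5 (norm_nonneg _))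
  rw [inner_sub_right, abs_sub_comm] at h6
  have h7 := abs_sub_abs_le_abs_sub ⟪x, h m⟫ ⟪x, e'⟫
  linarith

end DSYMII

theorem symII_of (hG : S_GAP) (hS : S_START) (hT : S_STEP) (hZ : S_EDZ) (hC : S_CONST) : S_SYMII := by
  intro ε hε M hM hF hII
  obtain ⟨Cs, hCs, hS⟩ := hS
  obtain ⟨θ, C, hθ, hθ2, hC0, hT⟩ := hT
  obtain ⟨k₀, hk₀, hT⟩ := hT ε hε
  obtain ⟨k, hk, hk1, hk2, hk3⟩ : ∃ k : ℝ, 0 < k ∧ k ≤ k₀ ∧ k ≤ θ ∧ k ≤ 1 / 40 :=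
    ⟨min k₀ (min θ (1 / 40)), by positivity, min_le_left _ _,
      (min_le_right _ _).trans (min_le_left _ _), (min_le_right _ _).trans (min_le_right _ _)⟩
  obtain ⟨η, e₀, hη, he₀, hT⟩ := hT k hk hk1
  obtain ⟨δ, hδ, hδ1, hδ2⟩ : ∃ δ : ℝ, 0 < δ ∧ δ ≤ k / 2 ∧ Cs * δ ≤ e₀ :=
    ⟨min (k / 2) (e₀ / Cs), by positivity, min_le_left _ _,
      (le_div_iff₀' hCs).1 (min_le_right _ _)⟩
  have hεδ := hε δ hδ
  obtain ⟨s₀, hs₀, hs⟩ : ∃ s₀ : ℝ, 0 < s₀ ∧ ∀ s, s₀ ≤ s →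
      2 - M.Θ 0 s ≤ η ∧ 2 - M.Θ 0 s ≤ k ∧ 2 - M.Θ 0 s ≤ ε δ := by
    have h1 : Tendsto (fun s => 2 - M.Θ 0 s) atTop (𝓝 0) := by
      simpa using (hG M hM hF 0).const_sub 2
    obtain ⟨s₀, h2⟩ := eventually_atTop.1 ((eventually_gt_atTop (0 : ℝ)).and
      ((h1.eventually (ge_mem_nhds hη)).and ((h1.eventually (ge_mem_nhds hk)).and
        (h1.eventually (ge_mem_nhds hεδ)))))
    exact ⟨s₀, (h2 s₀ le_rfl).1, fun s h3 => (h2 s h3).2⟩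
  have hθ1 : 1 < θ⁻¹ := (one_lt_inv₀ hθ).2 (by linarith)
  obtain ⟨R, hR⟩ : ∃ R : ℕ → ℝ, ∀ m, R m = s₀ / k * θ⁻¹ ^ m := ⟨_, fun _ => rfl⟩
  have hR0 : ∀ m, 0 < R m := fun m => by rw [hR]; positivity
  have hR1 : ∀ m, θ * R (m + 1) = R m := fun m => by
    rw [hR, hR, pow_succ]
    field_simp
  have hR2 : ∀ m, s₀ ≤ k * R m := fun m => by
    have h1 : k * R m = s₀ * θ⁻¹ ^ m := by rw [hR]; field_simp
    rw [h1]
    exact le_mul_of_one_le_right hs₀.le (one_le_pow₀ hθ1.le)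
  have hR3 : Tendsto R atTop atTop := by
    rw [funext hR]
    exact (tendsto_pow_atTop_atTop_of_one_lt hθ1).const_mul_atTop (by positivity)
  have hseq := fun m : ℕ => DSYMII.seq (P := fun m e Eb => ‖e‖ = 1 ∧ M.HkF e (R m) k ∧
      M.E0 e (ball 0 (5 * R m)) ≤ Eb * R m ^ 2) he₀ hC0
    (fun n => by
      obtain ⟨ν, hν⟩ := hII δ hδ (by linarith) 0 (R n) (hR0 n)
        (hs _ ((hR2 n).trans (by nlinarith [hR0 n]))).2.2
      obtain ⟨h1, h2⟩ := hS M ν (R n) k δ hM (hR0 n) hk (by linarith) hδ hδ1 hν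
        (hs _ (hR2 n)).2.1
      refine ⟨ν, hν.unit, h1, h2.trans (mul_le_mul_of_nonneg_right ?_ (sq_nonneg _))⟩
      nlinarith)
    (fun m e Eb h1 h2 h3 => by
      obtain ⟨e', h4, h5, h6, h7⟩ := hT M e (R (m + 1)) Eb hM hII h3.1 (hR0 _) h1 h2 h3.2.1 h3.2.2
        (by rw [hR1]; exact (hs _ (hR2 m)).1)
      rw [hR1] at h6 h7
      exact ⟨e', ⟨h4, h6, h7⟩, h5⟩) m (R m ^ 2) (Nat.one_div_pos_of_nat (n := m))
  choose h Eb h1 h2 h3 using hseq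
  have hU : ((hyperfilter ℕ : Ultrafilter ℕ) : Filter ℕ) ≤ atTop := Nat.hyperfilter_le_atTop
  obtain ⟨e, he, ht⟩ := (isCompact_sphere (0 : E) 1).ultrafilter_le_nhds ((hyperfilter ℕ).map h)
    (le_principal_iff.2 (mem_map.2 (univ_mem' fun m => mem_sphere_zero_iff_norm.2 (h1 m).1)))
  rw [mem_sphere_zero_iff_norm] at he
  have hcone : M.Cone e (1 / 40) := by
    refine ⟨s₀ / k, by positivity, fun x hx hxe => ?_⟩
    obtain ⟨m, h4, h5⟩ := exists_nat_pow_near ((one_le_div (by positivity)).2 hx) hθ1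
    rw [le_div_iff₀' (by positivity), ← hR] at h4
    rw [div_lt_iff₀' (by positivity), ← hR] at h5
    refine DSYMII.limit (r := R m) (k := k) (m' := m) hU ht (fun n hn => ?_) ?_ ?_
    · obtain ⟨e', _, h6, h7⟩ := h3 n m hn
      exact ⟨e', h6.2.1, h7⟩
    · rw [mem_ball_zero_iff, lt_div_iff₀ hk, ← hR1 m]
      nlinarith [hR0 (m + 1), norm_nonneg x]
    · nlinarith [hR0 m]
  have hcx := hcone.cxg he (by norm_num)
  refine ⟨e, he, hcone, hcx, hZ (hyperfilter ℕ) (fun _ => M) M h e (fun _ => hM) hM (hC _ M hM)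
    (fun m => (h1 m).1) ht hcx fun r => ?_⟩
  refine squeeze_zero' (Eventually.of_forall fun m => M.E0_nonneg _ _) ?_
    (tendsto_one_div_add_atTop_nhds_zero_nat.mono_left hU)
  filter_upwards [hU (hR3.eventually_ge_atTop r)] with m hm
  refine (hM.E0_mono (h1 m).1 (inter_subset_left.trans (ball_subset_ball ?_))
    isBounded_ball).trans ((h1 m).2.2.trans (h2 m))
  have h4 : r ≤ R m := hm
  linarith [hR0 m]

end MW
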